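import Pool.Agent.R669.Wt.Iso

/-!
# The representation on polynomial functions and adapted families of commuting elements
-/

set_option autoImplicit false

namespace Pool.Agent.R669.Wt

open Module

section rep

variable {N : Type} [Group N] (w : N → ℕ)

theorem hat_symm_apply (ψ : MonoidAlgebra ℚ N →ₗ[ℚ] ℚ) (m : N) :
    (hat (N := N)).symm ψ m = ψ (MonoidAlgebra.of ℚ N m) := by
  have h := hat_of ((hat (N := N)).symm ψ) m
  rw [LinearEquiv.apply_symm_apply] at h
  exact h.symm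

/-- the spaces of polynomial functions are finite-dimensional -/
theorem fd_Pj (hN : Group.FG N) (hw : ∀ g, 1 ≤ w g) (j : ℕ) : FiniteDimensional ℚ (Pj w j) := by
  have := fin_codim w hN hw j
  let f : Pj w j →ₗ[ℚ] (Fw w j).dualAnnihilator := LinearMap.codRestrict _
    ((hat (N := N)).toLinearMap.comp (Pj w j).subtype) fun g =>
      (Submodule.mem_dualAnnihilator _).2 fun x hx => g.2 x hx
  have hf : Function.Injective f := fun x y h =>
    Subtype.ext (hat.injective (congrArg Subtype.val h))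
  have h1 : Module.Finite ℚ (Fw w j).dualAnnihilator :=
    Module.Finite.equiv (Fw w j).dualQuotEquivDualAnnihilator
  exact Module.Finite.of_injective f hf

/-- the representation by translations -/
noncomputable def rho (J : ℕ) : N →* (Module.End ℚ (Pj w J))ˣ :=
  MonoidHom.toHomUnits
    { toFun := fun g => (La g⁻¹).restrict fun _ hf => La_mem w g⁻¹ hf
      map_one' := by
        refine LinearMap.ext fun f => Subtype.ext (funext fun m => ?_)
        show (f : N → ℚ) ((1 : N)⁻¹ * m) = (f : N → ℚ) m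
        rw [inv_one, one_mul]
      map_mul' := fun g h => by
        refine LinearMap.ext fun f => Subtype.ext (funext fun m => ?_)
        show (f : N → ℚ) ((g * h)⁻¹ * m) = (f : N → ℚ) (h⁻¹ * (g⁻¹ * m))
        rw [mul_inv_rev, mul_assoc] }

theorem rho_apply (J : ℕ) (g : N) (f : Pj w J) :
    ((((rho w J g : (Module.End ℚ (Pj w J))ˣ) : Module.End ℚ (Pj w J)) f : Pj w J) : N → ℚ) =
      La g⁻¹ f := rfl

theorem rho_inv (J : ℕ) (g : N) (f : Pj w J) :
    ((((rho w J g)⁻¹ : (Module.End ℚ (Pj w J))ˣ) : Module.End ℚ (Pj w J)) f : Pj w J) =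
      (La g).restrict (fun _ hf => La_mem w g hf) f := by
  rw [← map_inv]
  apply Subtype.ext
  rw [rho_apply, inv_inv]
  rfl

theorem rho_eq_one {J : ℕ} {g : N} (h : rho w J g = 1) : dl g ∈ Fw w J := by
  by_contra hg
  obtain ⟨ψ, h0, hψ⟩ := Submodule.exists_le_ker_of_notMem hg
  have hf : (hat (N := N)).symm ψ ∈ Pj w J := by
    intro x hx
    rw [LinearEquiv.apply_symm_apply]
    exact hψ hx
  have h1 : (rho w J g)⁻¹ = 1 := by rw [h, inv_one]
  have h2 := rho_inv w J g ⟨_, hf⟩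
  rw [h1] at h2
  have h3 : (hat (N := N)).symm ψ = La g ((hat (N := N)).symm ψ) := congrArg Subtype.val h2
  have h4 := congrFun h3 1
  rw [La_apply, mul_one] at h4
  have h5 : ∀ m : N, (hat (N := N)).symm ψ m = ψ (MonoidAlgebra.of ℚ N m) := hat_symm_apply ψ
  rw [h5, h5] at h4
  apply h0
  rw [dl, map_sub, ← h4, (MonoidAlgebra.of ℚ N).map_one, sub_self]

end rep

section mod

variable {N : Type} [Group N] (w : N → ℕ)

theorem dl_mul_mod (hw : ∀ g, 1 ≤ w g) {e : ℕ} {g h : N} {x y : MonoidAlgebra ℚ N}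
    (hg : dl g ∈ Fw w e) (hh : dl h ∈ Fw w e)
    (hx : dl g - x ∈ Fw w (e + 1)) (hy : dl h - y ∈ Fw w (e + 1)) :
    dl (g * h) ∈ Fw w e ∧ dl (g * h) - (x + y) ∈ Fw w (e + 1) := by
  have h1 : dl g * dl h ∈ Fw w (e + 1) := by
    have h2 := Fw_mul w hg (Fw_anti w (hw h) (dl_mem w h))
    exact h2
  rw [dl_mul]
  constructor
  · exact Submodule.add_mem _ (Submodule.add_mem _ hg hh) (Fw_anti w (Nat.le_succ e) h1)
  · have h2 : dl g + dl h + dl g * dl h - (x + y) = (dl g - x) + (dl h - y) + dl g * dl h := by abel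
    rw [h2]
    exact Submodule.add_mem _ (Submodule.add_mem _ hx hy) h1

theorem dl_inv_mod (hw : ∀ g, 1 ≤ w g) {e : ℕ} {g : N} {x : MonoidAlgebra ℚ N}
    (hg : dl g ∈ Fw w e) (hx : dl g - x ∈ Fw w (e + 1)) :
    dl g⁻¹ ∈ Fw w e ∧ dl g⁻¹ - (-x) ∈ Fw w (e + 1) := by
  have h1 : dl g * dl g⁻¹ ∈ Fw w (e + 1) := Fw_mul w hg (Fw_anti w (hw _) (dl_mem w _))
  rw [dl_inv]
  constructor
  · exact Submodule.sub_mem _ (Submodule.neg_mem _ hg) (Fw_anti w (Nat.le_succ e) h1)
  · have h2 : -dl g - dl g * dl g⁻¹ - -x = -(dl g - x) - dl g * dl g⁻¹ := by abel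
    rw [h2]
    exact Submodule.sub_mem _ (Submodule.neg_mem _ hx) h1

theorem dl_zpow_mod (hw : ∀ g, 1 ≤ w g) {e : ℕ} {g : N} (hg : dl g ∈ Fw w e) (n : ℤ) :
    dl (g ^ n) ∈ Fw w e ∧ dl (g ^ n) - (n : ℚ) • dl g ∈ Fw w (e + 1) := by
  have hnat : ∀ n : ℕ, dl (g ^ n) ∈ Fw w e ∧ dl (g ^ n) - (n : ℚ) • dl g ∈ Fw w (e + 1) := by
    intro n
    induction n with
    | zero =>
      rw [pow_zero, dl_one, Nat.cast_zero, zero_smul, sub_zero]
      exact ⟨Submodule.zero_mem _, Submodule.zero_mem _⟩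
    | succ n ih =>
      have h1 := dl_mul_mod w hw ih.1 hg ih.2 (y := dl g) (by
        rw [sub_self]
        exact Submodule.zero_mem _)
      rw [pow_succ, Nat.cast_succ, add_smul, one_smul]
      exact h1
  obtain ⟨m, rfl | rfl⟩ := n.eq_nat_or_neg
  · rw [zpow_natCast, Int.cast_natCast]
    exact hnat m
  · have h1 := dl_inv_mod w hw (hnat m).1 (hnat m).2
    rw [zpow_neg, zpow_natCast, Int.cast_neg, Int.cast_natCast, neg_smul]
    exact h1

/-- products of powers modulo the next step of the filtration -/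
theorem dl_prod_mod (hw : ∀ g, 1 ≤ w g) {B : Type} [CommGroup B] (α : B →* N) {r : ℕ}
    (a : Fin r → B) (e : ℕ) (n : Fin r → ℤ) (h : ∀ l, n l = 0 ∨ dl (α (a l)) ∈ Fw w e)
    (s : Finset (Fin r)) : dl (α (∏ l ∈ s, a l ^ n l)) ∈ Fw w e ∧
      dl (α (∏ l ∈ s, a l ^ n l)) - ∑ l ∈ s, (n l : ℚ) • dl (α (a l)) ∈ Fw w (e + 1) := by
  classical
  induction s using Finset.induction_on with
  | empty =>
    rw [Finset.prod_empty, Finset.sum_empty, map_one, dl_one, sub_zero]
    exact ⟨Submodule.zero_mem _, Submodule.zero_mem _⟩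
  | insert l s hl ih =>
    rw [Finset.prod_insert hl, Finset.sum_insert hl, map_mul, map_zpow]
    have h1 : dl (α (a l) ^ n l) ∈ Fw w e ∧
        dl (α (a l) ^ n l) - (n l : ℚ) • dl (α (a l)) ∈ Fw w (e + 1) := by
      rcases h l with h0 | h0
      · rw [h0, zpow_zero, dl_one, Int.cast_zero, zero_smul, sub_zero]
        exact ⟨Submodule.zero_mem _, Submodule.zero_mem _⟩
      · exact dl_zpow_mod w hw h0 _
    exact dl_mul_mod w hw h1.1 ih.1 h1.2 ih.2

end mod

section ad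

variable {N : Type} [Group N] (w : N → ℕ) {B : Type} [CommGroup B] (α : B →* N)

/-- adapted families -/
structure Ad {r : ℕ} (a : Fin r → B) (k : Fin r → ℕ) : Prop where
  mono : Monotone k
  mem : ∀ j, dl (α (a j)) ∈ Fw w (k j)
  ind : ∀ (n : Fin r → ℤ) (j : Fin r), n j ≠ 0 → (∀ l, l < j → n l = 0) →
    dl (α (∏ l, a l ^ n l)) ∉ Fw w (k j + 1)

variable {w α} {r : ℕ} {a : Fin r → B} {k : Fin r → ℕ}

theorem Ad.pos (hw : ∀ g, 1 ≤ w g) (h : Ad w α a k) (j : Fin r) : 1 ≤ k j := by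
  classical
  by_contra hk
  have hk0 : k j = 0 := by omega
  have h1 := h.ind (Pi.single j 1) j (by simp) (fun l hl => by
    rw [Pi.single_eq_of_ne hl.ne])
  rw [hk0] at h1
  exact h1 (Fw_anti w (hw _) (dl_mem w _))

theorem Ad.rat (hw : ∀ g, 1 ≤ w g) (h : Ad w α a k) (j : Fin r) :
    dl (α (a j)) ∉ Fw w (k j + 1) ⊔
      Submodule.span ℚ (Set.range fun l : Fin r => if j < l then dl (α (a l)) else 0) := by
  classical
  intro hx
  obtain ⟨z, hz, y, hy, hzy⟩ := Submodule.mem_sup.1 hx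
  obtain ⟨c, rfl⟩ := (Submodule.mem_span_range_iff_exists_fun ℚ).1 hy
  let D : ℕ := ∏ l, (c l).den
  have hD : D ≠ 0 := Finset.prod_ne_zero_iff.2 fun l _ => (c l).den_ne_zero
  have hint : ∀ l, ∃ m : ℤ, (m : ℚ) = D * c l := by
    intro l
    obtain ⟨m, hm⟩ : (c l).den ∣ D := Finset.dvd_prod_of_mem _ (Finset.mem_univ l)
    refine ⟨m * (c l).num, ?_⟩
    have h2 : (c l) * (c l).den = (c l).num := Rat.mul_den_eq_num (c l)
    rw [hm]
    push_cast
    rw [← h2]
    ring
  choose m hm using hint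
  let n : Fin r → ℤ := fun l => if l = j then D else if j < l then -m l else 0
  have hnj : n j = D := if_pos rfl
  have hnl : ∀ l, l < j → n l = 0 := fun l hl => by
    show (if l = j then (D : ℤ) else if j < l then -m l else 0) = 0
    rw [if_neg hl.ne, if_neg (not_lt.2 hl.le)]
  have h1 := (dl_prod_mod w hw α a (k j) n (fun l => by
    rcases lt_or_ge l j with hl | hl
    · exact Or.inl (hnl l hl)
    · exact Or.inr (Fw_anti w (h.mono hl) (h.mem l))) Finset.univ).2
  refine h.ind n j (by rw [hnj]; exact_mod_cast hD) hnl ?_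
  have h2 : ∑ l, (n l : ℚ) • dl (α (a l)) = (D : ℚ) • z := by
    have h3 : z = dl (α (a j)) - ∑ i, c i • (if j < i then dl (α (a i)) else 0) := by
      rw [← hzy]
      abel
    rw [h3, smul_sub, Finset.smul_sum, ← Finset.add_sum_erase _ _ (Finset.mem_univ j), hnj,
      Int.cast_natCast, sub_eq_add_neg, ← Finset.sum_neg_distrib]
    congr 1
    rw [← Finset.add_sum_erase _ (fun i => -((D : ℚ) • c i • (if j < i then dl (α (a i)) else 0)))
      (Finset.mem_univ j), if_neg (lt_irrefl j), smul_zero, smul_zero, neg_zero, zero_add]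
    refine Finset.sum_congr rfl fun l hl => ?_
    have hlj : l ≠ j := (Finset.mem_erase.1 hl).1
    show (((if l = j then (D : ℤ) else if j < l then -m l else 0 : ℤ) : ℚ)) • dl (α (a l)) = _
    rw [if_neg hlj]
    split_ifs with h4
    · rw [Int.cast_neg, hm, neg_smul, mul_smul]
    · rw [Int.cast_zero, zero_smul, smul_zero, smul_zero, neg_zero]
  rw [h2] at h1
  have h3 := Submodule.add_mem _ h1 (Submodule.smul_mem _ (D : ℚ) hz)
  rwa [sub_add_cancel] at h3

theorem Ad.sys (hw : ∀ g, 1 ≤ w g) (h : Ad w α a k) : Sys w ⊤ (fun j => α (a j)) k := by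
  classical
  refine ⟨fun i j => by rw [← map_mul, mul_comm, map_mul], h.pos hw, h.mem,
    fun _ _ _ => Algebra.mem_top, fun j => ?_⟩
  obtain ⟨ψ0, h0, hψ0⟩ := Submodule.exists_le_ker_of_notMem (h.rat hw j)
  let ψ : MonoidAlgebra ℚ N →ₗ[ℚ] ℚ := (ψ0 (dl (α (a j))))⁻¹ • ψ0
  have hψ : ∀ x ∈ Fw w (k j + 1), ψ x = 0 := by
    intro x hx
    show (ψ0 (dl (α (a j))))⁻¹ • ψ0 x = 0
    rw [show ψ0 x = 0 from hψ0 (Submodule.mem_sup_left hx), smul_zero]
  have hψl : ∀ l, j < l → ψ (dl (α (a l))) = 0 := by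
    intro l hl
    show (ψ0 (dl (α (a j))))⁻¹ • ψ0 (dl (α (a l))) = 0
    have h1 : ψ0 (dl (α (a l))) = 0 := hψ0 (Submodule.mem_sup_right
      (Submodule.subset_span ⟨l, if_pos hl⟩))
    rw [h1, smul_zero]
  have hψj : ψ (dl (α (a j))) = 1 := by
    show (ψ0 (dl (α (a j))))⁻¹ * ψ0 (dl (α (a j))) = 1
    exact inv_mul_cancel₀ h0
  have h5 : ∀ m : N, (hat (N := N)).symm ψ m = ψ (MonoidAlgebra.of ℚ N m) := hat_symm_apply ψ
  refine ⟨(hat (N := N)).symm ψ, Algebra.mem_top, ?_, fun l hl => ?_⟩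
  · intro x hx
    rw [LinearEquiv.apply_symm_apply]
    exact hψ x hx
  · funext m
    rw [La_apply, h5]
    show ψ (MonoidAlgebra.of ℚ N (α (a l) * m)) =
      (hat (N := N)).symm ψ m + (if l = j then (1 : N → ℚ) else 0) m
    have h6 : MonoidAlgebra.of ℚ N (α (a l) * m) = MonoidAlgebra.of ℚ N m + dl (α (a l)) +
        dl (α (a l)) * dl m := by
      rw [map_mul, dl, dl]
      noncomm_ring
    have h8 : dl m ∈ Fw w 1 := Fw_anti w (hw m) (dl_mem w m)
    have h9 : k j + 1 ≤ k l + 1 := Nat.succ_le_succ (h.mono hl)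
    have h7 : dl (α (a l)) * dl m ∈ Fw w (k j + 1) := Fw_anti w h9 (Fw_mul w (h.mem l) h8)
    rw [h6, map_add, map_add, hψ _ h7, add_zero, h5]
    congr 1
    rcases eq_or_lt_of_le hl with hl' | hl'
    · rw [if_pos hl'.symm, ← hl', hψj, Pi.one_apply]
    · rw [if_neg hl'.ne', hψl l hl', Pi.zero_apply]

variable {β : B →* N}

/-- **the representations of the abelian group are conjugate** -/
theorem Ad.conj (hN : Group.FG N) (hw : ∀ g, 1 ≤ w g) (h : Ad w α a k) (h' : Ad w β a k)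
    (hgen : Subgroup.closure (Set.range a) = ⊤) (J : ℕ) :
    ∃ U : (Module.End ℚ (Pj w J))ˣ, ∀ b, U * rho w J (α b) * U⁻¹ = rho w J (β b) := by
  have hfd := fd_Pj w hN hw
  obtain ⟨T, hT1, hT2, hT3⟩ := main_iso hw hfd J r ⊤ ⊤ (fun j => α (a j)) (fun j => β (a j)) k
    (h.sys hw) (h'.sys hw) (fun _ _ => rfl)
  have hUP : ∀ (j : ℕ) (f : N → ℚ), f ∈ UP w (⊤ : Subalgebra ℚ (N → ℚ)) j ↔ f ∈ Pj w j :=
    fun j f => ⟨fun h => h.2, fun h => ⟨(Algebra.mem_top : f ∈ (⊤ : Subalgebra ℚ (N → ℚ))), h⟩⟩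
  let T' : Pj w J →ₗ[ℚ] Pj w J := T.restrict fun f hf =>
    ((hUP J _).1 (hT1 J le_rfl f ((hUP J f).2 hf)))
  have hT'v : ∀ f : Pj w J, ((T' f : Pj w J) : N → ℚ) = T f := fun f => rfl
  have hinj : Function.Injective T' := by
    rw [← LinearMap.ker_eq_bot, LinearMap.ker_eq_bot']
    intro f hf
    exact Subtype.ext (hT2 f ((hUP J _).2 f.2) (congrArg Subtype.val hf))
  let e : Pj w J ≃ₗ[ℚ] Pj w J := LinearEquiv.ofInjectiveEndo T' hinj
  have he : ∀ f, e f = T' f := fun f => rfl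
  let U : (Module.End ℚ (Pj w J))ˣ := ⟨e.toLinearMap, e.symm.toLinearMap,
    LinearMap.ext fun x => e.apply_symm_apply x, LinearMap.ext fun x => e.symm_apply_apply x⟩
  have hU : ∀ f, ((U : (Module.End ℚ (Pj w J))ˣ) : Module.End ℚ (Pj w J)) f = T' f := fun f => rfl
  refine ⟨U, ?_⟩
  have key : ((MulAut.conj U).toMonoidHom.comp ((rho w J).comp α)) = (rho w J).comp β := by
    refine MonoidHom.eq_of_eqOn_dense hgen ?_
    rintro _ ⟨i, rfl⟩
    show U * rho w J (α (a i)) * U⁻¹ = rho w J (β (a i))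
    have h1 : U * (rho w J (α (a i)))⁻¹ = (rho w J (β (a i)))⁻¹ * U := by
      apply Units.ext
      refine LinearMap.ext fun f => Subtype.ext ?_
      rw [Units.val_mul, Units.val_mul, Module.End.mul_apply, Module.End.mul_apply, hU, hU,
        rho_inv, rho_inv]
      show T (La (α (a i)) f) = La (β (a i)) (T f)
      exact hT3 i f ((hUP J _).2 f.2)
    have h2 : (rho w J (β (a i))) * U = U * rho w J (α (a i)) := by
      have h3 : (rho w J (β (a i))) * (U * (rho w J (α (a i)))⁻¹) * rho w J (α (a i)) =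
          (rho w J (β (a i))) * ((rho w J (β (a i)))⁻¹ * U) * rho w J (α (a i)) := by rw [h1]
      simpa [mul_assoc] using h3
    rw [← h2, mul_inv_cancel_right]
  intro b
  exact DFunLike.congr_fun key b

/-- products of powers of generators -/
theorem exists_exp (hgen : Subgroup.closure (Set.range a) = ⊤) (b : B) :
    ∃ n : Fin r → ℤ, b = ∏ l, a l ^ n l := by
  classical
  have hb : b ∈ Subgroup.closure (Set.range a) := by
    rw [hgen]
    exact Subgroup.mem_top b
  induction hb using Subgroup.closure_induction with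
  | mem x hx =>
    obtain ⟨i, rfl⟩ := hx
    refine ⟨Pi.single i 1, ?_⟩
    rw [Finset.prod_eq_single i]
    · rw [Pi.single_eq_same, zpow_one]
    · intro j _ hj
      rw [Pi.single_eq_of_ne hj, zpow_zero]
    · intro h
      exact absurd (Finset.mem_univ i) h
  | one => exact ⟨0, by simp⟩
  | mul x y _ _ hx hy =>
    obtain ⟨n, rfl⟩ := hx
    obtain ⟨m, rfl⟩ := hy
    refine ⟨n + m, ?_⟩
    rw [← Finset.prod_mul_distrib]
    exact Finset.prod_congr rfl fun l _ => (zpow_add _ _ _).symm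
  | inv x _ hx =>
    obtain ⟨n, rfl⟩ := hx
    refine ⟨-n, ?_⟩
    rw [← Finset.prod_inv_distrib]
    exact Finset.prod_congr rfl fun l _ => (zpow_neg _ _).symm

theorem Ad.inj (h : Ad w α a k) (hgen : Subgroup.closure (Set.range a) = ⊤) {J : ℕ}
    (hJ : ∀ j, k j + 1 ≤ J) {b : B} (hb : dl (α b) ∈ Fw w J) : b = 1 := by
  classical
  obtain ⟨n, rfl⟩ := exists_exp hgen b
  have hn : ∀ j, n j = 0 := by
    intro j
    induction j using WellFoundedLT.induction with
    | _ j ih =>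
      by_contra h0
      exact h.ind n j h0 ih (Fw_anti w (hJ j) hb)
  simp [hn]

end ad

end Pool.Agent.R669.Wt
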