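import Pool.Agent.R669.Wt.Aba

/-!
# Existence of adapted families
-/

set_option autoImplicit false

namespace Pool.Agent.R669.Wt

theorem exists_adapted : ∀ (n : ℕ) (A : Type) [AddCommGroup A] [Module.Finite ℤ A]
    (F : ℕ → Submodule ℤ A), Antitone F → F 0 = ⊤ →
    (∀ (d : ℕ) (x : A) (m : ℤ), m ≠ 0 → m • x ∈ F d → x ∈ F d) →
    (∀ x : A, x ≠ 0 → ∃ d, x ∉ F d) → Module.finrank ℤ A = n →
    ∃ (r : ℕ) (a : Fin r → A) (k : Fin r → ℕ), Monotone k ∧ (∀ j, a j ∈ F (k j)) ∧
      (∀ (c : Fin r → ℤ) (j : Fin r), c j ≠ 0 → (∀ l, l < j → c l = 0) →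
        ∑ l, c l • a l ∉ F (k j + 1)) ∧ Submodule.span ℤ (Set.range a) = ⊤ := by
  classical
  intro n
  induction n using Nat.strong_induction_on with
  | _ n ih =>
    intro A _ _ F hF h0 hiso hsep hn
    by_cases hA : Subsingleton A
    · refine ⟨0, Fin.elim0, Fin.elim0, fun i => i.elim0, fun i => i.elim0, fun _ i => i.elim0, ?_⟩
      exact Subsingleton.elim _ _
    · rw [not_subsingleton_iff_nontrivial] at hA
      obtain ⟨x, hx⟩ := exists_ne (0 : A)
      have hex : ∃ d, F (d + 1) ≠ ⊤ := by
        obtain ⟨d, hd⟩ := hsep x hx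
        cases d with
        | zero =>
          rw [h0] at hd
          exact absurd Submodule.mem_top hd
        | succ d =>
          exact ⟨d, fun h => hd (h ▸ Submodule.mem_top)⟩
      let d : ℕ := Nat.find hex
      have hd : F (d + 1) ≠ ⊤ := Nat.find_spec hex
      have hdt : F d = ⊤ := by
        rcases Nat.eq_zero_or_pos d with h | h
        · rw [h, h0]
        · obtain ⟨e, he⟩ := Nat.exists_eq_add_of_le' h
          have h1 := Nat.find_min hex (m := e) (by
            show e < d
            omega)
          rw [he]
          exact not_not.1 h1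
      let Q := A ⧸ F (d + 1)
      have hQnt : Nontrivial Q := Submodule.Quotient.nontrivial_iff.2 hd
      have hQtf : Module.IsTorsionFree ℤ Q := by
        refine Module.IsTorsionFree.of_smul_eq_zero fun m q hmq => ?_
        obtain ⟨y, rfl⟩ := (F (d + 1)).mkQ_surjective q
        by_cases hm : m = 0
        · exact Or.inl hm
        · right
          have h1 : (F (d + 1)).mkQ (m • y) = 0 := by rw [map_smul, hmq]
          have h2 : m • y ∈ F (d + 1) := (Submodule.Quotient.mk_eq_zero _).1 h1
          exact (Submodule.Quotient.mk_eq_zero _).2 (hiso _ _ _ hm h2)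
      let b := Module.Free.chooseBasis ℤ Q
      obtain ⟨i0⟩ : Nonempty (Module.Free.ChooseBasisIndex ℤ Q) := b.index_nonempty
      obtain ⟨a0, ha0⟩ := (F (d + 1)).mkQ_surjective (b i0)
      let π : A →ₗ[ℤ] ℤ := (b.coord i0).comp (F (d + 1)).mkQ
      have hπ0 : π a0 = 1 := by
        show b.coord i0 ((F (d + 1)).mkQ a0) = 1
        rw [ha0, Module.Basis.coord_apply, Module.Basis.repr_self, Finsupp.single_eq_same]
      have hπF : ∀ y ∈ F (d + 1), π y = 0 := by
        intro y hy
        show b.coord i0 ((F (d + 1)).mkQ y) = 0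
        rw [show (F (d + 1)).mkQ y = 0 from (Submodule.Quotient.mk_eq_zero _).2 hy, map_zero]
      let K := LinearMap.ker π
      have hKfin : Module.Finite ℤ K := inferInstance
      have hrk : Module.finrank ℤ K < n := by
        have h1 := Submodule.finrank_quotient_add_finrank K
        have h2 : Function.Surjective π := fun m => ⟨m • a0, by
          rw [map_smul, hπ0, smul_eq_mul, mul_one]⟩
        have h3 : Module.finrank ℤ (A ⧸ K) = 1 := by
          rw [(π.quotKerEquivOfSurjective h2).finrank_eq, Module.finrank_self]
        rw [h3, hn] at h1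
        omega
      obtain ⟨r, a, k, hk, hmem, hind, hspan⟩ := ih _ hrk K (fun e => (F e).comap K.subtype)
        (fun i j h => Submodule.comap_mono (hF h)) (by rw [h0]; rfl)
        (fun e x m hm h => hiso e _ m hm h)
        (fun x hx => by
          obtain ⟨e, he⟩ := hsep (x : A) (fun h => hx (Subtype.ext h))
          exact ⟨e, he⟩) rfl
      have hkd : ∀ j, d ≤ k j := by
        intro j
        by_contra hlt
        have h1 := hind (Pi.single j 1) j (by simp) (fun l hl => Pi.single_eq_of_ne hl.ne _)
        apply h1
        show _ ∈ F (k j + 1)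
        have h2 : F (k j + 1) = ⊤ := eq_top_iff.2 (hdt ▸ hF (by omega))
        rw [h2]
        exact Submodule.mem_top
      have hcoe : ∀ c : Fin r → ℤ, ∑ l, c l • ((a l : K) : A) = ((∑ l, c l • a l : K) : A) := by
        intro c
        rw [Submodule.coe_sum]
        rfl
      refine ⟨r + 1, Fin.cons a0 fun j => (a j : A), Fin.cons d k, ?_, ?_, ?_, ?_⟩
      · intro i j
        refine Fin.cases (fun _ => ?_) (fun i => ?_) i
        · refine Fin.cases le_rfl (fun j => ?_) j
          rw [Fin.cons_zero, Fin.cons_succ]
          exact hkd j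
        · refine Fin.cases (fun h => ?_) (fun j h => ?_) j
          · exact absurd h (by simp)
          · rw [Fin.cons_succ, Fin.cons_succ]
            exact hk (Fin.succ_le_succ_iff.1 h)
      · intro j
        refine Fin.cases ?_ (fun j => ?_) j
        · rw [Fin.cons_zero, Fin.cons_zero, hdt]
          exact Submodule.mem_top
        · rw [Fin.cons_succ, Fin.cons_succ]
          exact hmem j
      · intro c j
        rw [Fin.sum_univ_succ]
        simp only [Fin.cons_zero, Fin.cons_succ]
        refine Fin.cases (fun hc _ h => ?_) (fun j hc hl h => ?_) j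
        · rw [Fin.cons_zero] at h
          have h1 := hπF _ h
          rw [map_add, map_smul, hπ0, hcoe] at h1
          have h2 : π ((∑ l, c l.succ • a l : K) : A) = 0 := (∑ l, c l.succ • a l : K).2
          rw [h2, add_zero, smul_eq_mul, mul_one] at h1
          exact hc h1
        · rw [Fin.cons_succ, hl 0 (Fin.succ_pos j), zero_smul, zero_add, hcoe] at h
          exact hind (fun l => c l.succ) j hc (fun l hlj => hl l.succ (Fin.succ_lt_succ_iff.2 hlj)) h
      · rw [eq_top_iff]
        intro x _
        have h1 : x - π x • a0 ∈ K := by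
          show π (x - π x • a0) = 0
          rw [map_sub, map_smul, hπ0, smul_eq_mul, mul_one, sub_self]
        have h2 : (⟨_, h1⟩ : K) ∈ Submodule.span ℤ (Set.range a) := by
          rw [hspan]
          exact Submodule.mem_top
        have h3 : x - π x • a0 ∈ Submodule.span ℤ (Set.range (Fin.cons a0 fun j => (a j : A) :
            Fin (r + 1) → A)) := by
          have h4 := Submodule.mem_map_of_mem (f := K.subtype) h2
          rw [Submodule.map_span] at h4
          refine Submodule.span_mono ?_ h4
          rintro _ ⟨_, ⟨j, rfl⟩, rfl⟩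
          exact ⟨j.succ, rfl⟩
        have h5 : a0 ∈ Submodule.span ℤ (Set.range (Fin.cons a0 fun j => (a j : A) :
            Fin (r + 1) → A)) := Submodule.subset_span ⟨0, rfl⟩
        have h6 := Submodule.add_mem _ h3 (Submodule.smul_mem _ (π x) h5)
        rwa [sub_add_cancel] at h6

end Pool.Agent.R669.Wt
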