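import Pool.Agent.R669.Wt.Fg

/-!
# Reduction to finitely generated base groups
-/

set_option autoImplicit false

namespace Pool.Agent.R669.Wt

open Pool.Agent.Y110.FJ Pool.Agent.R779.FJ Pool.Agent.R942.FJ
open Pool.Agent.Y462.SS (Closed)

section ch

variable {M : Type} [Group M] {I : Type} (a b : I → M)

/-- the base -/
def ofC : M →* CH a b := MH.of _ _

/-- the stable letters -/
def tC (i : I) : CH a b := MH.t _ _ i

theorem relC (i : I) : tC a b i * ofC a b (a i) * (tC a b i)⁻¹ = ofC a b (b i) := by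
  have h1 := MH.rel (fun i => zpowersHom M (a i)) (fun i => zpowersHom M (b i)) i
    (Multiplicative.ofAdd 1)
  have h2 : zpowersHom M (a i) (Multiplicative.ofAdd 1) = a i := by simp
  have h3 : zpowersHom M (b i) (Multiplicative.ofAdd 1) = b i := by simp
  rw [h2, h3] at h1
  exact h1

variable {a b}

/-- homomorphisms out of the multiple HNN extension -/
def liftC {H : Type} [Group H] (g : M →* H) (s : I → H) (h : ∀ i, s i * g (a i) * (s i)⁻¹ = g (b i)) :
    CH a b →* H :=
  MH.lift g s fun i n => by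
    rw [zpowersHom_apply, zpowersHom_apply, map_zpow, map_zpow, ← h i, conj_zpow]

theorem liftC_of {H : Type} [Group H] (g : M →* H) (s : I → H)
    (h : ∀ i, s i * g (a i) * (s i)⁻¹ = g (b i)) (m : M) : liftC g s h (ofC a b m) = g m :=
  MH.lift_of _ _ _ m

theorem liftC_t {H : Type} [Group H] (g : M →* H) (s : I → H)
    (h : ∀ i, s i * g (a i) * (s i)⁻¹ = g (b i)) (i : I) : liftC g s h (tC a b i) = s i :=
  MH.lift_t _ _ _ i

theorem extC {H : Type} [Group H] {f g : CH a b →* H} (h1 : ∀ m, f (ofC a b m) = g (ofC a b m))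
    (h2 : ∀ i, f (tC a b i) = g (tC a b i)) : f = g := MH.hom_ext h1 h2

end ch

/-- direct limits of groups in the class -/
theorem C_dl {C : ∀ (G : Type) [Group G], Prop} (hC : Closed C) {Ix : Type} [Preorder Ix]
    [Nonempty Ix] [IsDirectedOrder Ix] (X : Ix → Type) [∀ i, Group (X i)]
    (f : ∀ i j, i ≤ j → X i →* X j) [DirectedSystem X (f · · ·)] (h : ∀ i, C (X i)) :
    C (DirectLimit X f) := by
  let g : ∀ i, X i →* DirectLimit X f := fun i =>
    { toFun := fun x => ⟦⟨i, x⟩⟧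
      map_one' := (DirectLimit.one_def i).symm
      map_mul' := fun x y => (DirectLimit.mul_def i x y).symm }
  refine hC.colim Ix (fun i j => exists_ge_ge i j) X f (DirectLimit X f) g ?_ ?_ ?_ ?_ ?_ h
  · intro i h x
    exact DirectedSystem.map_self' f x
  · intro i j k h h' x
    exact DirectedSystem.map_map' f h h' x
  · intro i j h x
    exact DirectLimit.mk_apply i j x h
  · intro y
    obtain ⟨i, x, rfl⟩ := DirectLimit.exists_eq_mk _ y
    exact ⟨i, x, rfl⟩
  · intro i x hx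
    exact (DirectLimit.exists_eq_one (f := f) ⟨i, x⟩).1 hx

section red

variable {M : Type} [Group M] {I : Type} (a b : I → M) (C : ∀ (G : Type) [Group G], Prop)

/-- a finitely generated subgroup and a finite set of indices -/
structure Stage where
  H : Subgroup M
  J : Finset I
  ha : ∀ i : J, a i ∈ H
  hb : ∀ i : J, b i ∈ H
  fg : H.FG
  hC : C (CH (fun i : J => (⟨a i, ha i⟩ : H)) (fun i : J => (⟨b i, hb i⟩ : H)))

variable {a b C}

instance : Preorder (Stage a b C) where
  le s s' := s.H ≤ s'.H ∧ s.J ⊆ s'.J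
  le_refl s := ⟨le_rfl, Finset.Subset.refl _⟩
  le_trans _ _ _ h h' := ⟨h.1.trans h'.1, h.2.trans h'.2⟩

/-- the group of a stage -/
abbrev Stage.X (s : Stage a b C) : Type :=
  CH (fun i : s.J => (⟨a i, s.ha i⟩ : s.H)) (fun i : s.J => (⟨b i, s.hb i⟩ : s.H))

/-- the transition maps -/
def Stage.f (s s' : Stage a b C) (h : s ≤ s') : s.X →* s'.X :=
  liftC ((ofC _ _).comp (Subgroup.inclusion h.1)) (fun i => tC _ _ ⟨i, h.2 i.2⟩) (fun i =>
    relC (fun i : s'.J => (⟨a i, s'.ha i⟩ : s'.H)) (fun i : s'.J => (⟨b i, s'.hb i⟩ : s'.H))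
      ⟨i, h.2 i.2⟩)

theorem Stage.f_of (s s' : Stage a b C) (h : s ≤ s') (m : s.H) :
    Stage.f s s' h (ofC _ _ m) = ofC _ _ (Subgroup.inclusion h.1 m) := liftC_of _ _ _ m

theorem Stage.f_t (s s' : Stage a b C) (h : s ≤ s') (i : s.J) :
    Stage.f s s' h (tC _ _ i) = tC _ _ ⟨i, h.2 i.2⟩ := liftC_t _ _ _ i

instance : DirectedSystem (Stage.X (a := a) (b := b) (C := C)) (Stage.f · · ·) where
  map_self s x := by
    have : Stage.f s s le_rfl = MonoidHom.id _ := extC (fun m => Stage.f_of _ _ _ m)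
      (fun i => Stage.f_t _ _ _ i)
    exact DFunLike.congr_fun this x
  map_map s'' s' s h h' x := by
    have : (Stage.f s' s'' h').comp (Stage.f s s' h) = Stage.f s s'' (h.trans h') := by
      apply extC
      · intro m
        rw [MonoidHom.comp_apply, Stage.f_of, Stage.f_of, Stage.f_of]
        rfl
      · intro i
        rw [MonoidHom.comp_apply, Stage.f_t, Stage.f_t, Stage.f_t]
    exact DFunLike.congr_fun this x

/-- the map from a stage to the group -/
def Stage.g (s : Stage a b C) : s.X →* CH a b :=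
  liftC ((ofC a b).comp s.H.subtype) (fun i => tC a b i) (fun i => relC a b i)

theorem Stage.g_of (s : Stage a b C) (m : s.H) : s.g (ofC _ _ m) = ofC a b m := liftC_of _ _ _ m

theorem Stage.g_t (s : Stage a b C) (i : s.J) : s.g (tC _ _ i) = tC a b i := liftC_t _ _ _ i

theorem Stage.g_f (s s' : Stage a b C) (h : s ≤ s') (x : s.X) : s.g x = s'.g (Stage.f s s' h x) := by
  have : s.g = s'.g.comp (Stage.f s s' h) := by
    apply extC
    · intro m
      rw [MonoidHom.comp_apply, Stage.f_of, Stage.g_of, Stage.g_of]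
      rfl
    · intro i
      rw [MonoidHom.comp_apply, Stage.f_t, Stage.g_t, Stage.g_t]
  exact DFunLike.congr_fun this x

/-- the map from the limit to the group -/
noncomputable def Stage.Psi [Nonempty (Stage a b C)] [IsDirectedOrder (Stage a b C)] :
    DirectLimit (Stage.X (a := a) (b := b) (C := C)) Stage.f →* CH a b :=
  MonoidHom.mk' (DirectLimit.lift Stage.f (fun s x => s.g x) (fun s s' h x => Stage.g_f s s' h x))
    (fun x y => DirectLimit.lift_mul (f := Stage.f (a := a) (b := b) (C := C))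
      (fun s : Stage a b C => s.g) _ x y)

theorem Stage.Psi_mk [Nonempty (Stage a b C)] [IsDirectedOrder (Stage a b C)] (s : Stage a b C)
    (x : s.X) : Stage.Psi (⟦⟨s, x⟩⟧ : DirectLimit (Stage.X (a := a) (b := b) (C := C)) Stage.f) =
      s.g x := rfl

/-- **reduction to finitely generated base groups** -/
theorem fg_red (hC : Closed C)
    (h : ∀ (H0 : Subgroup M) (J : Finset I), H0.FG → ∃ H : Subgroup M, H.FG ∧ H0 ≤ H ∧
      ∃ (ha : ∀ i : J, a i ∈ H) (hb : ∀ i : J, b i ∈ H),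
        C (CH (fun i : J => (⟨a i, ha i⟩ : H)) (fun i : J => (⟨b i, hb i⟩ : H)))) :
    C (CH a b) := by
  classical
  have hex : ∀ (H0 : Subgroup M) (J : Finset I), H0.FG → ∃ s : Stage a b C, H0 ≤ s.H ∧ s.J = J := by
    intro H0 J hH0
    obtain ⟨H, hH, hle, ha, hb, hh⟩ := h H0 J hH0
    exact ⟨⟨H, J, ha, hb, hH, hh⟩, hle, rfl⟩
  have hbot : (⊥ : Subgroup M).FG := ⟨∅, by simp⟩
  have hne : Nonempty (Stage a b C) := by
    obtain ⟨s, _⟩ := hex ⊥ ∅ hbot
    exact ⟨s⟩
  have hdir : IsDirectedOrder (Stage a b C) := ⟨by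
    intro s s'
    obtain ⟨s'', h1, h2⟩ := hex (s.H ⊔ s'.H) (s.J ∪ s'.J) (s.fg.sup s'.fg)
    exact ⟨s'', ⟨le_sup_left.trans h1, h2 ▸ Finset.subset_union_left⟩,
      ⟨le_sup_right.trans h1, h2 ▸ Finset.subset_union_right⟩⟩⟩
  let L : Type := DirectLimit (Stage.X (a := a) (b := b) (C := C)) Stage.f
  have hL : C L := C_dl hC (Stage.X (a := a) (b := b) (C := C)) Stage.f fun s => s.hC
  -- stages containing given elements
  have hcl : ∀ T : Finset M, (Subgroup.closure (T : Set M)).FG := fun T => ⟨T, rfl⟩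
  have hst : ∀ m : M, ∃ s : Stage a b C, m ∈ s.H := by
    intro m
    obtain ⟨s, hs, _⟩ := hex (Subgroup.closure (({m} : Finset M) : Set M)) ∅ (hcl _)
    exact ⟨s, hs (Subgroup.subset_closure (by simp))⟩
  choose st hst using hst
  let u : M → L := fun m => ⟦⟨st m, ofC _ _ ⟨m, hst m⟩⟩⟧
  have hu : ∀ (s : Stage a b C) (m : M) (hm : m ∈ s.H), u m = ⟦⟨s, ofC _ _ ⟨m, hm⟩⟩⟧ := by
    intro s m hm
    obtain ⟨s', h1, h2⟩ := exists_ge_ge (st m) s
    have h3 := DirectLimit.mk_apply (f := Stage.f (a := a) (b := b) (C := C)) (st m) s'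
      (ofC _ _ ⟨m, hst m⟩) h1
    have h4 := DirectLimit.mk_apply (f := Stage.f (a := a) (b := b) (C := C)) s s'
      (ofC _ _ ⟨m, hm⟩) h2
    show (⟦⟨st m, ofC _ _ ⟨m, hst m⟩⟩⟧ : L) = _
    rw [← h3, ← h4, Stage.f_of, Stage.f_of]
    rfl
  let U : M →* L :=
    { toFun := u
      map_one' := by
        rw [hu (st 1) 1 (st 1).H.one_mem]
        have h1 : (⟨1, (st 1).H.one_mem⟩ : (st 1).H) = 1 := rfl
        rw [h1, map_one]
        exact (DirectLimit.one_def _).symm
      map_mul' := fun x y => by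
        obtain ⟨s, h1, h2⟩ := exists_ge_ge (st x) (st y)
        have hx : x ∈ s.H := h1.1 (hst x)
        have hy : y ∈ s.H := h2.1 (hst y)
        rw [hu s x hx, hu s y hy, hu s (x * y) (s.H.mul_mem hx hy), DirectLimit.mul_def, ← map_mul]
        rfl }
  have hti : ∀ i : I, ∃ s : Stage a b C, i ∈ s.J := by
    intro i
    obtain ⟨s, _, hs⟩ := hex ⊥ {i} hbot
    exact ⟨s, by rw [hs]; exact Finset.mem_singleton_self i⟩
  choose ti hti using hti
  let v : I → L := fun i => ⟦⟨ti i, tC _ _ ⟨i, hti i⟩⟩⟧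
  have hv : ∀ (s : Stage a b C) (i : I) (hi : i ∈ s.J), v i = ⟦⟨s, tC _ _ ⟨i, hi⟩⟩⟧ := by
    intro s i hi
    obtain ⟨s', h1, h2⟩ := exists_ge_ge (ti i) s
    have h3 := DirectLimit.mk_apply (f := Stage.f (a := a) (b := b) (C := C)) (ti i) s'
      (tC _ _ ⟨i, hti i⟩) h1
    have h4 := DirectLimit.mk_apply (f := Stage.f (a := a) (b := b) (C := C)) s s'
      (tC _ _ ⟨i, hi⟩) h2
    show (⟦⟨ti i, tC _ _ ⟨i, hti i⟩⟩⟧ : L) = _
    rw [← h3, ← h4, Stage.f_t, Stage.f_t]
  let Θ : CH a b →* L := liftC U v (by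
    intro i
    show v i * u (a i) * (v i)⁻¹ = u (b i)
    rw [hv (ti i) i (hti i), hu (ti i) (a i) ((ti i).ha ⟨i, hti i⟩),
      hu (ti i) (b i) ((ti i).hb ⟨i, hti i⟩), DirectLimit.inv_def, DirectLimit.mul_def,
      DirectLimit.mul_def]
    rw [relC (fun j : (ti i).J => (⟨a j, (ti i).ha j⟩ : (ti i).H))
      (fun j : (ti i).J => (⟨b j, (ti i).hb j⟩ : (ti i).H)) ⟨i, hti i⟩])
  -- the map back
  have hΨΘ : (Stage.Psi (a := a) (b := b) (C := C)).comp Θ = MonoidHom.id _ := by
    apply extC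
    · intro m
      rw [MonoidHom.comp_apply, show Θ (ofC a b m) = u m from liftC_of _ _ _ m]
      exact (Stage.Psi_mk _ _).trans (Stage.g_of _ _)
    · intro i
      rw [MonoidHom.comp_apply, show Θ (tC a b i) = v i from liftC_t _ _ _ i]
      exact (Stage.Psi_mk _ _).trans (Stage.g_t _ _)
  exact hC.of_injective _ L Θ (Function.LeftInverse.injective
    (g := (Stage.Psi (a := a) (b := b) (C := C))) fun x => DFunLike.congr_fun hΨΘ x) hL

end red

section wt

variable {M : Type} [Group M]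

/-- the embedding of the group algebra of a subgroup -/
noncomputable def emb (H : Subgroup M) : MonoidAlgebra ℚ H →ₐ[ℚ] MonoidAlgebra ℚ M :=
  MonoidAlgebra.lift ℚ (MonoidAlgebra ℚ M) H ((MonoidAlgebra.of ℚ M).comp H.subtype)

theorem emb_of (H : Subgroup M) (g : H) :
    emb H (MonoidAlgebra.of ℚ H g) = MonoidAlgebra.of ℚ M (g : M) := by
  rw [emb, MonoidAlgebra.lift_of]
  rfl

theorem emb_dl (H : Subgroup M) (g : H) : emb H (dl g) = dl (g : M) := by
  rw [dl, map_sub, map_one, emb_of]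
  rfl

theorem emb_inj (H : Subgroup M) : Function.Injective (emb H) := by
  classical
  let r : MonoidAlgebra ℚ M →ₗ[ℚ] MonoidAlgebra ℚ H := (MonoidAlgebra.basis M ℚ).constr ℚ
    fun m => if h : m ∈ H then MonoidAlgebra.of ℚ H ⟨m, h⟩ else 0
  have hr : ∀ m : H, r (MonoidAlgebra.of ℚ M (m : M)) = MonoidAlgebra.of ℚ H m := by
    intro m
    have h1 : r (MonoidAlgebra.of ℚ M (m : M)) =
        if h : (m : M) ∈ H then MonoidAlgebra.of ℚ H ⟨m, h⟩ else 0 :=
      (MonoidAlgebra.basis M ℚ).constr_basis ℚ _ (m : M)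
    rw [h1, dif_pos m.2]
  have h2 : r.comp (emb H).toLinearMap = LinearMap.id := lin_ext _ _ fun m => by
    show r (emb H (MonoidAlgebra.of ℚ H m)) = MonoidAlgebra.of ℚ H m
    rw [emb_of, hr]
  exact Function.LeftInverse.injective (g := r) fun x => LinearMap.congr_fun h2 x

theorem emb_Fw (H : Subgroup M) (w : M → ℕ) (d : ℕ) {x : MonoidAlgebra ℚ H}
    (hx : x ∈ Fw (fun g : H => w g) d) : emb H x ∈ Fw w d := by
  have h1 : Fw (fun g : H => w g) d ≤ (Fw w d).comap (emb H).toLinearMap := by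
    refine Submodule.span_le.2 ?_
    rintro _ ⟨L, hL, rfl⟩
    refine Submodule.subset_span ⟨L.map Subtype.val, ?_, ?_⟩
    · rw [List.map_map]
      exact hL
    · show emb H (L.map dl).prod = _
      rw [map_list_prod, List.map_map, List.map_map]
      congr 2
      funext g
      exact emb_dl H g
  exact h1 hx

theorem HasOrd.sub {w : M → ℕ} {g : M} {k : ℕ} (h : HasOrd w g k) :
    ∃ T : Finset M, ∀ H : Subgroup M, (T : Set M) ⊆ H → ∀ hg : g ∈ H,
      HasOrd (fun x : H => w x) (⟨g, hg⟩ : H) k := by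
  classical
  have key : ∀ x ∈ Fw w k, ∃ T : Finset M, ∀ H : Subgroup M, (T : Set M) ⊆ H →
      ∃ y ∈ Fw (fun x : H => w x) k, emb H y = x := by
    intro x hx
    induction hx using Submodule.span_induction with
    | mem x hx =>
      obtain ⟨L, hL, rfl⟩ := hx
      refine ⟨L.toFinset, fun H hH => ?_⟩
      have h1 : ∀ g ∈ L, g ∈ H := fun g hg => hH (by simpa using hg)
      refine ⟨((L.attach.map fun g => (⟨g.1, h1 g.1 g.2⟩ : H)).map dl).prod,
        Submodule.subset_span ⟨_, ?_, rfl⟩, ?_⟩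
      · rw [List.map_map]
        have h2 : (L.attach.map fun g => w g.1) = L.map w := by simp
        exact hL.trans (le_of_eq (congrArg List.sum h2.symm))
      · rw [map_list_prod, List.map_map, List.map_map]
        congr 1
        have h2 : (L.attach.map fun g => dl g.1) = L.map dl := by simp
        rw [← h2]
        refine List.map_congr_left fun g _ => ?_
        exact emb_dl H _
    | zero => exact ⟨∅, fun H _ => ⟨0, Submodule.zero_mem _, map_zero _⟩⟩
    | add x y _ _ ihx ihy =>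
      obtain ⟨T, hT⟩ := ihx
      obtain ⟨T', hT'⟩ := ihy
      refine ⟨T ∪ T', fun H hH => ?_⟩
      rw [Finset.coe_union, Set.union_subset_iff] at hH
      obtain ⟨u, hu, rfl⟩ := hT H hH.1
      obtain ⟨v, hv, rfl⟩ := hT' H hH.2
      exact ⟨u + v, Submodule.add_mem _ hu hv, map_add _ _ _⟩
    | smul r x _ ihx =>
      obtain ⟨T, hT⟩ := ihx
      refine ⟨T, fun H hH => ?_⟩
      obtain ⟨u, hu, rfl⟩ := hT H hH
      exact ⟨r • u, Submodule.smul_mem _ _ hu, map_smul _ _ _⟩
  obtain ⟨T, hT⟩ := key _ h.1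
  refine ⟨T, fun H hH hg => ⟨?_, fun h1 => h.2 ?_⟩⟩
  · obtain ⟨y, hy, hyx⟩ := hT H hH
    have h2 : emb H y = emb H (dl ⟨g, hg⟩) := by rw [hyx, emb_dl]
    rw [← emb_inj H h2]
    exact hy
  · have h2 := emb_Fw H w _ h1
    rwa [emb_dl] at h2

/-- **multiple HNN extensions along infinite cyclic groups with generators of the same order** -/
theorem mh_wt {C : ∀ (G : Type) [Group G], Prop} (hC : ClosedE C)
    (hgl : ∀ n : ℕ, C (Matrix (Fin n) (Fin n) ℚ)ˣ) (hM : C M) {I : Type} (a b : I → M)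
    (h : ∀ J : Finset I, ∃ w : M → ℕ, (∀ g, 1 ≤ w g) ∧
      ∀ i ∈ J, ∃ k, HasOrd w (a i) k ∧ HasOrd w (b i) k) : C (CH a b) := by
  classical
  refine fg_red hC.base fun H0 J hH0 => ?_
  obtain ⟨w, hw, hk⟩ := h J
  choose k hka hkb using hk
  have hTa : ∀ i : J, ∃ T : Finset M, ∀ H : Subgroup M, (T : Set M) ⊆ H → ∀ hg : a i ∈ H,
      HasOrd (fun x : H => w x) (⟨a i, hg⟩ : H) (k i i.2) := fun i => (hka i i.2).sub
  have hTb : ∀ i : J, ∃ T : Finset M, ∀ H : Subgroup M, (T : Set M) ⊆ H → ∀ hg : b i ∈ H,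
      HasOrd (fun x : H => w x) (⟨b i, hg⟩ : H) (k i i.2) := fun i => (hkb i i.2).sub
  choose Ta hTa using hTa
  choose Tb hTb using hTb
  let T : Finset M := Finset.univ.biUnion fun i : J => Ta i ∪ Tb i ∪ {a i, b i}
  let H : Subgroup M := H0 ⊔ Subgroup.closure (T : Set M)
  have hT : (T : Set M) ⊆ H := fun x hx =>
    Subgroup.mem_sup_right (Subgroup.subset_closure hx)
  have hmem : ∀ (i : J) (x : M), x ∈ Ta i ∪ Tb i ∪ {a i, b i} → x ∈ H := fun i x hx =>
    hT (Finset.mem_coe.2 (Finset.mem_biUnion.2 ⟨i, Finset.mem_univ i, hx⟩))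
  have ha : ∀ i : J, a i ∈ H := fun i => hmem i _ (by simp)
  have hb : ∀ i : J, b i ∈ H := fun i => hmem i _ (by simp)
  refine ⟨H, hH0.sup ⟨T, rfl⟩, le_sup_left, ha, hb, ?_⟩
  have hHfg : H.FG := hH0.sup ⟨T, rfl⟩
  refine fg_case hC hgl ((Group.fg_iff_subgroup_fg H).2 hHfg)
    (hC.base.of_injective _ _ H.subtype H.subtype_injective hM) _ _ fun J' => ?_
  refine ⟨fun x : H => w x, fun g => hw g, fun i _ => ⟨k i i.2, ?_, ?_⟩⟩
  · exact hTa i H (fun x hx => hmem i x (by
      rw [Finset.mem_union, Finset.mem_union]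
      exact Or.inl (Or.inl hx))) (ha i)
  · exact hTb i H (fun x hx => hmem i x (by
      rw [Finset.mem_union, Finset.mem_union]
      exact Or.inl (Or.inr hx))) (hb i)

end wt

end Pool.Agent.R669.Wt
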