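import Pool.Agent.R669.Wt.Rep

/-!
# Elements which are detected by unitriangular representations have finite order
-/

set_option autoImplicit false

namespace Pool.Agent.R669.Wt

/-- the element `x` has a nontrivial image under some homomorphism to the group of unitriangular
rational matrices of some size -/
def UniDet {G : Type} [Group G] (x : G) : Prop :=
  ∃ (n : ℕ) (f : G →* (Matrix (Fin n) (Fin n) ℚ)ˣ),
    (∀ (g : G) (i j : Fin n), j ≤ i → ((f g : Matrix (Fin n) (Fin n) ℚ) - 1) i j = 0) ∧ f x ≠ 1

variable {G : Type} [Group G]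

theorem exists_ord (w : G → ℕ) (x : G) : ∀ n, dl x ∉ Fw w n → ∃ k, HasOrd w x k := by
  intro n
  induction n with
  | zero =>
    intro h
    rw [Fw_zero] at h
    exact absurd Submodule.mem_top h
  | succ n ih =>
    intro h
    by_cases h' : dl x ∈ Fw w n
    · exact ⟨n, h', h⟩
    · exact ih h'

theorem UniDet.exists_ord {x : G} (h : UniDet x) : ∃ k, HasOrd (fun _ : G => 1) x k := by
  obtain ⟨n, f, hf, hx⟩ := h
  let F : MonoidAlgebra ℚ G →ₐ[ℚ] Matrix (Fin n) (Fin n) ℚ :=
    MonoidAlgebra.lift ℚ (Matrix (Fin n) (Fin n) ℚ) G ((Units.coeHom _).comp f)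
  have hF : ∀ g, F (dl g) = (f g : Matrix (Fin n) (Fin n) ℚ) - 1 := by
    intro g
    show F (MonoidAlgebra.of ℚ G g - 1) = _
    rw [map_sub, map_one, show F (MonoidAlgebra.of ℚ G g) =
      ((Units.coeHom _).comp f) g from MonoidAlgebra.lift_of _ _]
    rfl
  have hL : ∀ (L : List G) (i j : Fin n), (j : ℕ) < i + L.length → F (L.map dl).prod i j = 0 := by
    intro L
    induction L with
    | nil =>
      intro i j hij
      rw [List.map_nil, List.prod_nil, map_one]
      refine Matrix.one_apply_ne ?_
      rintro rfl
      simp at hij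
    | cons g L ih =>
      intro i j hij
      rw [List.map_cons, List.prod_cons, map_mul, hF, Matrix.mul_apply]
      refine Finset.sum_eq_zero fun m _ => ?_
      rcases le_or_gt m i with hm | hm
      · rw [hf g i m hm, zero_mul]
      · rw [ih m j (by
          have h1 : (i : ℕ) < m := hm
          rw [List.length_cons] at hij
          omega), mul_zero]
  have hker : Fw (fun _ : G => 1) n ≤ LinearMap.ker F.toLinearMap := by
    refine Submodule.span_le.2 ?_
    rintro _ ⟨L, hLn, rfl⟩
    show F (L.map dl).prod = 0
    ext i j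
    rw [Matrix.zero_apply]
    refine hL L i j ?_
    have h1 : (L.map fun _ : G => 1).sum = L.length := by simp
    rw [h1] at hLn
    have := j.2
    omega
  refine Pool.Agent.R669.Wt.exists_ord _ x n fun h1 => hx ?_
  have h2 : F (dl x) = 0 := hker h1
  rw [hF, sub_eq_zero] at h2
  exact Units.ext h2

end Pool.Agent.R669.Wt
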