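import Pool.Agent.R669.Wt.Abb
import Pool.Agent.R669.Wt.Uni
import Pool.Agent.R669.Wt.Red

/-!
# Multiple HNN extensions of finitely generated groups along abelian groups
-/

set_option autoImplicit false

namespace Pool.Agent.R669.Wt

open Pool.Agent.Y110.FJ Pool.Agent.R779.FJ Pool.Agent.R942.FJ

theorem HasOrd.iff {M : Type} [Group M] {w : M → ℕ} {g : M} {k : ℕ} (h : HasOrd w g k) (d : ℕ) :
    dl g ∈ Fw w d ↔ d ≤ k :=
  ⟨fun hd => by
    by_contra hk
    exact h.2 (Fw_anti w (by omega) hd), fun hd => Fw_anti w hd h.1⟩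

theorem ord_pow {M : Type} [Group M] {w : M → ℕ} (hw : ∀ g, 1 ≤ w g) {g : M} {d : ℕ} {m : ℤ}
    (hm : m ≠ 0) (h : dl (g ^ m) ∈ Fw w d) : dl g ∈ Fw w d := by
  by_contra hg
  obtain ⟨k, hk⟩ := exists_ord w g d hg
  have hkd : k + 1 ≤ d := by
    by_contra hlt
    exact hg (Fw_anti w (by omega) hk.1)
  exact hm (dl_zpow w hw hk.1 hk.2 m (Fw_anti w hkd h))

/-- existence of adapted families -/
theorem exists_ad {N : Type} [Group N] {w : N → ℕ} (hw : ∀ g, 1 ≤ w g) {B : Type} [CommGroup B]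
    (hB : Group.FG B) (α : B →* N) (h : ∀ b, b ≠ 1 → ∃ k, HasOrd w (α b) k) :
    ∃ (r : ℕ) (a : Fin r → B) (k : Fin r → ℕ), Ad w α a k ∧
      Subgroup.closure (Set.range a) = ⊤ := by
  have h1 : AddGroup.FG (Additive B) :=
    AddGroup.fg_iff_addMonoid_fg.2 (Monoid.fg_iff_add_fg.1 (Group.fg_iff_monoid_fg.1 hB))
  have h2 : Module.Finite ℤ (Additive B) := Module.Finite.iff_addGroup_fg.2 h1
  let F : ℕ → Submodule ℤ (Additive B) := fun d => AddSubgroup.toIntSubmodule
    { carrier := {x | dl (α x.toMul) ∈ Fw w d}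
      zero_mem' := by
        show dl (α (1 : B)) ∈ Fw w d
        rw [map_one, dl_one]
        exact Submodule.zero_mem _
      add_mem' := fun {x y} hx hy => by
        show dl (α (x.toMul * y.toMul)) ∈ Fw w d
        rw [map_mul, dl_mul]
        exact Submodule.add_mem _ (Submodule.add_mem _ hx hy) (of_mul_mem w _ hy)
      neg_mem' := fun {x} hx => by
        show dl (α (x.toMul)⁻¹) ∈ Fw w d
        rw [map_inv, dl_inv]
        exact Submodule.sub_mem _ (Submodule.neg_mem _ hx) (mul_of_mem w _ hx) }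
  have hF : ∀ d (x : Additive B), x ∈ F d ↔ dl (α x.toMul) ∈ Fw w d := fun d x => Iff.rfl
  obtain ⟨r, a, k, hk, hmem, hind, hspan⟩ := exists_adapted _ (Additive B) F
    (fun i j hij x hx => Fw_anti w hij hx)
    (eq_top_iff.2 fun x _ => by
      rw [hF, Fw_zero]
      exact Submodule.mem_top)
    (fun d x m hm hx => by
      rw [hF] at hx ⊢
      rw [toMul_zsmul, map_zpow] at hx
      exact ord_pow hw hm hx)
    (fun x hx => by
      obtain ⟨k, hk⟩ := h x.toMul (fun h0 => hx (Additive.toMul.injective h0))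
      exact ⟨k + 1, hk.2⟩) rfl
  have hsum : ∀ c : Fin r → ℤ, (∑ l, c l • a l).toMul = ∏ l, (a l).toMul ^ c l := by
    intro c
    rw [toMul_sum]
    rfl
  refine ⟨r, fun j => (a j).toMul, k, ⟨hk, hmem, fun n j hn hl hd => ?_⟩, ?_⟩
  · refine hind n j hn hl ?_
    rw [hF, hsum]
    exact hd
  · rw [eq_top_iff]
    intro b _
    have h3 : Additive.ofMul b ∈ Submodule.span ℤ (Set.range a) := by
      rw [hspan]
      exact Submodule.mem_top
    obtain ⟨c, hc⟩ := (Submodule.mem_span_range_iff_exists_fun ℤ).1 h3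
    have h4 : b = ∏ l, (a l).toMul ^ c l := by
      rw [← hsum, hc]
      rfl
    rw [h4]
    exact Subgroup.prod_mem _ fun l _ => Subgroup.zpow_mem _
      (Subgroup.subset_closure (k := Set.range fun j => (a j).toMul) ⟨l, rfl⟩) _

theorem Ad.of_ord {N : Type} [Group N] {w : N → ℕ} {B : Type} [CommGroup B] {α β : B →* N} {r : ℕ}
    {a : Fin r → B} {k : Fin r → ℕ} (h : Ad w α a k)
    (hab : ∀ b, b ≠ 1 → ∃ k, HasOrd w (α b) k ∧ HasOrd w (β b) k) : Ad w β a k := by
  have hiff : ∀ b d, dl (α b) ∈ Fw w d ↔ dl (β b) ∈ Fw w d := by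
    intro b d
    by_cases hb : b = 1
    · rw [hb, map_one, map_one]
    · obtain ⟨k, h1, h2⟩ := hab b hb
      rw [h1.iff, h2.iff]
  exact ⟨h.mono, fun j => (hiff _ _).1 (h.mem j), fun n j hn hl hd => h.ind n j hn hl ((hiff _ _).2 hd)⟩

theorem mem_sub {M : Type} [Group M] {w : M → ℕ} {g : M} {k : ℕ} (h : dl g ∈ Fw w k) :
    ∃ T : Finset M, ∀ H : Subgroup M, (T : Set M) ⊆ H → ∀ hg : g ∈ H,
      dl (⟨g, hg⟩ : H) ∈ Fw (fun x : H => w x) k := by
  classical
  have key : ∀ x ∈ Fw w k, ∃ T : Finset M, ∀ H : Subgroup M, (T : Set M) ⊆ H →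
      ∃ y ∈ Fw (fun x : H => w x) k, emb H y = x := by
    intro x hx
    induction hx using Submodule.span_induction with
    | mem x hx =>
      obtain ⟨L, hL, rfl⟩ := hx
      refine ⟨L.toFinset, fun H hH => ?_⟩
      have h1 : ∀ g ∈ L, g ∈ H := fun g hg => hH (by simpa using hg)
      refine ⟨((L.attach.map fun g => (⟨g.1, h1 g.1 g.2⟩ : H)).map dl).prod,
        Submodule.subset_span ⟨_, ?_, rfl⟩, ?_⟩
      · rw [List.map_map]
        have h2 : (L.attach.map fun g => w g.1) = L.map w := by simp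
        exact hL.trans (le_of_eq (congrArg List.sum h2.symm))
      · rw [map_list_prod, List.map_map, List.map_map]
        congr 1
        have h2 : (L.attach.map fun g => dl g.1) = L.map dl := by simp
        rw [← h2]
        refine List.map_congr_left fun g _ => ?_
        exact emb_dl H _
    | zero => exact ⟨∅, fun H _ => ⟨0, Submodule.zero_mem _, map_zero _⟩⟩
    | add x y _ _ ihx ihy =>
      obtain ⟨T, hT⟩ := ihx
      obtain ⟨T', hT'⟩ := ihy
      refine ⟨T ∪ T', fun H hH => ?_⟩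
      rw [Finset.coe_union, Set.union_subset_iff] at hH
      obtain ⟨u, hu, rfl⟩ := hT H hH.1
      obtain ⟨v, hv, rfl⟩ := hT' H hH.2
      exact ⟨u + v, Submodule.add_mem _ hu hv, map_add _ _ _⟩
    | smul r x _ ihx =>
      obtain ⟨T, hT⟩ := ihx
      refine ⟨T, fun H hH => ?_⟩
      obtain ⟨u, hu, rfl⟩ := hT H hH
      exact ⟨r • u, Submodule.smul_mem _ _ hu, map_smul _ _ _⟩
  obtain ⟨T, hT⟩ := key _ h
  refine ⟨T, fun H hH hg => ?_⟩
  obtain ⟨y, hy, hyx⟩ := hT H hH
  have h2 : emb H y = emb H (dl ⟨g, hg⟩) := by rw [hyx, emb_dl]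
  rw [← emb_inj H h2]
  exact hy

/-- adapted families in subgroups -/
theorem Ad.sub {M : Type} [Group M] {w : M → ℕ} {B : Type} [CommGroup B] {α : B →* M} {r : ℕ}
    {a : Fin r → B} {k : Fin r → ℕ} (h : Ad w α a k) : ∃ T : Finset M, ∀ H : Subgroup M,
      (T : Set M) ⊆ H → ∀ α' : B →* H, (∀ b, (α' b : M) = α b) →
        Ad (fun x : H => w x) α' a k := by
  classical
  have h1 : ∀ j, ∃ T : Finset M, ∀ H : Subgroup M, (T : Set M) ⊆ H → ∀ hg : α (a j) ∈ H,
      dl (⟨α (a j), hg⟩ : H) ∈ Fw (fun x : H => w x) (k j) := fun j => mem_sub (h.mem j)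
  choose T hT using h1
  refine ⟨Finset.univ.biUnion T, fun H hH α' hα' => ⟨h.mono, fun j => ?_, fun n j hn hl hd => ?_⟩⟩
  · have h2 : α (a j) ∈ H := by
      rw [← hα']
      exact (α' (a j)).2
    have h3 : α' (a j) = ⟨α (a j), h2⟩ := Subtype.ext (hα' _)
    rw [h3]
    exact hT j H (fun x hx => hH (Finset.mem_coe.2 (Finset.mem_biUnion.2 ⟨j, Finset.mem_univ j, hx⟩))) h2
  · refine h.ind n j hn hl ?_
    have h2 := emb_Fw H w _ hd
    rwa [emb_dl, hα'] at h2

/-- the case of a finitely generated base group -/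
theorem fg_ab {C : ∀ (G : Type) [Group G], Prop} (hC : ClosedE C)
    (hgl : ∀ n : ℕ, C (Matrix (Fin n) (Fin n) ℚ)ˣ) {N : Type} [Group N] (hfg : Group.FG N)
    (hN : C N) {I : Type} {B : I → Type} [∀ i, CommGroup (B i)] (α β : ∀ i, B i →* N)
    (J : Finset I) (hJ : ∀ i, i ∉ J → ∀ b : B i, b = 1) (w : N → ℕ) (hw : ∀ g, 1 ≤ w g)
    (h : ∀ i ∈ J, ∃ (r : ℕ) (a : Fin r → B i) (k : Fin r → ℕ), Ad w (α i) a k ∧ Ad w (β i) a k ∧
      Subgroup.closure (Set.range a) = ⊤) : C (MH α β) := by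
  classical
  choose r a k h1 h2 h3 using h
  let c : ℕ := J.attach.sup fun i => Finset.univ.sup (k i.1 i.2)
  have hc : ∀ i (hi : i ∈ J) j, k i hi j + 1 ≤ c + 1 := fun i hi j => Nat.succ_le_succ
    ((Finset.le_sup (f := k i hi) (Finset.mem_univ j)).trans
      (Finset.le_sup (f := fun i : J => Finset.univ.sup (k i.1 i.2)) (Finset.mem_attach J ⟨i, hi⟩)))
  have hfd := fd_Pj w hfg hw (c + 1)
  have hT : ∀ i, ∃ T : (Module.End ℚ (Pj w (c + 1)))ˣ,
      i ∈ J → ∀ b, T * rho w (c + 1) (α i b) * T⁻¹ = rho w (c + 1) (β i b) := by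
    intro i
    by_cases hi : i ∈ J
    · obtain ⟨T, hT⟩ := Ad.conj hfg hw (h1 i hi) (h2 i hi) (h3 i hi) (c + 1)
      exact ⟨T, fun _ => hT⟩
    · exact ⟨1, fun h => absurd h hi⟩
  choose T hT using hT
  have hα : ∀ i, Function.Injective (α i) := by
    intro i
    rw [injective_iff_map_eq_one]
    intro b hb
    by_cases hi : i ∈ J
    · refine (h1 i hi).inj (h3 i hi) (hc i hi) ?_
      rw [hb, dl_one]
      exact Submodule.zero_mem _
    · exact hJ i hi b
  have hβ : ∀ i, Function.Injective (β i) := by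
    intro i
    rw [injective_iff_map_eq_one]
    intro b hb
    by_cases hi : i ∈ J
    · refine (h2 i hi).inj (h3 i hi) (hc i hi) ?_
      rw [hb, dl_one]
      exact Submodule.zero_mem _
    · exact hJ i hi b
  refine mh_loc _ _ hC hN hα hβ fun S hS => ?_
  refine ⟨_, inferInstance, rho w (c + 1), T, C_end hC.base hgl, ?_, ?_⟩
  · intro i b _
    by_cases hi : i ∈ J
    · exact hT i hi b
    · rw [hJ i hi b, map_one, map_one, map_one, mul_one, mul_inv_cancel, map_one]
  · intro i b _ hb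
    by_cases hi : i ∈ J
    · exact (h1 i hi).inj (h3 i hi) (hc i hi) (rho_eq_one w hb)
    · exact hJ i hi b

end Pool.Agent.R669.Wt
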