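import Pool.Agent.R669.Wt.Abc

/-!
# Reduction to finitely generated base groups and finitely generated associated subgroups
-/

set_option autoImplicit false

namespace Pool.Agent.R669.Wt

open Pool.Agent.Y110.FJ Pool.Agent.R779.FJ Pool.Agent.R942.FJ
open Pool.Agent.Y462.SS (Closed)

section red

variable {M : Type} [Group M] {I : Type} {B : I → Type} [∀ i, Group (B i)]

/-- the restriction of a family of homomorphisms -/
def rsA (α : ∀ i, B i →* M) (H : Subgroup M) (D : ∀ i, Subgroup (B i))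
    (h : ∀ i, ∀ b ∈ D i, α i b ∈ H) (i : I) : D i →* H :=
  ((α i).comp (D i).subtype).codRestrict H fun b => h i b b.2

theorem rsA_val (α : ∀ i, B i →* M) (H : Subgroup M) (D : ∀ i, Subgroup (B i))
    (h : ∀ i, ∀ b ∈ D i, α i b ∈ H) (i : I) (b : D i) : (rsA α H D h i b : M) = α i b := rfl

variable (α β : ∀ i, B i →* M) (C : ∀ (G : Type) [Group G], Prop)

/-- a finitely generated subgroup and finitely generated subgroups of finitely many associated
subgroups -/
structure Stg where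
  H : Subgroup M
  D : ∀ i, Subgroup (B i)
  ha : ∀ i, ∀ b ∈ D i, α i b ∈ H
  hb : ∀ i, ∀ b ∈ D i, β i b ∈ H
  fgH : H.FG
  fgD : ∀ i, (D i).FG
  fin : {i | D i ≠ ⊥}.Finite
  hC : C (MH (rsA α H D ha) (rsA β H D hb))

variable {α β C}

instance : Preorder (Stg α β C) where
  le s s' := s.H ≤ s'.H ∧ ∀ i, s.D i ≤ s'.D i
  le_refl s := ⟨le_rfl, fun _ => le_rfl⟩
  le_trans _ _ _ h h' := ⟨h.1.trans h'.1, fun i => (h.2 i).trans (h'.2 i)⟩

/-- the first family of a stage -/
abbrev Stg.a (s : Stg α β C) (i : I) : s.D i →* s.H := rsA α s.H s.D s.ha i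

/-- the second family of a stage -/
abbrev Stg.b (s : Stg α β C) (i : I) : s.D i →* s.H := rsA β s.H s.D s.hb i

/-- the group of a stage -/
abbrev Stg.X (s : Stg α β C) : Type := MH s.a s.b

/-- the transition maps -/
def Stg.f (s s' : Stg α β C) (h : s ≤ s') : s.X →* s'.X :=
  MH.lift ((MH.of s'.a s'.b).comp (Subgroup.inclusion h.1)) (fun i => MH.t s'.a s'.b i)
    (fun i b => MH.rel s'.a s'.b i (Subgroup.inclusion (h.2 i) b))

theorem Stg.f_of (s s' : Stg α β C) (h : s ≤ s') (m : s.H) :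
    Stg.f s s' h (MH.of s.a s.b m) = MH.of s'.a s'.b (Subgroup.inclusion h.1 m) := MH.lift_of _ _ _ m

theorem Stg.f_t (s s' : Stg α β C) (h : s ≤ s') (i : I) :
    Stg.f s s' h (MH.t s.a s.b i) = MH.t s'.a s'.b i := MH.lift_t _ _ _ i

instance : DirectedSystem (Stg.X (α := α) (β := β) (C := C)) (Stg.f · · ·) where
  map_self s x := by
    have : Stg.f s s le_rfl = MonoidHom.id _ := MH.hom_ext (fun m => Stg.f_of _ _ _ m)
      (fun i => Stg.f_t _ _ _ i)
    exact DFunLike.congr_fun this x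
  map_map s'' s' s h h' x := by
    have : (Stg.f s' s'' h').comp (Stg.f s s' h) = Stg.f s s'' (h.trans h') := by
      apply MH.hom_ext
      · intro m
        rw [MonoidHom.comp_apply, Stg.f_of, Stg.f_of, Stg.f_of]
        rfl
      · intro i
        rw [MonoidHom.comp_apply, Stg.f_t, Stg.f_t, Stg.f_t]
    exact DFunLike.congr_fun this x

/-- the map from a stage to the group -/
def Stg.g (s : Stg α β C) : s.X →* MH α β :=
  MH.lift ((MH.of α β).comp s.H.subtype) (fun i => MH.t α β i) (fun i b => MH.rel α β i b)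

theorem Stg.g_of (s : Stg α β C) (m : s.H) : s.g (MH.of s.a s.b m) = MH.of α β m := MH.lift_of _ _ _ m

theorem Stg.g_t (s : Stg α β C) (i : I) : s.g (MH.t s.a s.b i) = MH.t α β i := MH.lift_t _ _ _ i

theorem Stg.g_f (s s' : Stg α β C) (h : s ≤ s') (x : s.X) : s.g x = s'.g (Stg.f s s' h x) := by
  have : s.g = s'.g.comp (Stg.f s s' h) := by
    apply MH.hom_ext
    · intro m
      rw [MonoidHom.comp_apply, Stg.f_of, Stg.g_of, Stg.g_of]
      rfl
    · intro i
      rw [MonoidHom.comp_apply, Stg.f_t, Stg.g_t, Stg.g_t]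
  exact DFunLike.congr_fun this x

/-- the map from the limit to the group -/
noncomputable def Stg.Psi [Nonempty (Stg α β C)] [IsDirectedOrder (Stg α β C)] :
    DirectLimit (Stg.X (α := α) (β := β) (C := C)) Stg.f →* MH α β :=
  MonoidHom.mk' (DirectLimit.lift Stg.f (fun s x => s.g x) (fun s s' h x => Stg.g_f s s' h x))
    (fun x y => DirectLimit.lift_mul (f := Stg.f (α := α) (β := β) (C := C))
      (fun s : Stg α β C => s.g) _ x y)

theorem Stg.Psi_mk [Nonempty (Stg α β C)] [IsDirectedOrder (Stg α β C)] (s : Stg α β C)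
    (x : s.X) : Stg.Psi (⟦⟨s, x⟩⟧ : DirectLimit (Stg.X (α := α) (β := β) (C := C)) Stg.f) =
      s.g x := rfl

/-- **reduction to finitely generated base groups** -/
theorem fg_red' (hC : Closed C)
    (h : ∀ (H0 : Subgroup M) (D : ∀ i, Subgroup (B i)), H0.FG → (∀ i, (D i).FG) →
      {i | D i ≠ ⊥}.Finite → ∃ H : Subgroup M, H.FG ∧ H0 ≤ H ∧
      ∃ (ha : ∀ i, ∀ b ∈ D i, α i b ∈ H) (hb : ∀ i, ∀ b ∈ D i, β i b ∈ H),
        C (MH (rsA α H D ha) (rsA β H D hb))) :
    C (MH α β) := by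
  classical
  have hex : ∀ (H0 : Subgroup M) (D : ∀ i, Subgroup (B i)), H0.FG → (∀ i, (D i).FG) →
      {i | D i ≠ ⊥}.Finite → ∃ s : Stg α β C, H0 ≤ s.H ∧ s.D = D := by
    intro H0 D hH0 hD hf
    obtain ⟨H, hH, hle, ha, hb, hh⟩ := h H0 D hH0 hD hf
    exact ⟨⟨H, D, ha, hb, hH, hD, hf, hh⟩, hle, rfl⟩
  have hbot : (⊥ : Subgroup M).FG := ⟨∅, by simp⟩
  have hbotD : ∀ i, ((fun i => ⊥ : ∀ i, Subgroup (B i)) i).FG := fun i => ⟨∅, by simp⟩
  have hbotf : {i | (fun i => ⊥ : ∀ i, Subgroup (B i)) i ≠ ⊥}.Finite := by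
    simp
  have hne : Nonempty (Stg α β C) := by
    obtain ⟨s, _⟩ := hex ⊥ _ hbot hbotD hbotf
    exact ⟨s⟩
  have hdir : IsDirectedOrder (Stg α β C) := ⟨by
    intro s s'
    obtain ⟨s'', h1, h2⟩ := hex (s.H ⊔ s'.H) (fun i => s.D i ⊔ s'.D i) (s.fgH.sup s'.fgH)
      (fun i => (s.fgD i).sup (s'.fgD i)) ((s.fin.union s'.fin).subset fun i hi => by
        by_contra h3
        rw [Set.mem_union, not_or] at h3
        apply hi
        rw [show s.D i = ⊥ from not_not.1 h3.1, show s'.D i = ⊥ from not_not.1 h3.2, sup_bot_eq])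
    exact ⟨s'', ⟨le_sup_left.trans h1, fun i => by rw [h2]; exact le_sup_left⟩,
      ⟨le_sup_right.trans h1, fun i => by rw [h2]; exact le_sup_right⟩⟩⟩
  let L : Type := DirectLimit (Stg.X (α := α) (β := β) (C := C)) Stg.f
  have hL : C L := C_dl hC (Stg.X (α := α) (β := β) (C := C)) Stg.f fun s => s.hC
  -- stages containing given elements
  have hcl : ∀ T : Finset M, (Subgroup.closure (T : Set M)).FG := fun T => ⟨T, rfl⟩
  have hst : ∀ m : M, ∃ s : Stg α β C, m ∈ s.H := by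
    intro m
    obtain ⟨s, hs, _⟩ := hex (Subgroup.closure (({m} : Finset M) : Set M)) _ (hcl _) hbotD hbotf
    exact ⟨s, hs (Subgroup.subset_closure (by simp))⟩
  choose st hst using hst
  let u : M → L := fun m => ⟦⟨st m, MH.of _ _ ⟨m, hst m⟩⟩⟧
  have hu : ∀ (s : Stg α β C) (m : M) (hm : m ∈ s.H), u m = ⟦⟨s, MH.of s.a s.b ⟨m, hm⟩⟩⟧ := by
    intro s m hm
    obtain ⟨s', h1, h2⟩ := exists_ge_ge (st m) s
    have h3 := DirectLimit.mk_apply (f := Stg.f (α := α) (β := β) (C := C)) (st m) s'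
      (MH.of _ _ ⟨m, hst m⟩) h1
    have h4 := DirectLimit.mk_apply (f := Stg.f (α := α) (β := β) (C := C)) s s'
      (MH.of _ _ ⟨m, hm⟩) h2
    show (⟦⟨st m, MH.of _ _ ⟨m, hst m⟩⟩⟧ : L) = _
    rw [← h3, ← h4, Stg.f_of, Stg.f_of]
    rfl
  let U : M →* L :=
    { toFun := u
      map_one' := by
        rw [hu (st 1) 1 (st 1).H.one_mem]
        have h1 : (⟨1, (st 1).H.one_mem⟩ : (st 1).H) = 1 := rfl
        rw [h1, map_one]
        exact (DirectLimit.one_def _).symm
      map_mul' := fun x y => by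
        obtain ⟨s, h1, h2⟩ := exists_ge_ge (st x) (st y)
        have hx : x ∈ s.H := h1.1 (hst x)
        have hy : y ∈ s.H := h2.1 (hst y)
        rw [hu s x hx, hu s y hy, hu s (x * y) (s.H.mul_mem hx hy), DirectLimit.mul_def, ← map_mul]
        rfl }
  let s0 : Stg α β C := hne.some
  let v : I → L := fun i => ⟦⟨s0, MH.t _ _ i⟩⟧
  have hv : ∀ (s : Stg α β C) (i : I), v i = ⟦⟨s, MH.t s.a s.b i⟩⟧ := by
    intro s i
    obtain ⟨s', h1, h2⟩ := exists_ge_ge s0 s
    have h3 := DirectLimit.mk_apply (f := Stg.f (α := α) (β := β) (C := C)) s0 s'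
      (MH.t _ _ i) h1
    have h4 := DirectLimit.mk_apply (f := Stg.f (α := α) (β := β) (C := C)) s s'
      (MH.t _ _ i) h2
    show (⟦⟨s0, MH.t _ _ i⟩⟧ : L) = _
    rw [← h3, ← h4, Stg.f_t, Stg.f_t]
  have hsb : ∀ (i : I) (b : B i), ∃ s : Stg α β C, b ∈ s.D i := by
    intro i b
    have hbf : {j | Function.update (fun i => ⊥ : ∀ i, Subgroup (B i)) i (Subgroup.zpowers b) j ≠
        ⊥}.Finite := by
      refine (Set.finite_singleton i).subset fun j hj => ?_
      by_contra hji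
      apply hj
      rw [Function.update_of_ne hji]
    obtain ⟨s, _, hs⟩ := hex ⊥ (Function.update (fun i => ⊥) i (Subgroup.zpowers b)) hbot
      (fun j => by
        by_cases hji : j = i
        · subst hji
          rw [Function.update_self]
          exact ⟨{b}, by rw [Finset.coe_singleton, ← Subgroup.zpowers_eq_closure]⟩
        · rw [Function.update_of_ne hji]
          exact ⟨∅, by simp⟩) hbf
    refine ⟨s, ?_⟩
    rw [hs, Function.update_self]
    exact Subgroup.mem_zpowers b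
  let Θ : MH α β →* L := MH.lift U v (by
    intro i b
    show v i * u (α i b) * (v i)⁻¹ = u (β i b)
    obtain ⟨s, hs⟩ := hsb i b
    rw [hv s i, hu s (α i b) (s.ha i b hs), hu s (β i b) (s.hb i b hs), DirectLimit.inv_def,
      DirectLimit.mul_def, DirectLimit.mul_def]
    have h1 := MH.rel s.a s.b i ⟨b, hs⟩
    have h2 : s.a i ⟨b, hs⟩ = ⟨α i b, s.ha i b hs⟩ := rfl
    have h3 : s.b i ⟨b, hs⟩ = ⟨β i b, s.hb i b hs⟩ := rfl
    rw [h2, h3] at h1
    rw [h1])
  -- the map back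
  have hΨΘ : (Stg.Psi (α := α) (β := β) (C := C)).comp Θ = MonoidHom.id _ := by
    apply MH.hom_ext
    · intro m
      rw [MonoidHom.comp_apply, show Θ (MH.of α β m) = u m from MH.lift_of _ _ _ m]
      exact (Stg.Psi_mk _ _).trans (Stg.g_of _ _)
    · intro i
      rw [MonoidHom.comp_apply, show Θ (MH.t α β i) = v i from MH.lift_t _ _ _ i]
      exact (Stg.Psi_mk _ _).trans (Stg.g_t _ _)
  exact hC.of_injective _ L Θ (Function.LeftInverse.injective
    (g := (Stg.Psi (α := α) (β := β) (C := C))) fun x => DFunLike.congr_fun hΨΘ x) hL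

end red

/-- for every finite set of indices there are weights for which `α i b` and `β i b` have the same finite
order, for all these indices `i` and all `b ≠ 1` -/
def SameOrdA {M : Type} [Group M] {I : Type} {B : I → Type} [∀ i, Group (B i)]
    (α β : ∀ i, B i →* M) : Prop :=
  ∀ J : Finset I, ∃ w : M → ℕ, (∀ g, 1 ≤ w g) ∧
    ∀ i ∈ J, ∀ b : B i, b ≠ 1 → ∃ k, HasOrd w (α i b) k ∧ HasOrd w (β i b) k

/-- **multiple HNN extensions along abelian groups whose embeddings preserve the orders** -/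
theorem mh_ab {C : ∀ (G : Type) [Group G], Prop} (hC : ClosedE C)
    (hgl : ∀ n : ℕ, C (Matrix (Fin n) (Fin n) ℚ)ˣ) {M : Type} [Group M] (hM : C M) {I : Type}
    {B : I → Type} [∀ i, CommGroup (B i)] (α β : ∀ i, B i →* M) (h : SameOrdA α β) :
    C (MH α β) := by
  classical
  refine fg_red' hC.base fun H0 D hH0 hD hf => ?_
  let J : Finset I := hf.toFinset
  have hJ : ∀ i, i ∉ J → D i = ⊥ := by
    intro i hi
    by_contra h1
    exact hi (hf.mem_toFinset.2 h1)
  obtain ⟨w, hw, hk⟩ := h J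
  have h1 : ∀ i : J, ∃ (r : ℕ) (a : Fin r → D i) (k : Fin r → ℕ) (T : Finset M),
      Subgroup.closure (Set.range a) = ⊤ ∧ ∀ H : Subgroup M, (T : Set M) ⊆ H →
        (∀ b ∈ D i, α i b ∈ H ∧ β i b ∈ H) ∧ ∀ α' β' : D i →* H,
          (∀ b, (α' b : M) = α i b) → (∀ b, (β' b : M) = β i b) →
            Ad (fun x : H => w x) α' a k ∧ Ad (fun x : H => w x) β' a k := by
    intro i
    have h2 : ∀ b : D i, b ≠ 1 → ∃ k, HasOrd w ((α i).comp (D i).subtype b) k ∧
        HasOrd w ((β i).comp (D i).subtype b) k := fun b hb =>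
      hk i i.2 b fun h3 => hb (Subtype.ext h3)
    obtain ⟨r, a, k, hk1, hgen⟩ := exists_ad hw ((Group.fg_iff_subgroup_fg _).2 (hD i))
      ((α i).comp (D i).subtype) fun b hb => by
        obtain ⟨k, hk, _⟩ := h2 b hb
        exact ⟨k, hk⟩
    have hk2 := hk1.of_ord h2
    obtain ⟨Ta, hTa⟩ := hk1.sub
    obtain ⟨Tb, hTb⟩ := hk2.sub
    refine ⟨r, a, k, Ta ∪ Tb ∪ Finset.univ.image (fun j => α i (a j)) ∪
      Finset.univ.image (fun j => β i (a j)), hgen, fun H hH => ⟨?_, fun α' β' hα' hβ' => ⟨?_, ?_⟩⟩⟩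
    · have h3 : ∀ b : D i, α i b ∈ H ∧ β i b ∈ H := by
        intro b
        have hb : b ∈ Subgroup.closure (Set.range a) := by
          rw [hgen]
          exact Subgroup.mem_top b
        induction hb using Subgroup.closure_induction with
        | mem x hx =>
          obtain ⟨j, rfl⟩ := hx
          exact ⟨hH (by simp), hH (by simp)⟩
        | one => exact ⟨by simp, by simp⟩
        | mul x y _ _ hx hy =>
          rw [Subgroup.coe_mul, map_mul, map_mul]
          exact ⟨H.mul_mem hx.1 hy.1, H.mul_mem hx.2 hy.2⟩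
        | inv x _ hx =>
          rw [Subgroup.coe_inv, map_inv, map_inv]
          exact ⟨H.inv_mem hx.1, H.inv_mem hx.2⟩
      exact fun b hb => h3 ⟨b, hb⟩
    · exact hTa H (fun x hx => hH (by
        rw [Finset.coe_union, Finset.coe_union, Finset.coe_union]
        exact Or.inl (Or.inl (Or.inl hx)))) α' hα'
    · exact hTb H (fun x hx => hH (by
        rw [Finset.coe_union, Finset.coe_union, Finset.coe_union]
        exact Or.inl (Or.inl (Or.inr hx)))) β' hβ'
  choose r a k T hgen hT using h1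
  let T0 : Finset M := Finset.univ.biUnion T
  let H : Subgroup M := H0 ⊔ Subgroup.closure (T0 : Set M)
  have hTH : ∀ i : J, (T i : Set M) ⊆ H := fun i x hx =>
    Subgroup.mem_sup_right (Subgroup.subset_closure (Finset.mem_coe.2
      (Finset.mem_biUnion.2 ⟨i, Finset.mem_univ i, hx⟩)))
  have hab : ∀ i, ∀ b ∈ D i, α i b ∈ H ∧ β i b ∈ H := by
    intro i b hb
    by_cases hi : i ∈ J
    · exact (hT ⟨i, hi⟩ H (hTH ⟨i, hi⟩)).1 b hb
    · rw [hJ i hi] at hb
      rw [Subgroup.mem_bot.1 hb, map_one, map_one]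
      exact ⟨H.one_mem, H.one_mem⟩
  have hHfg : H.FG := hH0.sup ⟨T0, rfl⟩
  refine ⟨H, hHfg, le_sup_left, fun i b hb => (hab i b hb).1, fun i b hb => (hab i b hb).2, ?_⟩
  refine fg_ab hC hgl ((Group.fg_iff_subgroup_fg H).2 hHfg)
    (hC.base.of_injective _ _ H.subtype H.subtype_injective hM) _ _ J (fun i hi b => ?_)
    (fun x : H => w x) (fun g => hw g) fun i hi => ?_
  · have h2 : (b : B i) ∈ (⊥ : Subgroup (B i)) := by
      rw [← hJ i hi]
      exact b.2
    exact Subtype.ext (Subgroup.mem_bot.1 h2)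
  · have h2 := (hT ⟨i, hi⟩ H (hTH ⟨i, hi⟩)).2 (rsA α H D (fun i b hb => (hab i b hb).1) i)
      (rsA β H D (fun i b hb => (hab i b hb).2) i) (fun b => rfl) (fun b => rfl)
    exact ⟨r ⟨i, hi⟩, a ⟨i, hi⟩, k ⟨i, hi⟩, h2.1, h2.2, hgen ⟨i, hi⟩⟩

end Pool.Agent.R669.Wt
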