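import Pool.Agent.R669.Wt.Gog
import Pool.Agent.R669.Wt.Uni

/-!
# Balanced graphs of groups
-/

set_option autoImplicit false

namespace Pool.Agent.R669.Wt

open Pool.Agent.Y110.FJ Pool.Agent.R779.FJ Pool.Agent.R942.FJ

/-- for every finite set of indices there are weights for which `a i` and `b i` have the same finite
order, for all these indices `i` -/
def SameOrd {M : Type} [Group M] {I : Type} (a b : I → M) : Prop :=
  ∀ J : Finset I, ∃ w : M → ℕ, (∀ g, 1 ≤ w g) ∧
    ∀ i ∈ J, ∃ k, HasOrd w (a i) k ∧ HasOrd w (b i) k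

/-- there are weights on the vertex groups for which the elements `x e` and `y e` have finite orders
`k e` and `l e`, and positive rational numbers `r v` with `r (o e) * k e = r (t e) * l e` for all edges -/
def Balanced {Vt E : Type} {G : Vt → Type} [∀ v, Group (G v)] (o t : E → Vt)
    (x : ∀ e, G (o e)) (y : ∀ e, G (t e)) : Prop :=
  ∃ (w : ∀ v, G v → ℕ) (k l : E → ℕ) (r : Vt → ℚ), (∀ v g, 1 ≤ w v g) ∧ (∀ v, 0 < r v) ∧
    ∀ e, HasOrd (w (o e)) (x e) (k e) ∧ HasOrd (w (t e)) (y e) (l e) ∧
      r (o e) * k e = r (t e) * l e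

/-- a forest in which the edges are oriented away from the roots: every vertex is the end of at most
one edge, and the height of the end of an edge is the height of its origin plus one -/
def Forest {Vt E : Type} (o t : E → Vt) : Prop :=
  Function.Injective t ∧ ∃ q : Vt → ℕ, ∀ e, q (t e) = q (o e) + 1

/-- `x - 1` is not contained in all powers of the augmentation ideal -/
def FinOrd {G : Type} [Group G] (x : G) : Prop := ∃ k, HasOrd (fun _ : G => 1) x k

theorem forest_balanced {Vt E : Type} {G : Vt → Type} [∀ v, Group (G v)] (o t : E → Vt)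
    (x : ∀ e, G (o e)) (y : ∀ e, G (t e)) (h : Forest o t)
    (hxy : ∀ e, FinOrd (x e) ∧ FinOrd (y e)) : Balanced o t x y := by
  classical
  obtain ⟨ht, q, hq⟩ := h
  have hx : ∀ e, ∃ k, HasOrd (fun _ : G (o e) => 1) (x e) k := fun e => (hxy e).1
  have hy : ∀ e, ∃ k, HasOrd (fun _ : G (t e) => 1) (y e) k := fun e => (hxy e).2
  choose k hk using hx
  choose l hl using hy
  have hk1 : ∀ e, 1 ≤ k e := fun e => (hk e).pos (fun _ => le_rfl)
  have hl1 : ∀ e, 1 ≤ l e := fun e => (hl e).pos (fun _ => le_rfl)
  let stp : ∀ v, (∀ u, q u < q v → ℚ) → ℚ := fun v rec =>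
    if h : ∃ e, t e = v then
      rec (o h.choose) (by
        have h1 := hq h.choose
        rw [h.choose_spec] at h1
        omega) *
        (k h.choose / l h.choose : ℚ)
    else 1
  let r : Vt → ℚ := WellFounded.fix (measure q).wf stp
  have hr : ∀ v, r v = stp v fun u _ => r u := fun v => WellFounded.fix_eq _ _ v
  have hre : ∀ e, r (t e) = r (o e) * (k e / l e : ℚ) := by
    intro e
    rw [hr (t e)]
    have h : ∃ e', t e' = t e := ⟨e, rfl⟩
    show (if h : ∃ e', t e' = t e then r (o h.choose) * (k h.choose / l h.choose : ℚ) else 1) = _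
    rw [dif_pos h, ht h.choose_spec]
  have hpos : ∀ n v, q v = n → 0 < r v := by
    intro n
    induction n with
    | zero =>
      intro v hv
      rw [hr v]
      have h : ¬ ∃ e, t e = v := by
        rintro ⟨e, rfl⟩
        rw [hq] at hv
        omega
      show 0 < (if h : ∃ e', t e' = v then r (o h.choose) * (k h.choose / l h.choose : ℚ) else 1)
      rw [dif_neg h]
      exact one_pos
    | succ n ih =>
      intro v hv
      by_cases h : ∃ e, t e = v
      · obtain ⟨e, rfl⟩ := h
        rw [hre]
        have h1 := ih (o e) (by rw [hq] at hv; omega)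
        have h2 : (0 : ℚ) < k e := by exact_mod_cast hk1 e
        have h3 : (0 : ℚ) < l e := by exact_mod_cast hl1 e
        positivity
      · rw [hr v]
        show 0 < (if h : ∃ e', t e' = v then r (o h.choose) * (k h.choose / l h.choose : ℚ) else 1)
        rw [dif_neg h]
        exact one_pos
  refine ⟨fun v _ => 1, k, l, r, fun _ _ => le_rfl, fun v => hpos _ v rfl,
    fun e => ⟨hk e, hl e, ?_⟩⟩
  have h3 : (l e : ℚ) ≠ 0 := by
    have := hl1 e
    positivity
  rw [hre]
  field_simp

theorem balanced_gog {C : ∀ (G : Type) [Group G], Prop} (hC : ClosedE C)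
    (hgl : ∀ n : ℕ, C (Matrix (Fin n) (Fin n) ℚ)ˣ) {Vt E : Type} {G : Vt → Type}
    [∀ v, Group (G v)] (o t : E → Vt) (x : ∀ e, G (o e)) (y : ∀ e, G (t e)) (hG : ∀ v, C (G v))
    (h : Balanced o t x y) : C (GG o t x y) := by
  obtain ⟨w, k, l, r, hw, hr, h⟩ := h
  exact gog o t x y hC hgl hG w hw k l (fun e => (h e).1) (fun e => (h e).2.1) r hr
    (fun e => (h e).2.2)

end Pool.Agent.R669.Wt
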