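import Pool.Agent.R669.Wt.Abd
import Pool.Agent.R669.Wt.Main

/-!
# Graphs of groups whose edge groups are embedded with proportional orders
-/

set_option autoImplicit false

namespace Pool.Agent.R669.Wt

open Pool.Agent.Y110.FJ Pool.Agent.R779.FJ Pool.Agent.R942.FJ

section graph

variable {Vt E : Type} {G : Vt → Type} [∀ v, Group (G v)] {B : E → Type} [∀ e, Group (B e)]
  (o t : E → Vt) (a : ∀ e, B e →* G (o e)) (b : ∀ e, B e →* G (t e))

/-- there are weights on the vertex groups and positive rational numbers `r v` such that for all edges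
`e` and all `x ≠ 1` in the edge group the images of `x` in the two vertex groups have finite orders
`k` and `l` with `r (o e) * k = r (t e) * l` -/
def BalancedE : Prop :=
  ∃ (w : ∀ v, G v → ℕ) (r : Vt → ℚ), (∀ v g, 1 ≤ w v g) ∧ (∀ v, 0 < r v) ∧
    ∀ e, ∀ x : B e, x ≠ 1 → ∃ k l : ℕ, HasOrd (w (o e)) (a e x) k ∧ HasOrd (w (t e)) (b e x) l ∧
      r (o e) * k = r (t e) * l

theorem nat_weights (r : Vt → ℚ) (hr0 : ∀ v, 0 < r v) (J : Finset E) :
    ∃ n : Vt → ℕ, (∀ v, 1 ≤ n v) ∧ ∀ e ∈ J, ∀ k l : ℕ, r (o e) * k = r (t e) * l →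
      n (o e) * k = n (t e) * l := by
  classical
  let V : Finset Vt := J.image o ∪ J.image t
  let D : ℕ := ∏ v ∈ V, (r v).den
  have hD : 0 < D := Finset.prod_pos fun v _ => (r v).den_pos
  have hnat : ∀ v ∈ V, ∃ n : ℕ, (n : ℚ) = D * r v := by
    intro v hv
    obtain ⟨m, hm⟩ : (r v).den ∣ D := Finset.dvd_prod_of_mem _ hv
    refine ⟨m * (r v).num.toNat, ?_⟩
    have h1 : (((r v).num.toNat : ℕ) : ℚ) = (r v).num := by
      have : (((r v).num.toNat : ℕ) : ℤ) = (r v).num := Int.toNat_of_nonneg (Rat.num_pos.2 (hr0 v)).le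
      exact_mod_cast this
    have h2 : (r v) * (r v).den = (r v).num := Rat.mul_den_eq_num (r v)
    rw [hm]
    push_cast
    rw [h1, ← h2]
    ring
  have hex : ∀ v, ∃ n : ℕ, 1 ≤ n ∧ (v ∈ V → (n : ℚ) = D * r v) := by
    intro v
    by_cases hv : v ∈ V
    · obtain ⟨n, hn⟩ := hnat v hv
      refine ⟨n, ?_, fun _ => hn⟩
      have h1 : (0 : ℚ) < n := by
        rw [hn]
        have := hr0 v
        positivity
      exact_mod_cast h1
    · exact ⟨1, le_rfl, fun h => absurd h hv⟩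
  choose n hn1 hn using hex
  refine ⟨n, hn1, fun e he k l hkl => ?_⟩
  have h1 := hn (o e) (Finset.mem_union_left _ (Finset.mem_image_of_mem o he))
  have h2 := hn (t e) (Finset.mem_union_right _ (Finset.mem_image_of_mem t he))
  have h3 : ((n (o e) * k : ℕ) : ℚ) = (n (t e) * l : ℕ) := by
    push_cast
    rw [h1, h2, mul_assoc, mul_assoc, hkl]
  exact_mod_cast h3

theorem BalancedE.same (h : BalancedE o t a b) :
    SameOrdA (M := Monoid.CoprodI G) (fun e => Monoid.CoprodI.of.comp (a e))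
      (fun e => Monoid.CoprodI.of.comp (b e)) := by
  obtain ⟨w, r, hw, hr, h⟩ := h
  intro J
  obtain ⟨n, hn1, hn⟩ := nat_weights o t r hr J
  let w' : ∀ v, G v → ℕ := fun v g => n v * w v g
  have hw' : ∀ v g, 1 ≤ w' v g := fun v g => Nat.mul_pos (hn1 v) (hw v g)
  refine ⟨wf w', wf_pos w' hw', fun e he x hx => ?_⟩
  obtain ⟨k, l, hk, hl, hkl⟩ := h e x hx
  refine ⟨n (o e) * k, HasOrd.free w' hw' (hk.scale (n (o e)) (hn1 _)), ?_⟩
  rw [hn e he k l hkl]
  exact HasOrd.free w' hw' (hl.scale (n (t e)) (hn1 _))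

end graph

section cyc

theorem HasOrd.zpow {M : Type} [Group M] {w : M → ℕ} (hw : ∀ g, 1 ≤ w g) {g : M} {k : ℕ}
    (h : HasOrd w g k) {n : ℤ} (hn : n ≠ 0) : HasOrd w (g ^ n) k :=
  ⟨(dl_zpow_mod w hw h.1 n).1, fun h' => hn (dl_zpow w hw h.1 h.2 n h')⟩

/-- the cyclic case -/
theorem Balanced.toE {Vt E : Type} {G : Vt → Type} [∀ v, Group (G v)] {o t : E → Vt}
    {x : ∀ e, G (o e)} {y : ∀ e, G (t e)} (h : Balanced o t x y) :
    BalancedE o t (fun e => zpowersHom (G (o e)) (x e)) (fun e => zpowersHom (G (t e)) (y e)) := by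
  obtain ⟨w, k, l, r, hw, hr, h⟩ := h
  refine ⟨w, r, hw, hr, fun e n hn => ⟨k e, l e, ?_, ?_, (h e).2.2⟩⟩
  · rw [zpowersHom_apply]
    exact (h e).1.zpow (hw _) (fun h0 => hn (Multiplicative.toAdd.injective h0))
  · rw [zpowersHom_apply]
    exact (h e).2.1.zpow (hw _) (fun h0 => hn (Multiplicative.toAdd.injective h0))

end cyc

end Pool.Agent.R669.Wt
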