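import Pool.Agent.R669.Wt.Rep
import Pool.Agent.R942.FJ.Mab

/-!
# Multiple HNN extensions of finitely generated groups along infinite cyclic groups of equal weight
-/

set_option autoImplicit false

namespace Pool.Agent.R669.Wt

open Pool.Agent.Y110.FJ Pool.Agent.R779.FJ Pool.Agent.R942.FJ

/-- the multiple HNN extension `⟨M, t_i | t_i a_i t_i⁻¹ = b_i⟩` -/
abbrev CH {M : Type} [Group M] {I : Type} (a b : I → M) : Type :=
  MH (fun i => zpowersHom M (a i)) (fun i => zpowersHom M (b i))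

theorem zp_inj {M : Type} [Group M] {w : M → ℕ} (hw : ∀ g, 1 ≤ w g) {a : M} {k : ℕ}
    (ha : HasOrd w a k) : Function.Injective (zpowersHom M a) := by
  rw [injective_iff_map_eq_one]
  intro n hn
  rw [zpowersHom_apply] at hn
  have h1 : dl (a ^ (Multiplicative.toAdd n)) ∈ Fw w (k + 1) := by
    rw [hn, dl_one]
    exact Submodule.zero_mem _
  have h2 := dl_zpow w hw ha.1 ha.2 _ h1
  exact Multiplicative.toAdd.injective h2

theorem fg_case {C : ∀ (G : Type) [Group G], Prop} (hC : ClosedE C)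
    (hgl : ∀ n : ℕ, C (Matrix (Fin n) (Fin n) ℚ)ˣ) {M : Type} [Group M] (hfg : Group.FG M)
    (hM : C M) {I : Type} (a b : I → M)
    (h : ∀ J : Finset I, ∃ w : M → ℕ, (∀ g, 1 ≤ w g) ∧
      ∀ i ∈ J, ∃ k, HasOrd w (a i) k ∧ HasOrd w (b i) k) : C (CH a b) := by
  classical
  have hα : ∀ i, Function.Injective (zpowersHom M (a i)) := by
    intro i
    obtain ⟨w, hw, hk⟩ := h {i}
    obtain ⟨k, hk, _⟩ := hk i (Finset.mem_singleton_self i)
    exact zp_inj hw hk
  have hβ : ∀ i, Function.Injective (zpowersHom M (b i)) := by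
    intro i
    obtain ⟨w, hw, hk⟩ := h {i}
    obtain ⟨k, _, hk⟩ := hk i (Finset.mem_singleton_self i)
    exact zp_inj hw hk
  refine mh_loc _ _ hC hM hα hβ ?_
  intro S hS
  let J : Finset I := (hS.image Sigma.fst).toFinset
  have hJ : ∀ i n, (⟨i, n⟩ : Σ _ : I, Multiplicative ℤ) ∈ S → i ∈ J := fun i n hin =>
    (hS.image Sigma.fst).mem_toFinset.2 ⟨_, hin, rfl⟩
  obtain ⟨w, hw, hk⟩ := h J
  choose k hka hkb using hk
  let c : ℕ := J.attach.sup fun i => k i.1 i.2
  have hc : ∀ i (hi : i ∈ J), k i hi ≤ c := fun i hi =>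
    Finset.le_sup (f := fun i : J => k i.1 i.2) (Finset.mem_attach J ⟨i, hi⟩)
  have hfin := fin_codim w hfg hw (c + 1)
  have hT : ∀ i, ∃ T : (Module.End ℚ (MonoidAlgebra ℚ M ⧸ Fw w (c + 1)))ˣ,
      i ∈ J → T * rp w (c + 1) (a i) * T⁻¹ = rp w (c + 1) (b i) := by
    intro i
    by_cases hi : i ∈ J
    · obtain ⟨T, hT⟩ := rp_conj hw c (hka i hi) (hkb i hi)
      exact ⟨T, fun _ => hT⟩
    · exact ⟨1, fun h => absurd h hi⟩
  choose T hT using hT
  refine ⟨_, inferInstance, rp w (c + 1), T, C_end hC.base hgl, ?_, ?_⟩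
  · intro i n hin
    have h1 := hT i (hJ i n hin)
    rw [zpowersHom_apply, zpowersHom_apply, map_zpow, map_zpow, ← h1, conj_zpow]
  · intro i n hn h1
    by_cases hi : i ∈ J
    · rw [zpowersHom_apply] at h1
      have h2 := Fw_anti w (Nat.succ_le_succ (hc i hi)) (rp_eq_one w h1)
      have h3 := dl_zpow w hw (hka i hi).1 (hka i hi).2 _ h2
      exact Multiplicative.toAdd.injective h3
    · have h2 : clS S i = ⊥ := by
        have h3 : {n | (⟨i, n⟩ : Σ _ : I, Multiplicative ℤ) ∈ S} = ∅ := by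
          ext n
          simp only [Set.mem_ofPred_eq, Set.mem_empty_iff_false, iff_false]
          exact fun h => hi (hJ i n h)
        rw [clS, h3, Subgroup.closure_empty]
      rw [h2] at hn
      exact Subgroup.mem_bot.1 hn

end Pool.Agent.R669.Wt
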