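import Mathlib

/-!
# Filtrations of group algebras given by weights

Let `w` be a function on a group `M` with positive integers as values. The subspace `Fw w d` of `ℚ[M]` is
spanned by the products `(g_1 - 1)⋯(g_s - 1)` with `w g_1 + ⋯ + w g_s ≥ d`. If `a - 1` is in `Fw w k`, but
not in `Fw w (k + 1)`, then the multiplication by `a - 1` is injective on the associated graded space.
-/

set_option autoImplicit false

namespace Pool.Agent.R669.Wt

variable {M : Type} [Group M]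

/-- the element `g - 1` of the rational group algebra -/
noncomputable def dl (g : M) : MonoidAlgebra ℚ M := MonoidAlgebra.of ℚ M g - 1

/-- the subspace spanned by all products `(g_1 - 1)⋯(g_s - 1)` of total weight at least `d` -/
noncomputable def Fw (w : M → ℕ) (d : ℕ) : Submodule ℚ (MonoidAlgebra ℚ M) :=
  Submodule.span ℚ {x | ∃ L : List M, d ≤ (L.map w).sum ∧ x = (L.map dl).prod}

variable (w : M → ℕ)

theorem Fw_anti : Antitone (Fw w) := fun _ _ h =>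
  Submodule.span_mono fun _ ⟨L, hL, hx⟩ => ⟨L, h.trans hL, hx⟩

theorem prod_mem (L : List M) : (L.map dl).prod ∈ Fw w (L.map w).sum :=
  Submodule.subset_span ⟨L, le_rfl, rfl⟩

theorem dl_mem (g : M) : dl g ∈ Fw w (w g) := by
  have := prod_mem w [g]
  simpa using this

theorem lin_ext {V : Type} [AddCommGroup V] [Module ℚ V] (f f' : MonoidAlgebra ℚ M →ₗ[ℚ] V)
    (h : ∀ g, f (MonoidAlgebra.of ℚ M g) = f' (MonoidAlgebra.of ℚ M g)) : f = f' :=
  (MonoidAlgebra.basis M ℚ).ext fun g => h g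

theorem mem_of_of {p : Submodule ℚ (MonoidAlgebra ℚ M)} (h : ∀ g, MonoidAlgebra.of ℚ M g ∈ p)
    (x : MonoidAlgebra ℚ M) : x ∈ p := by
  induction x using MonoidAlgebra.induction_on with
  | of g => exact h g
  | add x y hx hy => exact p.add_mem hx hy
  | smul r x hx => exact p.smul_mem r hx

theorem Fw_zero : Fw w 0 = ⊤ := by
  refine eq_top_iff.2 fun x _ => mem_of_of (fun g => ?_) x
  have h1 : dl g ∈ Fw w 0 := Fw_anti w (Nat.zero_le _) (dl_mem w g)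
  have h2 : (1 : MonoidAlgebra ℚ M) ∈ Fw w 0 := by
    have := prod_mem w []
    simpa using this
  have h3 := (Fw w 0).add_mem h1 h2
  rwa [dl, sub_add_cancel] at h3

theorem Fw_mul {i j : ℕ} {x y : MonoidAlgebra ℚ M} (hx : x ∈ Fw w i) (hy : y ∈ Fw w j) :
    x * y ∈ Fw w (i + j) := by
  have h1 : Fw w i * Fw w j ≤ Fw w (i + j) := by
    rw [Fw, Fw, Submodule.span_mul_span]
    refine Submodule.span_le.2 ?_
    rintro _ ⟨_, ⟨L, hL, rfl⟩, _, ⟨L', hL', rfl⟩, rfl⟩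
    refine Submodule.subset_span ⟨L ++ L', ?_, ?_⟩
    · rw [List.map_append, List.sum_append]
      exact Nat.add_le_add hL hL'
    · rw [List.map_append, List.prod_append]
  exact h1 (Submodule.mul_mem_mul hx hy)

theorem of_mul_mem {i : ℕ} (x : MonoidAlgebra ℚ M) {y : MonoidAlgebra ℚ M} (hy : y ∈ Fw w i) :
    x * y ∈ Fw w i := by
  have h1 := Fw_mul w (show x ∈ Fw w 0 by rw [Fw_zero]; exact Submodule.mem_top) hy
  rwa [zero_add] at h1

theorem mul_of_mem {i : ℕ} (x : MonoidAlgebra ℚ M) {y : MonoidAlgebra ℚ M} (hy : y ∈ Fw w i) :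
    y * x ∈ Fw w i := by
  have h1 := Fw_mul w hy (show x ∈ Fw w 0 by rw [Fw_zero]; exact Submodule.mem_top)
  rwa [add_zero] at h1

/-- the operator `g ↦ ψ(g) g` -/
noncomputable def Dop (ψ : MonoidAlgebra ℚ M →ₗ[ℚ] ℚ) : Module.End ℚ (MonoidAlgebra ℚ M) :=
  (MonoidAlgebra.basis M ℚ).constr ℚ fun g => ψ (MonoidAlgebra.of ℚ M g) • MonoidAlgebra.of ℚ M g

theorem Dop_of (ψ : MonoidAlgebra ℚ M →ₗ[ℚ] ℚ) (g : M) :
    Dop ψ (MonoidAlgebra.of ℚ M g) = ψ (MonoidAlgebra.of ℚ M g) • MonoidAlgebra.of ℚ M g :=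
  (MonoidAlgebra.basis M ℚ).constr_basis ℚ _ g

theorem Dop_sub (ψ ψ' : MonoidAlgebra ℚ M →ₗ[ℚ] ℚ) (x : MonoidAlgebra ℚ M) :
    Dop (ψ - ψ') x = Dop ψ x - Dop ψ' x := by
  have h : Dop (ψ - ψ') = Dop ψ - Dop ψ' := lin_ext _ _ fun g => by
    rw [LinearMap.sub_apply, Dop_of, Dop_of, Dop_of, LinearMap.sub_apply, sub_smul]
  rw [h, LinearMap.sub_apply]

theorem Dop_zero (x : MonoidAlgebra ℚ M) : Dop (0 : MonoidAlgebra ℚ M →ₗ[ℚ] ℚ) x = 0 := by
  have h : Dop (0 : MonoidAlgebra ℚ M →ₗ[ℚ] ℚ) = 0 := lin_ext _ _ fun g => by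
    rw [Dop_of, LinearMap.zero_apply, LinearMap.zero_apply, zero_smul]
  rw [h, LinearMap.zero_apply]

/-- the translate of a functional -/
noncomputable def tr (ψ : MonoidAlgebra ℚ M →ₗ[ℚ] ℚ) (g : M) : MonoidAlgebra ℚ M →ₗ[ℚ] ℚ :=
  ψ.comp (LinearMap.mulLeft ℚ (MonoidAlgebra.of ℚ M g))

theorem tr_apply (ψ : MonoidAlgebra ℚ M →ₗ[ℚ] ℚ) (g : M) (x : MonoidAlgebra ℚ M) :
    tr ψ g x = ψ (MonoidAlgebra.of ℚ M g * x) := rfl

theorem Dop_of_mul (ψ : MonoidAlgebra ℚ M →ₗ[ℚ] ℚ) (g : M) (x : MonoidAlgebra ℚ M) :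
    Dop ψ (MonoidAlgebra.of ℚ M g * x) = MonoidAlgebra.of ℚ M g * Dop (tr ψ g) x := by
  have h : (Dop ψ).comp (LinearMap.mulLeft ℚ (MonoidAlgebra.of ℚ M g)) =
      (LinearMap.mulLeft ℚ (MonoidAlgebra.of ℚ M g)).comp (Dop (tr ψ g)) := lin_ext _ _ fun h => by
    show Dop ψ (MonoidAlgebra.of ℚ M g * MonoidAlgebra.of ℚ M h) =
      MonoidAlgebra.of ℚ M g * Dop (tr ψ g) (MonoidAlgebra.of ℚ M h)
    rw [Dop_of, tr_apply, ← map_mul, Dop_of, mul_smul_comm, ← map_mul]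
  exact LinearMap.congr_fun h x

theorem Dop_dl_mul (ψ : MonoidAlgebra ℚ M →ₗ[ℚ] ℚ) (g : M) (x : MonoidAlgebra ℚ M) :
    Dop ψ (dl g * x) = dl g * Dop (tr ψ g) x + Dop (tr ψ g - ψ) x := by
  rw [dl, sub_mul, one_mul, map_sub, Dop_of_mul, Dop_sub, sub_mul, one_mul]
  abel

/-- `D` lowers the degree by the degree of the functional -/
theorem Dop_mem (hw : ∀ g, 1 ≤ w g) {j : ℕ} {ψ : MonoidAlgebra ℚ M →ₗ[ℚ] ℚ}
    (hψ : ∀ x ∈ Fw w j, ψ x = 0) {d : ℕ} {x : MonoidAlgebra ℚ M} (hx : x ∈ Fw w d) :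
    Dop ψ x ∈ Fw w (d + 1 - j) := by
  have key : ∀ (L : List M) (j : ℕ) (ψ : MonoidAlgebra ℚ M →ₗ[ℚ] ℚ), (∀ x ∈ Fw w j, ψ x = 0) →
      Dop ψ (L.map dl).prod ∈ Fw w ((L.map w).sum + 1 - j) := by
    intro L
    induction L with
    | nil =>
      intro j ψ hψ
      rcases Nat.eq_zero_or_pos j with rfl | hj
      · have h1 : ψ = 0 := LinearMap.ext fun x => hψ x (by rw [Fw_zero]; exact Submodule.mem_top)
        rw [h1, Dop_zero]
        exact Submodule.zero_mem _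
      · have h1 : (([] : List M).map w).sum + 1 - j = 0 := by
          simp only [List.map_nil, List.sum_nil]
          omega
        rw [h1, Fw_zero]
        exact Submodule.mem_top
    | cons g L ih =>
      intro j ψ hψ
      rw [List.map_cons, List.map_cons, List.prod_cons, List.sum_cons, Dop_dl_mul]
      refine Submodule.add_mem _ ?_ ?_
      · have h1 := ih j (tr ψ g) (fun x hx => hψ _ (of_mul_mem w _ hx))
        exact Fw_anti w (by omega) (Fw_mul w (dl_mem w g) h1)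
      · have hv : ∀ x ∈ Fw w (j - w g), (tr ψ g - ψ) x = 0 := by
          intro x hx
          rw [LinearMap.sub_apply, tr_apply, ← map_sub]
          refine hψ _ ?_
          have h1 : MonoidAlgebra.of ℚ M g * x - x = dl g * x := by rw [dl, sub_mul, one_mul]
          rw [h1]
          exact Fw_anti w (by omega) (Fw_mul w (dl_mem w g) hx)
        rcases le_or_gt (w g) j with h | h
        · exact Fw_anti w (by omega) (ih (j - w g) (tr ψ g - ψ) hv)
        · have h1 : tr ψ g - ψ = 0 := LinearMap.ext fun x => hv x (by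
            rw [show j - w g = 0 by omega, Fw_zero]
            exact Submodule.mem_top)
          rw [h1, Dop_zero]
          exact Submodule.zero_mem _
  have h2 : Fw w d ≤ (Fw w (d + 1 - j)).comap (Dop ψ) := by
    refine Submodule.span_le.2 ?_
    rintro _ ⟨L, hL, rfl⟩
    exact Fw_anti w (by omega) (key L j ψ hψ)
  exact h2 hx

section elt

variable {w}
variable (hw : ∀ g, 1 ≤ w g) {a : M} {k : ℕ} (ha : dl a ∈ Fw w k)
  {ψ : MonoidAlgebra ℚ M →ₗ[ℚ] ℚ} (hψ : ∀ x ∈ Fw w (k + 1), ψ x = 0) (hψa : ψ (dl a) = 1)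

include hw ha hψ hψa in
theorem psi_mul (g : M) :
    ψ (MonoidAlgebra.of ℚ M a * MonoidAlgebra.of ℚ M g) = ψ (MonoidAlgebra.of ℚ M g) + 1 := by
  have h1 : dl a * dl g ∈ Fw w (k + 1) :=
    Fw_anti w (Nat.add_le_add_left (hw g) k) (Fw_mul w ha (dl_mem w g))
  have h2 := hψ _ h1
  have h3 : MonoidAlgebra.of ℚ M a * MonoidAlgebra.of ℚ M g =
      dl a * dl g + dl a + MonoidAlgebra.of ℚ M g := by
    rw [dl, dl]
    noncomm_ring
  rw [h3, map_add, map_add, h2, hψa, zero_add, add_comm]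

include hw ha hψ hψa in
theorem Dop_dl (x : MonoidAlgebra ℚ M) : Dop ψ (dl a * x) = dl a * Dop ψ x + dl a * x + x := by
  have h1 : ∀ x, Dop (tr ψ a) x = Dop ψ x + x := by
    have : Dop (tr ψ a) = Dop ψ + LinearMap.id := lin_ext _ _ fun g => by
      rw [Dop_of, tr_apply, psi_mul hw ha hψ hψa, LinearMap.add_apply, Dop_of, LinearMap.id_apply,
        add_smul, one_smul]
    intro x
    rw [this, LinearMap.add_apply, LinearMap.id_apply]
  rw [Dop_dl_mul, Dop_sub, h1]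
  noncomm_ring

include hw hψ in
theorem Dop_pow_mem {d : ℕ} {x : MonoidAlgebra ℚ M} (hx : x ∈ Fw w d) (m : ℕ) :
    ((Dop ψ) ^ m) x ∈ Fw w (d - m * k) := by
  induction m with
  | zero => simpa using hx
  | succ m ih =>
    rw [pow_succ']
    have h1 := Dop_mem w hw hψ ih
    exact Fw_anti w (by rw [Nat.succ_mul]; omega) h1

include hw ha hψ hψa in
theorem Dop_pow_dl (hk : 1 ≤ k) {d : ℕ} {x : MonoidAlgebra ℚ M} (hx : x ∈ Fw w d) (m : ℕ) :
    ((Dop ψ) ^ (m + 1)) (dl a * x) - dl a * ((Dop ψ) ^ (m + 1)) x - ((m : ℚ) + 1) • ((Dop ψ) ^ m) x ∈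
      Fw w (d + 1 - m * k) := by
  induction m with
  | zero =>
    rw [zero_add, pow_one, pow_zero, Dop_dl hw ha hψ hψa]
    have h1 : dl a * Dop ψ x + dl a * x + x - dl a * Dop ψ x -
        (((0 : ℕ) : ℚ) + 1) • (1 : Module.End ℚ (MonoidAlgebra ℚ M)) x = dl a * x := by
      rw [Nat.cast_zero, zero_add, one_smul, Module.End.one_apply]
      abel
    rw [h1]
    exact Fw_anti w (by omega) (Fw_mul w ha hx)
  | succ m ih =>
    have h1 := Dop_mem w hw hψ ih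
    have h2 : dl a * ((Dop ψ) ^ (m + 1)) x ∈ Fw w (d + 1 - (m + 1) * k) :=
      Fw_anti w (by omega) (Fw_mul w ha (Dop_pow_mem hw hψ hx (m + 1)))
    have h3 : Dop ψ (((Dop ψ) ^ (m + 1)) (dl a * x) - dl a * ((Dop ψ) ^ (m + 1)) x -
        ((m : ℚ) + 1) • ((Dop ψ) ^ m) x) + dl a * ((Dop ψ) ^ (m + 1)) x =
        ((Dop ψ) ^ (m + 1 + 1)) (dl a * x) - dl a * ((Dop ψ) ^ (m + 1 + 1)) x -
        (((m + 1 : ℕ) : ℚ) + 1) • ((Dop ψ) ^ (m + 1)) x := by
      rw [map_sub, map_sub, Dop_dl hw ha hψ hψa, map_smul, pow_succ' (Dop ψ) (m + 1),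
        Module.End.mul_apply, Module.End.mul_apply]
      have h4 : Dop ψ ((Dop ψ ^ m) x) = (Dop ψ ^ (m + 1)) x := by
        rw [pow_succ' (Dop ψ) m, Module.End.mul_apply]
      rw [h4]
      push_cast
      module
    rw [← h3]
    refine Submodule.add_mem _ (Fw_anti w ?_ h1) h2
    rw [Nat.succ_mul]
    omega

end elt

/-- **multiplication by `a - 1` is injective on the graded space** -/
theorem dl_inj (hw : ∀ g, 1 ≤ w g) {a : M} {k : ℕ} (hk : 1 ≤ k) (ha : dl a ∈ Fw w k)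
    (ha' : dl a ∉ Fw w (k + 1)) {d : ℕ} {x : MonoidAlgebra ℚ M} (hx : x ∈ Fw w d)
    (h : dl a * x ∈ Fw w (d + k + 1)) : x ∈ Fw w (d + 1) := by
  obtain ⟨ψ0, h0, hψ0⟩ := Submodule.exists_le_ker_of_notMem ha'
  let ψ : MonoidAlgebra ℚ M →ₗ[ℚ] ℚ := (ψ0 (dl a))⁻¹ • ψ0
  have hψ : ∀ x ∈ Fw w (k + 1), ψ x = 0 := by
    intro x hx
    show (ψ0 (dl a))⁻¹ • ψ0 x = 0
    rw [show ψ0 x = 0 from hψ0 hx, smul_zero]
  have hψa : ψ (dl a) = 1 := by
    show (ψ0 (dl a))⁻¹ * ψ0 (dl a) = 1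
    exact inv_mul_cancel₀ h0
  have hP : ∀ n : ℕ, ((Dop ψ) ^ (n + 1)) x ∈ Fw w (d + 1 - (n + 1) * k) →
      ((Dop ψ) ^ n) x ∈ Fw w (d + 1 - n * k) := by
    intro n hn
    have h1 := Dop_pow_dl hw ha hψ hψa hk hx n
    have h2 : ((Dop ψ) ^ (n + 1)) (dl a * x) ∈ Fw w (d + 1 - n * k) :=
      Fw_anti w (by rw [Nat.succ_mul]; omega) (Dop_pow_mem hw hψ h (n + 1))
    have h3 : dl a * ((Dop ψ) ^ (n + 1)) x ∈ Fw w (d + 1 - n * k) :=
      Fw_anti w (by rw [Nat.succ_mul]; omega) (Fw_mul w ha hn)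
    have h4 : ((n : ℚ) + 1) • ((Dop ψ) ^ n) x ∈ Fw w (d + 1 - n * k) := by
      have h5 := Submodule.sub_mem _ (Submodule.sub_mem _ h2 h3) h1
      rwa [sub_sub_cancel] at h5
    have h6 : (n : ℚ) + 1 ≠ 0 := by positivity
    exact (Submodule.smul_mem_iff _ h6).1 h4
  have hdown : ∀ n : ℕ, ((Dop ψ) ^ n) x ∈ Fw w (d + 1 - n * k) → x ∈ Fw w (d + 1) := by
    intro n
    induction n with
    | zero => intro h; simpa using h
    | succ n ih => intro h; exact ih (hP n h)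
  refine hdown (d + 1) ?_
  have h7 : d + 1 - (d + 1) * k = 0 := by
    have := Nat.mul_le_mul_left (d + 1) hk
    omega
  rw [h7, Fw_zero]
  exact Submodule.mem_top

/-- an element `a` such that `a - 1` has a finite degree has infinite order modulo the filtration -/
theorem dl_zpow (hw : ∀ g, 1 ≤ w g) {a : M} {k : ℕ} (ha : dl a ∈ Fw w k)
    (ha' : dl a ∉ Fw w (k + 1)) (n : ℤ) (h : dl (a ^ n) ∈ Fw w (k + 1)) : n = 0 := by
  obtain ⟨ψ0, h0, hψ0⟩ := Submodule.exists_le_ker_of_notMem ha'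
  let ψ : MonoidAlgebra ℚ M →ₗ[ℚ] ℚ := (ψ0 (dl a))⁻¹ • ψ0
  have hψ : ∀ x ∈ Fw w (k + 1), ψ x = 0 := by
    intro x hx
    show (ψ0 (dl a))⁻¹ • ψ0 x = 0
    rw [show ψ0 x = 0 from hψ0 hx, smul_zero]
  have hψa : ψ (dl a) = 1 := by
    show (ψ0 (dl a))⁻¹ * ψ0 (dl a) = 1
    exact inv_mul_cancel₀ h0
  have h1 : ∀ g, ψ (MonoidAlgebra.of ℚ M (a * g)) = ψ (MonoidAlgebra.of ℚ M g) + 1 := by
    intro g
    rw [map_mul]
    exact psi_mul hw ha hψ hψa g
  have h2 : ∀ n : ℕ, ∀ g, ψ (MonoidAlgebra.of ℚ M (a ^ n * g)) = ψ (MonoidAlgebra.of ℚ M g) + n := by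
    intro n
    induction n with
    | zero => intro g; rw [pow_zero, one_mul, Nat.cast_zero, add_zero]
    | succ n ih =>
      intro g
      rw [pow_succ', mul_assoc, h1, ih, Nat.cast_succ, add_assoc]
  have h3 := hψ _ h
  rw [dl, map_sub] at h3
  have h4 : ψ 1 = ψ (MonoidAlgebra.of ℚ M 1) := by rw [(MonoidAlgebra.of ℚ M).map_one]
  obtain ⟨m, rfl | rfl⟩ := n.eq_nat_or_neg
  · have h5 := h2 m 1
    rw [mul_one] at h5
    rw [zpow_natCast, h5, h4, add_sub_cancel_left] at h3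
    exact_mod_cast h3
  · have h5 := h2 m (a ^ (-(m : ℤ)))
    rw [zpow_neg, zpow_natCast, mul_inv_cancel] at h5
    rw [zpow_neg, zpow_natCast, h4, h5] at h3
    have h6 : (m : ℚ) = 0 := by linarith
    have h7 : m = 0 := by exact_mod_cast h6
    rw [h7]
    rfl

end Pool.Agent.R669.Wt
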