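import Pool.Agent.R669.Wt.Nil
import Pool.Agent.R669.Wt.Fil

/-!
# The representation on the quotients of the group algebra
-/

set_option autoImplicit false

namespace Pool.Agent.R669.Wt

variable {M : Type} [Group M] (w : M → ℕ)

section codim

/-- the products of `m` elements `x - 1`, `x` in `X` -/
def WX (X : Set M) : ℕ → Set (MonoidAlgebra ℚ M)
  | 0 => {1}
  | m + 1 => Set.image2 (fun x y => dl x * y) X (WX X m)

theorem WX_finite {X : Set M} (hX : X.Finite) (m : ℕ) : (WX X m).Finite := by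
  induction m with
  | zero => exact Set.finite_singleton _
  | succ m ih => exact Set.Finite.image2 _ hX ih

theorem dl_one : dl (1 : M) = 0 := by rw [dl, map_one, sub_self]

theorem dl_mul (g h : M) : dl (g * h) = dl g + dl h + dl g * dl h := by
  rw [dl, dl, dl, map_mul]
  noncomm_ring

theorem dl_inv (g : M) : dl g⁻¹ = -dl g - dl g * dl g⁻¹ := by
  have h1 : MonoidAlgebra.of ℚ M g * MonoidAlgebra.of ℚ M g⁻¹ = 1 := by
    rw [← map_mul, mul_inv_cancel, map_one]
  have h2 : dl g * dl g⁻¹ = MonoidAlgebra.of ℚ M g * MonoidAlgebra.of ℚ M g⁻¹ -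
      MonoidAlgebra.of ℚ M g - MonoidAlgebra.of ℚ M g⁻¹ + 1 := by
    rw [dl, dl]
    noncomm_ring
  rw [h2, h1, dl, dl]
  abel

/-- the filtration by the powers of the augmentation ideal -/
noncomputable abbrev F1 (M : Type) [Group M] (d : ℕ) : Submodule ℚ (MonoidAlgebra ℚ M) :=
  Fw (fun _ : M => 1) d

theorem WX_mem (X : Set M) (m : ℕ) : ∀ x ∈ WX X m, x ∈ F1 M m := by
  induction m with
  | zero =>
    intro x _
    rw [F1, Fw_zero]
    exact Submodule.mem_top
  | succ m ih =>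
    rintro _ ⟨x, _, y, hy, rfl⟩
    rw [add_comm m 1]
    exact Fw_mul _ (dl_mem (fun _ : M => 1) x) (ih y hy)

theorem F1_le {X : Set M} (hX : Subgroup.closure X = ⊤) (m : ℕ) :
    F1 M m ≤ Submodule.span ℚ (WX X m) ⊔ F1 M (m + 1) := by
  induction m with
  | zero =>
    intro x _
    refine mem_of_of (fun g => ?_) x
    have h1 : MonoidAlgebra.of ℚ M g = 1 + dl g := by
      rw [dl]
      abel
    rw [h1]
    exact Submodule.add_mem_sup (Submodule.subset_span rfl) (dl_mem (fun _ : M => 1) g)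
  | succ m ih =>
    have key : ∀ g : M, ∀ s ∈ Submodule.span ℚ (WX X m),
        dl g * s ∈ Submodule.span ℚ (WX X (m + 1)) ⊔ F1 M (m + 1 + 1) := by
      intro g
      have hg : g ∈ Subgroup.closure X := by
        rw [hX]
        exact Subgroup.mem_top g
      have hs1 : ∀ s ∈ Submodule.span ℚ (WX X m), s ∈ F1 M m := fun s hs =>
        Submodule.span_le.2 (WX_mem X m) hs
      induction hg using Subgroup.closure_induction with
      | mem x hx =>
        intro s hs
        have h1 : Submodule.span ℚ (WX X m) ≤ (Submodule.span ℚ (WX X (m + 1)) ⊔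
            F1 M (m + 1 + 1)).comap (LinearMap.mulLeft ℚ (dl x)) := by
          refine Submodule.span_le.2 fun y hy => ?_
          exact Submodule.mem_sup_left (Submodule.subset_span ⟨x, hx, y, hy, rfl⟩)
        exact h1 hs
      | one =>
        intro s _
        rw [dl_one, zero_mul]
        exact Submodule.zero_mem _
      | mul g h _ _ ihg ihh =>
        intro s hs
        rw [dl_mul, add_mul, add_mul]
        refine Submodule.add_mem _ (Submodule.add_mem _ (ihg s hs) (ihh s hs)) ?_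
        refine Submodule.mem_sup_right ?_
        have h1 := Fw_mul _ (Fw_mul _ (dl_mem (fun _ : M => 1) g) (dl_mem (fun _ : M => 1) h))
          (hs1 s hs)
        exact Fw_anti _ (by omega) h1
      | inv g _ ihg =>
        intro s hs
        rw [dl_inv, sub_mul, neg_mul]
        refine Submodule.sub_mem _ (Submodule.neg_mem _ (ihg s hs)) ?_
        refine Submodule.mem_sup_right ?_
        have h1 := Fw_mul _ (Fw_mul _ (dl_mem (fun _ : M => 1) g) (dl_mem (fun _ : M => 1) g⁻¹))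
          (hs1 s hs)
        exact Fw_anti _ (by omega) h1
    refine Submodule.span_le.2 ?_
    rintro _ ⟨L, hL, rfl⟩
    cases L with
    | nil =>
      simp at hL
    | cons g L =>
      rw [List.map_cons, List.prod_cons]
      have h1 : (L.map dl).prod ∈ F1 M m := by
        refine Submodule.subset_span ⟨L, ?_, rfl⟩
        rw [List.map_cons, List.sum_cons] at hL
        omega
      obtain ⟨s, hs, z, hz, hsz⟩ := Submodule.mem_sup.1 (ih h1)
      rw [← hsz, mul_add]
      refine Submodule.add_mem _ (key g s hs) (Submodule.mem_sup_right ?_)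
      have h2 := Fw_mul _ (dl_mem (fun _ : M => 1) g) hz
      exact Fw_anti _ (by omega) h2

theorem F1_le_Fw (hw : ∀ g, 1 ≤ w g) (d : ℕ) : F1 M d ≤ Fw w d := by
  refine Submodule.span_mono ?_
  rintro _ ⟨L, hL, rfl⟩
  refine ⟨L, hL.trans ?_, rfl⟩
  clear hL
  induction L with
  | nil => simp
  | cons g L ih =>
    rw [List.map_cons, List.map_cons, List.sum_cons, List.sum_cons]
    exact Nat.add_le_add (hw g) ih

/-- the quotients are finite-dimensional if the group is finitely generated -/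
theorem fin_codim (hM : Group.FG M) (hw : ∀ g, 1 ≤ w g) (d : ℕ) :
    FiniteDimensional ℚ (MonoidAlgebra ℚ M ⧸ Fw w d) := by
  obtain ⟨X, hX, hXf⟩ := Group.fg_iff.1 hM
  have h1 : ∀ d, ∃ U : Set (MonoidAlgebra ℚ M), U.Finite ∧
      (⊤ : Submodule ℚ (MonoidAlgebra ℚ M)) ≤ Submodule.span ℚ U ⊔ F1 M d := by
    intro d
    induction d with
    | zero =>
      refine ⟨∅, Set.finite_empty, ?_⟩
      rw [F1, Fw_zero]
      exact le_sup_right
    | succ d ih =>
      obtain ⟨U, hU, hle⟩ := ih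
      refine ⟨U ∪ WX X d, hU.union (WX_finite hXf d), hle.trans ?_⟩
      rw [Submodule.span_union, sup_assoc]
      exact sup_le_sup_left (F1_le hX d) _
  obtain ⟨U, hU, hle⟩ := h1 d
  have hfin : FiniteDimensional ℚ (Submodule.span ℚ U) := FiniteDimensional.span_of_finite ℚ hU
  refine Module.Finite.of_surjective ((Fw w d).mkQ.comp (Submodule.span ℚ U).subtype) ?_
  intro y
  obtain ⟨x, rfl⟩ := (Fw w d).mkQ_surjective y
  obtain ⟨u, hu, z, hz, rfl⟩ := Submodule.mem_sup.1 (hle (Submodule.mem_top : x ∈ _))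
  refine ⟨⟨u, hu⟩, ?_⟩
  show (Fw w d).mkQ u = (Fw w d).mkQ (u + z)
  rw [map_add, show (Fw w d).mkQ z = 0 from
    (Submodule.Quotient.mk_eq_zero _).2 (F1_le_Fw w hw d hz), add_zero]

end codim

section rep

/-- left multiplication on the quotient -/
noncomputable def lm (d : ℕ) (x : MonoidAlgebra ℚ M) : Module.End ℚ (MonoidAlgebra ℚ M ⧸ Fw w d) :=
  Submodule.mapQ _ _ (LinearMap.mulLeft ℚ x) fun _ hy => of_mul_mem w x hy

theorem lm_mk (d : ℕ) (x y : MonoidAlgebra ℚ M) :
    lm w d x ((Fw w d).mkQ y) = (Fw w d).mkQ (x * y) := rfl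

/-- the representation of the group on the quotient -/
noncomputable def rp (d : ℕ) : M →* (Module.End ℚ (MonoidAlgebra ℚ M ⧸ Fw w d))ˣ :=
  MonoidHom.toHomUnits
    { toFun := fun g => lm w d (MonoidAlgebra.of ℚ M g)
      map_one' := by
        refine Submodule.linearMap_qext _ (LinearMap.ext fun y => ?_)
        show lm w d _ ((Fw w d).mkQ y) = (Fw w d).mkQ y
        rw [lm_mk, map_one, one_mul]
      map_mul' := fun g h => by
        refine Submodule.linearMap_qext _ (LinearMap.ext fun y => ?_)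
        show lm w d _ ((Fw w d).mkQ y) = lm w d _ (lm w d _ ((Fw w d).mkQ y))
        rw [lm_mk, lm_mk, lm_mk, (MonoidAlgebra.of ℚ M).map_mul, mul_assoc] }

theorem rp_mk (d : ℕ) (g : M) (y : MonoidAlgebra ℚ M) :
    ((rp w d g : (Module.End ℚ (MonoidAlgebra ℚ M ⧸ Fw w d))ˣ) :
      Module.End ℚ (MonoidAlgebra ℚ M ⧸ Fw w d)) ((Fw w d).mkQ y) =
      (Fw w d).mkQ (MonoidAlgebra.of ℚ M g * y) := rfl

theorem rp_eq_one {d : ℕ} {g : M} (h : rp w d g = 1) : dl g ∈ Fw w d := by
  have h1 := rp_mk w d g 1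
  rw [h] at h1
  change (Fw w d).mkQ 1 = _ at h1
  rw [mul_one] at h1
  have h2 : (Fw w d).mkQ (dl g) = 0 := by
    rw [dl, map_sub, ← h1, sub_self]
  exact (Submodule.Quotient.mk_eq_zero _).1 h2

/-- the element `g` has order `k` with respect to the weights `w`: `g - 1` lies in the `k`-th, but not
in the `(k+1)`-st step of the filtration -/
def HasOrd (g : M) (k : ℕ) : Prop := dl g ∈ Fw w k ∧ dl g ∉ Fw w (k + 1)

variable {w}

theorem HasOrd.pos (hw : ∀ g, 1 ≤ w g) {g : M} {k : ℕ} (h : HasOrd w g k) : 1 ≤ k := by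
  rcases Nat.eq_zero_or_pos k with rfl | hk
  · exact absurd (Fw_anti w (hw g) (dl_mem w g)) h.2
  · exact hk

/-- **elements of the same order are conjugate in the general linear group of the quotient** -/
theorem rp_conj (hw : ∀ g, 1 ≤ w g) (c : ℕ)
    [FiniteDimensional ℚ (MonoidAlgebra ℚ M ⧸ Fw w (c + 1))] {a b : M} {k : ℕ}
    (ha : HasOrd w a k) (hb : HasOrd w b k) :
    ∃ T : (Module.End ℚ (MonoidAlgebra ℚ M ⧸ Fw w (c + 1)))ˣ,
      T * rp w (c + 1) a * T⁻¹ = rp w (c + 1) b := by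
  let Q := MonoidAlgebra ℚ M ⧸ Fw w (c + 1)
  let mk : MonoidAlgebra ℚ M →ₗ[ℚ] Q := (Fw w (c + 1)).mkQ
  have hmk : Function.Surjective mk := (Fw w (c + 1)).mkQ_surjective
  let FQ : ℕ → Submodule ℚ Q := fun i => (Fw w i).map mk
  have hmem : ∀ i, i ≤ c + 1 → ∀ x, mk x ∈ FQ i → x ∈ Fw w i := by
    rintro i hi x ⟨y, hy, hxy⟩
    have h1 : y - x ∈ Fw w (c + 1) := (Submodule.Quotient.eq _).1 hxy
    have h2 := Submodule.sub_mem _ hy (Fw_anti w hi h1)
    rwa [sub_sub_cancel] at h2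
  have hanti : Antitone FQ := fun i j h => Submodule.map_mono (Fw_anti w h)
  have h0 : FQ 0 = ⊤ := by
    show (Fw w 0).map mk = ⊤
    rw [Fw_zero, Submodule.map_top]
    exact LinearMap.range_eq_top.2 hmk
  have hc : FQ (c + 1) = ⊥ := by
    refine eq_bot_iff.2 ?_
    rintro _ ⟨y, hy, rfl⟩
    exact (Submodule.Quotient.mk_eq_zero _).2 hy
  have hν : ∀ a : M, dl a ∈ Fw w k → ∀ d, ∀ x ∈ FQ d, lm w (c + 1) (dl a) x ∈ FQ (d + k) := by
    rintro a ha d _ ⟨y, hy, rfl⟩
    refine ⟨dl a * y, ?_, rfl⟩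
    rw [add_comm]
    exact Fw_mul w ha hy
  have hνi : ∀ a : M, HasOrd w a k → ∀ d, d + k ≤ c → ∀ x ∈ FQ d,
      lm w (c + 1) (dl a) x ∈ FQ (d + k + 1) → x ∈ FQ (d + 1) := by
    rintro a ha d hd _ ⟨y, hy, rfl⟩ h
    have h1 : dl a * y ∈ Fw w (d + k + 1) := hmem _ (by omega) _ h
    exact ⟨y, dl_inj w hw (ha.pos hw) ha.1 ha.2 hy h1, rfl⟩
  obtain ⟨T, hT⟩ := conj_of_fil FQ hanti h0 c k (ha.pos hw) hc (lm w (c + 1) (dl a))
    (lm w (c + 1) (dl b)) (hν a ha.1) (hνi a ha) (hν b hb.1) (hνi b hb)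
  have hlm : ∀ (g : M) (x : Q), ((rp w (c + 1) g : (Module.End ℚ Q)ˣ) : Module.End ℚ Q) x =
      lm w (c + 1) (dl g) x + x := by
    intro g x
    obtain ⟨y, rfl⟩ := hmk x
    show mk (MonoidAlgebra.of ℚ M g * y) = mk (dl g * y) + mk y
    rw [← map_add, dl, sub_mul, one_mul, sub_add_cancel]
  let U : (Module.End ℚ Q)ˣ := ⟨T.toLinearMap, T.symm.toLinearMap,
    LinearMap.ext fun x => T.apply_symm_apply x, LinearMap.ext fun x => T.symm_apply_apply x⟩
  refine ⟨U, ?_⟩
  rw [mul_inv_eq_iff_eq_mul]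
  apply Units.ext
  refine LinearMap.ext fun x => ?_
  show T (((rp w (c + 1) a : (Module.End ℚ Q)ˣ) : Module.End ℚ Q) x) =
    ((rp w (c + 1) b : (Module.End ℚ Q)ˣ) : Module.End ℚ Q) (T x)
  rw [hlm, hlm, map_add, hT]

end rep

end Pool.Agent.R669.Wt
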