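import Pool.Agent.R669.Wt.Nil
import Pool.Agent.R669.Wt.Rep

/-!
# Polynomial functions on a group
-/

set_option autoImplicit false

namespace Pool.Agent.R669.Wt

open Module

section bin

/-- binomial coefficients -/
noncomputable def bin : ℕ → ℚ → ℚ
  | 0, _ => 1
  | n + 1, x => bin n x * (x - n) / (n + 1)

theorem bin_pascal (n : ℕ) (x : ℚ) : bin (n + 1) (x + 1) = bin (n + 1) x + bin n x := by
  induction n with
  | zero =>
    simp only [bin]
    push_cast
    ring
  | succ n ih =>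
    have h1 : bin (n + 1 + 1) (x + 1) = bin (n + 1) (x + 1) * (x + 1 - (n + 1 : ℕ)) / ((n + 1 : ℕ) + 1) :=
      rfl
    have h2 : bin (n + 1 + 1) x = bin (n + 1) x * (x - (n + 1 : ℕ)) / ((n + 1 : ℕ) + 1) := rfl
    have h3 : bin n x * (x - n) = (n + 1) * bin (n + 1) x := by
      have h4 : bin (n + 1) x = bin n x * (x - n) / (n + 1) := rfl
      have h5 : (n : ℚ) + 1 ≠ 0 := by positivity
      rw [h4]
      field_simp
    have h6 : (((n + 1 : ℕ) : ℚ) + 1) ≠ 0 := by positivity
    rw [h1, h2, ih]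
    push_cast at *
    field_simp
    linear_combination h3

end bin

variable {N : Type} [Group N]

/-- the linear extension of a function to the group algebra -/
noncomputable def hat : (N → ℚ) ≃ₗ[ℚ] (MonoidAlgebra ℚ N →ₗ[ℚ] ℚ) :=
  (MonoidAlgebra.basis N ℚ).constr ℚ

theorem hat_of (f : N → ℚ) (g : N) : hat f (MonoidAlgebra.of ℚ N g) = f g :=
  (MonoidAlgebra.basis N ℚ).constr_basis ℚ f g

/-- the functions which vanish on the `j`-th step of the filtration -/
noncomputable def Pj (w : N → ℕ) (j : ℕ) : Submodule ℚ (N → ℚ) where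
  carrier := {f | ∀ x ∈ Fw w j, hat f x = 0}
  zero_mem' := fun x _ => by rw [map_zero, LinearMap.zero_apply]
  add_mem' := fun {f g} hf hg x hx => by
    rw [map_add, LinearMap.add_apply, hf x hx, hg x hx, add_zero]
  smul_mem' := fun c f hf x hx => by
    rw [map_smul, LinearMap.smul_apply, hf x hx, smul_zero]

variable (w : N → ℕ)

theorem Pj_mono : Monotone (Pj w) := fun _ _ h _ hf x hx => hf x (Fw_anti w h hx)

theorem Pj_zero {f : N → ℚ} (hf : f ∈ Pj w 0) : f = 0 := by
  funext g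
  have h1 := hf (MonoidAlgebra.of ℚ N g) (by rw [Fw_zero]; exact Submodule.mem_top)
  rwa [hat_of] at h1

/-- left translation -/
def La (a : N) : (N → ℚ) →ₗ[ℚ] (N → ℚ) where
  toFun f m := f (a * m)
  map_add' _ _ := rfl
  map_smul' _ _ := rfl

theorem La_apply (a : N) (f : N → ℚ) (m : N) : La a f m = f (a * m) := rfl

theorem La_mul_fun (a : N) (f g : N → ℚ) : La a (f * g) = La a f * La a g := rfl

theorem La_one_fun (a : N) : La a 1 = 1 := rfl

theorem La_comm {a b : N} (h : a * b = b * a) (f : N → ℚ) : La a (La b f) = La b (La a f) := by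
  funext m
  rw [La_apply, La_apply, La_apply, La_apply, ← mul_assoc, ← mul_assoc, h]

theorem hat_La (a : N) (f : N → ℚ) (x : MonoidAlgebra ℚ N) :
    hat (La a f) x = hat f (MonoidAlgebra.of ℚ N a * x) := by
  have h : hat (La a f) = tr (hat f) a := lin_ext _ _ fun g => by
    rw [hat_of, tr_apply, ← map_mul, hat_of, La_apply]
  rw [h, tr_apply]

theorem La_mem (a : N) {j : ℕ} {f : N → ℚ} (hf : f ∈ Pj w j) : La a f ∈ Pj w j := fun x hx => by
  rw [hat_La]
  exact hf _ (of_mul_mem w _ hx)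

/-- the difference operator lowers the degree -/
theorem De_mem {a : N} {k : ℕ} (ha : dl a ∈ Fw w k) {j : ℕ} {f : N → ℚ} (hf : f ∈ Pj w j) :
    La a f - f ∈ Pj w (j - k) := fun x hx => by
  rw [map_sub, LinearMap.sub_apply, hat_La, ← map_sub]
  have h1 : MonoidAlgebra.of ℚ N a * x - x = dl a * x := by rw [dl, sub_mul, one_mul]
  rw [h1]
  exact hf _ (Fw_anti w (by omega) (Fw_mul w ha hx))

theorem hat_mul (f g : N → ℚ) (x : MonoidAlgebra ℚ N) : hat (f * g) x = hat g (Dop (hat f) x) := by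
  have h : hat (f * g) = (hat g).comp (Dop (hat f)) := lin_ext _ _ fun m => by
    rw [hat_of, LinearMap.comp_apply, Dop_of, hat_of, map_smul, hat_of]
    rfl
  rw [h]
  rfl

theorem mul_mem_Pj (hw : ∀ g, 1 ≤ w g) {i j : ℕ} {f g : N → ℚ} (hf : f ∈ Pj w (i + 1))
    (hg : g ∈ Pj w (j - i)) : f * g ∈ Pj w j := fun x hx => by
  rw [hat_mul]
  refine hg _ ?_
  have h1 := Dop_mem w hw hf hx
  rwa [Nat.add_sub_add_right] at h1

theorem one_mem_Pj (hw : ∀ g, 1 ≤ w g) : (1 : N → ℚ) ∈ Pj w 1 := by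
  intro x hx
  have h1 : ∀ (g : N) (y : MonoidAlgebra ℚ N), hat (1 : N → ℚ) (dl g * y) = 0 := by
    intro g y
    rw [dl, sub_mul, one_mul, map_sub, ← hat_La, La_one_fun, sub_self]
  have h2 : Fw w 1 ≤ LinearMap.ker (hat (1 : N → ℚ)) := by
    refine Submodule.span_le.2 ?_
    rintro _ ⟨L, hL, rfl⟩
    cases L with
    | nil => simp at hL
    | cons g L =>
      rw [List.map_cons, List.prod_cons]
      exact h1 g _
  exact h2 hx

theorem const_mem_Pj (hw : ∀ g, 1 ≤ w g) (c : ℚ) (k : ℕ) : c • (1 : N → ℚ) ∈ Pj w (k + 1) :=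
  Submodule.smul_mem _ _ (Pj_mono w (by omega) (one_mem_Pj w hw))

section

variable {N : Type}

/-- the binomial coefficients of a function -/
noncomputable def binf (n : ℕ) (φ : N → ℚ) : N → ℚ := fun m => bin n (φ m)

theorem binf_zero (φ : N → ℚ) : binf 0 φ = 1 := rfl

theorem binf_succ (n : ℕ) (φ : N → ℚ) :
    binf (n + 1) φ = ((1 : ℚ) / (n + 1)) • (binf n φ * (φ - (n : ℚ) • (1 : N → ℚ))) := by
  funext m
  show bin n (φ m) * (φ m - n) / (n + 1) = (1 : ℚ) / (n + 1) * (bin n (φ m) * (φ m - (n : ℚ) * 1))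
  ring

end

theorem binf_mem (hw : ∀ g, 1 ≤ w g) {k : ℕ} {φ : N → ℚ} (hφ : φ ∈ Pj w (k + 1)) (n : ℕ) :
    binf n φ ∈ Pj w (n * k + 1) := by
  induction n with
  | zero =>
    rw [binf_zero, zero_mul]
    exact one_mem_Pj w hw
  | succ n ih =>
    rw [binf_succ]
    refine Submodule.smul_mem _ _ (mul_mem_Pj w hw ih ?_)
    rw [show (n + 1) * k + 1 - n * k = k + 1 by rw [Nat.succ_mul]; omega]
    exact Submodule.sub_mem _ hφ (const_mem_Pj w hw _ k)

theorem La_binf_zero (a : N) (φ : N → ℚ) : La a (binf 0 φ) = binf 0 φ := rfl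

theorem La_binf_succ {a : N} {φ : N → ℚ} (h : La a φ = φ + 1) (n : ℕ) :
    La a (binf (n + 1) φ) = binf (n + 1) φ + binf n φ := by
  funext m
  have h1 : φ (a * m) = φ m + 1 := congrFun h m
  show bin (n + 1) (φ (a * m)) = bin (n + 1) (φ m) + bin n (φ m)
  rw [h1, bin_pascal]

theorem La_binf_inv {a : N} {φ : N → ℚ} (h : La a φ = φ) (n : ℕ) :
    La a (binf n φ) = binf n φ := by
  funext m
  have h1 : φ (a * m) = φ m := congrFun h m
  show bin n (φ (a * m)) = bin n (φ m)
  rw [h1]

/-- the expansion with given coefficients -/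
noncomputable def Ev (φ : N → ℚ) (J : ℕ) : (ℕ → N → ℚ) →ₗ[ℚ] (N → ℚ) where
  toFun v := ∑ n ∈ Finset.range J, binf n φ * v n
  map_add' u v := by
    rw [← Finset.sum_add_distrib]
    exact Finset.sum_congr rfl fun n _ => mul_add _ _ _
  map_smul' c v := by
    rw [RingHom.id_apply, Finset.smul_sum]
    refine Finset.sum_congr rfl fun n _ => ?_
    show binf n φ * (c • v n) = c • (binf n φ * v n)
    exact mul_smul_comm _ _ _

theorem Ev_apply (φ : N → ℚ) (J : ℕ) (v : ℕ → N → ℚ) :
    Ev φ J v = ∑ n ∈ Finset.range J, binf n φ * v n := rfl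

theorem Ev_le (φ : N → ℚ) {J J' : ℕ} (h : J ≤ J') (v : ℕ → N → ℚ) (hv : ∀ n, J ≤ n → v n = 0) :
    Ev φ J' v = Ev φ J v := by
  rw [Ev_apply, Ev_apply]
  symm
  refine Finset.sum_subset (Finset.range_mono h) fun n _ hn => ?_
  rw [hv n (by simpa using hn), mul_zero]

/-- translation of an expansion -/
theorem La_Ev {a : N} {φ : N → ℚ} (h : La a φ = φ + 1) (J : ℕ) (v : ℕ → N → ℚ)
    (hv : ∀ n, La a (v n) = v n) (hJ : v J = 0) :
    La a (Ev φ J v) = Ev φ J (fun n => v n + v (n + 1)) := by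
  have key : ∀ J : ℕ, La a (Ev φ (J + 1) v) =
      Ev φ (J + 1) (fun n => v n + v (n + 1)) - binf J φ * v (J + 1) := by
    intro J
    induction J with
    | zero =>
      rw [Ev_apply, Ev_apply, Finset.sum_range_one, Finset.sum_range_one, La_mul_fun, La_binf_zero,
        hv]
      ring
    | succ J ih =>
      have h1 : Ev φ (J + 1 + 1) v = Ev φ (J + 1) v + binf (J + 1) φ * v (J + 1) := by
        rw [Ev_apply, Finset.sum_range_succ, ← Ev_apply]
      have h2 : Ev φ (J + 1 + 1) (fun n => v n + v (n + 1)) = Ev φ (J + 1) (fun n => v n + v (n + 1)) +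
          binf (J + 1) φ * (v (J + 1) + v (J + 1 + 1)) := by
        rw [Ev_apply, Finset.sum_range_succ, ← Ev_apply]
      rw [h1, h2, map_add, ih, La_mul_fun, hv, La_binf_succ h]
      ring
  rcases Nat.eq_zero_or_pos J with rfl | hJ'
  · rw [Ev_apply, Ev_apply, Finset.sum_range_zero, Finset.sum_range_zero, map_zero]
  · obtain ⟨i, rfl⟩ := Nat.exists_eq_add_of_le' hJ'
    have h1 := key i
    rw [hJ, mul_zero, sub_zero] at h1
    exact h1

theorem La_Ev_inv {a : N} {φ : N → ℚ} (h : La a φ = φ) (J : ℕ) (v : ℕ → N → ℚ) :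
    La a (Ev φ J v) = Ev φ J (fun n => La a (v n)) := by
  rw [Ev_apply, Ev_apply, map_sum]
  refine Finset.sum_congr rfl fun n _ => ?_
  rw [La_mul_fun, La_binf_inv h]

/-- uniqueness of the expansion -/
theorem Ev_inj {a : N} {φ : N → ℚ} (h : La a φ = φ + 1) : ∀ (J : ℕ) (v : ℕ → N → ℚ),
    (∀ n, La a (v n) = v n) → Ev φ J v = 0 → ∀ n, n < J → v n = 0 := by
  intro J
  induction J with
  | zero => intro v _ _ n hn; omega
  | succ J ih =>
    intro v hv h0
    let u : ℕ → N → ℚ := fun n => if n < J + 1 then v n else 0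
    have hu : ∀ n, La a (u n) = u n := by
      intro n
      show La a (if n < J + 1 then v n else 0) = if n < J + 1 then v n else 0
      split_ifs
      · exact hv n
      · exact map_zero _
    have hEu : Ev φ (J + 1) u = 0 := by
      rw [← h0, Ev_apply, Ev_apply]
      refine Finset.sum_congr rfl fun n hn => ?_
      show binf n φ * (if n < J + 1 then v n else 0) = _
      rw [if_pos (Finset.mem_range.1 hn)]
    have huJ : u (J + 1) = 0 := if_neg (lt_irrefl _)
    have h1 := La_Ev h (J + 1) u hu huJ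
    rw [hEu, map_zero] at h1
    have h2 : Ev φ (J + 1) (fun n => u n + u (n + 1)) = Ev φ (J + 1) u + Ev φ (J + 1) (fun n => u (n + 1)) :=
      map_add (Ev φ (J + 1)) u (fun n => u (n + 1))
    rw [h2, hEu, zero_add] at h1
    have h3 : Ev φ (J + 1) (fun n => u (n + 1)) = Ev φ J (fun n => u (n + 1)) := by
      rw [Ev_apply, Finset.sum_range_succ, huJ, mul_zero, add_zero]
      rfl
    rw [h3] at h1
    have h4 := ih (fun n => u (n + 1)) (fun n => hu (n + 1)) h1.symm
    have h5 : ∀ n, 1 ≤ n → n < J + 1 → v n = 0 := by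
      intro n hn hn'
      have h6 := h4 (n - 1) (by omega)
      have h7 : u (n - 1 + 1) = 0 := h6
      rw [show n - 1 + 1 = n by omega] at h7
      have h8 : u n = v n := if_pos hn'
      rw [← h8, h7]
    intro n hn
    rcases Nat.eq_zero_or_pos n with rfl | hn0
    · have h9 : Ev φ (J + 1) v = v 0 := by
        rw [Ev_apply, Finset.sum_eq_single 0]
        · rw [binf_zero, one_mul]
        · intro n hn hn0
          rw [h5 n (Nat.pos_of_ne_zero hn0) (Finset.mem_range.1 hn), mul_zero]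
        · intro h
          simp at h
      rw [← h9, h0]
    · exact h5 n hn0 hn

end Pool.Agent.R669.Wt
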