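import Pool.Agent.R669.Wt.Red
import Pool.Agent.R942.FJ.Cop

/-!
# Graphs of groups with infinite cyclic edge groups
-/

set_option autoImplicit false

namespace Pool.Agent.R669.Wt

open Pool.Agent.Y110.FJ Pool.Agent.R779.FJ Pool.Agent.R942.FJ
open Pool.Agent.Y462.SS (Closed)

section scale

theorem sum_scale {M : Type} (w : M → ℕ) (r : ℕ) (L : List M) :
    (L.map fun g => r * w g).sum = r * (L.map w).sum := by
  induction L with
  | nil => simp
  | cons g L ih => rw [List.map_cons, List.map_cons, List.sum_cons, List.sum_cons, ih, mul_add]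

variable {M : Type} [Group M]

/-- rescaling the weights -/
theorem Fw_scale (w : M → ℕ) (r d e : ℕ) (h : ∀ s, d ≤ r * s ↔ e ≤ s) :
    Fw (fun g => r * w g) d = Fw w e := by
  unfold Fw
  congr 1
  ext x
  constructor
  · rintro ⟨L, hL, rfl⟩
    rw [sum_scale, h] at hL
    exact ⟨L, hL, rfl⟩
  · rintro ⟨L, hL, rfl⟩
    refine ⟨L, ?_, rfl⟩
    rw [sum_scale, h]
    exact hL

theorem HasOrd.scale {w : M → ℕ} {g : M} {k : ℕ} (h : HasOrd w g k) (r : ℕ) (hr : 1 ≤ r) :
    HasOrd (fun g => r * w g) g (r * k) := by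
  constructor
  · rw [Fw_scale w r (r * k) k (fun s => Nat.mul_le_mul_left_iff hr)]
    exact h.1
  · rw [Fw_scale w r (r * k + 1) (k + 1) (fun s => by
      rw [Nat.add_one_le_iff, Nat.add_one_le_iff]
      exact Nat.mul_lt_mul_left hr)]
    exact h.2

/-- homomorphisms which do not lower the weights -/
theorem map_Fw {N : Type} [Group N] (f : M →* N) (w : M → ℕ) (w' : N → ℕ)
    (hf : ∀ g, f g = 1 ∨ w g ≤ w' (f g)) (d : ℕ) {x : MonoidAlgebra ℚ M} (hx : x ∈ Fw w d) :
    MonoidAlgebra.lift ℚ (MonoidAlgebra ℚ N) M ((MonoidAlgebra.of ℚ N).comp f) x ∈ Fw w' d := by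
  let F : MonoidAlgebra ℚ M →ₐ[ℚ] MonoidAlgebra ℚ N :=
    MonoidAlgebra.lift ℚ (MonoidAlgebra ℚ N) M ((MonoidAlgebra.of ℚ N).comp f)
  have hF : ∀ g, F (dl g) = dl (f g) := by
    intro g
    show F (MonoidAlgebra.of ℚ M g - 1) = MonoidAlgebra.of ℚ N (f g) - 1
    rw [map_sub, map_one, show F (MonoidAlgebra.of ℚ M g) =
      ((MonoidAlgebra.of ℚ N).comp f) g from MonoidAlgebra.lift_of _ _]
    rfl
  have h1 : Fw w d ≤ (Fw w' d).comap F.toLinearMap := by
    refine Submodule.span_le.2 ?_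
    rintro _ ⟨L, hL, rfl⟩
    show F (L.map dl).prod ∈ Fw w' d
    have h2 : ∀ L : List M, F (L.map dl).prod ∈ Fw w' (L.map w).sum := by
      intro L
      induction L with
      | nil =>
        rw [List.map_nil, List.sum_nil, Fw_zero]
        exact Submodule.mem_top
      | cons g L ih =>
        rw [List.map_cons, List.map_cons, List.prod_cons, List.sum_cons, map_mul, hF]
        refine Fw_mul w' ?_ ih
        rcases hf g with h | h
        · rw [h, dl_one]
          exact Submodule.zero_mem _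
        · exact Fw_anti w' h (dl_mem w' _)
    exact Fw_anti w' hL (h2 L)
  exact h1 hx

theorem map_dl {N : Type} [Group N] (f : M →* N) (w : M → ℕ) (w' : N → ℕ)
    (hf : ∀ g, f g = 1 ∨ w g ≤ w' (f g)) (d : ℕ) {g : M} (hx : dl g ∈ Fw w d) :
    dl (f g) ∈ Fw w' d := by
  have h1 := map_Fw f w w' hf d hx
  rw [dl, map_sub, map_one, MonoidAlgebra.lift_of] at h1
  exact h1

end scale

section free

variable {Vt : Type} {G : Vt → Type} [∀ v, Group (G v)] (w : ∀ v, G v → ℕ)

/-- the inclusion of a free factor -/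
def cof (v : Vt) : G v →* Monoid.CoprodI G := Monoid.CoprodI.of

open Classical in
/-- the weights on the free product -/
noncomputable def wf (g : Monoid.CoprodI G) : ℕ :=
  if h : ∃ p : Σ v, G v, p.2 ≠ 1 ∧ g = cof p.1 p.2 then w h.choose.1 h.choose.2 else 1

open Classical in
/-- the retraction to a free factor -/
noncomputable def ret (v : Vt) : Monoid.CoprodI G →* G v :=
  Monoid.CoprodI.lift (Pi.mulSingle v (MonoidHom.id (G v)))

theorem ret_of (v : Vt) (x : G v) : ret v (cof _ x) = x := by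
  classical
  rw [ret, cof, Monoid.CoprodI.lift_of, Pi.mulSingle_eq_same]
  rfl

theorem ret_of_ne {u v : Vt} (h : u ≠ v) (x : G u) : ret v (cof _ x) = 1 := by
  classical
  rw [ret, cof, Monoid.CoprodI.lift_of, Pi.mulSingle_eq_of_ne h]
  rfl

theorem wf_of {v : Vt} (x : G v) (hx : x ≠ 1) : wf w (cof v x) = w v x := by
  have h : ∃ p : Σ v, G v, p.2 ≠ 1 ∧ cof v x = cof p.1 p.2 :=
    ⟨⟨v, x⟩, hx, rfl⟩
  rw [wf, dif_pos h]
  have h1 := h.choose_spec
  generalize h.choose = p at h1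
  obtain ⟨u, y⟩ := p
  obtain ⟨hy, hxy⟩ := h1
  by_cases huv : u = v
  · subst huv
    rw [Monoid.CoprodI.of_injective u hxy]
  · have h2 := congrArg (ret v) hxy
    rw [ret_of, ret_of_ne huv] at h2
    exact absurd h2 hx

theorem wf_pos (hw : ∀ v g, 1 ≤ w v g) (g : Monoid.CoprodI G) : 1 ≤ wf w g := by
  unfold wf
  split_ifs with h
  · exact hw _ _
  · exact le_rfl

/-- the orders in the free product are the orders in the free factors -/
theorem HasOrd.free (hw : ∀ v g, 1 ≤ w v g) {v : Vt} {x : G v} {k : ℕ} (h : HasOrd (w v) x k) :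
    HasOrd (wf w) (cof v x) k := by
  have hf1 : ∀ g : G v, cof v g = 1 ∨
      w v g ≤ wf w (cof v g) := by
    intro g
    by_cases hg : g = 1
    · exact Or.inl (by rw [hg, map_one])
    · exact Or.inr (by rw [wf_of w g hg])
  have hf2 : ∀ g : Monoid.CoprodI G, ret v g = 1 ∨ wf w g ≤ w v (ret v g) := by
    intro g
    by_cases hg : ∃ p : Σ v, G v, p.2 ≠ 1 ∧ g = cof p.1 p.2
    · obtain ⟨⟨u, y⟩, hy, rfl⟩ := hg
      by_cases huv : u = v
      · subst huv
        right
        rw [ret_of, wf_of w y hy]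
      · left
        exact ret_of_ne huv y
    · right
      rw [wf, dif_neg hg]
      exact hw _ _
  constructor
  · exact map_dl (cof v) (w v) (wf w) hf1 k h.1
  · intro h1
    have h2 : dl (ret v (cof _ x)) ∈ Fw (w v) (k + 1) :=
      map_dl (ret v) (wf w) (w v) hf2 (k + 1) h1
    have h3 : ret v (cof _ x) = x := ret_of v x
    rw [h3] at h2
    exact h.2 h2

end free

section graph

variable {Vt E : Type} {G : Vt → Type} [∀ v, Group (G v)] (o t : E → Vt)
  (x : ∀ e, G (o e)) (y : ∀ e, G (t e))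

/-- Serre's group of the graph of groups with vertex groups `G v` and infinite cyclic edge groups: it
is generated by the groups `G v` and elements `t_e` with the relations `t_e x_e t_e⁻¹ = y_e` -/
abbrev GG : Type :=
  CH (M := Monoid.CoprodI G) (fun e => cof (o e) (x e)) (fun e => cof (t e) (y e))

theorem gog_nat {C : ∀ (G : Type) [Group G], Prop} (hC : ClosedE C)
    (hgl : ∀ n : ℕ, C (Matrix (Fin n) (Fin n) ℚ)ˣ) (hG : ∀ v, C (G v)) (w : ∀ v, G v → ℕ)
    (hw : ∀ v g, 1 ≤ w v g) (k l : E → ℕ) (hx : ∀ e, HasOrd (w (o e)) (x e) (k e))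
    (hy : ∀ e, HasOrd (w (t e)) (y e) (l e))
    (hr : ∀ J : Finset E, ∃ r : Vt → ℕ, (∀ v, 1 ≤ r v) ∧ ∀ e ∈ J, r (o e) * k e = r (t e) * l e) :
    C (GG o t x y) := by
  refine mh_wt hC hgl (C_coprodI hC.base Vt G hG) _ _ fun J => ?_
  obtain ⟨r, hr1, hr⟩ := hr J
  let w' : ∀ v, G v → ℕ := fun v g => r v * w v g
  have hw' : ∀ v g, 1 ≤ w' v g := fun v g => Nat.mul_pos (hr1 v) (hw v g)
  refine ⟨wf w', wf_pos w' hw', fun e he => ⟨r (o e) * k e, ?_, ?_⟩⟩
  · exact HasOrd.free w' hw' ((hx e).scale (r (o e)) (hr1 _))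
  · rw [hr e he]
    exact HasOrd.free w' hw' ((hy e).scale (r (t e)) (hr1 _))

/-- **graphs of groups with infinite cyclic edge groups and compatible orders** -/
theorem gog {C : ∀ (G : Type) [Group G], Prop} (hC : ClosedE C)
    (hgl : ∀ n : ℕ, C (Matrix (Fin n) (Fin n) ℚ)ˣ) (hG : ∀ v, C (G v)) (w : ∀ v, G v → ℕ)
    (hw : ∀ v g, 1 ≤ w v g) (k l : E → ℕ) (hx : ∀ e, HasOrd (w (o e)) (x e) (k e))
    (hy : ∀ e, HasOrd (w (t e)) (y e) (l e)) (r : Vt → ℚ) (hr0 : ∀ v, 0 < r v)
    (hr : ∀ e, r (o e) * k e = r (t e) * l e) : C (GG o t x y) := by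
  classical
  refine gog_nat o t x y hC hgl hG w hw k l hx hy fun J => ?_
  let V : Finset Vt := J.image o ∪ J.image t
  let D : ℕ := ∏ v ∈ V, (r v).den
  have hD : 0 < D := Finset.prod_pos fun v _ => (r v).den_pos
  have hnat : ∀ v ∈ V, ∃ n : ℕ, (n : ℚ) = D * r v := by
    intro v hv
    obtain ⟨m, hm⟩ : (r v).den ∣ D := Finset.dvd_prod_of_mem _ hv
    refine ⟨m * (r v).num.toNat, ?_⟩
    have h1 : (((r v).num.toNat : ℕ) : ℚ) = (r v).num := by
      have : (((r v).num.toNat : ℕ) : ℤ) = (r v).num := Int.toNat_of_nonneg (Rat.num_pos.2 (hr0 v)).le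
      exact_mod_cast this
    have h2 : (r v) * (r v).den = (r v).num := Rat.mul_den_eq_num (r v)
    rw [hm]
    push_cast
    rw [h1, ← h2]
    ring
  have hex : ∀ v, ∃ n : ℕ, 1 ≤ n ∧ (v ∈ V → (n : ℚ) = D * r v) := by
    intro v
    by_cases hv : v ∈ V
    · obtain ⟨n, hn⟩ := hnat v hv
      refine ⟨n, ?_, fun _ => hn⟩
      have h1 : (0 : ℚ) < n := by
        rw [hn]
        have := hr0 v
        positivity
      exact_mod_cast h1
    · exact ⟨1, le_rfl, fun h => absurd h hv⟩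
  choose n hn1 hn using hex
  refine ⟨n, hn1, fun e he => ?_⟩
  have h1 := hn (o e) (Finset.mem_union_left _ (Finset.mem_image_of_mem o he))
  have h2 := hn (t e) (Finset.mem_union_right _ (Finset.mem_image_of_mem t he))
  have h3 : ((n (o e) * k e : ℕ) : ℚ) = (n (t e) * l e : ℕ) := by
    push_cast
    rw [h1, h2, mul_assoc, mul_assoc, hr e]
  exact_mod_cast h3

end graph

end Pool.Agent.R669.Wt
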