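import Pool.Agent.R669.Wt.Fn

/-!
# Isomorphisms of spaces of polynomial functions which intertwine commuting translations
-/

set_option autoImplicit false

namespace Pool.Agent.R669.Wt

open Module

variable {N : Type} [Group N] (w : N → ℕ)

/-- the invariant functions -/
def ivs (U : Subalgebra ℚ (N → ℚ)) (a : N) : Subalgebra ℚ (N → ℚ) where
  carrier := {f | f ∈ U ∧ La a f = f}
  mul_mem' := fun {f g} hf hg => ⟨U.mul_mem hf.1 hg.1, by rw [La_mul_fun, hf.2, hg.2]⟩
  add_mem' := fun {f g} hf hg => ⟨U.add_mem hf.1 hg.1, by rw [map_add, hf.2, hg.2]⟩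
  algebraMap_mem' := fun c => ⟨U.algebraMap_mem c, rfl⟩

/-- commuting translations with functions of the expected degrees -/
structure Sys (U : Subalgebra ℚ (N → ℚ)) {r : ℕ} (a : Fin r → N) (k : Fin r → ℕ) : Prop where
  comm : ∀ i j, a i * a j = a j * a i
  pos : ∀ i, 1 ≤ k i
  mem : ∀ i, dl (a i) ∈ Fw w (k i)
  stab : ∀ i, ∀ f ∈ U, La (a i) f ∈ U
  phi : ∀ i, ∃ φ ∈ U, φ ∈ Pj w (k i + 1) ∧ ∀ l, i ≤ l → La (a l) φ = φ + (if l = i then 1 else 0)

variable {w}

omit [Group N] in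
theorem binf_U {U : Subalgebra ℚ (N → ℚ)} {φ : N → ℚ} (hφ : φ ∈ U) (n : ℕ) : binf n φ ∈ U := by
  induction n with
  | zero => exact U.one_mem
  | succ n ih =>
    rw [binf_succ]
    exact U.smul_mem (U.mul_mem ih (U.sub_mem hφ (U.smul_mem U.one_mem _))) _

theorem Ev_U {U : Subalgebra ℚ (N → ℚ)} {φ : N → ℚ} (hφ : φ ∈ U) (J : ℕ) {v : ℕ → N → ℚ}
    (hv : ∀ n, v n ∈ U) : Ev φ J v ∈ U := by
  rw [Ev_apply]
  exact U.sum_mem fun n _ => U.mul_mem (binf_U hφ n) (hv n)

theorem Ev_Pj (hw : ∀ g, 1 ≤ w g) {φ : N → ℚ} {k : ℕ} (hφ : φ ∈ Pj w (k + 1)) (J j : ℕ)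
    {v : ℕ → N → ℚ} (hv : ∀ n, v n ∈ Pj w (j - n * k)) : Ev φ J v ∈ Pj w j := by
  rw [Ev_apply]
  exact Submodule.sum_mem _ fun n _ => mul_mem_Pj w hw (binf_mem w hw hφ n) (hv n)

/-- existence of the expansion -/
theorem Ev_ex (hw : ∀ g, 1 ≤ w g) {U : Subalgebra ℚ (N → ℚ)} {a : N} {k : ℕ} (hk : 1 ≤ k)
    (ha : dl a ∈ Fw w k) (hst : ∀ f ∈ U, La a f ∈ U) {φ : N → ℚ} (hφU : φ ∈ U)
    (hφ : φ ∈ Pj w (k + 1)) (hLφ : La a φ = φ + 1) : ∀ (j : ℕ) (f : N → ℚ), f ∈ U → f ∈ Pj w j →
    ∃ v : ℕ → N → ℚ, (∀ n, v n ∈ ivs U a ∧ v n ∈ Pj w (j - n * k)) ∧ Ev φ j v = f := by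
  intro j
  induction j using Nat.strong_induction_on with
  | _ j ih =>
    intro f hfU hf
    rcases Nat.eq_zero_or_pos j with rfl | hj
    · refine ⟨0, fun n => ⟨(ivs U a).zero_mem, Submodule.zero_mem _⟩, ?_⟩
      rw [map_zero, Pj_zero w hf]
    · have hg : La a f - f ∈ Pj w (j - k) := De_mem w ha hf
      obtain ⟨g, hg1, hg2⟩ := ih (j - k) (by omega) _ (U.sub_mem (hst f hfU) hfU) hg
      have hg0 : ∀ n, j - k ≤ n → g n = 0 := by
        intro n hn
        have h1 : j - k - n * k = 0 := by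
          have := Nat.mul_le_mul_left n hk
          omega
        have h2 := (hg1 n).2
        rw [h1] at h2
        exact Pj_zero w h2
      let u : ℕ → N → ℚ := fun n => match n with
        | 0 => 0
        | n + 1 => g n
      have huV : ∀ n, u n ∈ ivs U a := by
        intro n
        cases n with
        | zero => exact (ivs U a).zero_mem
        | succ n => exact (hg1 n).1
      have huP : ∀ n, u n ∈ Pj w (j - n * k) := by
        intro n
        cases n with
        | zero => exact Submodule.zero_mem _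
        | succ n =>
          have h1 := (hg1 n).2
          have h2 : j - k - n * k = j - (n + 1) * k := by
            rw [Nat.succ_mul]
            omega
          rw [h2] at h1
          exact h1
      have huj : u j = 0 := by
        have h1 := huP j
        have h2 : j - j * k = 0 := by
          have := Nat.mul_le_mul_left j hk
          omega
        rw [h2] at h1
        exact Pj_zero w h1
      let h : N → ℚ := Ev φ j u
      have hLh : La a h = h + (La a f - f) := by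
        have h1 := La_Ev hLφ j u (fun n => (huV n).2) huj
        have h2 : Ev φ j (fun n => u n + u (n + 1)) = Ev φ j u + Ev φ j g :=
          map_add (Ev φ j) u g
        rw [show La a h = La a (Ev φ j u) from rfl, h1, h2, Ev_le φ (Nat.sub_le j k) g hg0, hg2]
      have hhU : h ∈ U := Ev_U hφU j fun n => (huV n).1
      have hhP : h ∈ Pj w j := Ev_Pj hw hφ j j huP
      let v : ℕ → N → ℚ := fun n => match n with
        | 0 => f - h
        | n + 1 => g n
      refine ⟨v, fun n => ?_, ?_⟩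
      · cases n with
        | zero =>
          refine ⟨⟨U.sub_mem hfU hhU, ?_⟩, ?_⟩
          · show La a (f - h) = f - h
            rw [map_sub, hLh]
            abel
          · show f - h ∈ Pj w (j - 0 * k)
            rw [zero_mul, Nat.sub_zero]
            exact Submodule.sub_mem _ hf hhP
        | succ n => exact ⟨huV (n + 1), huP (n + 1)⟩
      · obtain ⟨i, rfl⟩ := Nat.exists_eq_add_of_le' hj
        have h1 : Ev φ (i + 1) v = Ev φ (i + 1) u + (f - h) := by
          rw [Ev_apply, Ev_apply, Finset.sum_range_succ', Finset.sum_range_succ']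
          show _ + binf 0 φ * (f - h) = _ + binf 0 φ * 0 + (f - h)
          rw [binf_zero, one_mul, mul_zero, add_zero]
        rw [h1]
        show h + (f - h) = f
        abel

/-- families of subspaces with the same dimensions -/
theorem filt_iso {A : Type} [AddCommGroup A] [Module ℚ A] (S S' : ℕ → Submodule ℚ A)
    (hS : Monotone S) (hS' : Monotone S') [∀ j, FiniteDimensional ℚ (S j)]
    [∀ j, FiniteDimensional ℚ (S' j)] : ∀ J : ℕ,
    (∀ j, j ≤ J → finrank ℚ (S j) = finrank ℚ (S' j)) →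
    ∃ T : A →ₗ[ℚ] A, (∀ j, j ≤ J → ∀ f ∈ S j, T f ∈ S' j) ∧ ∀ f ∈ S J, T f = 0 → f = 0 := by
  intro J
  induction J with
  | zero =>
    intro h
    let e : S 0 ≃ₗ[ℚ] S' 0 := LinearEquiv.ofFinrankEq _ _ (h 0 le_rfl)
    obtain ⟨T, hT⟩ := LinearMap.exists_extend ((S' 0).subtype.comp e.toLinearMap)
    have hT' : ∀ f (hf : f ∈ S 0), T f = e ⟨f, hf⟩ := fun f hf => LinearMap.congr_fun hT ⟨f, hf⟩
    refine ⟨T, fun j hj f hf => ?_, fun f hf hf0 => ?_⟩
    · obtain rfl : j = 0 := Nat.le_zero.1 hj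
      rw [hT' f hf]
      exact (e ⟨f, hf⟩).2
    · rw [hT' f hf] at hf0
      have h1 : e ⟨f, hf⟩ = 0 := Subtype.ext hf0
      have h2 : (⟨f, hf⟩ : S 0) = 0 := e.injective (by rw [h1, map_zero])
      exact congrArg Subtype.val h2
  | succ J ih =>
    intro h
    obtain ⟨T, hT1, hT2⟩ := ih fun j hj => h j (hj.trans (Nat.le_succ J))
    let S0 : Submodule ℚ (S (J + 1)) := (S J).comap (S (J + 1)).subtype
    let f0 : S0 →ₗ[ℚ] S' (J + 1) := LinearMap.codRestrict (S' (J + 1))
      (T.comp ((S (J + 1)).subtype.comp S0.subtype)) fun x =>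
        hS' (Nat.le_succ J) (hT1 J le_rfl _ x.2)
    have hf0 : ∀ x : S0, ((f0 x : S' (J + 1)) : A) = T ((x : S (J + 1)) : A) := fun x => rfl
    have hf0i : Function.Injective f0 := by
      rw [← LinearMap.ker_eq_bot, LinearMap.ker_eq_bot']
      intro x hx
      have h1 : T ((x : S (J + 1)) : A) = 0 := by
        rw [← hf0, hx]
        rfl
      exact Subtype.ext (Subtype.ext (hT2 _ x.2 h1))
    obtain ⟨σ, hσ⟩ := ext_iso S0 f0 hf0i (h (J + 1) le_rfl)
    obtain ⟨T', hT'⟩ := LinearMap.exists_extend ((S' (J + 1)).subtype.comp σ.toLinearMap)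
    have hTσ : ∀ f (hf : f ∈ S (J + 1)), T' f = σ ⟨f, hf⟩ :=
      fun f hf => LinearMap.congr_fun hT' ⟨f, hf⟩
    refine ⟨T', fun j hj f hf => ?_, fun f hf hf0' => ?_⟩
    · rcases Nat.lt_or_eq_of_le hj with hj' | rfl
      · have hfJ : f ∈ S J := hS (Nat.lt_succ_iff.1 hj') hf
        have h1 := hσ ⟨⟨f, hS (Nat.le_succ J) hfJ⟩, hfJ⟩
        rw [hTσ f (hS (Nat.le_succ J) hfJ), h1, hf0]
        exact hT1 j (Nat.lt_succ_iff.1 hj') f hf
      · rw [hTσ f hf]
        exact (σ ⟨f, hf⟩).2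
    · rw [hTσ f hf] at hf0'
      have h1 : σ ⟨f, hf⟩ = 0 := Subtype.ext hf0'
      have h2 : (⟨f, hf⟩ : S (J + 1)) = 0 := σ.injective (by rw [h1, map_zero])
      exact congrArg Subtype.val h2

/-- the part of degree less than `j` -/
noncomputable abbrev UP (w : N → ℕ) (U : Subalgebra ℚ (N → ℚ)) (j : ℕ) : Submodule ℚ (N → ℚ) :=
  Subalgebra.toSubmodule U ⊓ Pj w j

theorem UP_mono (U : Subalgebra ℚ (N → ℚ)) : Monotone (UP w U) :=
  fun _ _ h => inf_le_inf_left _ (Pj_mono w h)

theorem finrank_UP (hw : ∀ g, 1 ≤ w g) (hfd : ∀ j, FiniteDimensional ℚ (Pj w j))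
    {U : Subalgebra ℚ (N → ℚ)} {a : N} {k : ℕ} (hk : 1 ≤ k)
    (ha : dl a ∈ Fw w k) (hst : ∀ f ∈ U, La a f ∈ U) {φ : N → ℚ} (hφU : φ ∈ U)
    (hφ : φ ∈ Pj w (k + 1)) (hLφ : La a φ = φ + 1) (j : ℕ) :
    finrank ℚ (UP w U j) = finrank ℚ (UP w U (j - k)) + finrank ℚ (UP w (ivs U a) j) := by
  have : FiniteDimensional ℚ (UP w U j) := Submodule.finiteDimensional_inf_right _ _
  let Δ : UP w U j →ₗ[ℚ] UP w U (j - k) := (La a - LinearMap.id).restrict fun f hf =>
    ⟨U.sub_mem (hst f hf.1) hf.1, De_mem w ha hf.2⟩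
  have hΔ : ∀ f : UP w U j, ((Δ f : UP w U (j - k)) : N → ℚ) = La a (f : N → ℚ) - f := fun f => rfl
  have hsurj : LinearMap.range Δ = ⊤ := by
    rw [LinearMap.range_eq_top]
    rintro ⟨g, hgU, hg⟩
    obtain ⟨v, hv, hvg⟩ := Ev_ex hw hk ha hst hφU hφ hLφ (j - k) g hgU hg
    let u : ℕ → N → ℚ := fun n => match n with
      | 0 => 0
      | n + 1 => v n
    have huV : ∀ n, u n ∈ ivs U a := by
      intro n
      cases n with
      | zero => exact (ivs U a).zero_mem
      | succ n => exact (hv n).1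
    have huP : ∀ n, u n ∈ Pj w (j - n * k) := by
      intro n
      cases n with
      | zero => exact Submodule.zero_mem _
      | succ n =>
        have h1 := (hv n).2
        have h2 : j - k - n * k = j - (n + 1) * k := by
          rw [Nat.succ_mul]
          omega
        rw [h2] at h1
        exact h1
    have huj : u j = 0 := by
      have h1 := huP j
      have h2 : j - j * k = 0 := by
        have := Nat.mul_le_mul_left j hk
        omega
      rw [h2] at h1
      exact Pj_zero w h1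
    have hv0 : ∀ n, j - k ≤ n → v n = 0 := by
      intro n hn
      have h1 : j - k - n * k = 0 := by
        have := Nat.mul_le_mul_left n hk
        omega
      have h2 := (hv n).2
      rw [h1] at h2
      exact Pj_zero w h2
    refine ⟨⟨Ev φ j u, Ev_U hφU j fun n => (huV n).1, Ev_Pj hw hφ j j huP⟩, Subtype.ext ?_⟩
    rw [hΔ]
    have h1 := La_Ev hLφ j u (fun n => (huV n).2) huj
    have h2 : Ev φ j (fun n => u n + u (n + 1)) = Ev φ j u + Ev φ j v := map_add (Ev φ j) u v
    show La a (Ev φ j u) - Ev φ j u = g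
    rw [h1, h2, Ev_le φ (Nat.sub_le j k) v hv0, hvg]
    abel
  have hker : finrank ℚ (LinearMap.ker Δ) = finrank ℚ (UP w (ivs U a) j) := by
    rw [← Submodule.finrank_map_subtype_eq]
    have h1 : (LinearMap.ker Δ).map (UP w U j).subtype = UP w (ivs U a) j := by
      ext f
      constructor
      · rintro ⟨⟨f, hfU, hf⟩, hfk, rfl⟩
        have h2 : La a f - f = 0 := congrArg Subtype.val hfk
        exact ⟨⟨hfU, sub_eq_zero.1 h2⟩, hf⟩
      · rintro ⟨⟨hfU, hfa⟩, hf⟩
        refine ⟨⟨f, hfU, hf⟩, Subtype.ext ?_, rfl⟩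
        show La a f - f = 0
        rw [hfa, sub_self]
    rw [h1]
  have h1 := LinearMap.finrank_range_add_finrank_ker Δ
  rw [hsurj, finrank_top, hker] at h1
  exact h1.symm

/-- the invariants of the first translation form a system -/
theorem Sys.tail (hw : ∀ g, 1 ≤ w g) {U : Subalgebra ℚ (N → ℚ)} {r : ℕ} {a : Fin (r + 1) → N}
    {k : Fin (r + 1) → ℕ} (h : Sys w U a k) :
    Sys w (ivs U (a 0)) (fun i : Fin r => a i.succ) (fun i => k i.succ) := by
  obtain ⟨φ, hφU, hφ, hφL⟩ := h.phi 0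
  have hL0 : La (a 0) φ = φ + 1 := by simpa using hφL 0 le_rfl
  refine ⟨fun i j => h.comm _ _, fun i => h.pos _, fun i => h.mem _, fun i f hf => ?_, fun i => ?_⟩
  · refine ⟨h.stab _ f hf.1, ?_⟩
    rw [La_comm (h.comm _ _), hf.2]
  · obtain ⟨ψ, hψU, hψ, hψL⟩ := h.phi i.succ
    obtain ⟨v, hv, hvψ⟩ := Ev_ex hw (h.pos 0) (h.mem 0) (h.stab 0) hφU hφ hL0 _ ψ hψU hψ
    refine ⟨v 0, (hv 0).1, by simpa using (hv 0).2, fun l hl => ?_⟩
    have hl0 : La (a l.succ) φ = φ := by
      have := hφL l.succ (Fin.zero_le _)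
      rwa [if_neg (Fin.succ_ne_zero l), add_zero] at this
    have h1 := hψL l.succ (Fin.succ_le_succ_iff.2 hl)
    let e : N → ℚ := if l.succ = i.succ then 1 else 0
    let u : ℕ → N → ℚ := fun n => La (a l.succ) (v n) - v n - (if n = 0 then e else 0)
    have he : ∀ b : N, La b e = e := by
      intro b
      show La b (if l.succ = i.succ then 1 else 0) = if l.succ = i.succ then 1 else 0
      split_ifs
      · rfl
      · exact map_zero _
    have hu : ∀ n, La (a 0) (u n) = u n := by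
      intro n
      show La (a 0) (La (a l.succ) (v n) - v n - (if n = 0 then e else 0)) = _
      rw [map_sub, map_sub, La_comm (h.comm _ _), (hv n).1.2]
      congr 1
      split_ifs
      · exact he _
      · exact map_zero _
    have hEu : Ev φ (k i.succ + 1) u = 0 := by
      have h2 : u = (fun n => La (a l.succ) (v n)) - v - (fun n => if n = 0 then e else 0) := rfl
      have h3 : Ev φ (k i.succ + 1) (fun n => if n = 0 then e else 0) = e := by
        rw [Ev_apply, Finset.sum_eq_single 0]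
        · rw [binf_zero, one_mul, if_pos rfl]
        · intro n _ hn
          rw [if_neg hn, mul_zero]
        · intro hn
          simp at hn
      rw [h2, map_sub, map_sub, ← La_Ev_inv hl0, hvψ, h3, h1]
      show ψ + e - ψ - e = 0
      abel
    have h4 := Ev_inj hL0 _ u hu hEu 0 (Nat.succ_pos _)
    have h5 : La (a l.succ) (v 0) - v 0 - e = 0 := h4
    have h6 : La (a l.succ) (v 0) = v 0 + e := by
      rw [sub_eq_zero] at h5
      rw [← h5]
      abel
    rw [h6]
    show v 0 + (if l.succ = i.succ then 1 else 0) = v 0 + (if l = i then 1 else 0)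
    simp only [Fin.succ_inj]

/-- **the intertwining isomorphism** -/
theorem main_iso (hw : ∀ g, 1 ≤ w g) (hfd : ∀ j, FiniteDimensional ℚ (Pj w j)) (J : ℕ) :
    ∀ (r : ℕ) (U U' : Subalgebra ℚ (N → ℚ)) (a a' : Fin r → N) (k : Fin r → ℕ),
    Sys w U a k → Sys w U' a' k →
    (∀ j, j ≤ J → finrank ℚ (UP w U j) = finrank ℚ (UP w U' j)) →
    ∃ T : (N → ℚ) →ₗ[ℚ] (N → ℚ), (∀ j, j ≤ J → ∀ f ∈ UP w U j, T f ∈ UP w U' j) ∧
      (∀ f ∈ UP w U J, T f = 0 → f = 0) ∧
      ∀ i, ∀ f ∈ UP w U J, T (La (a i) f) = La (a' i) (T f) := by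
  intro r
  induction r with
  | zero =>
    intro U U' a a' k _ _ hdim
    have : ∀ j, FiniteDimensional ℚ (UP w U j) := fun j => Submodule.finiteDimensional_inf_right _ _
    have : ∀ j, FiniteDimensional ℚ (UP w U' j) := fun j => Submodule.finiteDimensional_inf_right _ _
    obtain ⟨T, h1, h2⟩ := filt_iso (UP w U) (UP w U') (UP_mono U) (UP_mono U') J hdim
    exact ⟨T, h1, h2, fun i => i.elim0⟩
  | succ r ih =>
    intro U U' a a' k hs hs' hdim
    obtain ⟨φ, hφU, hφ, hφL⟩ := hs.phi 0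
    obtain ⟨φ', hφU', hφ', hφL'⟩ := hs'.phi 0
    have hL0 : La (a 0) φ = φ + 1 := by simpa using hφL 0 le_rfl
    have hL0' : La (a' 0) φ' = φ' + 1 := by simpa using hφL' 0 le_rfl
    have hli : ∀ l : Fin r, La (a l.succ) φ = φ := by
      intro l
      have := hφL l.succ (Fin.zero_le _)
      rwa [if_neg (Fin.succ_ne_zero l), add_zero] at this
    have hli' : ∀ l : Fin r, La (a' l.succ) φ' = φ' := by
      intro l
      have := hφL' l.succ (Fin.zero_le _)
      rwa [if_neg (Fin.succ_ne_zero l), add_zero] at this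
    have hdimV : ∀ j, j ≤ J → finrank ℚ (UP w (ivs U (a 0)) j) =
        finrank ℚ (UP w (ivs U' (a' 0)) j) := by
      intro j hj
      have h1 := finrank_UP hw hfd (hs.pos 0) (hs.mem 0) (hs.stab 0) hφU hφ hL0 j
      have h2 := finrank_UP hw hfd (hs'.pos 0) (hs'.mem 0) (hs'.stab 0) hφU' hφ' hL0' j
      rw [hdim j hj, hdim (j - k 0) ((Nat.sub_le _ _).trans hj)] at h1
      omega
    obtain ⟨θ, hθ1, hθ2, hθ3⟩ := ih (ivs U (a 0)) (ivs U' (a' 0)) (fun i => a i.succ)
      (fun i => a' i.succ) (fun i => k i.succ) (hs.tail hw) (hs'.tail hw) hdimV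
    -- the space of coefficients
    let W : Submodule ℚ (ℕ → N → ℚ) :=
      Submodule.pi Set.univ fun n => UP w (ivs U (a 0)) (J - n * k 0)
    have hW : ∀ v : ℕ → N → ℚ, v ∈ W ↔ ∀ n, v n ∈ UP w (ivs U (a 0)) (J - n * k 0) := fun v => by
      rw [Submodule.mem_pi]
      exact ⟨fun h n => h n (Set.mem_univ n), fun h n _ => h n⟩
    have hW0 : ∀ v ∈ W, ∀ n, J ≤ n → v n = 0 := by
      intro v hv n hn
      have h1 := ((hW v).1 hv n).2
      have h2 : J - n * k 0 = 0 := by
        have := Nat.mul_le_mul_left n (hs.pos 0)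
        omega
      rw [h2] at h1
      exact Pj_zero w h1
    let ev : W →ₗ[ℚ] UP w U J := LinearMap.codRestrict (UP w U J) ((Ev φ J).comp W.subtype)
      fun v => ⟨Ev_U hφU J fun n => ((hW _).1 v.2 n).1.1, Ev_Pj hw hφ J J fun n => ((hW _).1 v.2 n).2⟩
    have hev : Function.Bijective ev := by
      constructor
      · rw [← LinearMap.ker_eq_bot, LinearMap.ker_eq_bot']
        intro v hv
        have h1 : Ev φ J (v : ℕ → N → ℚ) = 0 := congrArg Subtype.val hv
        have h2 := Ev_inj hL0 J _ (fun n => ((hW _).1 v.2 n).1.2) h1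
        apply Subtype.ext
        funext n
        rcases lt_or_ge n J with hn | hn
        · exact h2 n hn
        · exact hW0 _ v.2 n hn
      · rintro ⟨f, hfU, hf⟩
        obtain ⟨v, hv, hvf⟩ := Ev_ex hw (hs.pos 0) (hs.mem 0) (hs.stab 0) hφU hφ hL0 J f hfU hf
        exact ⟨⟨v, (hW v).2 fun n => hv n⟩, Subtype.ext hvf⟩
    let e : W ≃ₗ[ℚ] UP w U J := LinearEquiv.ofBijective ev hev
    let Θ : (ℕ → N → ℚ) →ₗ[ℚ] (ℕ → N → ℚ) := LinearMap.compLeft θ ℕ
    obtain ⟨T, hT⟩ := LinearMap.exists_extend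
      ((Ev φ' J).comp (Θ.comp (W.subtype.comp e.symm.toLinearMap)))
    have hTE : ∀ v ∈ W, T (Ev φ J v) = Ev φ' J (fun n => θ (v n)) := by
      intro v hv
      have h1 := LinearMap.congr_fun hT (e ⟨v, hv⟩)
      have h2 : e.symm (e ⟨v, hv⟩) = ⟨v, hv⟩ := e.symm_apply_apply _
      have h3 : T ((e ⟨v, hv⟩ : UP w U J) : N → ℚ) =
          Ev φ' J (Θ ((e.symm (e ⟨v, hv⟩) : W) : ℕ → N → ℚ)) := h1
      rw [h2] at h3
      exact h3
    have hrep : ∀ f ∈ UP w U J, ∃ v ∈ W, Ev φ J v = f := by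
      intro f hf
      obtain ⟨v, hv⟩ := hev.2 ⟨f, hf⟩
      exact ⟨v, v.2, congrArg Subtype.val hv⟩
    have hθW : ∀ v ∈ W, ∀ n, θ (v n) ∈ UP w (ivs U' (a' 0)) (J - n * k 0) := fun v hv n =>
      hθ1 _ (Nat.sub_le _ _) _ ((hW v).1 hv n)
    have hVJ : ∀ v ∈ W, ∀ n, v n ∈ UP w (ivs U (a 0)) J := fun v hv n =>
      UP_mono _ (Nat.sub_le _ _) ((hW v).1 hv n)
    refine ⟨T, fun j hj f hf => ?_, fun f hf hf0 => ?_, fun i f hf => ?_⟩
    · obtain ⟨v, hv, hvf⟩ := Ev_ex hw (hs.pos 0) (hs.mem 0) (hs.stab 0) hφU hφ hL0 j f hf.1 hf.2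
      have hvW : v ∈ W := (hW v).2 fun n => ⟨(hv n).1, Pj_mono w (Nat.sub_le_sub_right hj _) (hv n).2⟩
      have hv0 : ∀ n, j ≤ n → v n = 0 := by
        intro n hn
        have h1 := (hv n).2
        have h2 : j - n * k 0 = 0 := by
          have := Nat.mul_le_mul_left n (hs.pos 0)
          omega
        rw [h2] at h1
        exact Pj_zero w h1
      have h3 := hTE v hvW
      rw [Ev_le φ hj v hv0, hvf] at h3
      rw [h3]
      have h4 : ∀ n, θ (v n) ∈ UP w (ivs U' (a' 0)) (j - n * k 0) := fun n =>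
        hθ1 _ ((Nat.sub_le _ _).trans hj) _ ⟨(hv n).1, (hv n).2⟩
      exact ⟨Ev_U hφU' J fun n => (h4 n).1.1, Ev_Pj hw hφ' J j fun n => (h4 n).2⟩
    · obtain ⟨v, hv, rfl⟩ := hrep f hf
      rw [hTE v hv] at hf0
      have h1 := Ev_inj hL0' J _ (fun n => (hθW v hv n).1.2) hf0
      have h2 : ∀ n, v n = 0 := by
        intro n
        rcases lt_or_ge n J with hn | hn
        · exact hθ2 _ (hVJ v hv n) (h1 n hn)
        · exact hW0 v hv n hn
      have h3 : v = 0 := funext h2
      rw [h3, map_zero]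
    · obtain ⟨v, hv, rfl⟩ := hrep f hf
      refine Fin.cases ?_ (fun l => ?_) i
      · have hJ0 : v J = 0 := hW0 v hv J le_rfl
        rw [La_Ev hL0 J v (fun n => ((hW v).1 hv n).1.2) hJ0, hTE v hv,
          La_Ev hL0' J (fun n => θ (v n)) (fun n => (hθW v hv n).1.2) (by
            show θ (v J) = 0
            rw [hJ0, map_zero])]
        have hW2 : (fun n => v n + v (n + 1)) ∈ W := (hW _).2 fun n =>
          Submodule.add_mem _ ((hW v).1 hv n) (UP_mono _ (by
            rw [Nat.succ_mul]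
            omega) ((hW v).1 hv (n + 1)))
        rw [hTE _ hW2]
        congr 1
        funext n
        rw [map_add]
      · rw [La_Ev_inv (hli l), hTE v hv, La_Ev_inv (hli' l)]
        have hW2 : (fun n => La (a l.succ) (v n)) ∈ W := (hW _).2 fun n =>
          ⟨(hs.tail hw).stab l _ ((hW v).1 hv n).1, La_mem w _ ((hW v).1 hv n).2⟩
        rw [hTE _ hW2]
        congr 1
        funext n
        exact hθ3 l _ (hVJ v hv n)

end Pool.Agent.R669.Wt
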