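import Pool.Agent.R669.Wt.Nil

/-!
# Filtered commutative algebras with a locally unipotent automorphism
-/

set_option autoImplicit false

namespace Pool.Agent.R669.Wt

open Module

section bin

/-- binomial coefficients in a commutative `ℚ`-algebra -/
noncomputable def bA {R : Type} [CommRing R] [Algebra ℚ R] (x : R) : ℕ → R
  | 0 => 1
  | n + 1 => algebraMap ℚ R (1 / (n + 1)) * (bA x n * (x - n))

variable {R : Type} [CommRing R] [Algebra ℚ R]

theorem bA_zero (x : R) : bA x 0 = 1 := rfl

theorem bA_succ (x : R) (n : ℕ) :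
    bA x (n + 1) = algebraMap ℚ R (1 / (n + 1)) * (bA x n * (x - n)) := rfl

theorem cn_mul (R : Type) [CommRing R] [Algebra ℚ R] (n : ℕ) :
    algebraMap ℚ R (1 / ((n : ℚ) + 1)) * ((n : R) + 1) = 1 := by
  have h1 : ((n : R) + 1) = algebraMap ℚ R ((n : ℚ) + 1) := by simp
  rw [h1, ← map_mul]
  have h2 : (1 / ((n : ℚ) + 1)) * ((n : ℚ) + 1) = 1 := by
    have : (n : ℚ) + 1 ≠ 0 := by positivity
    field_simp
  rw [h2, map_one]

theorem bA_mul (x : R) (n : ℕ) : ((n : R) + 1) * bA x (n + 1) = bA x n * (x - n) := by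
  rw [bA_succ]
  linear_combination (bA x n * (x - n)) * cn_mul R n

theorem bA_pascal (x : R) (n : ℕ) : bA (x + 1) (n + 1) = bA x (n + 1) + bA x n := by
  induction n with
  | zero =>
    rw [bA_succ, bA_succ, bA_zero, bA_zero]
    have h := cn_mul R 0
    simp only [Nat.cast_zero, zero_add, mul_one] at h
    simp only [Nat.cast_zero, zero_add, one_div, inv_one, map_one]
    ring
  | succ n ih =>
    rw [bA_succ (x + 1), bA_succ x (n + 1), ih]
    have h1 := bA_mul x n
    have h2 := cn_mul R (n + 1)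
    push_cast at h2 ⊢
    linear_combination (algebraMap ℚ R (1 / ((n : ℚ) + 1 + 1))) * (-h1) + (bA x (n + 1)) * h2

theorem map_bA {R' : Type} [CommRing R'] [Algebra ℚ R'] (f : R →ₐ[ℚ] R') (x : R) (n : ℕ) :
    f (bA x n) = bA (f x) n := by
  induction n with
  | zero => rw [bA_zero, bA_zero, map_one]
  | succ n ih => rw [bA_succ, bA_succ, map_mul, map_mul, ih, map_sub, map_natCast, AlgHom.commutes]

theorem bA_zero_succ (n : ℕ) : bA (0 : R) (n + 1) = 0 := by
  induction n with
  | zero => simp [bA_succ, bA_zero]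
  | succ n ih => rw [bA_succ, ih, zero_mul, mul_zero]

theorem bA_nat (n i : ℕ) : bA (n : R) i = ((n.choose i : ℕ) : R) := by
  induction n generalizing i with
  | zero =>
    cases i with
    | zero => simp [bA_zero]
    | succ i => rw [Nat.cast_zero, bA_zero_succ, Nat.choose_zero_succ, Nat.cast_zero]
  | succ n ih =>
    cases i with
    | zero => simp [bA_zero]
    | succ i =>
      rw [Nat.cast_succ, bA_pascal, ih, ih, Nat.choose_succ_succ, Nat.cast_add, add_comm]

end bin

/-- a filtered commutative algebra -/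
structure FA (U : Type) [CommRing U] [Algebra ℚ U] (F : ℕ → Submodule ℚ U) : Prop where
  mono : Monotone F
  zero : F 0 = ⊥
  one : (1 : U) ∈ F 1
  mul : ∀ (i j : ℕ) (f g : U), f ∈ F (i + 1) → g ∈ F (j - i) → f * g ∈ F j
  exh : ∀ f, ∃ j, f ∈ F j
  fin : ∀ j, FiniteDimensional ℚ (F j)

/-- an endomorphism `L` and an element `φ` with `L φ = φ + 1` -/
structure St {U : Type} [CommRing U] [Algebra ℚ U] (F : ℕ → Submodule ℚ U) (L : U →ₐ[ℚ] U)
    (φ : U) (k : ℕ) : Prop where
  fa : FA U F
  pos : 1 ≤ k
  dec : ∀ j, ∀ f ∈ F j, L f - f ∈ F (j - k)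
  mem : φ ∈ F (k + 1)
  eq : L φ = φ + 1

section ev

variable {U : Type} [CommRing U] [Algebra ℚ U] {F : ℕ → Submodule ℚ U} {L : U →ₐ[ℚ] U} {φ : U}
  {k : ℕ}

theorem FA.eq_zero (h : FA U F) {f : U} (hf : f ∈ F 0) : f = 0 := by
  rw [h.zero] at hf
  exact (Submodule.mem_bot ℚ).1 hf

theorem FA.nat_mem (h : FA U F) (n j : ℕ) : ((n : ℕ) : U) ∈ F (j + 1) := by
  have h1 : ((n : ℕ) : U) = (n : ℚ) • (1 : U) := by
    rw [Algebra.smul_def, mul_one, map_natCast]
  rw [h1]
  exact Submodule.smul_mem _ _ (h.mono (by omega) h.one)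

theorem St.bA_mem (h : St F L φ k) (n : ℕ) : bA φ n ∈ F (n * k + 1) := by
  induction n with
  | zero =>
    rw [bA_zero, zero_mul]
    exact h.fa.one
  | succ n ih =>
    rw [bA_succ, ← Algebra.smul_def]
    refine Submodule.smul_mem _ _ (h.fa.mul (n * k) _ _ _ ih ?_)
    rw [show (n + 1) * k + 1 - n * k = k + 1 by rw [Nat.succ_mul]; omega]
    exact Submodule.sub_mem _ h.mem (h.fa.nat_mem n k)

theorem St.L_bA (h : St F L φ k) (n : ℕ) : L (bA φ (n + 1)) = bA φ (n + 1) + bA φ n := by
  rw [map_bA, h.eq, bA_pascal]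

/-- the expansion with given coefficients -/
noncomputable def ev (φ : U) (J : ℕ) (v : ℕ → U) : U := ∑ n ∈ Finset.range J, bA φ n * v n

theorem ev_add (φ : U) (J : ℕ) (u v : ℕ → U) : ev φ J (fun n => u n + v n) = ev φ J u + ev φ J v := by
  rw [ev, ev, ev, ← Finset.sum_add_distrib]
  exact Finset.sum_congr rfl fun n _ => mul_add _ _ _

theorem ev_succ (φ : U) (J : ℕ) (v : ℕ → U) : ev φ (J + 1) v = ev φ J v + bA φ J * v J :=
  Finset.sum_range_succ _ _

theorem ev_succ' (φ : U) (J : ℕ) (v : ℕ → U) :
    ev φ (J + 1) v = (∑ n ∈ Finset.range J, bA φ (n + 1) * v (n + 1)) + v 0 := by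
  rw [ev, Finset.sum_range_succ', bA_zero, one_mul]

theorem ev_le (φ : U) {J J' : ℕ} (h : J ≤ J') (v : ℕ → U) (hv : ∀ n, J ≤ n → v n = 0) :
    ev φ J' v = ev φ J v := by
  rw [ev, ev]
  symm
  refine Finset.sum_subset (Finset.range_mono h) fun n _ hn => ?_
  rw [hv n (by simpa using hn), mul_zero]

theorem St.ev_mem (h : St F L φ k) (J j : ℕ) {v : ℕ → U} (hv : ∀ n, v n ∈ F (j - n * k)) :
    ev φ J v ∈ F j :=
  Submodule.sum_mem _ fun n _ => h.fa.mul (n * k) _ _ _ (h.bA_mem n) (hv n)

theorem St.L_ev (h : St F L φ k) (J : ℕ) (v : ℕ → U) (hv : ∀ n, L (v n) = v n) (hJ : v J = 0) :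
    L (ev φ J v) = ev φ J (fun n => v n + v (n + 1)) := by
  have key : ∀ J : ℕ, L (ev φ (J + 1) v) =
      ev φ (J + 1) (fun n => v n + v (n + 1)) - bA φ J * v (J + 1) := by
    intro J
    induction J with
    | zero =>
      rw [ev, ev, Finset.sum_range_one, Finset.sum_range_one, map_mul, bA_zero, map_one, hv]
      ring
    | succ J ih =>
      rw [ev_succ φ (J + 1), ev_succ φ (J + 1), map_add, ih, map_mul, hv, h.L_bA]
      ring
  rcases Nat.eq_zero_or_pos J with rfl | hJ'
  · rw [ev, ev, Finset.sum_range_zero, Finset.sum_range_zero, map_zero]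
  · obtain ⟨i, rfl⟩ := Nat.exists_eq_add_of_le' hJ'
    have h1 := key i
    rw [hJ, mul_zero, sub_zero] at h1
    exact h1

theorem St.ev_inj (h : St F L φ k) : ∀ (J : ℕ) (v : ℕ → U),
    (∀ n, L (v n) = v n) → ev φ J v = 0 → ∀ n, n < J → v n = 0 := by
  intro J
  induction J with
  | zero => intro v _ _ n hn; omega
  | succ J ih =>
    intro v hv h0
    let u : ℕ → U := fun n => if n < J + 1 then v n else 0
    have hu : ∀ n, L (u n) = u n := by
      intro n
      show L (if n < J + 1 then v n else 0) = if n < J + 1 then v n else 0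
      split_ifs
      · exact hv n
      · exact map_zero _
    have hEu : ev φ (J + 1) u = 0 := by
      rw [← h0, ev, ev]
      refine Finset.sum_congr rfl fun n hn => ?_
      show bA φ n * (if n < J + 1 then v n else 0) = _
      rw [if_pos (Finset.mem_range.1 hn)]
    have huJ : u (J + 1) = 0 := if_neg (lt_irrefl _)
    have h1 := h.L_ev (J + 1) u hu huJ
    rw [hEu, map_zero, ev_add, hEu, zero_add] at h1
    have h3 : ev φ (J + 1) (fun n => u (n + 1)) = ev φ J (fun n => u (n + 1)) := by
      rw [ev_succ, huJ, mul_zero, add_zero]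
    rw [h3] at h1
    have h4 := ih (fun n => u (n + 1)) (fun n => hu (n + 1)) h1.symm
    have h5 : ∀ n, 1 ≤ n → n < J + 1 → v n = 0 := by
      intro n hn hn'
      have h6 := h4 (n - 1) (by omega)
      have h7 : u (n - 1 + 1) = 0 := h6
      rw [show n - 1 + 1 = n by omega] at h7
      have h8 : u n = v n := if_pos hn'
      rw [← h8, h7]
    intro n hn
    rcases Nat.eq_zero_or_pos n with rfl | hn0
    · have h9 : ev φ (J + 1) v = v 0 := by
        rw [ev, Finset.sum_eq_single 0]
        · rw [bA_zero, one_mul]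
        · intro n hn hn0
          rw [h5 n (Nat.pos_of_ne_zero hn0) (Finset.mem_range.1 hn), mul_zero]
        · intro h
          simp at h
      rw [← h9, h0]
    · exact h5 n hn0 hn

theorem FA.vanish (h : FA U F) (hk : 1 ≤ k) {j : ℕ} {v : ℕ → U} (hv : ∀ n, v n ∈ F (j - n * k)) :
    ∀ n, j ≤ n → v n = 0 := by
  intro n hn
  have h1 : j - n * k = 0 := by
    have := Nat.mul_le_mul_left n hk
    omega
  have h2 := hv n
  rw [h1] at h2
  exact h.eq_zero h2

/-- existence of the expansion -/
theorem St.ev_ex (h : St F L φ k) : ∀ (j : ℕ) (f : U), f ∈ F j →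
    ∃ v : ℕ → U, (∀ n, L (v n) = v n ∧ v n ∈ F (j - n * k)) ∧ ev φ j v = f := by
  intro j
  induction j using Nat.strong_induction_on with
  | _ j ih =>
    intro f hf
    have hk := h.pos
    rcases Nat.eq_zero_or_pos j with rfl | hj
    · refine ⟨fun _ => 0, fun n => ⟨map_zero _, Submodule.zero_mem _⟩, ?_⟩
      rw [ev, Finset.sum_range_zero, h.fa.eq_zero hf]
    · have hg : L f - f ∈ F (j - k) := h.dec j f hf
      obtain ⟨g, hg1, hg2⟩ := ih (j - k) (by omega) _ hg
      have hg0 : ∀ n, j - k ≤ n → g n = 0 := h.fa.vanish hk fun n => (hg1 n).2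
      let u : ℕ → U := fun n => match n with
        | 0 => 0
        | n + 1 => g n
      have huV : ∀ n, L (u n) = u n := by
        intro n
        cases n with
        | zero => exact map_zero _
        | succ n => exact (hg1 n).1
      have huP : ∀ n, u n ∈ F (j - n * k) := by
        intro n
        cases n with
        | zero => exact Submodule.zero_mem _
        | succ n =>
          have h1 := (hg1 n).2
          have h2 : j - k - n * k = j - (n + 1) * k := by
            rw [Nat.succ_mul]
            omega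
          rw [h2] at h1
          exact h1
      have huj : u j = 0 := h.fa.vanish hk huP j le_rfl
      have hLh : L (ev φ j u) = ev φ j u + (L f - f) := by
        have h1 := h.L_ev j u huV huj
        rw [ev_add φ j u (fun n => u (n + 1))] at h1
        have h2 : ev φ j (fun n => u (n + 1)) = L f - f := by
          rw [← hg2]
          exact ev_le φ (Nat.sub_le j k) g hg0
        rw [h1, h2]
      have hhP : ev φ j u ∈ F j := h.ev_mem j j huP
      let v : ℕ → U := fun n => match n with
        | 0 => f - ev φ j u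
        | n + 1 => g n
      refine ⟨v, fun n => ?_, ?_⟩
      · cases n with
        | zero =>
          refine ⟨?_, ?_⟩
          · show L (f - ev φ j u) = f - ev φ j u
            rw [map_sub, hLh]
            ring
          · show f - ev φ j u ∈ F (j - 0 * k)
            rw [zero_mul, Nat.sub_zero]
            exact Submodule.sub_mem _ hf hhP
        | succ n => exact ⟨huV (n + 1), huP (n + 1)⟩
      · obtain ⟨i, rfl⟩ := Nat.exists_eq_add_of_le' hj
        have hs : ∑ n ∈ Finset.range i, bA φ (n + 1) * v (n + 1) = ev φ (i + 1) u := by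
          rw [ev_succ' φ i u]
          show _ = _ + (0 : U)
          rw [add_zero]
        have h1 : ev φ (i + 1) v = ev φ (i + 1) u + (f - ev φ (i + 1) u) := by
          rw [ev_succ' φ i v, hs]
        rw [h1]
        ring

end ev

end Pool.Agent.R669.Wt
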