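import Pool.Agent.R669.Wt.Nba

/-!
# The quotient by an element with `L φ = φ + 1`
-/

set_option autoImplicit false

namespace Pool.Agent.R669.Wt

open Module

variable {U : Type} [CommRing U] [Algebra ℚ U] {F : ℕ → Submodule ℚ U} {L : U →ₐ[ℚ] U} {φ : U}
  {k : ℕ}

/-- the quotient -/
abbrev QV (φ : U) : Type := U ⧸ Ideal.span {φ}

/-- the quotient map -/
noncomputable abbrev mkV (φ : U) : U →ₐ[ℚ] QV φ := Ideal.Quotient.mkₐ ℚ (Ideal.span {φ})

/-- the filtration of the quotient -/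
noncomputable abbrev FV (F : ℕ → Submodule ℚ U) (φ : U) (j : ℕ) : Submodule ℚ (QV φ) :=
  (F j).map (mkV φ).toLinearMap

theorem mkV_self (φ : U) : mkV φ φ = 0 := Ideal.Quotient.eq_zero_iff_mem.2 (Ideal.mem_span_singleton_self φ)

theorem mkV_bA (φ : U) (n : ℕ) : mkV φ (bA φ (n + 1)) = 0 := by
  rw [map_bA, mkV_self, bA_zero_succ]

theorem mkV_ev (φ : U) (J : ℕ) (v : ℕ → U) : mkV φ (ev φ (J + 1) v) = mkV φ (v 0) := by
  rw [ev_succ', map_add, map_sum, Finset.sum_eq_zero, zero_add]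
  intro n _
  rw [map_mul, mkV_bA, zero_mul]

theorem phi_ev (φ : U) (w : ℕ → U) (j : ℕ) : φ * ev φ j w =
    (∑ n ∈ Finset.range j, bA φ (n + 1) * (((n : U) + 1) * (w n + w (n + 1)))) -
      bA φ j * ((j : U) * w j) := by
  induction j with
  | zero => simp [ev]
  | succ j ih =>
    rw [ev_succ, Finset.sum_range_succ, mul_add, ih]
    have h1 := bA_mul φ j
    push_cast
    linear_combination (-(w j)) * h1

theorem St.inv_zero (h : St F L φ k) {v : U} (hv : L v = v) (h0 : mkV φ v = 0) : v = 0 := by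
  obtain ⟨g, hg⟩ := Ideal.mem_span_singleton'.1 (Ideal.Quotient.eq_zero_iff_mem.1 h0)
  obtain ⟨j, hj⟩ := h.fa.exh g
  obtain ⟨w, hw, hwg⟩ := h.ev_ex j g hj
  have hwj : w j = 0 := h.fa.vanish h.pos (fun n => (hw n).2) j le_rfl
  let u : ℕ → U := fun n => match n with
    | 0 => -v
    | n + 1 => ((n : U) + 1) * (w n + w (n + 1))
  have hu : ∀ n, L (u n) = u n := by
    intro n
    cases n with
    | zero =>
      show L (-v) = -v
      rw [map_neg, hv]
    | succ n =>
      show L (((n : U) + 1) * (w n + w (n + 1))) = _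
      rw [map_mul, map_add, map_add, map_natCast, map_one, (hw n).1, (hw (n + 1)).1]
  have h1 : ev φ (j + 1) u = 0 := by
    have h2 := phi_ev φ w j
    rw [hwj, mul_zero, mul_zero, sub_zero, hwg] at h2
    rw [ev_succ']
    show (∑ n ∈ Finset.range j, bA φ (n + 1) * (((n : U) + 1) * (w n + w (n + 1)))) + -v = 0
    rw [← h2, ← hg]
    ring
  have h3 : -v = 0 := h.ev_inj (j + 1) u hu h1 0 (Nat.succ_pos j)
  exact neg_eq_zero.1 h3

/-- the sequence of the images of the elements `L^n f` in the quotient -/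
noncomputable def Fs (L : U →ₐ[ℚ] U) (φ : U) : U →ₗ[ℚ] (ℕ → QV φ) :=
  LinearMap.pi fun n => (mkV φ).toLinearMap.comp (L ^ n).toLinearMap

theorem Fs_apply (L : U →ₐ[ℚ] U) (φ : U) (f : U) (n : ℕ) : Fs L φ f n = mkV φ ((L ^ n) f) := rfl

theorem St.pow_phi (h : St F L φ k) (n : ℕ) : (L ^ n) φ = φ + n := by
  induction n with
  | zero => rw [pow_zero, AlgHom.one_apply, Nat.cast_zero, add_zero]
  | succ n ih =>
    rw [pow_succ, AlgHom.mul_apply, h.eq, map_add, ih, map_one, Nat.cast_succ, add_assoc]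

theorem inv_pow' {v : U} (hv : L v = v) (n : ℕ) : (L ^ n) v = v := by
  induction n with
  | zero => rw [pow_zero, AlgHom.one_apply]
  | succ n ih => rw [pow_succ, AlgHom.mul_apply, hv, ih]

theorem St.Fs_ev (h : St F L φ k) (J : ℕ) (v : ℕ → U) (hv : ∀ i, L (v i) = v i) (n : ℕ) :
    Fs L φ (ev φ J v) n = ∑ i ∈ Finset.range J, ((n.choose i : ℕ) : ℚ) • mkV φ (v i) := by
  rw [Fs_apply, ev, map_sum, map_sum]
  refine Finset.sum_congr rfl fun i _ => ?_
  rw [map_mul, map_mul, map_bA, h.pow_phi, inv_pow' (hv i), map_bA, map_add, mkV_self, zero_add,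
    map_natCast, bA_nat, Algebra.smul_def, map_natCast]

theorem tri {V : Type} [AddCommGroup V] [Module ℚ V] (J : ℕ) (x : ℕ → V)
    (h : ∀ n : ℕ, ∑ i ∈ Finset.range J, ((n.choose i : ℕ) : ℚ) • x i = 0) : ∀ n, n < J → x n = 0 := by
  intro n
  induction n using Nat.strong_induction_on with
  | _ n ih =>
    intro hn
    have h1 := h n
    rw [Finset.sum_eq_single n] at h1
    · rwa [Nat.choose_self, Nat.cast_one, one_smul] at h1
    · intro i hi hin
      rcases Nat.lt_or_gt_of_ne hin with hlt | hgt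
      · rw [ih i hlt (hlt.trans hn), smul_zero]
      · rw [Nat.choose_eq_zero_of_lt hgt, Nat.cast_zero, zero_smul]
    · intro h2
      exact absurd (Finset.mem_range.2 hn) h2

theorem St.Fs_inj (h : St F L φ k) : Function.Injective (Fs L φ) := by
  rw [← LinearMap.ker_eq_bot, LinearMap.ker_eq_bot']
  intro f hf
  obtain ⟨j, hj⟩ := h.fa.exh f
  obtain ⟨v, hv, hvf⟩ := h.ev_ex j f hj
  have h1 := tri j (fun i => mkV φ (v i)) fun n => by
    rw [← h.Fs_ev j v (fun i => (hv i).1) n, hvf, hf]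
    rfl
  rw [← hvf, ev]
  refine Finset.sum_eq_zero fun n hn => ?_
  rw [h.inv_zero (hv n).1 (h1 n (Finset.mem_range.1 hn)), mul_zero]

theorem St.inv_lift (h : St F L φ k) {j : ℕ} {x : QV φ} (hx : x ∈ FV F φ j) :
    ∃ v ∈ F j, L v = v ∧ mkV φ v = x := by
  obtain ⟨f, hf, rfl⟩ := hx
  obtain ⟨v, hv, hvf⟩ := h.ev_ex j f hf
  have h0 := (hv 0).2
  rw [zero_mul, Nat.sub_zero] at h0
  refine ⟨v 0, h0, (hv 0).1, ?_⟩
  rcases Nat.eq_zero_or_pos j with rfl | hj
  · rw [h.fa.eq_zero h0, h.fa.eq_zero hf, map_zero]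
    exact (map_zero _).symm
  · obtain ⟨i, rfl⟩ := Nat.exists_eq_add_of_le' hj
    rw [← mkV_ev φ i v]
    exact congrArg (mkV φ) hvf

theorem St.Fs_lift (h : St F L φ k) (j : ℕ) (x : ℕ → QV φ) (hx : ∀ i, x i ∈ FV F φ (j - i * k)) :
    ∃ f ∈ F j, ∀ n, Fs L φ f n = ∑ i ∈ Finset.range j, ((n.choose i : ℕ) : ℚ) • x i := by
  have h1 : ∀ i, ∃ v ∈ F (j - i * k), L v = v ∧ mkV φ v = x i := fun i => h.inv_lift (hx i)
  choose v hv1 hv2 hv3 using h1
  refine ⟨ev φ j v, h.ev_mem j j hv1, fun n => ?_⟩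
  rw [h.Fs_ev j v hv2]
  simp only [hv3]

theorem St.Fs_mem (h : St F L φ k) {j : ℕ} {f : U} (hf : f ∈ F j) :
    ∃ x : ℕ → QV φ, (∀ i, x i ∈ FV F φ (j - i * k)) ∧
      ∀ n, Fs L φ f n = ∑ i ∈ Finset.range j, ((n.choose i : ℕ) : ℚ) • x i := by
  obtain ⟨v, hv, rfl⟩ := h.ev_ex j f hf
  exact ⟨fun i => mkV φ (v i), fun i => ⟨v i, (hv i).2, rfl⟩,
    fun n => h.Fs_ev j v (fun i => (hv i).1) n⟩

theorem St.Fs_mem' (h : St F L φ k) {j : ℕ} {f : U} (hf : f ∈ F j) (n : ℕ) :
    Fs L φ f n ∈ FV F φ j := by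
  obtain ⟨x, hx, hxf⟩ := h.Fs_mem hf
  rw [hxf]
  exact Submodule.sum_mem _ fun i _ => Submodule.smul_mem _ _
    (Submodule.map_mono (h.fa.mono (Nat.sub_le _ _)) (hx i))

theorem St.fr (h : St F L φ k) (j : ℕ) :
    finrank ℚ (F j) = finrank ℚ (F (j - k)) + finrank ℚ (FV F φ j) := by
  have hfin := h.fa.fin
  let Δ : F j →ₗ[ℚ] F (j - k) := (L.toLinearMap - LinearMap.id).restrict fun f hf => h.dec j f hf
  have hΔ : ∀ f : F j, ((Δ f : F (j - k)) : U) = L (f : U) - f := fun f => rfl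
  have hsurj : LinearMap.range Δ = ⊤ := by
    rw [LinearMap.range_eq_top]
    rintro ⟨g, hg⟩
    obtain ⟨v, hv, hvg⟩ := h.ev_ex (j - k) g hg
    let u : ℕ → U := fun n => match n with
      | 0 => 0
      | n + 1 => v n
    have huV : ∀ n, L (u n) = u n := by
      intro n
      cases n with
      | zero => exact map_zero _
      | succ n => exact (hv n).1
    have huP : ∀ n, u n ∈ F (j - n * k) := by
      intro n
      cases n with
      | zero => exact Submodule.zero_mem _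
      | succ n =>
        have h1 := (hv n).2
        have h2 : j - k - n * k = j - (n + 1) * k := by
          rw [Nat.succ_mul]
          omega
        rw [h2] at h1
        exact h1
    have huj : u j = 0 := h.fa.vanish h.pos huP j le_rfl
    have hv0 : ∀ n, j - k ≤ n → v n = 0 := h.fa.vanish h.pos fun n => (hv n).2
    refine ⟨⟨ev φ j u, h.ev_mem j j huP⟩, Subtype.ext ?_⟩
    rw [hΔ]
    have h1 := h.L_ev j u huV huj
    rw [ev_add φ j u (fun n => u (n + 1))] at h1
    have h2 : ev φ j (fun n => u (n + 1)) = g := by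
      rw [← hvg]
      exact ev_le φ (Nat.sub_le j k) v hv0
    show L (ev φ j u) - ev φ j u = g
    rw [h1, h2]
    ring
  have hker : finrank ℚ (LinearMap.ker Δ) = finrank ℚ (FV F φ j) := by
    let e : LinearMap.ker Δ →ₗ[ℚ] FV F φ j := LinearMap.codRestrict _
      ((mkV φ).toLinearMap.comp ((F j).subtype.comp (LinearMap.ker Δ).subtype)) fun x =>
        ⟨_, (x : F j).2, rfl⟩
    have he : Function.Bijective e := by
      constructor
      · intro x y hxy
        have h1 : L ((x : F j) : U) - (x : F j) = 0 := congrArg Subtype.val x.2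
        have h1' : L ((y : F j) : U) - (y : F j) = 0 := congrArg Subtype.val y.2
        have h2 : mkV φ ((x : F j) : U) = mkV φ ((y : F j) : U) := congrArg Subtype.val hxy
        have h3 : ((x : F j) : U) - ((y : F j) : U) = 0 := h.inv_zero
          (by rw [map_sub, sub_eq_zero.1 h1, sub_eq_zero.1 h1']) (by rw [map_sub, h2, sub_self])
        exact Subtype.ext (Subtype.ext (sub_eq_zero.1 h3))
      · rintro ⟨x, hx⟩
        obtain ⟨v, hv1, hv2, hv3⟩ := h.inv_lift hx
        exact ⟨⟨⟨v, hv1⟩, Subtype.ext (sub_eq_zero.2 hv2)⟩, Subtype.ext hv3⟩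
    exact (LinearEquiv.ofBijective e he).finrank_eq
  have h1 := LinearMap.finrank_range_add_finrank_ker Δ
  rw [hsurj, finrank_top, hker] at h1
  exact h1.symm

/-- the quotient is a filtered algebra -/
theorem FA.quot (h : FA U F) : FA (QV φ) (FV F φ) where
  mono := fun _ _ hij => Submodule.map_mono (h.mono hij)
  zero := by rw [FV, h.zero, Submodule.map_bot]
  one := ⟨1, h.one, map_one (mkV φ)⟩
  mul := by
    rintro i j _ _ ⟨f, hf, rfl⟩ ⟨g, hg, rfl⟩
    exact ⟨f * g, h.mul i j f g hf hg, map_mul (mkV φ) f g⟩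
  exh := fun x => by
    obtain ⟨f, rfl⟩ := Ideal.Quotient.mk_surjective x
    obtain ⟨j, hj⟩ := h.exh f
    exact ⟨j, f, hj, rfl⟩
  fin := fun j => by
    have := h.fin j
    exact inferInstanceAs (FiniteDimensional ℚ ((F j).map (mkV φ).toLinearMap))

end Pool.Agent.R669.Wt
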