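import Pool.Agent.R669.Wt.Nbb

/-!
# Isomorphisms of filtered modules over nilpotent groups
-/

set_option autoImplicit false

namespace Pool.Agent.R669.Wt

open Module

/-- families of subspaces with the same dimensions -/
theorem filt_iso2 {A A' : Type} [AddCommGroup A] [Module ℚ A] [AddCommGroup A'] [Module ℚ A']
    (S : ℕ → Submodule ℚ A) (S' : ℕ → Submodule ℚ A')
    (hS : Monotone S) (hS' : Monotone S') (hfS : ∀ j, FiniteDimensional ℚ (S j))
    (hfS' : ∀ j, FiniteDimensional ℚ (S' j)) : ∀ J : ℕ,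
    (∀ j, j ≤ J → finrank ℚ (S j) = finrank ℚ (S' j)) →
    ∃ T : A →ₗ[ℚ] A', (∀ j, j ≤ J → ∀ f ∈ S j, T f ∈ S' j) ∧ ∀ f ∈ S J, T f = 0 → f = 0 := by
  intro J
  induction J with
  | zero =>
    intro h
    let e : S 0 ≃ₗ[ℚ] S' 0 := LinearEquiv.ofFinrankEq _ _ (h 0 le_rfl)
    obtain ⟨T, hT⟩ := LinearMap.exists_extend ((S' 0).subtype.comp e.toLinearMap)
    have hT' : ∀ f (hf : f ∈ S 0), T f = e ⟨f, hf⟩ := fun f hf => LinearMap.congr_fun hT ⟨f, hf⟩
    refine ⟨T, fun j hj f hf => ?_, fun f hf hf0 => ?_⟩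
    · obtain rfl : j = 0 := Nat.le_zero.1 hj
      rw [hT' f hf]
      exact (e ⟨f, hf⟩).2
    · rw [hT' f hf] at hf0
      have h1 : e ⟨f, hf⟩ = 0 := Subtype.ext hf0
      have h2 : (⟨f, hf⟩ : S 0) = 0 := e.injective (by rw [h1, map_zero])
      exact congrArg Subtype.val h2
  | succ J ih =>
    intro h
    obtain ⟨T, hT1, hT2⟩ := ih fun j hj => h j (hj.trans (Nat.le_succ J))
    let S0 : Submodule ℚ (S (J + 1)) := (S J).comap (S (J + 1)).subtype
    let f0 : S0 →ₗ[ℚ] S' (J + 1) := LinearMap.codRestrict (S' (J + 1))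
      (T.comp ((S (J + 1)).subtype.comp S0.subtype)) fun x =>
        hS' (Nat.le_succ J) (hT1 J le_rfl _ x.2)
    have hf0 : ∀ x : S0, ((f0 x : S' (J + 1)) : A') = T ((x : S (J + 1)) : A) := fun x => rfl
    have hf0i : Function.Injective f0 := by
      rw [← LinearMap.ker_eq_bot, LinearMap.ker_eq_bot']
      intro x hx
      have h1 : T ((x : S (J + 1)) : A) = 0 := by
        rw [← hf0, hx]
        rfl
      exact Subtype.ext (Subtype.ext (hT2 _ x.2 h1))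
    obtain ⟨σ, hσ⟩ := ext_iso S0 f0 hf0i (h (J + 1) le_rfl)
    obtain ⟨T', hT'⟩ := LinearMap.exists_extend ((S' (J + 1)).subtype.comp σ.toLinearMap)
    have hTσ : ∀ f (hf : f ∈ S (J + 1)), T' f = σ ⟨f, hf⟩ :=
      fun f hf => LinearMap.congr_fun hT' ⟨f, hf⟩
    refine ⟨T', fun j hj f hf => ?_, fun f hf hf0' => ?_⟩
    · rcases Nat.lt_or_eq_of_le hj with hj' | rfl
      · have hfJ : f ∈ S J := hS (Nat.lt_succ_iff.1 hj') hf
        have h1 := hσ ⟨⟨f, hS (Nat.le_succ J) hfJ⟩, hfJ⟩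
        rw [hTσ f (hS (Nat.le_succ J) hfJ), h1, hf0]
        exact hT1 j (Nat.lt_succ_iff.1 hj') f hf
      · rw [hTσ f hf]
        exact (σ ⟨f, hf⟩).2
    · rw [hTσ f hf] at hf0'
      have h1 : σ ⟨f, hf⟩ = 0 := Subtype.ext hf0'
      have h2 : (⟨f, hf⟩ : S (J + 1)) = 0 := σ.injective (by rw [h1, map_zero])
      exact congrArg Subtype.val h2

section mal

/-- generators adapted to a series of normal subgroups -/
structure Mal {B : Type} [Group B] {r : ℕ} (a : Fin r → B) : Prop where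
  gen : Subgroup.closure (Set.range a) = ⊤
  nrm : ∀ i, ∀ b ∈ Subgroup.closure (a '' Set.Ioi i),
    a i * b * (a i)⁻¹ ∈ Subgroup.closure (a '' Set.Ioi i) ∧
      (a i)⁻¹ * b * a i ∈ Subgroup.closure (a '' Set.Ioi i)

variable {B : Type} [Group B] {r : ℕ}

/-- the subgroup generated by all generators but the first -/
abbrev Tl (a : Fin (r + 1) → B) : Subgroup B := Subgroup.closure (Set.range fun i : Fin r => a i.succ)

/-- the remaining generators -/
def tl (a : Fin (r + 1) → B) (i : Fin r) : Tl a := ⟨a i.succ, Subgroup.subset_closure ⟨i, rfl⟩⟩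

omit [Group B] in
theorem image_Ioi_zero (a : Fin (r + 1) → B) :
    a '' Set.Ioi 0 = Set.range fun i : Fin r => a i.succ := by
  ext x
  constructor
  · rintro ⟨i, hi, rfl⟩
    obtain ⟨j, rfl⟩ := Fin.exists_succ_eq.2 (Fin.pos_iff_ne_zero.1 hi)
    exact ⟨j, rfl⟩
  · rintro ⟨j, rfl⟩
    exact ⟨j.succ, Fin.succ_pos j, rfl⟩

theorem image_tl (a : Fin (r + 1) → B) (i : Fin r) :
    (Tl a).subtype '' (tl a '' Set.Ioi i) = a '' Set.Ioi i.succ := by
  ext x
  constructor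
  · rintro ⟨_, ⟨j, hj, rfl⟩, rfl⟩
    exact ⟨j.succ, Fin.succ_lt_succ_iff.2 hj, rfl⟩
  · rintro ⟨j, hj, rfl⟩
    have hj0 : j ≠ 0 := by
      rintro rfl
      exact absurd hj (by simp)
    obtain ⟨l, rfl⟩ := Fin.exists_succ_eq.2 hj0
    exact ⟨_, ⟨l, Fin.succ_lt_succ_iff.1 hj, rfl⟩, rfl⟩

theorem mem_closure_tl (a : Fin (r + 1) → B) (i : Fin r) (b : Tl a) :
    b ∈ Subgroup.closure (tl a '' Set.Ioi i) ↔ (b : B) ∈ Subgroup.closure (a '' Set.Ioi i.succ) := by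
  rw [← image_tl, ← MonoidHom.map_closure]
  constructor
  · intro h
    exact ⟨b, h, rfl⟩
  · rintro ⟨c, hc, hcb⟩
    rwa [← Subtype.ext (a1 := c) (a2 := b) hcb]

theorem Mal.tail {a : Fin (r + 1) → B} (h : Mal a) : Mal (tl a) where
  gen := by
    have h1 : Set.range (tl a) = ((↑) : Tl a → B) ⁻¹' (Set.range fun i : Fin r => a i.succ) := by
      ext x
      constructor
      · rintro ⟨i, rfl⟩
        exact ⟨i, rfl⟩
      · rintro ⟨i, hi⟩
        exact ⟨i, Subtype.ext hi⟩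
    rw [h1]
    exact Subgroup.closure_closure_coe_preimage
  nrm := fun i b hb => by
    rw [mem_closure_tl] at hb
    rw [mem_closure_tl, mem_closure_tl]
    exact h.nrm i.succ _ hb

theorem Mal.conj {a : Fin (r + 1) → B} (h : Mal a) (n : ℕ) {b : B} (hb : b ∈ Tl a) :
    a 0 ^ n * b * (a 0 ^ n)⁻¹ ∈ Tl a := by
  induction n with
  | zero => simpa using hb
  | succ n ih =>
    have ih' : a 0 ^ n * b * (a 0 ^ n)⁻¹ ∈ Subgroup.closure (a '' Set.Ioi 0) := by
      rw [image_Ioi_zero]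
      exact ih
    have h1 := (h.nrm 0 _ ih').1
    rw [image_Ioi_zero] at h1
    rw [pow_succ']
    have h2 : a 0 * a 0 ^ n * b * (a 0 * a 0 ^ n)⁻¹ = a 0 * (a 0 ^ n * b * (a 0 ^ n)⁻¹) * (a 0)⁻¹ := by
      group
    rw [h2]
    exact h1

end mal

/-- a group acting on a filtered algebra -/
structure NS {U : Type} [CommRing U] [Algebra ℚ U] {B : Type} [Group B] (F : ℕ → Submodule ℚ U)
    (ρ : B →* (U →ₐ[ℚ] U)) {r : ℕ} (a : Fin r → B) (k : Fin r → ℕ) : Prop where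
  fa : FA U F
  pos : ∀ i, 1 ≤ k i
  stab : ∀ b j, ∀ f ∈ F j, ρ b f ∈ F j
  dec : ∀ i j, ∀ f ∈ F j, ρ (a i) f - f ∈ F (j - k i)
  phi : ∀ i, ∃ φ ∈ F (k i + 1), ∀ l, i ≤ l → ρ (a l) φ = φ + (if l = i then 1 else 0)

section step

variable {U : Type} [CommRing U] [Algebra ℚ U] {B : Type} [Group B] {F : ℕ → Submodule ℚ U}
  {ρ : B →* (U →ₐ[ℚ] U)} {r : ℕ} {a : Fin (r + 1) → B} {k : Fin (r + 1) → ℕ} {φ : U}

/-- the action on the quotient -/
noncomputable def rV (ρ : B →* (U →ₐ[ℚ] U)) (a : Fin (r + 1) → B) (φ : U)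
    (hfix : ∀ b ∈ Tl a, ρ b φ = φ) : Tl a →* (QV φ →ₐ[ℚ] QV φ) where
  toFun b := Ideal.Quotient.liftₐ (Ideal.span {φ}) ((mkV φ).comp (ρ b)) fun x hx => by
    obtain ⟨g, rfl⟩ := Ideal.mem_span_singleton'.1 hx
    show mkV φ (ρ b (g * φ)) = 0
    rw [map_mul, hfix _ b.2, map_mul, mkV_self, mul_zero]
  map_one' := by
    refine AlgHom.ext fun x => ?_
    obtain ⟨f, rfl⟩ := Ideal.Quotient.mk_surjective x
    show mkV φ (ρ ((1 : Tl a) : B) f) = mkV φ f
    rw [Subgroup.coe_one, map_one, AlgHom.one_apply]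
  map_mul' := fun b c => by
    refine AlgHom.ext fun x => ?_
    obtain ⟨f, rfl⟩ := Ideal.Quotient.mk_surjective x
    show mkV φ (ρ ((b * c : Tl a) : B) f) = mkV φ (ρ (b : B) (ρ (c : B) f))
    rw [Subgroup.coe_mul, map_mul, AlgHom.mul_apply]

theorem rV_mk (hfix : ∀ b ∈ Tl a, ρ b φ = φ) (b : Tl a) (f : U) :
    rV ρ a φ hfix b (mkV φ f) = mkV φ (ρ b f) := rfl

theorem fix_of (h : ∀ i : Fin r, ρ (a i.succ) φ = φ) : ∀ b ∈ Tl a, ρ b φ = φ := by
  intro b hb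
  induction hb using Subgroup.closure_induction with
  | mem x hx =>
    obtain ⟨i, rfl⟩ := hx
    exact h i
  | one => rw [map_one, AlgHom.one_apply]
  | mul x y _ _ hx hy => rw [map_mul, AlgHom.mul_apply, hy, hx]
  | inv x _ hx =>
    have h1 : ρ x⁻¹ (ρ x φ) = φ := by
      rw [← AlgHom.mul_apply, ← map_mul, inv_mul_cancel, map_one, AlgHom.one_apply]
    rwa [hx] at h1

theorem NS.quot (h : NS F ρ a k) (hfix : ∀ b ∈ Tl a, ρ b φ = φ) :
    NS (FV F φ) (rV ρ a φ hfix) (tl a) (fun i => k i.succ) where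
  fa := h.fa.quot
  pos := fun i => h.pos _
  stab := by
    rintro b j _ ⟨f, hf, rfl⟩
    exact ⟨ρ b f, h.stab b j f hf, rfl⟩
  dec := by
    rintro i j _ ⟨f, hf, rfl⟩
    exact ⟨ρ (a i.succ) f - f, h.dec i.succ j f hf, map_sub (mkV φ) _ _⟩
  phi := fun i => by
    obtain ⟨ψ, hψ, hl⟩ := h.phi i.succ
    refine ⟨mkV φ ψ, ⟨ψ, hψ, rfl⟩, fun l hil => ?_⟩
    rw [rV_mk, show ((tl a l : Tl a) : B) = a l.succ from rfl, hl l.succ (Fin.succ_le_succ_iff.2 hil),
      map_add]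
    congr 1
    by_cases hli : l = i
    · rw [if_pos hli, if_pos (congrArg _ hli), map_one]
    · rw [if_neg hli, if_neg (fun h => hli (Fin.succ_injective _ h)), map_zero]

theorem Fs_shift (L : U →ₐ[ℚ] U) (φ : U) (f : U) (n : ℕ) : Fs L φ (L f) n = Fs L φ f (n + 1) := by
  rw [Fs_apply, Fs_apply, pow_succ, AlgHom.mul_apply]

theorem Fs_act (hm : Mal a) (hfix : ∀ b ∈ Tl a, ρ b φ = φ) {b : B} (hb : b ∈ Tl a) (f : U) (n : ℕ) :
    Fs (ρ (a 0)) φ (ρ b f) n = rV ρ a φ hfix ⟨_, hm.conj n hb⟩ (Fs (ρ (a 0)) φ f n) := by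
  rw [Fs_apply, Fs_apply, rV_mk, ← map_pow, ← AlgHom.mul_apply, ← AlgHom.mul_apply, ← map_mul,
    ← map_mul]
  congr 3
  group

end step

/-- **isomorphism of filtered modules over nilpotent groups** -/
theorem nil_iso (J : ℕ) : ∀ (r : ℕ) (B : Type) [Group B] (a : Fin r → B) (k : Fin r → ℕ)
    (U U' : Type) [CommRing U] [Algebra ℚ U] [CommRing U'] [Algebra ℚ U']
    (F : ℕ → Submodule ℚ U) (F' : ℕ → Submodule ℚ U') (ρ : B →* (U →ₐ[ℚ] U))
    (ρ' : B →* (U' →ₐ[ℚ] U')), Mal a → NS F ρ a k → NS F' ρ' a k →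
    (∀ j, j ≤ J → finrank ℚ (F j) = finrank ℚ (F' j)) →
    ∃ T : U →ₗ[ℚ] U', (∀ j, j ≤ J → ∀ f ∈ F j, T f ∈ F' j) ∧ (∀ f ∈ F J, T f = 0 → f = 0) ∧
      ∀ b, ∀ f ∈ F J, T (ρ b f) = ρ' b (T f) := by
  intro r
  induction r with
  | zero =>
    intro B _ a k U U' _ _ _ _ F F' ρ ρ' hm h h' hdim
    obtain ⟨T, h1, h2⟩ := filt_iso2 F F' h.fa.mono h'.fa.mono h.fa.fin h'.fa.fin J hdim
    refine ⟨T, h1, h2, fun b f _ => ?_⟩
    have hb : b ∈ Subgroup.closure (Set.range a) := by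
      rw [hm.gen]
      exact Subgroup.mem_top b
    rw [Set.range_eq_empty, Subgroup.closure_empty, Subgroup.mem_bot] at hb
    rw [hb, map_one, map_one, AlgHom.one_apply, AlgHom.one_apply]
  | succ r ih =>
    intro B _ a k U U' _ _ _ _ F F' ρ ρ' hm h h' hdim
    obtain ⟨φ, hφ, hφl⟩ := h.phi 0
    obtain ⟨φ', hφ', hφl'⟩ := h'.phi 0
    have hfix : ∀ b ∈ Tl a, ρ b φ = φ := fix_of fun i => by
      have h1 := hφl i.succ (Fin.zero_le _)
      rwa [if_neg (Fin.succ_ne_zero i), add_zero] at h1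
    have hfix' : ∀ b ∈ Tl a, ρ' b φ' = φ' := fix_of fun i => by
      have h1 := hφl' i.succ (Fin.zero_le _)
      rwa [if_neg (Fin.succ_ne_zero i), add_zero] at h1
    have hst : St F (ρ (a 0)) φ (k 0) := ⟨h.fa, h.pos 0, h.dec 0, hφ, by
      have h1 := hφl 0 le_rfl
      rwa [if_pos rfl] at h1⟩
    have hst' : St F' (ρ' (a 0)) φ' (k 0) := ⟨h'.fa, h'.pos 0, h'.dec 0, hφ', by
      have h1 := hφl' 0 le_rfl
      rwa [if_pos rfl] at h1⟩
    obtain ⟨θ, hθ1, hθ2, hθ3⟩ := ih (Tl a) (tl a) (fun i => k i.succ) (QV φ) (QV φ') (FV F φ)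
      (FV F' φ') (rV ρ a φ hfix) (rV ρ' a φ' hfix') hm.tail (h.quot hfix) (h'.quot hfix')
      (fun j hj => by
        have h1 := hst.fr j
        have h2 := hst'.fr j
        rw [hdim j hj, hdim (j - k 0) ((Nat.sub_le _ _).trans hj)] at h1
        omega)
    obtain ⟨G, hG⟩ := LinearMap.exists_leftInverse_of_injective (Fs (ρ' (a 0)) φ')
      (LinearMap.ker_eq_bot.2 hst'.Fs_inj)
    let T : U →ₗ[ℚ] U' := G.comp ((LinearMap.compLeft θ ℕ).comp (Fs (ρ (a 0)) φ))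
    have hT : ∀ j, j ≤ J → ∀ f ∈ F j, T f ∈ F' j ∧
        ∀ n, Fs (ρ' (a 0)) φ' (T f) n = θ (Fs (ρ (a 0)) φ f n) := by
      intro j hj f hf
      obtain ⟨x, hx, hxf⟩ := hst.Fs_mem hf
      obtain ⟨g, hg, hgn⟩ := hst'.Fs_lift j (fun i => θ (x i)) fun i =>
        hθ1 _ ((Nat.sub_le _ _).trans hj) _ (hx i)
      have h1 : ∀ n, Fs (ρ' (a 0)) φ' g n = θ (Fs (ρ (a 0)) φ f n) := by
        intro n
        rw [hgn, hxf, map_sum]
        exact Finset.sum_congr rfl fun i _ => (map_smul θ _ _).symm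
      have h2 : T f = g := by
        show G (LinearMap.compLeft θ ℕ (Fs (ρ (a 0)) φ f)) = g
        have h3 : LinearMap.compLeft θ ℕ (Fs (ρ (a 0)) φ f) = Fs (ρ' (a 0)) φ' g :=
          funext fun n => (h1 n).symm
        rw [h3]
        exact LinearMap.congr_fun hG g
      rw [h2]
      exact ⟨hg, h1⟩
    refine ⟨T, fun j hj f hf => (hT j hj f hf).1, fun f hf hf0 => ?_, ?_⟩
    · apply hst.Fs_inj
      funext n
      rw [map_zero]
      have h1 := (hT J le_rfl f hf).2 n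
      rw [hf0, map_zero] at h1
      exact hθ2 _ (hst.Fs_mem' hf n) h1.symm
    · intro b
      have hb : b ∈ Subgroup.closure (Set.range a) := by
        rw [hm.gen]
        exact Subgroup.mem_top b
      induction hb using Subgroup.closure_induction with
      | mem x hx =>
        obtain ⟨i, rfl⟩ := hx
        intro f hf
        apply hst'.Fs_inj
        funext n
        refine Fin.cases ?_ (fun i => ?_) i
        · rw [(hT J le_rfl _ (h.stab _ _ _ hf)).2, Fs_shift, Fs_shift, (hT J le_rfl f hf).2]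
        · have hi : a i.succ ∈ Tl a := Subgroup.subset_closure ⟨i, rfl⟩
          rw [(hT J le_rfl _ (h.stab _ _ _ hf)).2, Fs_act hm hfix hi, Fs_act hm hfix' hi,
            (hT J le_rfl f hf).2]
          exact hθ3 _ _ (hst.Fs_mem' hf n)
      | one =>
        intro f _
        rw [map_one, map_one, AlgHom.one_apply, AlgHom.one_apply]
      | mul x y _ _ hx hy =>
        intro f hf
        rw [map_mul, map_mul, AlgHom.mul_apply, AlgHom.mul_apply, hx _ (h.stab _ _ _ hf), hy f hf]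
      | inv x _ hx =>
        intro f hf
        have h1 := hx _ (h.stab x⁻¹ _ _ hf)
        have h2 : ρ x (ρ x⁻¹ f) = f := by
          rw [← AlgHom.mul_apply, ← map_mul, mul_inv_cancel, map_one, AlgHom.one_apply]
        rw [h2] at h1
        rw [h1, ← AlgHom.mul_apply, ← map_mul, inv_mul_cancel, map_one, AlgHom.one_apply]

end Pool.Agent.R669.Wt
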