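import Pool.Agent.R669.Wt.Nbc
import Pool.Agent.R669.Wt.Aba

/-!
# Adapted families of generators of nilpotent groups
-/

set_option autoImplicit false

namespace Pool.Agent.R669.Wt

open Module

section alg

variable {N : Type} [Group N] (w : N → ℕ) (hw : ∀ g, 1 ≤ w g)

/-- the algebra of polynomial functions -/
noncomputable def PA : Subalgebra ℚ (N → ℚ) where
  carrier := {f | ∃ j, f ∈ Pj w j}
  mul_mem' := by
    rintro f g ⟨i, hi⟩ ⟨j, hj⟩
    refine ⟨i + j, mul_mem_Pj w hw (i := i) (Pj_mono w (Nat.le_succ i) hi) ?_⟩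
    rwa [Nat.add_sub_cancel_left]
  add_mem' := by
    rintro f g ⟨i, hi⟩ ⟨j, hj⟩
    exact ⟨i + j, Submodule.add_mem _ (Pj_mono w (Nat.le_add_right i j) hi)
      (Pj_mono w (Nat.le_add_left j i) hj)⟩
  algebraMap_mem' := fun c => ⟨1, by
    rw [Algebra.algebraMap_eq_smul_one]
    exact Submodule.smul_mem _ _ (one_mem_Pj w hw)⟩

/-- the filtration by the degree -/
noncomputable def FP (j : ℕ) : Submodule ℚ (PA w hw) := (Pj w j).comap (PA w hw).val.toLinearMap

theorem mem_FP {j : ℕ} {f : PA w hw} : f ∈ FP w hw j ↔ (f : N → ℚ) ∈ Pj w j := Iff.rfl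

theorem fa_FP (hN : Group.FG N) : FA (PA w hw) (FP w hw) where
  mono := fun _ _ h _ hf => Pj_mono w h hf
  zero := eq_bot_iff.2 fun _ hf => Subtype.ext (Pj_zero w hf)
  one := one_mem_Pj w hw
  mul := fun _ _ _ _ hf hg => mul_mem_Pj w hw hf hg
  exh := fun f => f.2
  fin := fun j => by
    have := fd_Pj w hN hw j
    let e : FP w hw j →ₗ[ℚ] Pj w j := LinearMap.codRestrict _
      ((PA w hw).val.toLinearMap.comp (FP w hw j).subtype) fun f => f.2
    refine Module.Finite.of_injective e fun x y h => Subtype.ext (Subtype.ext ?_)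
    exact congrArg (fun z : Pj w j => (z : N → ℚ)) h

/-- the action by translations -/
noncomputable def lA : N →* (PA w hw →ₐ[ℚ] PA w hw) where
  toFun g :=
    { toFun := fun f => ⟨La g⁻¹ (f : N → ℚ), by
        obtain ⟨j, hj⟩ := f.2
        exact ⟨j, La_mem w _ hj⟩⟩
      map_one' := rfl
      map_mul' := fun _ _ => rfl
      map_zero' := rfl
      map_add' := fun _ _ => rfl
      commutes' := fun _ => rfl }
  map_one' := by
    refine AlgHom.ext fun f => Subtype.ext (funext fun m => ?_)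
    show (f : N → ℚ) ((1 : N)⁻¹ * m) = (f : N → ℚ) m
    rw [inv_one, one_mul]
  map_mul' := fun g h => by
    refine AlgHom.ext fun f => Subtype.ext (funext fun m => ?_)
    show (f : N → ℚ) ((g * h)⁻¹ * m) = (f : N → ℚ) (h⁻¹ * (g⁻¹ * m))
    rw [mul_inv_rev, mul_assoc]

theorem lA_val (g : N) (f : PA w hw) : (lA w hw g f : N → ℚ) = La g⁻¹ (f : N → ℚ) := rfl

/-- the representation on the functions of bounded degree -/
noncomputable def rhoP (J : ℕ) : N →* (Module.End ℚ (FP w hw J))ˣ :=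
  MonoidHom.toHomUnits
    { toFun := fun g => (lA w hw g).toLinearMap.restrict fun _ hf => La_mem w g⁻¹ hf
      map_one' := by
        refine LinearMap.ext fun f => Subtype.ext ?_
        show lA w hw 1 (f : PA w hw) = f
        rw [map_one, AlgHom.one_apply]
      map_mul' := fun g h => by
        refine LinearMap.ext fun f => Subtype.ext ?_
        show lA w hw (g * h) (f : PA w hw) = lA w hw g (lA w hw h f)
        rw [map_mul, AlgHom.mul_apply] }

theorem rhoP_apply (J : ℕ) (g : N) (f : FP w hw J) :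
    ((((rhoP w hw J g : (Module.End ℚ (FP w hw J))ˣ) : Module.End ℚ (FP w hw J)) f : FP w hw J) :
      PA w hw) = lA w hw g f := rfl

theorem rhoP_eq_one {J : ℕ} {g : N} (h : rhoP w hw J g = 1) : dl g ∈ Fw w J := by
  refine rho_eq_one w (J := J) ?_
  apply Units.ext
  refine LinearMap.ext fun f => Subtype.ext ?_
  have h1 : ((rhoP w hw J g : (Module.End ℚ (FP w hw J))ˣ) : Module.End ℚ (FP w hw J))
      ⟨⟨f, J, f.2⟩, f.2⟩ = ⟨⟨f, J, f.2⟩, f.2⟩ := by rw [h]; rfl
  exact congrArg (fun x : FP w hw J => ((x : PA w hw) : N → ℚ)) h1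

end alg

theorem unit_of {V : Type} [AddCommGroup V] [Module ℚ V] (S : Submodule ℚ V)
    [FiniteDimensional ℚ S] (T : V →ₗ[ℚ] V) (h1 : ∀ f ∈ S, T f ∈ S)
    (h2 : ∀ f ∈ S, T f = 0 → f = 0) :
    ∃ U : (Module.End ℚ S)ˣ, ∀ f : S, (((U : Module.End ℚ S) f : S) : V) = T f := by
  let T' : S →ₗ[ℚ] S := T.restrict h1
  have hinj : Function.Injective T' := by
    rw [← LinearMap.ker_eq_bot, LinearMap.ker_eq_bot']
    intro f hf
    exact Subtype.ext (h2 f f.2 (congrArg Subtype.val hf))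
  let e : S ≃ₗ[ℚ] S := LinearEquiv.ofInjectiveEndo T' hinj
  exact ⟨⟨e.toLinearMap, e.symm.toLinearMap,
    LinearMap.ext fun x => e.apply_symm_apply x, LinearMap.ext fun x => e.symm_apply_apply x⟩,
    fun f => rfl⟩

section adn

variable {N : Type} [Group N] (w : N → ℕ) {B : Type} [Group B] (α : B →* N)

/-- adapted families -/
structure Adn {r : ℕ} (a : Fin r → B) (k : Fin r → ℕ) : Prop where
  mono : Monotone k
  mem : ∀ j, dl (α (a j)) ∈ Fw w (k j)
  ind : ∀ (n : Fin r → ℤ) (j : Fin r), n j ≠ 0 → (∀ l, l < j → n l = 0) →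
    ∑ l, (n l : ℚ) • dl (α (a l)) ∉ Fw w (k j + 1)

variable {w α} {r : ℕ} {a : Fin r → B} {k : Fin r → ℕ}

theorem Adn.pos (hw : ∀ g, 1 ≤ w g) (h : Adn w α a k) (j : Fin r) : 1 ≤ k j := by
  classical
  by_contra hk
  have hk0 : k j = 0 := by omega
  have h1 := h.ind (Pi.single j 1) j (by simp) (fun l hl => by
    rw [Pi.single_eq_of_ne hl.ne])
  rw [hk0] at h1
  refine h1 (Submodule.sum_mem _ fun l _ => Submodule.smul_mem _ _ ?_)
  exact Fw_anti w (hw _) (dl_mem w _)

theorem Adn.rat (h : Adn w α a k) (j : Fin r) :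
    dl (α (a j)) ∉ Fw w (k j + 1) ⊔
      Submodule.span ℚ (Set.range fun l : Fin r => if j < l then dl (α (a l)) else 0) := by
  classical
  intro hx
  obtain ⟨z, hz, y, hy, hzy⟩ := Submodule.mem_sup.1 hx
  obtain ⟨c, rfl⟩ := (Submodule.mem_span_range_iff_exists_fun ℚ).1 hy
  let D : ℕ := ∏ l, (c l).den
  have hD : D ≠ 0 := Finset.prod_ne_zero_iff.2 fun l _ => (c l).den_ne_zero
  have hint : ∀ l, ∃ m : ℤ, (m : ℚ) = D * c l := by
    intro l
    obtain ⟨m, hm⟩ : (c l).den ∣ D := Finset.dvd_prod_of_mem _ (Finset.mem_univ l)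
    refine ⟨m * (c l).num, ?_⟩
    have h2 : (c l) * (c l).den = (c l).num := Rat.mul_den_eq_num (c l)
    rw [hm]
    push_cast
    rw [← h2]
    ring
  choose m hm using hint
  let n : Fin r → ℤ := fun l => if l = j then D else if j < l then -m l else 0
  have hnj : n j = D := if_pos rfl
  have hnl : ∀ l, l < j → n l = 0 := fun l hl => by
    show (if l = j then (D : ℤ) else if j < l then -m l else 0) = 0
    rw [if_neg hl.ne, if_neg (not_lt.2 hl.le)]
  refine h.ind n j (by rw [hnj]; exact_mod_cast hD) hnl ?_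
  have h2 : ∑ l, (n l : ℚ) • dl (α (a l)) = (D : ℚ) • z := by
    have h3 : z = dl (α (a j)) - ∑ i, c i • (if j < i then dl (α (a i)) else 0) := by
      rw [← hzy]
      abel
    rw [h3, smul_sub, Finset.smul_sum, ← Finset.add_sum_erase _ _ (Finset.mem_univ j), hnj,
      Int.cast_natCast, sub_eq_add_neg, ← Finset.sum_neg_distrib]
    congr 1
    rw [← Finset.add_sum_erase _ (fun i => -((D : ℚ) • c i • (if j < i then dl (α (a i)) else 0)))
      (Finset.mem_univ j), if_neg (lt_irrefl j), smul_zero, smul_zero, neg_zero, zero_add]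
    refine Finset.sum_congr rfl fun l hl => ?_
    have hlj : l ≠ j := (Finset.mem_erase.1 hl).1
    show (((if l = j then (D : ℤ) else if j < l then -m l else 0 : ℤ) : ℚ)) • dl (α (a l)) = _
    rw [if_neg hlj]
    split_ifs with h4
    · rw [Int.cast_neg, hm, neg_smul, mul_smul]
    · rw [Int.cast_zero, zero_smul, smul_zero, smul_zero, neg_zero]
  rw [h2]
  exact Submodule.smul_mem _ _ hz

theorem Adn.fn (hw : ∀ g, 1 ≤ w g) (h : Adn w α a k) (j : Fin r) :
    ∃ φ : N → ℚ, φ ∈ Pj w (k j + 1) ∧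
      ∀ l, j ≤ l → La (α (a l)) φ = φ + (if l = j then 1 else 0) := by
  classical
  obtain ⟨ψ0, h0, hψ0⟩ := Submodule.exists_le_ker_of_notMem (h.rat j)
  let ψ : MonoidAlgebra ℚ N →ₗ[ℚ] ℚ := (ψ0 (dl (α (a j))))⁻¹ • ψ0
  have hψ : ∀ x ∈ Fw w (k j + 1), ψ x = 0 := by
    intro x hx
    show (ψ0 (dl (α (a j))))⁻¹ • ψ0 x = 0
    rw [show ψ0 x = 0 from hψ0 (Submodule.mem_sup_left hx), smul_zero]
  have hψl : ∀ l, j < l → ψ (dl (α (a l))) = 0 := by
    intro l hl
    show (ψ0 (dl (α (a j))))⁻¹ • ψ0 (dl (α (a l))) = 0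
    have h1 : ψ0 (dl (α (a l))) = 0 := hψ0 (Submodule.mem_sup_right
      (Submodule.subset_span ⟨l, if_pos hl⟩))
    rw [h1, smul_zero]
  have hψj : ψ (dl (α (a j))) = 1 := by
    show (ψ0 (dl (α (a j))))⁻¹ * ψ0 (dl (α (a j))) = 1
    exact inv_mul_cancel₀ h0
  have h5 : ∀ m : N, (hat (N := N)).symm ψ m = ψ (MonoidAlgebra.of ℚ N m) := hat_symm_apply ψ
  refine ⟨(hat (N := N)).symm ψ, ?_, fun l hl => ?_⟩
  · intro x hx
    rw [LinearEquiv.apply_symm_apply]
    exact hψ x hx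
  · funext m
    rw [La_apply, h5]
    show ψ (MonoidAlgebra.of ℚ N (α (a l) * m)) =
      (hat (N := N)).symm ψ m + (if l = j then (1 : N → ℚ) else 0) m
    have h6 : MonoidAlgebra.of ℚ N (α (a l) * m) = MonoidAlgebra.of ℚ N m + dl (α (a l)) +
        dl (α (a l)) * dl m := by
      rw [map_mul, dl, dl]
      noncomm_ring
    have h8 : dl m ∈ Fw w 1 := Fw_anti w (hw m) (dl_mem w m)
    have h9 : k j + 1 ≤ k l + 1 := Nat.succ_le_succ (h.mono hl)
    have h7 : dl (α (a l)) * dl m ∈ Fw w (k j + 1) := Fw_anti w h9 (Fw_mul w (h.mem l) h8)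
    rw [h6, map_add, map_add, hψ _ h7, add_zero, h5]
    congr 1
    rcases eq_or_lt_of_le hl with hl' | hl'
    · rw [if_pos hl'.symm, ← hl', hψj, Pi.one_apply]
    · rw [if_neg hl'.ne', hψl l hl', Pi.zero_apply]

theorem La_inv_of {g : N} {φ c : N → ℚ} (h : La g φ = φ + c) (hc : La g⁻¹ c = c) :
    La g⁻¹ (-φ) = -φ + c := by
  have h1 : La g⁻¹ (La g φ) = φ := by
    funext m
    rw [La_apply, La_apply, mul_inv_cancel_left]
  rw [h, map_add, hc] at h1
  rw [map_neg, ← h1]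
  have h2 : La g⁻¹ φ = φ - c := by
    rw [eq_sub_iff_add_eq]
    exact h1
  rw [h1, h2]
  ring

theorem Adn.ns (hN : Group.FG N) (hw : ∀ g, 1 ≤ w g) (h : Adn w α a k) :
    NS (FP w hw) ((lA w hw).comp α) a k where
  fa := fa_FP w hw hN
  pos := h.pos hw
  stab := fun _ _ _ hf => La_mem w _ hf
  dec := fun i j f hf => by
    have h1 : dl (α (a i))⁻¹ ∈ Fw w (k i) := by
      rw [dl_inv]
      exact Submodule.sub_mem _ (Submodule.neg_mem _ (h.mem i)) (mul_of_mem w _ (h.mem i))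
    exact De_mem w h1 hf
  phi := fun i => by
    obtain ⟨φ, hφ, hl⟩ := h.fn hw i
    refine ⟨⟨-φ, k i + 1, Submodule.neg_mem _ hφ⟩, Submodule.neg_mem (Pj w (k i + 1)) hφ,
      fun l hil => Subtype.ext ?_⟩
    show La (α (a l))⁻¹ (-φ) = (-φ) + (((if l = i then 1 else 0 : PA w hw)) : N → ℚ)
    have h1 := hl l hil
    by_cases hli : l = i
    · rw [if_pos hli] at h1
      rw [if_pos hli]
      exact La_inv_of h1 rfl
    · rw [if_neg hli] at h1
      rw [if_neg hli]
      exact La_inv_of h1 rfl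

variable {β : B →* N}

/-- **the representations of the nilpotent group are conjugate** -/
theorem Adn.conj (hN : Group.FG N) (hw : ∀ g, 1 ≤ w g) (h : Adn w α a k) (h' : Adn w β a k)
    (hm : Mal a) (J : ℕ) :
    ∃ U : (Module.End ℚ (FP w hw J))ˣ, ∀ b, U * rhoP w hw J (α b) * U⁻¹ = rhoP w hw J (β b) := by
  have hfd := (fa_FP w hw hN).fin J
  obtain ⟨T, hT1, hT2, hT3⟩ := nil_iso J r B a k _ _ _ _ _ _ hm (h.ns hN hw) (h'.ns hN hw)
    (fun _ _ => rfl)
  obtain ⟨U, hU⟩ := unit_of (FP w hw J) T (fun f hf => hT1 J le_rfl f hf) hT2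
  refine ⟨U, fun b => ?_⟩
  rw [mul_inv_eq_iff_eq_mul]
  apply Units.ext
  refine LinearMap.ext fun f => Subtype.ext ?_
  refine (hU _).trans ?_
  exact (hT3 b f f.2).trans (congrArg (lA w hw (β b)) (hU f).symm)

end adn

end Pool.Agent.R669.Wt
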