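import Pool.Agent.R669.Wt.Nbd
import Pool.Agent.R669.Wt.Abc
import Pool.Agent.Helper294.HallC.Base
import Pool.Agent.W386.VN

/-!
# Existence of adapted families of generators of nilpotent groups
-/

set_option autoImplicit false

namespace Pool.Agent.R669.Wt

open Module

section dp

variable {N : Type} [Group N] (w : N → ℕ) {B : Type} [Group B] (α : B →* N)

/-- the elements of order at least `d` -/
def Dp (d : ℕ) : Subgroup B where
  carrier := {b | dl (α b) ∈ Fw w d}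
  one_mem' := by
    show dl (α 1) ∈ Fw w d
    rw [map_one, dl_one]
    exact Submodule.zero_mem _
  mul_mem' := fun {x y} hx hy => by
    show dl (α (x * y)) ∈ Fw w d
    rw [map_mul, dl_mul]
    exact Submodule.add_mem _ (Submodule.add_mem _ hx hy) (of_mul_mem w _ hy)
  inv_mem' := fun {x} hx => by
    show dl (α x⁻¹) ∈ Fw w d
    rw [map_inv, dl_inv]
    exact Submodule.sub_mem _ (Submodule.neg_mem _ hx) (mul_of_mem w _ hx)

variable {w α}

theorem mem_Dp {d : ℕ} {b : B} : b ∈ Dp w α d ↔ dl (α b) ∈ Fw w d := Iff.rfl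

theorem Dp_anti {c d : ℕ} (h : c ≤ d) : Dp w α d ≤ Dp w α c := fun _ hx => Fw_anti w h hx

theorem Dp_one (hw : ∀ g, 1 ≤ w g) : Dp w α 1 = ⊤ :=
  eq_top_iff.2 fun b _ => Fw_anti w (hw _) (dl_mem w (α b))

theorem Dp_comm {c d : ℕ} {x y : B} (hx : x ∈ Dp w α c) (hy : y ∈ Dp w α d) :
    x * y * x⁻¹ * y⁻¹ ∈ Dp w α (c + d) := by
  rw [mem_Dp] at *
  have h1 : dl (α (x * y * x⁻¹ * y⁻¹)) = (dl (α x) * dl (α y) - dl (α y) * dl (α x)) *
      MonoidAlgebra.of ℚ N ((α x)⁻¹ * (α y)⁻¹) := by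
    have h2 : α (x * y * x⁻¹ * y⁻¹) = α x * α y * ((α x)⁻¹ * (α y)⁻¹) := by
      rw [map_mul, map_mul, map_mul, map_inv, map_inv, mul_assoc (α x * α y)]
    have h3 : MonoidAlgebra.of ℚ N (α y) * MonoidAlgebra.of ℚ N (α x) *
        MonoidAlgebra.of ℚ N ((α x)⁻¹ * (α y)⁻¹) = 1 := by
      rw [← map_mul, ← map_mul, ← mul_assoc, mul_inv_cancel_right, mul_inv_cancel, map_one]
    have h4 : dl (α x) * dl (α y) - dl (α y) * dl (α x) = MonoidAlgebra.of ℚ N (α x) *
        MonoidAlgebra.of ℚ N (α y) - MonoidAlgebra.of ℚ N (α y) * MonoidAlgebra.of ℚ N (α x) := by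
      rw [dl, dl]
      noncomm_ring
    rw [h4, sub_mul, h3, h2, dl, map_mul, map_mul]
  rw [h1]
  refine mul_of_mem w _ (Submodule.sub_mem _ (Fw_mul w hx hy) ?_)
  rw [add_comm]
  exact Fw_mul w hy hx

/-- the class of `α b - 1` -/
noncomputable def mu (w : N → ℕ) (α : B →* N) (d : ℕ) (b : B) : MonoidAlgebra ℚ N ⧸ Fw w (d + 1) :=
  (Fw w (d + 1)).mkQ (dl (α b))

theorem mu_eq_zero {d : ℕ} {b : B} : mu w α d b = 0 ↔ b ∈ Dp w α (d + 1) :=
  Submodule.Quotient.mk_eq_zero _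

theorem mu_one (d : ℕ) : mu w α d 1 = 0 := mu_eq_zero.2 (Subgroup.one_mem _)

theorem mu_mul (hw : ∀ g, 1 ≤ w g) {d : ℕ} {x y : B} (hx : x ∈ Dp w α d) (hy : y ∈ Dp w α d) :
    mu w α d (x * y) = mu w α d x + mu w α d y := by
  have h1 := (dl_mul_mod w hw hx hy (x := dl (α x)) (y := dl (α y)) (by simp) (by simp)).2
  rw [← map_mul] at h1
  exact ((Submodule.Quotient.eq _).2 h1).trans (map_add (Fw w (d + 1)).mkQ _ _)

theorem mu_inv (hw : ∀ g, 1 ≤ w g) {d : ℕ} {x : B} (hx : x ∈ Dp w α d) :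
    mu w α d x⁻¹ = -mu w α d x := by
  have h1 := mu_mul hw (Subgroup.inv_mem _ hx) hx
  rw [inv_mul_cancel, mu_one] at h1
  exact eq_neg_of_add_eq_zero_left h1.symm

theorem mu_zpow (hw : ∀ g, 1 ≤ w g) {d : ℕ} {x : B} (hx : x ∈ Dp w α d) (n : ℤ) :
    mu w α d (x ^ n) = n • mu w α d x := by
  have hnat : ∀ n : ℕ, mu w α d (x ^ n) = n • mu w α d x := by
    intro n
    induction n with
    | zero => rw [pow_zero, mu_one, zero_smul]
    | succ n ih => rw [pow_succ, mu_mul hw (Subgroup.pow_mem _ hx _) hx, ih, add_smul, one_smul]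
  obtain ⟨m, rfl | rfl⟩ := n.eq_nat_or_neg
  · rw [zpow_natCast, hnat, natCast_zsmul]
  · rw [zpow_neg, zpow_natCast, mu_inv hw (Subgroup.pow_mem _ hx _), hnat, neg_smul, natCast_zsmul]

variable (w α)

/-- the group of the classes -/
noncomputable def La' (hw : ∀ g, 1 ≤ w g) (d : ℕ) : AddSubgroup (MonoidAlgebra ℚ N ⧸ Fw w (d + 1)) where
  carrier := {v | ∃ b ∈ Dp w α d, mu w α d b = v}
  zero_mem' := ⟨1, Subgroup.one_mem _, mu_one d⟩
  add_mem' := by
    rintro _ _ ⟨x, hx, rfl⟩ ⟨y, hy, rfl⟩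
    exact ⟨x * y, Subgroup.mul_mem _ hx hy, mu_mul hw hx hy⟩
  neg_mem' := by
    rintro _ ⟨x, hx, rfl⟩
    exact ⟨x⁻¹, Subgroup.inv_mem _ hx, mu_inv hw hx⟩

variable {w α}

theorem La'_fg (hw : ∀ g, 1 ≤ w g) {d : ℕ} (h : (Dp w α d).FG) : (La' w α hw d).FG := by
  classical
  obtain ⟨S, hS⟩ := h
  refine ⟨S.image (mu w α d), le_antisymm ?_ ?_⟩
  · rw [AddSubgroup.closure_le]
    intro v hv
    obtain ⟨x, hx, rfl⟩ := Finset.mem_image.1 (Finset.mem_coe.1 hv)
    refine ⟨x, ?_, rfl⟩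
    rw [← hS]
    exact Subgroup.subset_closure hx
  · rintro _ ⟨b, hb, rfl⟩
    rw [← hS] at hb
    have key : b ∈ Dp w α d ∧ mu w α d b ∈ AddSubgroup.closure
        ((S.image (mu w α d) : Finset _) : Set (MonoidAlgebra ℚ N ⧸ Fw w (d + 1))) := by
      induction hb using Subgroup.closure_induction with
      | mem x hx =>
        refine ⟨?_, AddSubgroup.subset_closure (Finset.mem_coe.2 (Finset.mem_image_of_mem _ hx))⟩
        rw [← hS]
        exact Subgroup.subset_closure hx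
      | one => exact ⟨Subgroup.one_mem _, by rw [mu_one]; exact AddSubgroup.zero_mem _⟩
      | mul x y _ _ hx hy =>
        exact ⟨Subgroup.mul_mem _ hx.1 hy.1, by
          rw [mu_mul hw hx.1 hy.1]
          exact AddSubgroup.add_mem _ hx.2 hy.2⟩
      | inv x _ hx =>
        exact ⟨Subgroup.inv_mem _ hx.1, by
          rw [mu_inv hw hx.1]
          exact AddSubgroup.neg_mem _ hx.2⟩
    exact key.2

theorem La'_free (hw : ∀ g, 1 ≤ w g) {d : ℕ} (h : (Dp w α d).FG) :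
    ∃ (s : ℕ) (b : Fin s → B), (∀ l, b l ∈ Dp w α d) ∧
      (∀ n : Fin s → ℤ, ∑ l, n l • mu w α d (b l) = 0 → ∀ l, n l = 0) ∧
      ∀ x ∈ Dp w α d, ∃ n : Fin s → ℤ, mu w α d x = ∑ l, n l • mu w α d (b l) := by
  have h1 : AddGroup.FG (La' w α hw d) := (AddGroup.fg_iff_addSubgroup_fg _).2 (La'_fg hw h)
  have h2 : Module.Finite ℤ (La' w α hw d) := Module.Finite.iff_addGroup_fg.2 h1
  have h3 : Module.IsTorsionFree ℤ (La' w α hw d) := by
    refine Module.IsTorsionFree.of_smul_eq_zero fun m v hmv => ?_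
    by_cases hm : m = 0
    · exact Or.inl hm
    · right
      have h4 : m • (v : MonoidAlgebra ℚ N ⧸ Fw w (d + 1)) = 0 := congrArg Subtype.val hmv
      have h5 : (m : ℚ) • (v : MonoidAlgebra ℚ N ⧸ Fw w (d + 1)) = 0 := by
        rw [Int.cast_smul_eq_zsmul]
        exact h4
      have h6 : (m : ℚ) ≠ 0 := by exact_mod_cast hm
      exact Subtype.ext ((smul_eq_zero_iff_right h6).1 h5)
  let e := Module.finBasis ℤ (La' w α hw d)
  have h4 : ∀ l, ∃ b ∈ Dp w α d, mu w α d b = (e l : MonoidAlgebra ℚ N ⧸ Fw w (d + 1)) :=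
    fun l => (e l).2
  choose b hb1 hb2 using h4
  refine ⟨_, b, hb1, fun n hn l => ?_, fun x hx => ?_⟩
  · have h5 : ∑ l, n l • e l = 0 := by
      apply Subtype.ext
      rw [AddSubgroup.val_finsetSum]
      refine Eq.trans (Finset.sum_congr rfl fun l _ => ?_) hn
      rw [hb2]
      rfl
    exact Fintype.linearIndependent_iff.1 e.linearIndependent n h5 l
  · let v : La' w α hw d := ⟨_, x, hx, rfl⟩
    refine ⟨fun l => e.repr v l, ?_⟩
    have h5 := congrArg Subtype.val (e.sum_repr v)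
    rw [AddSubgroup.val_finsetSum] at h5
    refine h5.symm.trans (Finset.sum_congr rfl fun l _ => ?_)
    rw [hb2]
    rfl

end dp

end Pool.Agent.R669.Wt
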