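import Pool.Agent.R669.Wt.Nbe

/-!
# Existence of adapted families of generators of nilpotent groups (2)
-/

set_option autoImplicit false

namespace Pool.Agent.R669.Wt

open Module

section ex

variable {N : Type} [Group N] {w : N → ℕ} {B : Type} [Group B] {α : B →* N}

/-- adapted generators of the subgroup of the elements of order at least `d` -/
def Pd (w : N → ℕ) (α : B →* N) (d : ℕ) : Prop :=
  ∃ (r : ℕ) (a : Fin r → B) (k : Fin r → ℕ), Adn w α a k ∧ (∀ j, d ≤ k j) ∧
    Subgroup.closure (Set.range a) = Dp w α d ∧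
    ∀ i, ∀ b ∈ Subgroup.closure (a '' Set.Ioi i),
      a i * b * (a i)⁻¹ ∈ Subgroup.closure (a '' Set.Ioi i) ∧
        (a i)⁻¹ * b * a i ∈ Subgroup.closure (a '' Set.Ioi i)

theorem Pd_bot {d : ℕ} (h : Dp w α d = ⊥) : Pd w α d := by
  refine ⟨0, Fin.elim0, Fin.elim0, ⟨fun i => i.elim0, fun i => i.elim0, fun _ i => i.elim0⟩,
    fun i => i.elim0, ?_, fun i => i.elim0⟩
  rw [Set.range_eq_empty, Subgroup.closure_empty, h]

omit [Group B] in
theorem image_Ioi_natAdd {s r : ℕ} (b : Fin s → B) (a : Fin r → B) (i : Fin r) :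
    Fin.append b a '' Set.Ioi (Fin.natAdd s i) = a '' Set.Ioi i := by
  ext x
  constructor
  · rintro ⟨j, hj, rfl⟩
    induction j using Fin.addCases with
    | left j =>
      exfalso
      have h1 : Fin.natAdd s i < Fin.castAdd r j := hj
      rw [Fin.lt_def, Fin.val_natAdd, Fin.val_castAdd] at h1
      have := j.2
      omega
    | right j =>
      rw [Fin.append_right]
      have h1 : Fin.natAdd s i < Fin.natAdd s j := hj
      rw [Fin.lt_def, Fin.val_natAdd, Fin.val_natAdd] at h1
      exact ⟨j, by show i < j; rw [Fin.lt_def]; omega, rfl⟩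
  · rintro ⟨j, hj, rfl⟩
    refine ⟨Fin.natAdd s j, ?_, Fin.append_right _ _ _⟩
    show Fin.natAdd s i < Fin.natAdd s j
    have h1 : i < j := hj
    rw [Fin.lt_def] at h1 ⊢
    rw [Fin.val_natAdd, Fin.val_natAdd]
    omega

theorem Pd_step (hw : ∀ g, 1 ≤ w g) (hmax : ∀ S : Subgroup B, S.FG) {d : ℕ} (hd : 1 ≤ d)
    (h : Pd w α (d + 1)) : Pd w α d := by
  obtain ⟨r, a, k, had, hk, hcl, hn⟩ := h
  obtain ⟨s, b, hb, hind, hsp⟩ := La'_free hw (hmax (Dp w α d))
  have ha : ∀ j, a j ∈ Dp w α (d + 1) := fun j => by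
    rw [← hcl]
    exact Subgroup.subset_closure ⟨j, rfl⟩
  have hA : ∀ l, Fin.append b a l ∈ Dp w α d := by
    intro l
    induction l using Fin.addCases with
    | left l => rw [Fin.append_left]; exact hb l
    | right l => rw [Fin.append_right]; exact Dp_anti (Nat.le_succ d) (ha l)
  have hsub : ∀ i : Fin s, Dp w α (d + 1) ≤
      Subgroup.closure (Fin.append b a '' Set.Ioi (Fin.castAdd r i)) := by
    intro i
    rw [← hcl]
    refine Subgroup.closure_mono ?_
    rintro _ ⟨j, rfl⟩
    refine ⟨Fin.natAdd s j, ?_, Fin.append_right _ _ _⟩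
    show Fin.castAdd r i < Fin.natAdd s j
    rw [Fin.lt_def, Fin.val_natAdd, Fin.val_castAdd]
    have := i.2
    omega
  have hcomm : ∀ x ∈ Dp w α d, ∀ y ∈ Dp w α d, x * y * x⁻¹ * y⁻¹ ∈ Dp w α (d + 1) :=
    fun x hx y hy => Dp_anti (by omega) (Dp_comm hx hy)
  refine ⟨s + r, Fin.append b a, Fin.append (fun _ => d) k, ⟨?_, ?_, ?_⟩, ?_, ?_, ?_⟩
  · intro i j hij
    induction i using Fin.addCases with
    | left i =>
      rw [Fin.append_left]
      induction j using Fin.addCases with
      | left j => rw [Fin.append_left]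
      | right j => rw [Fin.append_right]; exact (Nat.le_succ d).trans (hk j)
    | right i =>
      rw [Fin.append_right]
      induction j using Fin.addCases with
      | left j =>
        exfalso
        rw [Fin.le_def, Fin.val_natAdd, Fin.val_castAdd] at hij
        have := j.2
        omega
      | right j =>
        rw [Fin.append_right]
        rw [Fin.le_def, Fin.val_natAdd, Fin.val_natAdd] at hij
        exact had.mono (by rw [Fin.le_def]; omega)
  · intro j
    induction j using Fin.addCases with
    | left j => rw [Fin.append_left, Fin.append_left]; exact hb j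
    | right j => rw [Fin.append_right, Fin.append_right]; exact had.mem j
  · intro n j hnj hl hmem
    rw [Fin.sum_univ_add] at hmem
    simp only [Fin.append_left, Fin.append_right] at hmem
    induction j using Fin.addCases with
    | left j =>
      rw [Fin.append_left] at hmem
      have h1 : ∑ i, (n (Fin.natAdd s i) : ℚ) • dl (α (a i)) ∈ Fw w (d + 1) :=
        Submodule.sum_mem _ fun i _ => Submodule.smul_mem _ _ (ha i)
      have h2 : ∑ i, (n (Fin.castAdd r i) : ℚ) • dl (α (b i)) ∈ Fw w (d + 1) := by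
        have h3 := Submodule.sub_mem _ hmem h1
        rwa [add_sub_cancel_right] at h3
      refine hnj (hind (fun i => n (Fin.castAdd r i)) ?_ j)
      have h3 := (Submodule.Quotient.mk_eq_zero _).2 h2
      refine Eq.trans ?_ h3
      show _ = (Fw w (d + 1)).mkQ _
      rw [map_sum]
      refine Finset.sum_congr rfl fun l _ => ?_
      rw [map_smul, Int.cast_smul_eq_zsmul]
      rfl
    | right j =>
      rw [Fin.append_right] at hmem
      have h1 : ∑ i, (n (Fin.castAdd r i) : ℚ) • dl (α (b i)) = 0 := by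
        refine Finset.sum_eq_zero fun i _ => ?_
        rw [hl (Fin.castAdd r i) (by
          rw [Fin.lt_def, Fin.val_natAdd, Fin.val_castAdd]
          have := i.2
          omega), Int.cast_zero, zero_smul]
      rw [h1, zero_add] at hmem
      exact had.ind (fun i => n (Fin.natAdd s i)) j hnj (fun l hlj => hl _ (by
        rw [Fin.lt_def] at hlj ⊢
        rw [Fin.val_natAdd, Fin.val_natAdd]
        omega)) hmem
  · intro j
    induction j using Fin.addCases with
    | left j => rw [Fin.append_left]
    | right j => rw [Fin.append_right]; exact (Nat.le_succ d).trans (hk j)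
  · refine le_antisymm ?_ ?_
    · rw [Subgroup.closure_le]
      rintro _ ⟨l, rfl⟩
      exact hA l
    · intro x hx
      have hS : Dp w α (d + 1) ≤ Subgroup.closure (Set.range (Fin.append b a)) := by
        rw [← hcl]
        refine Subgroup.closure_mono ?_
        rintro _ ⟨j, rfl⟩
        exact ⟨Fin.natAdd s j, Fin.append_right _ _ _⟩
      obtain ⟨n, hnx⟩ := hsp x hx
      have key : ∀ T : Finset (Fin s), ∃ y ∈ Subgroup.closure (Set.range (Fin.append b a)),
          y ∈ Dp w α d ∧ mu w α d y = ∑ l ∈ T, n l • mu w α d (b l) := by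
        intro T
        induction T using Finset.induction_on with
        | empty => exact ⟨1, Subgroup.one_mem _, Subgroup.one_mem _, by rw [mu_one, Finset.sum_empty]⟩
        | insert l T hl ih =>
          obtain ⟨y, hy1, hy2, hy3⟩ := ih
          refine ⟨b l ^ n l * y, Subgroup.mul_mem _ (Subgroup.zpow_mem _ (Subgroup.subset_closure
            (k := Set.range (Fin.append b a)) ⟨Fin.castAdd r l, Fin.append_left _ _ _⟩) _) hy1, Subgroup.mul_mem _
            (Subgroup.zpow_mem _ (hb l) _) hy2, ?_⟩
          rw [mu_mul hw (Subgroup.zpow_mem _ (hb l) _) hy2, mu_zpow hw (hb l), hy3,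
            Finset.sum_insert hl]
      obtain ⟨y, hy1, hy2, hy3⟩ := key Finset.univ
      have h1 : y⁻¹ * x ∈ Dp w α (d + 1) := by
        rw [← mu_eq_zero, mu_mul hw (Subgroup.inv_mem _ hy2) hx, mu_inv hw hy2, hy3, hnx,
          neg_add_cancel]
      have h2 := Subgroup.mul_mem _ hy1 (hS h1)
      rwa [mul_inv_cancel_left] at h2
  · intro i
    induction i using Fin.addCases with
    | left i =>
      intro x hx
      have hxd : x ∈ Dp w α d := by
        have h1 : Subgroup.closure (Fin.append b a '' Set.Ioi (Fin.castAdd r i)) ≤ Dp w α d := by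
          rw [Subgroup.closure_le]
          rintro _ ⟨l, _, rfl⟩
          exact hA l
        exact h1 hx
      rw [Fin.append_left]
      constructor
      · have h1 := Subgroup.mul_mem _ (hsub i (hcomm _ (hb i) _ hxd)) hx
        rwa [inv_mul_cancel_right] at h1
      · have h1 := Subgroup.mul_mem _ (hsub i (hcomm _ (Subgroup.inv_mem _ (hb i)) _ hxd)) hx
        rwa [inv_mul_cancel_right, inv_inv] at h1
    | right i =>
      rw [image_Ioi_natAdd, Fin.append_right]
      exact hn i

theorem Dp_iso (hw : ∀ g, 1 ≤ w g) {d : ℕ} {b : B} {m : ℤ} (hm : m ≠ 0) (h : b ^ m ∈ Dp w α d) :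
    b ∈ Dp w α d := by
  rw [mem_Dp, map_zpow] at h
  exact ord_pow hw hm h

theorem exists_bot (hw : ∀ g, 1 ≤ w g) {n : ℕ} (hHL : Helper294.HallC.HL B n)
    (h : ∀ b : B, b ≠ 1 → ∃ k, HasOrd w (α b) k) : ∃ c, 1 ≤ c ∧ Dp w α c = ⊥ := by
  classical
  by_cases hfin : {d | Dp w α (d + 1) ≠ Dp w α d}.Finite
  · obtain ⟨c, hc⟩ := hfin.bddAbove
    have h1 : ∀ m, Dp w α (c + 1 + m) = Dp w α (c + 1) := by
      intro m
      induction m with
      | zero => rfl
      | succ m ih =>
        rw [← ih, ← add_assoc]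
        by_contra hne
        have h2 := hc (a := c + 1 + m) hne
        omega
    refine ⟨c + 1, by omega, ?_⟩
    rw [Subgroup.eq_bot_iff_forall]
    intro b hb
    by_contra hb1
    obtain ⟨k, hk⟩ := h b hb1
    apply hk.2
    have h2 : b ∈ Dp w α (c + 1 + (k + 1)) := by
      rw [h1]
      exact hb
    exact Fw_anti w (by omega) h2
  · exfalso
    obtain ⟨t, ht, htc⟩ := (Set.not_finite.1 hfin |>.exists_subset_card_eq (n + 1))
    let M : ℕ := t.sup id + 1
    have hM : ∀ d ∈ t, d + 1 ≤ M := fun d hd => Nat.succ_le_succ (Finset.le_sup (f := id) hd)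
    have h1 := hHL (fun i => Dp w α (M - i)) (fun i j hij => Dp_anti (by
      have : i ≤ j := hij
      omega)) (t.image fun d => M - 1 - d) (by
      intro i hi
      obtain ⟨d, hd, rfl⟩ := Finset.mem_image.1 hi
      have h2 := hM d hd
      have h3 : M - (M - 1 - d) = d + 1 := by omega
      have h4 : M - (M - 1 - d + 1) = d := by omega
      show (Dp w α (M - (M - 1 - d))).relIndex (Dp w α (M - (M - 1 - d + 1))) = 0
      rw [h3, h4]
      by_contra hne
      have h5 : Dp w α (d + 1) ≠ Dp w α d := ht hd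
      apply h5
      refine le_antisymm (Dp_anti (Nat.le_succ d)) fun x hx => ?_
      obtain ⟨m, hm, -, hxm⟩ := Subgroup.exists_pow_mem_of_relIndex_ne_zero hne hx
      refine Dp_iso hw (m := (m : ℤ)) (by omega) ?_
      rw [zpow_natCast]
      exact hxm.1)
    rw [Finset.card_image_of_injOn, htc] at h1
    · omega
    · intro d hd d' hd' heq
      have h2 := hM d hd
      have h3 := hM d' hd'
      have h4 : M - 1 - d = M - 1 - d' := heq
      omega

/-- existence of adapted families of generators -/
theorem exists_adn (hw : ∀ g, 1 ≤ w g) (hfg : Group.FG B) (hnil : Group.IsNilpotent B)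
    (h : ∀ b : B, b ≠ 1 → ∃ k, HasOrd w (α b) k) :
    ∃ (r : ℕ) (a : Fin r → B) (k : Fin r → ℕ), Adn w α a k ∧ Mal a := by
  have hpc := W386.pc_of_nil hfg hnil
  obtain ⟨n, hn⟩ := Helper294.HallC.hl_exists hpc
  obtain ⟨c, hc1, hc⟩ := exists_bot hw hn h
  have key : ∀ m d, 1 ≤ d → d + m = c → Pd w α d := by
    intro m
    induction m with
    | zero =>
      intro d _ hdc
      rw [add_zero] at hdc
      rw [hdc]
      exact Pd_bot hc
    | succ m ih =>
      intro d hd hdc
      exact Pd_step hw hpc.2 hd (ih (d + 1) (by omega) (by omega))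
  obtain ⟨r, a, k, h1, _, h2, h3⟩ := key (c - 1) 1 le_rfl (by omega)
  exact ⟨r, a, k, h1, ⟨by rw [h2, Dp_one hw], h3⟩⟩

end ex

end Pool.Agent.R669.Wt
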