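import Pool.Agent.R669.Wt.Nbf
import Pool.Agent.R669.Wt.Abd

/-!
# Multiple HNN extensions along locally nilpotent groups
-/

set_option autoImplicit false

namespace Pool.Agent.R669.Wt

open Pool.Agent.Y110.FJ Pool.Agent.R779.FJ Pool.Agent.R942.FJ

section ord

variable {N : Type} [Group N] {w : N → ℕ} {B : Type} [Group B] {α β : B →* N}

theorem exists_elt (hw : ∀ g, 1 ≤ w g) {r : ℕ} (a : Fin r → B) (n : Fin r → ℤ) (e : ℕ)
    (hα : ∀ l, n l = 0 ∨ dl (α (a l)) ∈ Fw w e) (hβ : ∀ l, n l = 0 ∨ dl (β (a l)) ∈ Fw w e)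
    (T : Finset (Fin r)) : ∃ b : B,
      (dl (α b) ∈ Fw w e ∧ dl (α b) - ∑ l ∈ T, (n l : ℚ) • dl (α (a l)) ∈ Fw w (e + 1)) ∧
      (dl (β b) ∈ Fw w e ∧ dl (β b) - ∑ l ∈ T, (n l : ℚ) • dl (β (a l)) ∈ Fw w (e + 1)) := by
  classical
  have hz : ∀ (γ : B →* N), (∀ l, n l = 0 ∨ dl (γ (a l)) ∈ Fw w e) → ∀ l,
      dl (γ (a l) ^ n l) ∈ Fw w e ∧
        dl (γ (a l) ^ n l) - (n l : ℚ) • dl (γ (a l)) ∈ Fw w (e + 1) := by
    intro γ hγ l
    rcases hγ l with h0 | h0
    · rw [h0, zpow_zero, dl_one, Int.cast_zero, zero_smul, sub_zero]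
      exact ⟨Submodule.zero_mem _, Submodule.zero_mem _⟩
    · exact dl_zpow_mod w hw h0 _
  induction T using Finset.induction_on with
  | empty =>
    refine ⟨1, ?_⟩
    rw [Finset.sum_empty, Finset.sum_empty, map_one, map_one, dl_one, sub_zero]
    exact ⟨⟨Submodule.zero_mem _, Submodule.zero_mem _⟩, ⟨Submodule.zero_mem _, Submodule.zero_mem _⟩⟩
  | insert l T hl ih =>
    obtain ⟨b, h1, h2⟩ := ih
    refine ⟨a l ^ n l * b, ?_⟩
    rw [Finset.sum_insert hl, Finset.sum_insert hl, map_mul, map_mul, map_zpow, map_zpow]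
    exact ⟨dl_mul_mod w hw (hz α hα l).1 h1.1 (hz α hα l).2 h1.2,
      dl_mul_mod w hw (hz β hβ l).1 h2.1 (hz β hβ l).2 h2.2⟩

theorem Adn.of_ord (hw : ∀ g, 1 ≤ w g) {r : ℕ} {a : Fin r → B} {k : Fin r → ℕ} (h : Adn w α a k)
    (hab : ∀ b, b ≠ 1 → ∃ k, HasOrd w (α b) k ∧ HasOrd w (β b) k) : Adn w β a k := by
  have hiff : ∀ b d, dl (α b) ∈ Fw w d ↔ dl (β b) ∈ Fw w d := by
    intro b d
    by_cases hb : b = 1
    · rw [hb, map_one, map_one]
    · obtain ⟨k, h1, h2⟩ := hab b hb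
      rw [h1.iff, h2.iff]
  refine ⟨h.mono, fun j => (hiff _ _).1 (h.mem j), fun n j hn hl hd => ?_⟩
  have hα : ∀ l, n l = 0 ∨ dl (α (a l)) ∈ Fw w (k j) := fun l => by
    rcases lt_or_ge l j with hlj | hlj
    · exact Or.inl (hl l hlj)
    · exact Or.inr (Fw_anti w (h.mono hlj) (h.mem l))
  obtain ⟨b, h1, h2⟩ := exists_elt (α := α) (β := β) hw a n (k j) hα
    (fun l => (hα l).imp_right (hiff _ _).1) Finset.univ
  have h3 : dl (β b) ∈ Fw w (k j + 1) := by
    have h4 := Submodule.add_mem _ h2.2 hd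
    rwa [sub_add_cancel] at h4
  have h4 := (hiff _ _).2 h3
  have h5 := Submodule.sub_mem _ h4 h1.2
  rw [sub_sub_cancel] at h5
  exact h.ind n j hn hl h5

/-- adapted families in subgroups -/
theorem Adn.sub {r : ℕ} {a : Fin r → B} {k : Fin r → ℕ} (h : Adn w α a k) :
    ∃ T : Finset N, ∀ H : Subgroup N, (T : Set N) ⊆ H → ∀ α' : B →* H, (∀ b, (α' b : N) = α b) →
        Adn (fun x : H => w x) α' a k := by
  classical
  have h1 : ∀ j, ∃ T : Finset N, ∀ H : Subgroup N, (T : Set N) ⊆ H → ∀ hg : α (a j) ∈ H,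
      dl (⟨α (a j), hg⟩ : H) ∈ Fw (fun x : H => w x) (k j) := fun j => mem_sub (h.mem j)
  choose T hT using h1
  refine ⟨Finset.univ.biUnion T, fun H hH α' hα' => ⟨h.mono, fun j => ?_, fun n j hn hl hd => ?_⟩⟩
  · have h2 : α (a j) ∈ H := by
      rw [← hα']
      exact (α' (a j)).2
    have h3 : α' (a j) = ⟨α (a j), h2⟩ := Subtype.ext (hα' _)
    rw [h3]
    exact hT j H (fun x hx => hH (Finset.mem_coe.2 (Finset.mem_biUnion.2 ⟨j, Finset.mem_univ j, hx⟩))) h2
  · refine h.ind n j hn hl ?_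
    have h2 := emb_Fw H w _ hd
    rw [map_sum] at h2
    simp only [map_smul, emb_dl, hα'] at h2
    exact h2

end ord

section inj

variable {N : Type} [Group N] {w : N → ℕ}

theorem Adn.tail {B : Type} [Group B] {α : B →* N} {r : ℕ} {a : Fin (r + 1) → B}
    {k : Fin (r + 1) → ℕ} (h : Adn w α a k) :
    Adn w (α.comp (Tl a).subtype) (tl a) (fun i => k i.succ) where
  mono := fun _ _ hij => h.mono (Fin.succ_le_succ_iff.2 hij)
  mem := fun j => h.mem j.succ
  ind := fun n j hn hl hd => by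
    refine h.ind (Fin.cons 0 n) j.succ (by rwa [Fin.cons_succ]) (fun l hlj => ?_) ?_
    · refine Fin.cases (fun _ => Fin.cons_zero _ _) (fun l hlj => ?_) l hlj
      rw [Fin.cons_succ]
      exact hl l (Fin.succ_lt_succ_iff.1 hlj)
    · rw [Fin.sum_univ_succ]
      simp only [Fin.cons_zero, Fin.cons_succ, Int.cast_zero, zero_smul, zero_add]
      exact hd

theorem tl_comb (hw : ∀ g, 1 ≤ w g) {B : Type} [Group B] {α : B →* N} {r : ℕ}
    {a : Fin (r + 1) → B} {k : Fin (r + 1) → ℕ} (h : Adn w α a k) {g : B} (hg : g ∈ Tl a) :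
    ∃ m : Fin (r + 1) → ℤ, m 0 = 0 ∧ dl (α g) ∈ Fw w (k 0) ∧
      dl (α g) - ∑ l, (m l : ℚ) • dl (α (a l)) ∈ Fw w (k 0 + 1) := by
  classical
  induction hg using Subgroup.closure_induction with
  | mem x hx =>
    obtain ⟨i, rfl⟩ := hx
    refine ⟨Pi.single i.succ 1, Pi.single_eq_of_ne (Fin.succ_ne_zero i).symm _,
      Fw_anti w (h.mono (Fin.zero_le _)) (h.mem _), ?_⟩
    rw [Finset.sum_eq_single i.succ]
    · rw [Pi.single_eq_same, Int.cast_one, one_smul, sub_self]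
      exact Submodule.zero_mem _
    · intro l _ hl
      rw [Pi.single_eq_of_ne hl, Int.cast_zero, zero_smul]
    · intro h1
      exact absurd (Finset.mem_univ _) h1
  | one =>
    refine ⟨0, rfl, ?_, ?_⟩
    · rw [map_one, dl_one]
      exact Submodule.zero_mem _
    · rw [map_one, dl_one]
      simp
  | mul x y _ _ hx hy =>
    obtain ⟨m, m0, hm1, hm2⟩ := hx
    obtain ⟨m', m0', hm1', hm2'⟩ := hy
    have h1 := dl_mul_mod w hw hm1 hm1' hm2 hm2'
    refine ⟨m + m', by rw [Pi.add_apply, m0, m0', add_zero], by rw [map_mul]; exact h1.1, ?_⟩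
    rw [map_mul]
    have h2 : ∑ l, (((m + m') l : ℤ) : ℚ) • dl (α (a l)) =
        ∑ l, (m l : ℚ) • dl (α (a l)) + ∑ l, (m' l : ℚ) • dl (α (a l)) := by
      rw [← Finset.sum_add_distrib]
      refine Finset.sum_congr rfl fun l _ => ?_
      rw [Pi.add_apply, Int.cast_add, add_smul]
    rw [h2]
    exact h1.2
  | inv x _ hx =>
    obtain ⟨m, m0, hm1, hm2⟩ := hx
    have h1 := dl_inv_mod w hw hm1 hm2
    refine ⟨-m, by rw [Pi.neg_apply, m0, neg_zero], by rw [map_inv]; exact h1.1, ?_⟩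
    rw [map_inv]
    have h2 : ∑ l, (((-m) l : ℤ) : ℚ) • dl (α (a l)) = -∑ l, (m l : ℚ) • dl (α (a l)) := by
      rw [← Finset.sum_neg_distrib]
      refine Finset.sum_congr rfl fun l _ => ?_
      rw [Pi.neg_apply, Int.cast_neg, neg_smul]
    rw [h2]
    exact h1.2

theorem Mal.normal_form {B : Type} [Group B] {r : ℕ} {a : Fin (r + 1) → B} (h : Mal a) (b : B) :
    ∃ (n : ℤ) (g : B), g ∈ Tl a ∧ b = a 0 ^ n * g := by
  have hn : ∀ x ∈ Tl a, a 0 * x * (a 0)⁻¹ ∈ Tl a ∧ (a 0)⁻¹ * x * a 0 ∈ Tl a := by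
    intro x hx
    have h1 := h.nrm 0
    rw [image_Ioi_zero] at h1
    exact h1 x hx
  have ht : a 0 ∈ Subgroup.normalizer ((Tl a : Subgroup B) : Set B) := by
    rw [Subgroup.mem_normalizer_iff]
    intro x
    refine ⟨fun hx => (hn x hx).1, fun hx => ?_⟩
    have h1 := (hn _ hx).2
    have h2 : (a 0)⁻¹ * (a 0 * x * (a 0)⁻¹) * a 0 = x := by group
    rwa [h2] at h1
  have hb : b ∈ Subgroup.closure (Set.range a) := by
    rw [h.gen]
    exact Subgroup.mem_top b
  have hle : Subgroup.closure (Set.range a) ≤ Helper294.HallC.adj (Tl a) (a 0) ht := by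
    rw [Subgroup.closure_le]
    rintro _ ⟨i, rfl⟩
    refine Fin.cases ?_ (fun i => ?_) i
    · exact Helper294.HallC.self_mem_adj
    · exact Helper294.HallC.le_adj (Subgroup.subset_closure ⟨i, rfl⟩)
  obtain ⟨n, hn⟩ := Helper294.HallC.mem_adj.1 (hle hb)
  refine ⟨n, _, hn, ?_⟩
  rw [zpow_neg, mul_inv_cancel_left]

theorem Adn.inj (hw : ∀ g, 1 ≤ w g) (J : ℕ) : ∀ (r : ℕ) (B : Type) [Group B] (α : B →* N)
    (a : Fin r → B) (k : Fin r → ℕ), Adn w α a k → Mal a → (∀ j, k j + 1 ≤ J) →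
    ∀ b, dl (α b) ∈ Fw w J → b = 1 := by
  classical
  intro r
  induction r with
  | zero =>
    intro B _ α a k _ hm _ b _
    have hb : b ∈ Subgroup.closure (Set.range a) := by
      rw [hm.gen]
      exact Subgroup.mem_top b
    rwa [Set.range_eq_empty, Subgroup.closure_empty, Subgroup.mem_bot] at hb
  | succ r ih =>
    intro B _ α a k h hm hJ b hb
    obtain ⟨n, g, hg, rfl⟩ := hm.normal_form b
    have hn : n = 0 := by
      by_contra hn0
      obtain ⟨m, m0, hm1, hm2⟩ := tl_comb hw h hg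
      have h1 := dl_zpow_mod w hw (h.mem 0) n
      have h2 := (dl_mul_mod w hw h1.1 hm1 h1.2 hm2).2
      rw [map_mul, map_zpow] at hb
      have h3 := Submodule.sub_mem _ (Fw_anti w (hJ 0) hb) h2
      rw [sub_sub_cancel] at h3
      refine h.ind (fun l => if l = 0 then n else m l) 0 (by rwa [if_pos rfl])
        (fun l hl => absurd hl (Fin.not_lt_zero l)) ?_
      rw [Fin.sum_univ_succ] at h3 ⊢
      rw [m0, Int.cast_zero, zero_smul, zero_add] at h3
      rw [if_pos rfl]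
      simp only [Fin.succ_ne_zero, if_false]
      exact h3
    rw [hn, zpow_zero, one_mul] at hb ⊢
    have h1 := ih (Tl a) (α.comp (Tl a).subtype) (tl a) (fun i => k i.succ) h.tail hm.tail
      (fun j => hJ _) ⟨g, hg⟩ hb
    exact congrArg Subtype.val h1

end inj

theorem C_endS {C : ∀ (G : Type) [Group G], Prop} (hC : ClosedE C)
    (hgl : ∀ n : ℕ, C (Matrix (Fin n) (Fin n) ℚ)ˣ) {V : Type} [AddCommGroup V] [Module ℚ V]
    (S : Submodule ℚ V) [FiniteDimensional ℚ S] : C (Module.End ℚ S)ˣ := C_end hC.base hgl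

/-- the case of a finitely generated base group -/
theorem fg_nil {C : ∀ (G : Type) [Group G], Prop} (hC : ClosedE C)
    (hgl : ∀ n : ℕ, C (Matrix (Fin n) (Fin n) ℚ)ˣ) {N : Type} [Group N] (hfg : Group.FG N)
    (hN : C N) {I : Type} {B : I → Type} [∀ i, Group (B i)] (α β : ∀ i, B i →* N)
    (J : Finset I) (hJ : ∀ i, i ∉ J → ∀ b : B i, b = 1) (w : N → ℕ) (hw : ∀ g, 1 ≤ w g)
    (h : ∀ i ∈ J, ∃ (r : ℕ) (a : Fin r → B i) (k : Fin r → ℕ), Adn w (α i) a k ∧
      Adn w (β i) a k ∧ Mal a) : C (MH α β) := by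
  classical
  choose r a k h1 h2 h3 using h
  let c : ℕ := J.attach.sup fun i => Finset.univ.sup (k i.1 i.2)
  have hc : ∀ i (hi : i ∈ J) j, k i hi j + 1 ≤ c + 1 := fun i hi j => Nat.succ_le_succ
    ((Finset.le_sup (f := k i hi) (Finset.mem_univ j)).trans
      (Finset.le_sup (f := fun i : J => Finset.univ.sup (k i.1 i.2)) (Finset.mem_attach J ⟨i, hi⟩)))
  have hfd := (fa_FP w hw hfg).fin (c + 1)
  have hT : ∀ i, ∃ T : (Module.End ℚ (FP w hw (c + 1)))ˣ,
      i ∈ J → ∀ b, T * rhoP w hw (c + 1) (α i b) * T⁻¹ = rhoP w hw (c + 1) (β i b) := by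
    intro i
    by_cases hi : i ∈ J
    · obtain ⟨T, hT⟩ := Adn.conj hfg hw (h1 i hi) (h2 i hi) (h3 i hi) (c + 1)
      exact ⟨T, fun _ => hT⟩
    · exact ⟨1, fun h => absurd h hi⟩
  choose T hT using hT
  have hα : ∀ i, Function.Injective (α i) := by
    intro i
    rw [injective_iff_map_eq_one]
    intro b hb
    by_cases hi : i ∈ J
    · refine Adn.inj hw (c + 1) _ _ _ _ _ (h1 i hi) (h3 i hi) (hc i hi) b ?_
      rw [hb, dl_one]
      exact Submodule.zero_mem _
    · exact hJ i hi b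
  have hβ : ∀ i, Function.Injective (β i) := by
    intro i
    rw [injective_iff_map_eq_one]
    intro b hb
    by_cases hi : i ∈ J
    · refine Adn.inj hw (c + 1) _ _ _ _ _ (h2 i hi) (h3 i hi) (hc i hi) b ?_
      rw [hb, dl_one]
      exact Submodule.zero_mem _
    · exact hJ i hi b
  refine mh_loc _ _ hC hN hα hβ fun S hS => ?_
  refine ⟨(Module.End ℚ (FP w hw (c + 1)))ˣ, inferInstance, rhoP w hw (c + 1), T,
    C_endS hC hgl (FP w hw (c + 1)), ?_, ?_⟩
  · intro i b _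
    by_cases hi : i ∈ J
    · exact hT i hi b
    · rw [hJ i hi b, map_one, map_one, map_one, mul_one, mul_inv_cancel, map_one]
  · intro i b _ hb
    by_cases hi : i ∈ J
    · exact Adn.inj hw (c + 1) _ _ _ _ _ (h1 i hi) (h3 i hi) (hc i hi) b (rhoP_eq_one w hw hb)
    · exact hJ i hi b

/-- all finitely generated subgroups are nilpotent -/
def LocNil (B : Type) [Group B] : Prop := ∀ S : Subgroup B, S.FG → Group.IsNilpotent S

/-- **multiple HNN extensions along locally nilpotent groups whose embeddings preserve the orders** -/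
theorem mh_nil {C : ∀ (G : Type) [Group G], Prop} (hC : ClosedE C)
    (hgl : ∀ n : ℕ, C (Matrix (Fin n) (Fin n) ℚ)ˣ) {M : Type} [Group M] (hM : C M) {I : Type}
    {B : I → Type} [∀ i, Group (B i)] (hB : ∀ i, LocNil (B i)) (α β : ∀ i, B i →* M)
    (h : SameOrdA α β) : C (MH α β) := by
  classical
  refine fg_red' hC.base fun H0 D hH0 hD hf => ?_
  let J : Finset I := hf.toFinset
  have hJ : ∀ i, i ∉ J → D i = ⊥ := by
    intro i hi
    by_contra h1
    exact hi (hf.mem_toFinset.2 h1)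
  obtain ⟨w, hw, hk⟩ := h J
  have h1 : ∀ i : J, ∃ (r : ℕ) (a : Fin r → D i) (k : Fin r → ℕ) (T : Finset M),
      Mal a ∧ ∀ H : Subgroup M, (T : Set M) ⊆ H →
        (∀ b ∈ D i, α i b ∈ H ∧ β i b ∈ H) ∧ ∀ α' β' : D i →* H,
          (∀ b, (α' b : M) = α i b) → (∀ b, (β' b : M) = β i b) →
            Adn (fun x : H => w x) α' a k ∧ Adn (fun x : H => w x) β' a k := by
    intro i
    have h2 : ∀ b : D i, b ≠ 1 → ∃ k, HasOrd w ((α i).comp (D i).subtype b) k ∧
        HasOrd w ((β i).comp (D i).subtype b) k := fun b hb =>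
      hk i i.2 b fun h3 => hb (Subtype.ext h3)
    obtain ⟨r, a, k, hk1, hgen⟩ := exists_adn (α := (α i).comp (D i).subtype) hw
      ((Group.fg_iff_subgroup_fg _).2 (hD i)) (hB i (D i) (hD i)) fun b hb => by
        obtain ⟨k, hk, _⟩ := h2 b hb
        exact ⟨k, hk⟩
    have hk2 := hk1.of_ord hw h2
    obtain ⟨Ta, hTa⟩ := hk1.sub
    obtain ⟨Tb, hTb⟩ := hk2.sub
    refine ⟨r, a, k, Ta ∪ Tb ∪ Finset.univ.image (fun j => α i (a j)) ∪
      Finset.univ.image (fun j => β i (a j)), hgen, fun H hH => ⟨?_, fun α' β' hα' hβ' => ⟨?_, ?_⟩⟩⟩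
    · have h3 : ∀ b : D i, α i b ∈ H ∧ β i b ∈ H := by
        intro b
        have hb : b ∈ Subgroup.closure (Set.range a) := by
          rw [hgen.gen]
          exact Subgroup.mem_top b
        induction hb using Subgroup.closure_induction with
        | mem x hx =>
          obtain ⟨j, rfl⟩ := hx
          exact ⟨hH (by simp), hH (by simp)⟩
        | one => exact ⟨by simp, by simp⟩
        | mul x y _ _ hx hy =>
          rw [Subgroup.coe_mul, map_mul, map_mul]
          exact ⟨H.mul_mem hx.1 hy.1, H.mul_mem hx.2 hy.2⟩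
        | inv x _ hx =>
          rw [Subgroup.coe_inv, map_inv, map_inv]
          exact ⟨H.inv_mem hx.1, H.inv_mem hx.2⟩
      exact fun b hb => h3 ⟨b, hb⟩
    · exact hTa H (fun x hx => hH (by
        rw [Finset.coe_union, Finset.coe_union, Finset.coe_union]
        exact Or.inl (Or.inl (Or.inl hx)))) α' hα'
    · exact hTb H (fun x hx => hH (by
        rw [Finset.coe_union, Finset.coe_union, Finset.coe_union]
        exact Or.inl (Or.inl (Or.inr hx)))) β' hβ'
  choose r a k T hgen hT using h1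
  let T0 : Finset M := Finset.univ.biUnion T
  let H : Subgroup M := H0 ⊔ Subgroup.closure (T0 : Set M)
  have hTH : ∀ i : J, (T i : Set M) ⊆ H := fun i x hx =>
    Subgroup.mem_sup_right (Subgroup.subset_closure (Finset.mem_coe.2
      (Finset.mem_biUnion.2 ⟨i, Finset.mem_univ i, hx⟩)))
  have hab : ∀ i, ∀ b ∈ D i, α i b ∈ H ∧ β i b ∈ H := by
    intro i b hb
    by_cases hi : i ∈ J
    · exact (hT ⟨i, hi⟩ H (hTH ⟨i, hi⟩)).1 b hb
    · rw [hJ i hi] at hb
      rw [Subgroup.mem_bot.1 hb, map_one, map_one]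
      exact ⟨H.one_mem, H.one_mem⟩
  have hHfg : H.FG := hH0.sup ⟨T0, rfl⟩
  refine ⟨H, hHfg, le_sup_left, fun i b hb => (hab i b hb).1, fun i b hb => (hab i b hb).2, ?_⟩
  refine fg_nil hC hgl ((Group.fg_iff_subgroup_fg H).2 hHfg)
    (hC.base.of_injective _ _ H.subtype H.subtype_injective hM) _ _ J (fun i hi b => ?_)
    (fun x : H => w x) (fun g => hw g) fun i hi => ?_
  · have h2 : (b : B i) ∈ (⊥ : Subgroup (B i)) := by
      rw [← hJ i hi]
      exact b.2
    exact Subtype.ext (Subgroup.mem_bot.1 h2)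
  · have h2 := (hT ⟨i, hi⟩ H (hTH ⟨i, hi⟩)).2 (rsA α H D (fun i b hb => (hab i b hb).1) i)
      (rsA β H D (fun i b hb => (hab i b hb).2) i) (fun b => rfl) (fun b => rfl)
    exact ⟨r ⟨i, hi⟩, a ⟨i, hi⟩, k ⟨i, hi⟩, h2.1, h2.2, hgen ⟨i, hi⟩⟩

end Pool.Agent.R669.Wt
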