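import Pool.Agent.R669.Wt.Nbg
import Pool.Agent.R669.Wt.Abe

/-!
# Graphs of groups with locally nilpotent edge groups
-/

set_option autoImplicit false

namespace Pool.Agent.R669.Wt

open Pool.Agent.Y110.FJ Pool.Agent.R779.FJ Pool.Agent.R942.FJ

/-- automorphisms preserve the orders for the constant weights -/
theorem HasOrd.aut {M : Type} [Group M] {g : M} {k : ℕ} (h : HasOrd (fun _ : M => 1) g k)
    (θ : M ≃* M) : HasOrd (fun _ : M => 1) (θ g) k := by
  constructor
  · exact map_dl θ.toMonoidHom (fun _ => 1) (fun _ => 1) (fun _ => Or.inr le_rfl) k h.1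
  · intro h1
    apply h.2
    have h2 := map_dl θ.symm.toMonoidHom (fun _ => 1) (fun _ => 1) (fun _ => Or.inr le_rfl) _ h1
    have h3 : θ.symm.toMonoidHom (θ g) = g := θ.symm_apply_apply g
    rwa [h3] at h2

theorem SameOrdA.aut {M : Type} [Group M] {I : Type} {B : I → Type} [∀ i, Group (B i)]
    (α : ∀ i, B i →* M) (θ : I → (M ≃* M)) (h : ∀ i, ∀ b : B i, b ≠ 1 → FinOrd (α i b)) :
    SameOrdA α (fun i => (θ i).toMonoidHom.comp (α i)) := by
  intro J
  refine ⟨fun _ => 1, fun _ => le_rfl, fun i _ b hb => ?_⟩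
  obtain ⟨k, hk⟩ := h i b hb
  exact ⟨k, hk, hk.aut (θ i)⟩

/-- **graphs of groups with locally nilpotent edge groups** -/
theorem gog_nil {C : ∀ (G : Type) [Group G], Prop} (hC : ClosedE C)
    (hgl : ∀ n : ℕ, C (Matrix (Fin n) (Fin n) ℚ)ˣ) {Vt E : Type} {G : Vt → Type}
    [∀ v, Group (G v)] {B : E → Type} [∀ e, Group (B e)] (hB : ∀ e, LocNil (B e))
    (o t : E → Vt) (a : ∀ e, B e →* G (o e)) (b : ∀ e, B e →* G (t e)) (hG : ∀ v, C (G v))
    (h : BalancedE o t a b) : C (GraphGrp o t a b) :=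
  mh_nil hC hgl (C_coprodI hC.base _ G hG) hB _ _ (h.same o t a b)

end Pool.Agent.R669.Wt
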