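import Mathlib

/-!
# Nilpotent endomorphisms with the same ranks are similar
-/

set_option autoImplicit false

namespace Pool.Agent.R669.Wt

open Module LinearMap

variable {F : Type} [Field F]

/-- an injective linear map on a subspace extends to an isomorphism -/
theorem ext_iso {V V' : Type} [AddCommGroup V] [Module F V] [FiniteDimensional F V]
    [AddCommGroup V'] [Module F V'] [FiniteDimensional F V'] (S : Submodule F V) (f : S →ₗ[F] V')
    (hf : Function.Injective f) (h : finrank F V = finrank F V') :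
    ∃ σ : V ≃ₗ[F] V', ∀ x : S, σ x = f x := by
  obtain ⟨C, hC⟩ := Submodule.exists_isCompl S
  obtain ⟨C', hC'⟩ := Submodule.exists_isCompl (range f)
  have h1 : finrank F S + finrank F C = finrank F V := Submodule.finrank_add_eq_of_isCompl hC
  have h2 : finrank F (range f) + finrank F C' = finrank F V' :=
    Submodule.finrank_add_eq_of_isCompl hC'
  have h3 : finrank F (range f) = finrank F S := finrank_range_of_inj hf
  have h4 : finrank F C = finrank F C' := by omega
  let e1 := LinearEquiv.ofInjective f hf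
  let e2 : C ≃ₗ[F] C' := LinearEquiv.ofFinrankEq _ _ h4
  let σ : V ≃ₗ[F] V' := (Submodule.prodEquivOfIsCompl S C hC).symm.trans
    ((e1.prodCongr e2).trans (Submodule.prodEquivOfIsCompl _ C' hC'))
  refine ⟨σ, fun x => ?_⟩
  have h5 : (Submodule.prodEquivOfIsCompl S C hC).symm (x : V) = (x, 0) :=
    Submodule.prodEquivOfIsCompl_symm_apply_left _ _ hC x
  show (Submodule.prodEquivOfIsCompl _ C' hC') ((e1.prodCongr e2)
    ((Submodule.prodEquivOfIsCompl S C hC).symm (x : V))) = f x
  rw [h5]
  show (Submodule.prodEquivOfIsCompl _ C' hC') (e1 x, e2 0) = f x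
  rw [map_zero, Submodule.coe_prodEquivOfIsCompl']
  show f x + ((0 : C') : V') = f x
  rw [Submodule.coe_zero, add_zero]

/-- linear maps on two subspaces which agree on the intersection have a common extension -/
theorem glue {V W : Type} [AddCommGroup V] [Module F V] [AddCommGroup W] [Module F W]
    (R K : Submodule F V) (f : R →ₗ[F] W) (g : K →ₗ[F] W)
    (h : ∀ (x : V) (hx : x ∈ R) (hx' : x ∈ K), f ⟨x, hx⟩ = g ⟨x, hx'⟩) :
    ∃ L : V →ₗ[F] W, (∀ x : R, L x = f x) ∧ ∀ x : K, L x = g x := by
  let f1 : V →ₗ.[F] W := ⟨R, f⟩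
  let g1 : V →ₗ.[F] W := ⟨K, g⟩
  have hH : ∀ (x : f1.domain) (y : g1.domain), (x : V) = y → f1 x = g1 y := by
    rintro ⟨x, hx⟩ ⟨y, hy⟩ hxy
    obtain rfl : x = y := hxy
    exact h x hx hy
  obtain ⟨L, hL⟩ := LinearMap.exists_extend (f1.sup g1 hH).toFun
  refine ⟨L, fun x => ?_, fun x => ?_⟩
  · have hx : (x : V) ∈ (f1.sup g1 hH).domain := Submodule.mem_sup_left x.2
    have h1 := LinearPMap.sup_apply hH x (0 : g1.domain) ⟨x, hx⟩ (by
      show (x : V) + ((0 : g1.domain) : V) = x
      rw [Submodule.coe_zero, add_zero])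
    have h2 := LinearMap.congr_fun hL ⟨x, hx⟩
    rw [show (g1 (0 : g1.domain)) = 0 from map_zero g, add_zero] at h1
    exact h2.trans h1
  · have hx : (x : V) ∈ (f1.sup g1 hH).domain := Submodule.mem_sup_right x.2
    have h1 := LinearPMap.sup_apply hH (0 : f1.domain) x ⟨x, hx⟩ (by
      show ((0 : f1.domain) : V) + (x : V) = x
      rw [Submodule.coe_zero, zero_add])
    have h2 := LinearMap.congr_fun hL ⟨x, hx⟩
    rw [show (f1 (0 : f1.domain)) = 0 from map_zero f, zero_add] at h1
    exact h2.trans h1

/-- **nilpotent endomorphisms whose powers have the same ranks are similar** -/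
theorem nil_sim : ∀ (p : ℕ) (E E' : Type) [AddCommGroup E] [Module F E] [FiniteDimensional F E]
    [AddCommGroup E'] [Module F E'] [FiniteDimensional F E'] (ν : Module.End F E)
    (μ : Module.End F E'), ν ^ p = 0 → μ ^ p = 0 →
    (∀ m, finrank F (range (ν ^ m)) = finrank F (range (μ ^ m))) →
    ∃ T : E ≃ₗ[F] E', ∀ x, T (ν x) = μ (T x) := by
  intro p
  induction p with
  | zero =>
    intro E E' _ _ _ _ _ _ ν μ h1 h2 h
    have hE : ∀ x : E, x = 0 := fun x => by
      have := LinearMap.congr_fun h1 x
      rwa [pow_zero] at this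
    have hE' : ∀ x : E', x = 0 := fun x => by
      have := LinearMap.congr_fun h2 x
      rwa [pow_zero] at this
    have h3 := h 0
    rw [pow_zero, pow_zero] at h3
    have h4 : finrank F E = finrank F E' := by
      rw [← finrank_top F E, ← finrank_top F E', ← LinearMap.range_id (R := F) (M := E),
        ← LinearMap.range_id (R := F) (M := E')]
      exact h3
    exact ⟨LinearEquiv.ofFinrankEq _ _ h4, fun x => (hE' _).trans (hE' _).symm⟩
  | succ p ih =>
    intro E E' _ _ _ _ _ _ ν μ hν hμ h
    have hd : finrank F E = finrank F E' := by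
      have h3 := h 0
      rw [pow_zero, pow_zero] at h3
      rw [← finrank_top F E, ← finrank_top F E', ← LinearMap.range_id (R := F) (M := E),
        ← LinearMap.range_id (R := F) (M := E')]
      exact h3
    have hνR : ∀ x ∈ range ν, ν x ∈ range ν := fun x _ => ⟨x, rfl⟩
    have hμR : ∀ x ∈ range μ, μ x ∈ range μ := fun x _ => ⟨x, rfl⟩
    let νR : Module.End F (range ν) := ν.restrict hνR
    let μR : Module.End F (range μ) := μ.restrict hμR
    have hνRp : ∀ (m : ℕ) (x : range ν), (((νR ^ m) x : range ν) : E) = (ν ^ m) x := by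
      intro m
      induction m with
      | zero => intro x; rfl
      | succ m ihm =>
        intro x
        rw [pow_succ, pow_succ]
        exact ihm (νR x)
    have hμRp : ∀ (m : ℕ) (x : range μ), (((μR ^ m) x : range μ) : E') = (μ ^ m) x := by
      intro m
      induction m with
      | zero => intro x; rfl
      | succ m ihm =>
        intro x
        rw [pow_succ, pow_succ]
        exact ihm (μR x)
    have hνr : ∀ m, finrank F (range (νR ^ m)) = finrank F (range (ν ^ (m + 1))) := by
      intro m
      rw [← Submodule.finrank_map_subtype_eq]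
      have : (range (νR ^ m)).map (range ν).subtype = range (ν ^ (m + 1)) := by
        ext y
        constructor
        · rintro ⟨_, ⟨⟨_, z, rfl⟩, rfl⟩, rfl⟩
          refine ⟨z, ?_⟩
          rw [Submodule.subtype_apply, hνRp, pow_succ]
          rfl
        · rintro ⟨z, rfl⟩
          refine ⟨_, ⟨⟨ν z, z, rfl⟩, rfl⟩, ?_⟩
          rw [Submodule.subtype_apply, hνRp, pow_succ]
          rfl
      rw [this]
    have hμr : ∀ m, finrank F (range (μR ^ m)) = finrank F (range (μ ^ (m + 1))) := by
      intro m
      rw [← Submodule.finrank_map_subtype_eq]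
      have : (range (μR ^ m)).map (range μ).subtype = range (μ ^ (m + 1)) := by
        ext y
        constructor
        · rintro ⟨_, ⟨⟨_, z, rfl⟩, rfl⟩, rfl⟩
          refine ⟨z, ?_⟩
          rw [Submodule.subtype_apply, hμRp, pow_succ]
          rfl
        · rintro ⟨z, rfl⟩
          refine ⟨_, ⟨⟨μ z, z, rfl⟩, rfl⟩, ?_⟩
          rw [Submodule.subtype_apply, hμRp, pow_succ]
          rfl
      rw [this]
    obtain ⟨TR, hTR⟩ := ih (range ν) (range μ) νR μR
      (LinearMap.ext fun x => by
        obtain ⟨_, z, rfl⟩ := x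
        apply Subtype.ext
        rw [hνRp]
        have := LinearMap.congr_fun hν z
        rw [pow_succ] at this
        exact this)
      (LinearMap.ext fun x => by
        obtain ⟨_, z, rfl⟩ := x
        apply Subtype.ext
        rw [hμRp]
        have := LinearMap.congr_fun hμ z
        rw [pow_succ] at this
        exact this)
      (fun m => by rw [hνr, hμr]; exact h (m + 1))
    -- a first lift
    obtain ⟨r, hr⟩ := (μ.rangeRestrict).exists_rightInverse_of_surjective μ.range_rangeRestrict
    let L : E →ₗ[F] E' := r.comp (TR.toLinearMap.comp ν.rangeRestrict)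
    have hμL : ∀ x, μ (L x) = (TR ⟨ν x, x, rfl⟩ : E') := by
      intro x
      have := LinearMap.congr_fun hr (TR ⟨ν x, x, rfl⟩)
      exact congrArg Subtype.val this
    have hLK : ∀ x ∈ ker ν, L x = 0 := by
      intro x hx
      have h1 : ν.rangeRestrict x = 0 := Subtype.ext hx
      show r (TR (ν.rangeRestrict x)) = 0
      rw [h1, map_zero, map_zero]
    have hTRμ : ∀ x : range ν, μ (TR x : E') = (TR ⟨ν x, x, rfl⟩ : E') := by
      intro x
      have := hTR x
      exact (congrArg Subtype.val this).symm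
    -- the isomorphism of the kernels
    have hker : finrank F (ker ν) = finrank F (ker μ) := by
      have h1 := finrank_range_add_finrank_ker ν
      have h2 := finrank_range_add_finrank_ker μ
      have h3 := h 1
      rw [pow_one, pow_one] at h3
      omega
    let S : Submodule F (ker ν) := (range ν).comap (ker ν).subtype
    let f0 : S →ₗ[F] ker μ :=
      LinearMap.codRestrict (ker μ) ((range μ).subtype.comp (TR.toLinearMap.comp
        (LinearMap.codRestrict (range ν) ((ker ν).subtype.comp S.subtype) (fun x => x.2)))) (by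
        intro x
        show μ (TR ⟨((x : ker ν) : E), x.2⟩ : E') = 0
        rw [hTRμ]
        have h1 : (⟨ν ((x : ker ν) : E), ((x : ker ν) : E), rfl⟩ : range ν) = 0 :=
          Subtype.ext (x : ker ν).2
        rw [h1, map_zero]
        rfl)
    have hf0 : ∀ x : S, ((f0 x : ker μ) : E') = (TR ⟨((x : ker ν) : E), x.2⟩ : E') := fun x => rfl
    have hf0i : Function.Injective f0 := by
      intro x y hxy
      have h1 := congrArg (Subtype.val : ker μ → E') hxy
      rw [hf0, hf0] at h1
      have h2 := TR.injective (Subtype.ext h1)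
      have h3 : ((x : ker ν) : E) = ((y : ker ν) : E) := congrArg (Subtype.val : range ν → E) h2
      exact Subtype.ext (Subtype.ext h3)
    obtain ⟨σ, hσ⟩ := ext_iso S f0 hf0i hker
    -- the correction
    let g1 : range ν →ₗ[F] ker μ := LinearMap.codRestrict (ker μ)
      ((range μ).subtype.comp TR.toLinearMap - L.comp (range ν).subtype) (by
        intro x
        show μ ((TR x : E') - L x) = 0
        rw [map_sub, hμL, hTRμ, sub_self])
    obtain ⟨G, hG1, hG2⟩ := glue (range ν) (ker ν) g1 σ.toLinearMap (by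
      intro x hx hx'
      have h1 := hσ ⟨⟨x, hx'⟩, hx⟩
      show g1 ⟨x, hx⟩ = σ ⟨x, hx'⟩
      rw [h1]
      apply Subtype.ext
      rw [hf0]
      show (TR ⟨x, hx⟩ : E') - L x = _
      rw [hLK x hx', sub_zero])
    let T : E →ₗ[F] E' := L + (ker μ).subtype.comp G
    have hTν : ∀ x, T (ν x) = (TR ⟨ν x, x, rfl⟩ : E') := by
      intro x
      show L (ν x) + ((G (ν x) : ker μ) : E') = _
      have h1 := hG1 ⟨ν x, x, rfl⟩
      rw [h1]
      show L (ν x) + ((TR ⟨ν x, x, rfl⟩ : E') - L (ν x)) = _
      rw [add_sub_cancel]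
    have hμT : ∀ x, μ (T x) = (TR ⟨ν x, x, rfl⟩ : E') := by
      intro x
      show μ (L x + ((G x : ker μ) : E')) = _
      rw [map_add, hμL, (G x).2, add_zero]
    have hTi : Function.Injective T := by
      rw [← LinearMap.ker_eq_bot, LinearMap.ker_eq_bot']
      intro x hx
      have h1 := hμT x
      rw [hx, map_zero] at h1
      have h2 : TR ⟨ν x, x, rfl⟩ = 0 := Subtype.ext h1.symm
      have h3 : (⟨ν x, x, rfl⟩ : range ν) = 0 := TR.injective (by rw [h2, map_zero])
      have h4 : x ∈ ker ν := congrArg Subtype.val h3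
      have h5 : L x + ((G x : ker μ) : E') = 0 := hx
      rw [hLK x h4, zero_add] at h5
      have h6 := hG2 ⟨x, h4⟩
      have h7 : σ ⟨x, h4⟩ = 0 := by
        show σ.toLinearMap ⟨x, h4⟩ = 0
        rw [← h6]
        exact Subtype.ext h5
      have h8 : (⟨x, h4⟩ : ker ν) = 0 := σ.injective (by rw [h7, map_zero])
      exact congrArg Subtype.val h8
    refine ⟨T.linearEquivOfInjective hTi hd, fun x => ?_⟩
    rw [LinearMap.linearEquivOfInjective_apply, LinearMap.linearEquivOfInjective_apply, hTν, hμT]

/-- the kernel of the powers of an operator which is injective on the graded space of a filtration -/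
theorem ker_pow {E : Type} [AddCommGroup E] [Module F E] (Fil : ℕ → Submodule F E)
    (hanti : Antitone Fil) (h0 : Fil 0 = ⊤) (c k : ℕ) (hc : Fil (c + 1) = ⊥) (ν : Module.End F E)
    (hν : ∀ d, ∀ x ∈ Fil d, ν x ∈ Fil (d + k))
    (hi : ∀ d, d + k ≤ c → ∀ x ∈ Fil d, ν x ∈ Fil (d + k + 1) → x ∈ Fil (d + 1)) (m : ℕ) (x : E) :
    (ν ^ m) x = 0 ↔ x ∈ Fil (c + 1 - m * k) := by
  have hpow : ∀ m d, ∀ x ∈ Fil d, (ν ^ m) x ∈ Fil (d + m * k) := by
    intro m
    induction m with
    | zero => intro d x hx; simpa using hx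
    | succ m ih =>
      intro d x hx
      rw [pow_succ']
      have h1 := hν _ _ (ih d x hx)
      rw [show d + (m + 1) * k = d + m * k + k by ring]
      exact h1
  constructor
  · intro hx
    by_contra hn
    -- the largest `d` with `x ∈ Fil d`
    obtain ⟨d, hd, hxd, hxd'⟩ : ∃ d, d < c + 1 - m * k ∧ x ∈ Fil d ∧ x ∉ Fil (d + 1) := by
      have : ∀ n, x ∉ Fil n → ∃ d, d < n ∧ x ∈ Fil d ∧ x ∉ Fil (d + 1) := by
        intro n
        induction n with
        | zero => intro h; exact absurd (h0 ▸ Submodule.mem_top) h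
        | succ n ihn =>
          intro h
          by_cases h' : x ∈ Fil n
          · exact ⟨n, Nat.lt_succ_self n, h', h⟩
          · obtain ⟨d, hd, h1, h2⟩ := ihn h'
            exact ⟨d, hd.trans (Nat.lt_succ_self n), h1, h2⟩
      exact this _ hn
    have hj : ∀ j, j ≤ m → (ν ^ j) x ∉ Fil (d + j * k + 1) := by
      intro j
      induction j with
      | zero => intro _; simpa using hxd'
      | succ j ihj =>
        intro hjm h1
        apply ihj (by omega)
        have h2 : j * k + k ≤ m * k := by
          have := Nat.mul_le_mul_right k hjm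
          rwa [Nat.succ_mul] at this
        refine hi (d + j * k) (by omega) _ (hpow j d x hxd) ?_
        rw [pow_succ'] at h1
        rw [show d + (j + 1) * k + 1 = d + j * k + k + 1 by ring] at h1
        exact h1
    apply hj m le_rfl
    rw [hx]
    exact Submodule.zero_mem _
  · intro hx
    have h1 := hpow m _ x hx
    have h2 := hanti (show c + 1 ≤ c + 1 - m * k + m * k by omega) h1
    rw [hc] at h2
    exact (Submodule.mem_bot F).1 h2

/-- two such operators are conjugate -/
theorem conj_of_fil {E : Type} [AddCommGroup E] [Module F E] [FiniteDimensional F E]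
    (Fil : ℕ → Submodule F E)
    (hanti : Antitone Fil) (h0 : Fil 0 = ⊤) (c k : ℕ) (hk : 1 ≤ k) (hc : Fil (c + 1) = ⊥)
    (ν μ : Module.End F E)
    (hν : ∀ d, ∀ x ∈ Fil d, ν x ∈ Fil (d + k))
    (hνi : ∀ d, d + k ≤ c → ∀ x ∈ Fil d, ν x ∈ Fil (d + k + 1) → x ∈ Fil (d + 1))
    (hμ : ∀ d, ∀ x ∈ Fil d, μ x ∈ Fil (d + k))
    (hμi : ∀ d, d + k ≤ c → ∀ x ∈ Fil d, μ x ∈ Fil (d + k + 1) → x ∈ Fil (d + 1)) :
    ∃ T : E ≃ₗ[F] E, ∀ x, T (ν x) = μ (T x) := by
  have h1 := ker_pow Fil hanti h0 c k hc ν hν hνi
  have h2 := ker_pow Fil hanti h0 c k hc μ hμ hμi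
  have hnil : ∀ x, x ∈ Fil (c + 1 - (c + 1) * k) := by
    intro x
    have : c + 1 - (c + 1) * k = 0 := by
      have := Nat.mul_le_mul_left (c + 1) hk
      omega
    rw [this, h0]
    exact Submodule.mem_top
  refine nil_sim (c + 1) E E ν μ (LinearMap.ext fun x => (h1 _ x).2 (hnil x))
    (LinearMap.ext fun x => (h2 _ x).2 (hnil x)) (fun m => ?_)
  have h3 : ker (ν ^ m) = ker (μ ^ m) := by
    ext x
    rw [mem_ker, mem_ker, h1, h2]
  have h4 := finrank_range_add_finrank_ker (ν ^ m)
  have h5 := finrank_range_add_finrank_ker (μ ^ m)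
  rw [h3] at h4
  omega

end Pool.Agent.R669.Wt
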