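import Pool.Agent.R669.Wt.Nbh

/-!
# Functions which are polynomial on the cosets of a normal subgroup of finite index
-/

set_option autoImplicit false

namespace Pool.Agent.R669.Wt

open Module

section inv

variable {K : Type} [Group K] (w : K → ℕ)

/-- right translation -/
def Ra (a : K) : (K → ℚ) →ₗ[ℚ] (K → ℚ) where
  toFun f m := f (m * a)
  map_add' _ _ := rfl
  map_smul' _ _ := rfl

theorem Ra_mem (a : K) {j : ℕ} {f : K → ℚ} (hf : f ∈ Pj w j) : Ra a f ∈ Pj w j := fun x hx => by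
  have h : hat (Ra a f) = (hat f).comp (LinearMap.mulRight ℚ (MonoidAlgebra.of ℚ K a)) :=
    lin_ext _ _ fun g => by
      show hat (Ra a f) (MonoidAlgebra.of ℚ K g) =
        hat f (MonoidAlgebra.of ℚ K g * MonoidAlgebra.of ℚ K a)
      rw [hat_of, ← map_mul, hat_of]
      rfl
  rw [h]
  exact hf _ (mul_of_mem w _ hx)

theorem comp_mem (φ : K →* K) (hφ : ∀ g, w (φ g) = w g) {j : ℕ} {f : K → ℚ} (hf : f ∈ Pj w j) :
    (fun n => f (φ n)) ∈ Pj w j := fun x hx => by
  have h : hat (fun n => f (φ n)) = (hat f).comp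
      (MonoidAlgebra.lift ℚ (MonoidAlgebra ℚ K) K ((MonoidAlgebra.of ℚ K).comp φ)).toLinearMap :=
    lin_ext _ _ fun g => by
      show hat (fun n => f (φ n)) (MonoidAlgebra.of ℚ K g) =
        hat f (MonoidAlgebra.lift ℚ (MonoidAlgebra ℚ K) K ((MonoidAlgebra.of ℚ K).comp φ)
          (MonoidAlgebra.of ℚ K g))
      rw [hat_of, MonoidAlgebra.lift_of]
      exact (hat_of f (φ g)).symm
  rw [h]
  exact hf _ (map_Fw φ w w (fun g => Or.inr (hφ g).ge) j hx)

end inv

/-- a normal subgroup of finite index (given by an injective homomorphism) with weights which are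
invariant under conjugation -/
structure NW {M K : Type} [Group M] [Group K] (ι : K →* M) (w : K → ℕ) : Prop where
  inj : Function.Injective ι
  nrm : ι.range.Normal
  fin : ι.range.FiniteIndex
  pos : ∀ g, 1 ≤ w g
  inv : ∀ (m : M) (x y : K), ι y = m * ι x * m⁻¹ → w y = w x

section ind

variable {M K : Type} [Group M] [Group K] {ι : K →* M} {w : K → ℕ}

theorem NW.exc (h : NW ι w) (m : M) (x : K) : ∃ y, ι y = m * ι x * m⁻¹ :=
  h.nrm.conj_mem (ι x) ⟨x, rfl⟩ m

/-- conjugation -/
noncomputable def NW.cj (h : NW ι w) (m : M) : K →* K where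
  toFun x := (h.exc m x).choose
  map_one' := h.inj (by rw [(h.exc m 1).choose_spec, map_one, mul_one, mul_inv_cancel])
  map_mul' x y := h.inj (by
    rw [(h.exc m (x * y)).choose_spec, map_mul, map_mul, (h.exc m x).choose_spec,
      (h.exc m y).choose_spec]
    group)

theorem NW.cj_spec (h : NW ι w) (m : M) (x : K) : ι (h.cj m x) = m * ι x * m⁻¹ :=
  (h.exc m x).choose_spec

theorem NW.cj_w (h : NW ι w) (m : M) (x : K) : w (h.cj m x) = w x := h.inv m x _ (h.cj_spec m x)

/-- the restriction to a coset -/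
def sl (ι : K →* M) (x : M) : (M → ℚ) →ₗ[ℚ] (K → ℚ) where
  toFun f n := f (ι n * x)
  map_add' _ _ := rfl
  map_smul' _ _ := rfl

variable (ι w) in
/-- the functions which are polynomial of bounded degree on all cosets -/
def VJ (j : ℕ) : Submodule ℚ (M → ℚ) where
  carrier := {f | ∀ x, sl ι x f ∈ Pj w j}
  zero_mem' := fun x => by
    rw [map_zero]
    exact Submodule.zero_mem _
  add_mem' := fun {f g} hf hg x => by
    rw [map_add]
    exact Submodule.add_mem _ (hf x) (hg x)
  smul_mem' := fun c f hf x => by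
    rw [map_smul]
    exact Submodule.smul_mem _ _ (hf x)

theorem NW.La_mem (h : NW ι w) (m : M) {j : ℕ} {f : M → ℚ} (hf : f ∈ VJ ι w j) :
    La m f ∈ VJ ι w j := by
  intro x
  have h1 : sl ι x (La m f) = fun n => sl ι (m * x) f (h.cj m n) := by
    funext n
    show f (m * (ι n * x)) = f (ι (h.cj m n) * (m * x))
    rw [h.cj_spec]
    congr 1
    group
  rw [h1]
  exact comp_mem w (h.cj m) (h.cj_w m) (hf (m * x))

theorem NW.fgK (h : NW ι w) (hM : Group.FG M) : Group.FG K := by
  have := h.fin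
  have h1 : Group.FG ι.range := inferInstance
  let e : ι.range ≃* K := (MonoidHom.ofInjective h.inj).symm
  exact Group.fg_of_surjective (f := e.toMonoidHom) e.surjective

theorem NW.fd (h : NW ι w) (hM : Group.FG M) (j : ℕ) : FiniteDimensional ℚ (VJ ι w j) := by
  have h0 := fd_Pj w (h.fgK hM) h.pos j
  have := h.fin
  have := h.nrm
  have hfq : Finite (M ⧸ ι.range) := inferInstance
  let F : VJ ι w j →ₗ[ℚ] (M ⧸ ι.range → Pj w j) := LinearMap.pi fun q =>
    LinearMap.codRestrict _ ((sl ι q.out).comp (VJ ι w j).subtype) fun f => f.2 q.out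
  have hF : Function.Injective F := by
    rw [← LinearMap.ker_eq_bot, LinearMap.ker_eq_bot']
    intro f hf
    apply Subtype.ext
    funext y
    show (f : M → ℚ) y = 0
    have h1 : (QuotientGroup.mk y : M ⧸ ι.range) =
      QuotientGroup.mk (QuotientGroup.mk y : M ⧸ ι.range).out := (Quotient.out_eq _).symm
    have h2 : ((QuotientGroup.mk y : M ⧸ ι.range).out)⁻¹ * y ∈ ι.range :=
      QuotientGroup.eq.1 h1.symm
    have h3 : y * ((QuotientGroup.mk y : M ⧸ ι.range).out)⁻¹ ∈ ι.range := h.nrm.mem_comm h2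
    obtain ⟨n, hn⟩ := h3
    have h4 := congrFun hf (QuotientGroup.mk y : M ⧸ ι.range)
    have h5 := congrFun (congrArg Subtype.val h4) n
    have h6 : (f : M → ℚ) (ι n * (QuotientGroup.mk y : M ⧸ ι.range).out) = 0 := h5
    rwa [hn, inv_mul_cancel_right] at h6
  exact Module.Finite.of_injective F hF

/-- the representation -/
noncomputable def NW.rV (h : NW ι w) (J : ℕ) : M →* (Module.End ℚ (VJ ι w J))ˣ :=
  MonoidHom.toHomUnits
    { toFun := fun g => (La g⁻¹).restrict fun _ hf => h.La_mem g⁻¹ hf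
      map_one' := by
        refine LinearMap.ext fun f => Subtype.ext (funext fun m => ?_)
        show (f : M → ℚ) ((1 : M)⁻¹ * m) = (f : M → ℚ) m
        rw [inv_one, one_mul]
      map_mul' := fun g h => by
        refine LinearMap.ext fun f => Subtype.ext (funext fun m => ?_)
        show (f : M → ℚ) ((g * h)⁻¹ * m) = (f : M → ℚ) (h⁻¹ * (g⁻¹ * m))
        rw [mul_inv_rev, mul_assoc] }

theorem NW.rV_apply (h : NW ι w) (J : ℕ) (g : M) (f : VJ ι w J) :
    ((((h.rV J g : (Module.End ℚ (VJ ι w J))ˣ) : Module.End ℚ (VJ ι w J)) f : VJ ι w J) : M → ℚ) =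
      La g⁻¹ (f : M → ℚ) := rfl

open Classical in
variable (ι) in
/-- extension by zero -/
noncomputable def ex0 (f : K → ℚ) (m : M) : ℚ := if h : ∃ n, ι n = m then f h.choose else 0

theorem ex0_of (hι : Function.Injective ι) (f : K → ℚ) (n : K) : ex0 ι f (ι n) = f n := by
  have h : ∃ n', ι n' = ι n := ⟨n, rfl⟩
  rw [ex0, dif_pos h, hι h.choose_spec]

theorem ex0_not (f : K → ℚ) {m : M} (hm : m ∉ ι.range) : ex0 ι f m = 0 := dif_neg hm

theorem NW.ex0_mem (h : NW ι w) {j : ℕ} {f : K → ℚ} (hf : f ∈ Pj w j) : ex0 ι f ∈ VJ ι w j := by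
  intro x
  by_cases hx : x ∈ ι.range
  · obtain ⟨a, rfl⟩ := hx
    have h1 : sl ι (ι a) (ex0 ι f) = Ra a f := by
      funext n
      show ex0 ι f (ι n * ι a) = f (n * a)
      rw [← map_mul, ex0_of h.inj]
    rw [h1]
    exact Ra_mem w a hf
  · have h1 : sl ι x (ex0 ι f) = 0 := by
      funext n
      show ex0 ι f (ι n * x) = 0
      refine ex0_not f fun h2 => hx ?_
      have h3 := ι.range.mul_mem (ι.range.inv_mem ⟨n, rfl⟩) h2
      rwa [inv_mul_cancel_left] at h3
    rw [h1]
    exact Submodule.zero_mem _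

theorem NW.rV_eq_one (h : NW ι w) {J : ℕ} (hJ : 1 ≤ J) {m : M} (hm : h.rV J m = 1) :
    ∃ n, ι n = m ∧ dl n ∈ Fw w J := by
  have h1 : ∀ f ∈ VJ ι w J, La m⁻¹ f = f := by
    intro f hf
    have h2 := h.rV_apply J m ⟨f, hf⟩
    rw [hm] at h2
    exact h2.symm
  have h2 : m ∈ ι.range := by
    by_contra h3
    have h4 : (1 : K → ℚ) ∈ Pj w J := Pj_mono w hJ (one_mem_Pj w h.pos)
    have h5 := congrFun (h1 _ (h.ex0_mem h4)) m
    rw [ex0_not _ h3, La_apply, inv_mul_cancel, ← map_one ι, ex0_of h.inj] at h5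
    exact one_ne_zero h5
  obtain ⟨n, rfl⟩ := h2
  refine ⟨n, rfl, rho_eq_one w (J := J) (Units.ext (LinearMap.ext fun f => Subtype.ext ?_))⟩
  rw [rho_apply]
  funext k
  have h5 := congrFun (h1 _ (h.ex0_mem f.2)) (ι k)
  rw [La_apply, ← map_inv, ← map_mul, ex0_of h.inj, ex0_of h.inj] at h5
  exact h5

end ind

end Pool.Agent.R669.Wt
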