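import Pool.Agent.R669.Wt.Vna

/-!
# Equivalent restrictions of the representation on functions polynomial on cosets
-/

set_option autoImplicit false

namespace Pool.Agent.R669.Wt

open Module

section tau

variable {N : Type} [Group N] {w : N → ℕ} {B : Type} [Group B] {α β : B →* N} {r : ℕ}
  {a : Fin r → B} {k : Fin r → ℕ}

/-- the isomorphism as a linear map on all functions -/
theorem Adn.tau (hN : Group.FG N) (hw : ∀ g, 1 ≤ w g) (h : Adn w α a k) (h' : Adn w β a k)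
    (hm : Mal a) (J : ℕ) :
    ∃ τ : (N → ℚ) →ₗ[ℚ] (N → ℚ), (∀ f ∈ Pj w J, τ f ∈ Pj w J) ∧
      (∀ f ∈ Pj w J, τ f = 0 → f = 0) ∧
      ∀ b, ∀ f ∈ Pj w J, τ (La (α b) f) = La (β b) (τ f) := by
  obtain ⟨T, hT1, hT2, hT3⟩ := nil_iso J r B a k _ _ _ _ _ _ hm (h.ns hN hw) (h'.ns hN hw)
    (fun _ _ => rfl)
  obtain ⟨τ, hτ⟩ := LinearMap.exists_extend (p := Subalgebra.toSubmodule (PA w hw))
    ((PA w hw).val.toLinearMap.comp T)
  have h1 : ∀ f : PA w hw, τ (f : N → ℚ) = (T f : N → ℚ) := fun f => LinearMap.congr_fun hτ f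
  have h2 : ∀ f ∈ Pj w J, f ∈ PA w hw := fun f hf => ⟨J, hf⟩
  refine ⟨τ, fun f hf => ?_, fun f hf h0 => ?_, fun b f hf => ?_⟩
  · rw [show τ f = _ from h1 ⟨f, h2 f hf⟩]
    exact hT1 J le_rfl ⟨f, h2 f hf⟩ hf
  · have h3 := hT2 ⟨f, h2 f hf⟩ hf (Subtype.ext (by rw [← h1]; exact h0))
    exact congrArg Subtype.val h3
  · have h3 := hT3 b⁻¹ ⟨f, h2 f hf⟩ hf
    have h4 : ((((lA w hw).comp α) b⁻¹) ⟨f, h2 f hf⟩ : N → ℚ) = La (α b) f := by
      show La (α b⁻¹)⁻¹ f = La (α b) f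
      rw [map_inv, inv_inv]
    have h5 := congrArg Subtype.val h3
    rw [← h1] at h5
    have h6 : ((((lA w hw).comp β) b⁻¹) (T ⟨f, h2 f hf⟩) : N → ℚ) = La (β b) (τ f) := by
      show La (β b⁻¹)⁻¹ (T ⟨f, h2 f hf⟩ : N → ℚ) = La (β b) (τ f)
      rw [map_inv, inv_inv, ← h1]
    rw [← h4, ← h6]
    exact h5

end tau

section reps

variable {M B : Type} [Group M] [Group B]

theorem card_eq (α β : B →* M) (H : Subgroup M) (hn : H.Normal) (hi : H.FiniteIndex)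
    (h0 : H.comap α = H.comap β) : (α.range ⊔ H).index = (β.range ⊔ H).index := by
  have key : ∀ γ : B →* M, (H.comap γ).index * (γ.range ⊔ H).index = H.index := by
    intro γ
    rw [Subgroup.index_comap, ← Subgroup.relIndex_sup_right γ.range H]
    exact Subgroup.relIndex_mul_index le_sup_right
  have h1 := key α
  have h2 := key β
  rw [h0] at h1
  have h3 : (H.comap β).index ≠ 0 := by
    intro h4
    rw [h4, zero_mul] at h2
    exact hi.index_ne_zero h2.symm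
  exact Nat.eq_of_mul_eq_mul_left (Nat.pos_of_ne_zero h3) (h1.trans h2.symm)

/-- representatives of the double cosets -/
theorem exists_reps (α β : B →* M) (H : Subgroup M) (hn : H.Normal) (hi : H.FiniteIndex)
    (h0 : H.comap α = H.comap β) :
    ∃ (Q : Type) (x y : Q → M), (∀ m, ∃ b q, ∃ h ∈ H, m = α b * h * x q) ∧
      (∀ m, ∃ b q, ∃ h ∈ H, m = β b * h * y q) ∧
      ∀ b b' q q', ∀ h ∈ H, ∀ h' ∈ H, β b * h * y q = β b' * h' * y q' → q = q' := by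
  have hfi : ∀ γ : B →* M, (γ.range ⊔ H).FiniteIndex := fun γ =>
    Subgroup.finiteIndex_of_le (H := H) le_sup_right
  have hfa := hfi α
  have hfb := hfi β
  have hc : Nat.card (M ⧸ (β.range ⊔ H)) = Nat.card (M ⧸ (α.range ⊔ H)) :=
    (card_eq α β H hn hi h0).symm
  have hfinα : Finite (M ⧸ (α.range ⊔ H)) := inferInstance
  have hfinβ : Finite (M ⧸ (β.range ⊔ H)) := inferInstance
  obtain ⟨e⟩ : Nonempty ((M ⧸ (β.range ⊔ H)) ≃ (M ⧸ (α.range ⊔ H))) :=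
    Finite.card_eq.1 hc
  have hdec : ∀ γ : B →* M, ∀ m : M, ∃ b, ∃ h ∈ H,
      m = γ b * h * ((QuotientGroup.mk m⁻¹ : M ⧸ (γ.range ⊔ H)).out)⁻¹ := by
    intro γ m
    have h1 : (QuotientGroup.mk m⁻¹ : M ⧸ (γ.range ⊔ H)) =
        QuotientGroup.mk (QuotientGroup.mk m⁻¹ : M ⧸ (γ.range ⊔ H)).out := (Quotient.out_eq _).symm
    have h2 := QuotientGroup.eq.1 h1
    rw [inv_inv] at h2
    obtain ⟨_, ⟨b, rfl⟩, h, hh, hbh⟩ := Subgroup.mem_sup_of_normal_right.1 h2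
    refine ⟨b, h, hh, ?_⟩
    rw [hbh, mul_inv_cancel_right]
  refine ⟨M ⧸ (β.range ⊔ H), fun q => ((e q).out)⁻¹, fun q => (q.out)⁻¹, fun m => ?_, fun m => ?_, ?_⟩
  · obtain ⟨b, h, hh, hm⟩ := hdec α m
    refine ⟨b, e.symm (QuotientGroup.mk m⁻¹), h, hh, ?_⟩
    show m = α b * h * ((e (e.symm (QuotientGroup.mk m⁻¹ : M ⧸ (α.range ⊔ H)))).out)⁻¹
    rw [e.apply_symm_apply]
    exact hm
  · obtain ⟨b, h, hh, hm⟩ := hdec β m
    exact ⟨b, _, h, hh, hm⟩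
  · intro b b' q q' h hh h' hh' heq
    have h1 : q.out⁻¹ * q'.out ∈ β.range ⊔ H := by
      have h2 : q.out⁻¹ * q'.out = (β b * h)⁻¹ * (β b' * h') := by
        have h3 : β b * h * (q.out)⁻¹ = β b' * h' * (q'.out)⁻¹ := heq
        have h4 : β b' * h' = β b * h * (q.out)⁻¹ * q'.out := by
          rw [h3, inv_mul_cancel_right]
        rw [h4]
        group
      rw [h2]
      exact Subgroup.mul_mem _ (Subgroup.inv_mem _ (Subgroup.mul_mem _
        (Subgroup.mem_sup_left ⟨b, rfl⟩) (Subgroup.mem_sup_right hh)))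
        (Subgroup.mul_mem _ (Subgroup.mem_sup_left ⟨b', rfl⟩) (Subgroup.mem_sup_right hh'))
    have h2 := QuotientGroup.eq.2 h1
    rwa [show (QuotientGroup.mk q.out : M ⧸ (β.range ⊔ H)) = q from Quotient.out_eq _,
      show (QuotientGroup.mk q'.out : M ⧸ (β.range ⊔ H)) = q' from Quotient.out_eq _] at h2

end reps

/-- the data for a pair of embeddings -/
def EV {M K : Type} [Group M] [Group K] (ι : K →* M) (w : K → ℕ) {B : Type} [Group B]
    (α β : B →* M) (k0 : ℕ) : Prop :=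
  ∃ (S : Subgroup B) (α' β' : S →* K) (r : ℕ) (a : Fin r → S) (k : Fin r → ℕ),
    (∀ b, b ∈ S ↔ α b ∈ ι.range) ∧ (∀ b, b ∈ S ↔ β b ∈ ι.range) ∧ (∀ b, ι (α' b) = α b) ∧
    (∀ b, ι (β' b) = β b) ∧ Adn w α' a k ∧ Adn w β' a k ∧ Mal a ∧ ∀ j, k j ≤ k0

section main

variable {M K : Type} [Group M] [Group K] {ι : K →* M} {w : K → ℕ} {B : Type} [Group B]
  {α β : B →* M} {k0 : ℕ}

theorem EV.mono {k1 : ℕ} (h : EV ι w α β k0) (hk : k0 ≤ k1) : EV ι w α β k1 := by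
  obtain ⟨S, α', β', r, a, k, h1, h2, h3, h4, h5, h6, h7, h8⟩ := h
  exact ⟨S, α', β', r, a, k, h1, h2, h3, h4, h5, h6, h7, fun j => (h8 j).trans hk⟩

theorem EV.symm (h : EV ι w α β k0) : EV ι w β α k0 := by
  obtain ⟨S, α', β', r, a, k, h1, h2, h3, h4, h5, h6, h7, h8⟩ := h
  exact ⟨S, β', α', r, a, k, h2, h1, h4, h3, h6, h5, h7, h8⟩

theorem EV.faith (hn : NW ι w) (h : EV ι w α β k0) {b : B} (hb : hn.rV (k0 + 1) (α b) = 1) :
    b = 1 := by
  obtain ⟨S, α', β', r, a, k, h1, h2, h3, h4, h5, h6, h7, h8⟩ := h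
  obtain ⟨n, hn1, hn2⟩ := hn.rV_eq_one (Nat.succ_pos k0) hb
  have h9 : b ∈ S := (h1 b).2 ⟨n, hn1⟩
  have h10 : α' ⟨b, h9⟩ = n := hn.inj (by rw [h3, hn1])
  have h11 := Adn.inj hn.pos (k0 + 1) r S α' a k h5 h7 (fun j => Nat.succ_le_succ (h8 j)) ⟨b, h9⟩
    (by rw [h10]; exact hn2)
  exact congrArg Subtype.val h11

theorem EV.inj (hn : NW ι w) (h : EV ι w α β k0) : Function.Injective α := by
  rw [injective_iff_map_eq_one]
  intro b hb
  exact h.faith hn (by rw [hb, map_one])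

/-- **the restrictions of the representation are equivalent** -/
theorem EV.conj (hM : Group.FG M) (hn : NW ι w) (h : EV ι w α β k0) (J : ℕ) :
    ∃ U : (Module.End ℚ (VJ ι w J))ˣ, ∀ b, U * hn.rV J (α b) * U⁻¹ = hn.rV J (β b) := by
  have hfd := hn.fd hM J
  obtain ⟨S, α', β', r, a, k, h1, h2, h3, h4, h5, h6, h7, h8⟩ := h
  obtain ⟨τ, hτ1, hτ2, hτ3⟩ := h5.tau (hn.fgK hM) hn.pos h6 h7 J
  have h0 : ι.range.comap α = ι.range.comap β := by
    ext b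
    rw [Subgroup.mem_comap, Subgroup.mem_comap, ← h1, ← h2]
  obtain ⟨Q, x, y, hx, hy, hq⟩ := exists_reps α β ι.range hn.nrm hn.fin h0
  have hy' : ∀ m, ∃ (b : B) (q : Q) (n : K), m = β b * ι n * y q := fun m => by
    obtain ⟨b, q, _, ⟨n, rfl⟩, hm⟩ := hy m
    exact ⟨b, q, n, hm⟩
  choose fb fq fn hf using hy'
  let T : (M → ℚ) →ₗ[ℚ] (M → ℚ) := LinearMap.pi fun m =>
    (LinearMap.proj (fn m)).comp (τ.comp ((sl ι (x (fq m))).comp (La (α (fb m)))))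
  have hTm : ∀ f m, T f m = τ (sl ι (x (fq m)) (La (α (fb m)) f)) (fn m) := fun _ _ => rfl
  have hT : ∀ f ∈ VJ ι w J, ∀ b n q,
      T f (β b * ι n * y q) = τ (sl ι (x q) (La (α b) f)) n := by
    intro f hfJ b n q
    rw [hTm]
    have e1 := hf (β b * ι n * y q)
    have e2 : q = fq (β b * ι n * y q) := hq _ _ _ _ _ ⟨n, rfl⟩ _ ⟨_, rfl⟩ e1
    generalize fb (β b * ι n * y q) = b' at e1
    generalize fn (β b * ι n * y q) = n' at e1
    rw [← e2] at e1 ⊢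
    have e3 : β b * ι n = β b' * ι n' := mul_right_cancel e1
    have e4 : β (b'⁻¹ * b) = ι (n' * n⁻¹) := by
      rw [map_mul, map_inv, map_mul, map_inv, inv_mul_eq_iff_eq_mul, ← mul_assoc, ← e3,
        mul_inv_cancel_right]
    have e5 : b'⁻¹ * b ∈ S := (h2 _).2 ⟨_, e4.symm⟩
    have e6 : β' ⟨_, e5⟩ = n' * n⁻¹ := hn.inj (by rw [h4, ← e4])
    have e7 : sl ι (x q) (La (α b) f) = La (α' ⟨_, e5⟩) (sl ι (x q) (La (α b') f)) := by
      funext m
      show f (α b * (ι m * x q)) = f (α b' * (ι (α' ⟨_, e5⟩ * m) * x q))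
      rw [map_mul, h3, map_mul, map_inv]
      congr 1
      group
    rw [e7, hτ3 _ _ (hn.La_mem _ hfJ _), La_apply, e6, inv_mul_cancel_right]
  have hTJ : ∀ f ∈ VJ ι w J, T f ∈ VJ ι w J := by
    intro f hfJ x0
    obtain ⟨b, q, _, ⟨n0, rfl⟩, hm⟩ := hy x0
    have e1 : sl ι x0 (T f) = fun n => Ra n0 (τ (sl ι (x q) (La (α b) f))) (hn.cj (β b)⁻¹ n) := by
      funext n
      show T f (ι n * x0) = τ (sl ι (x q) (La (α b) f)) (hn.cj (β b)⁻¹ n * n0)
      rw [← hT f hfJ, map_mul, hn.cj_spec, hm]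
      group
    rw [e1]
    exact comp_mem w _ (hn.cj_w _) (Ra_mem w n0 (hτ1 _ (hn.La_mem _ hfJ _)))
  have hT0 : ∀ f ∈ VJ ι w J, T f = 0 → f = 0 := by
    intro f hfJ hf0
    funext m
    obtain ⟨b, q, _, ⟨n, rfl⟩, hm⟩ := hx m
    have e1 : τ (sl ι (x q) (La (α b) f)) = 0 := by
      funext n'
      rw [← hT f hfJ, hf0]
      rfl
    have e2 := congrFun (hτ2 _ (hn.La_mem _ hfJ _) e1) n
    have e3 : f (α b * (ι n * x q)) = 0 := e2
    rw [hm, mul_assoc]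
    exact e3
  have hTe : ∀ f ∈ VJ ι w J, ∀ b, T (La (α b) f) = La (β b) (T f) := by
    intro f hfJ b
    funext m
    obtain ⟨b', q, _, ⟨n, rfl⟩, hm⟩ := hy m
    have e1 : sl ι (x q) (La (α b') (La (α b) f)) = sl ι (x q) (La (α (b * b')) f) := by
      funext m'
      show f (α b * (α b' * (ι m' * x q))) = f (α (b * b') * (ι m' * x q))
      rw [map_mul, mul_assoc]
    rw [hm, hT _ (hn.La_mem _ hfJ), La_apply, ← mul_assoc, ← mul_assoc, ← map_mul, hT f hfJ, e1]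
  obtain ⟨U, hU⟩ := unit_of (VJ ι w J) T hTJ hT0
  refine ⟨U, fun b => ?_⟩
  rw [mul_inv_eq_iff_eq_mul]
  apply Units.ext
  refine LinearMap.ext fun f => Subtype.ext ?_
  refine (hU _).trans ?_
  rw [hn.rV_apply]
  refine ((congrArg (fun g => T (La g (f : M → ℚ))) (map_inv α b).symm).trans
    (hTe f f.2 b⁻¹)).trans ?_
  rw [map_inv, ← hU]
  rfl

end main

end Pool.Agent.R669.Wt
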