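import Pool.Agent.R669.Wt.Vnb

/-!
# Multiple HNN extensions along virtually nilpotent groups
-/

set_option autoImplicit false

namespace Pool.Agent.R669.Wt

open Pool.Agent.Y110.FJ Pool.Agent.R779.FJ Pool.Agent.R942.FJ

/-- the case of a finitely generated base group -/
theorem fg_vir {C : ∀ (G : Type) [Group G], Prop} (hC : ClosedE C)
    (hgl : ∀ n : ℕ, C (Matrix (Fin n) (Fin n) ℚ)ˣ) {M : Type} [Group M] (hfg : Group.FG M)
    (hM : C M) {I : Type} {B : I → Type} [∀ i, Group (B i)] (α β : ∀ i, B i →* M)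
    (J : Finset I) (hJ : ∀ i, i ∉ J → ∀ b : B i, b = 1) {K : Type} [Group K] {ι : K →* M}
    {w : K → ℕ} (hn : NW ι w) (h : ∀ i ∈ J, ∃ k0, EV ι w (α i) (β i) k0) : C (MH α β) := by
  classical
  choose k h1 using h
  let c : ℕ := J.attach.sup fun i => k i.1 i.2
  have hc : ∀ i (hi : i ∈ J), EV ι w (α i) (β i) c := fun i hi => (h1 i hi).mono
    (Finset.le_sup (f := fun i : J => k i.1 i.2) (Finset.mem_attach J ⟨i, hi⟩))
  have hfd := hn.fd hfg (c + 1)
  have hT : ∀ i, ∃ T : (Module.End ℚ (VJ ι w (c + 1)))ˣ,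
      i ∈ J → ∀ b, T * hn.rV (c + 1) (α i b) * T⁻¹ = hn.rV (c + 1) (β i b) := by
    intro i
    by_cases hi : i ∈ J
    · obtain ⟨T, hT⟩ := (hc i hi).conj hfg hn (c + 1)
      exact ⟨T, fun _ => hT⟩
    · exact ⟨1, fun h => absurd h hi⟩
  choose T hT using hT
  have hα : ∀ i, Function.Injective (α i) := by
    intro i
    by_cases hi : i ∈ J
    · exact (hc i hi).inj hn
    · exact fun b b' _ => by rw [hJ i hi b, hJ i hi b']
  have hβ : ∀ i, Function.Injective (β i) := by
    intro i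
    by_cases hi : i ∈ J
    · exact (hc i hi).symm.inj hn
    · exact fun b b' _ => by rw [hJ i hi b, hJ i hi b']
  refine mh_loc _ _ hC hM hα hβ fun S hS => ?_
  refine ⟨(Module.End ℚ (VJ ι w (c + 1)))ˣ, inferInstance, hn.rV (c + 1), T,
    C_endS hC hgl (VJ ι w (c + 1)), ?_, ?_⟩
  · intro i b _
    by_cases hi : i ∈ J
    · exact hT i hi b
    · rw [hJ i hi b, map_one, map_one, map_one, mul_one, mul_inv_cancel, map_one]
  · intro i b _ hb
    by_cases hi : i ∈ J
    · exact (hc i hi).faith hn hb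
    · exact hJ i hi b

/-- the weights `w` on the subgroup `N` are invariant under conjugation by elements of the group -/
def InvW {M : Type} [Group M] (N : Subgroup M) (w : N → ℕ) : Prop :=
  ∀ (m : M) (x y : N), (y : M) = m * x * m⁻¹ → w y = w x

/-- for every finite set of indices there are a normal subgroup `N` of finite index and weights on `N`,
invariant under conjugation, such that `α i` and `β i` have the same preimage of `N`, this preimage is
locally nilpotent, and `α i b` and `β i b` have the same finite order for all `b ≠ 1` in this preimage -/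
def SameOrdV {M : Type} [Group M] {I : Type} {B : I → Type} [∀ i, Group (B i)]
    (α β : ∀ i, B i →* M) : Prop :=
  ∀ J : Finset I, ∃ (N : Subgroup M) (w : N → ℕ), N.Normal ∧ N.FiniteIndex ∧ (∀ g, 1 ≤ w g) ∧
    InvW N w ∧ ∀ i ∈ J, N.comap (α i) = N.comap (β i) ∧ LocNil (N.comap (α i)) ∧
      ∀ b : B i, b ≠ 1 → ∀ x y : N, (x : M) = α i b → (y : M) = β i b →
        ∃ k, HasOrd w x k ∧ HasOrd w y k

theorem LocNil.nil {B : Type} [Group B] (h : LocNil B) (hfg : Group.FG B) : Group.IsNilpotent B :=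
  Group.isNilpotent_top.1 (h ⊤ hfg.out)

theorem LocNil.of_inj {B B' : Type} [Group B] [Group B'] (h : LocNil B) (f : B' →* B)
    (hf : Function.Injective f) : LocNil B' := by
  classical
  rintro S ⟨T, hT⟩
  have h1 : Group.IsNilpotent (S.map f) := h _ ⟨T.image f, by
    rw [Finset.coe_image, ← MonoidHom.map_closure, hT]⟩
  exact (Group.isNilpotent_congr (Subgroup.equivMapOfInjective S f hf)).2 h1

section sub

variable {M : Type} [Group M]

/-- the inclusion of `N ∩ H` in `H` -/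
def inH (N H : Subgroup M) : H.subgroupOf N →* H :=
  (N.subtype.comp (H.subgroupOf N).subtype).codRestrict H fun x => x.2

theorem inH_val (N H : Subgroup M) (x : H.subgroupOf N) : (inH N H x : M) = ((x : N) : M) := rfl

theorem mem_inH (N H : Subgroup M) (x : H) : x ∈ (inH N H).range ↔ (x : M) ∈ N := by
  constructor
  · rintro ⟨y, rfl⟩
    exact (y : N).2
  · intro hx
    exact ⟨⟨⟨x, hx⟩, x.2⟩, rfl⟩

theorem NW.ofH (N : Subgroup M) (w : N → ℕ) (hn : N.Normal) (hf : N.FiniteIndex)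
    (hw : ∀ g, 1 ≤ w g) (hi : InvW N w) (H : Subgroup M) :
    NW (inH N H) (fun x : H.subgroupOf N => w x) := by
  have hr : (inH N H).range = N.subgroupOf H := by
    ext x
    rw [mem_inH, Subgroup.mem_subgroupOf]
  refine ⟨fun x y h => Subtype.ext (Subtype.ext (congrArg (fun z : H => (z : M)) h)), ?_, ?_,
    fun g => hw g, fun m x y h => hi m x y (congrArg (fun z : H => (z : M)) h)⟩
  · rw [hr]
    infer_instance
  · rw [hr]
    infer_instance

theorem edge_data (N : Subgroup M) (w : N → ℕ) (hw : ∀ g, 1 ≤ w g) (hf : N.FiniteIndex) {B : Type}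
    [Group B] (hB : Group.FG B) (γ δ : B →* M) (h0 : N.comap γ = N.comap δ)
    (hnil : LocNil (N.comap γ)) (ho : ∀ b : B, b ≠ 1 → ∀ x y : N, (x : M) = γ b → (y : M) = δ b →
      ∃ k, HasOrd w x k ∧ HasOrd w y k) :
    ∃ (T : Finset M) (k0 : ℕ), ∀ H : Subgroup M, (T : Set M) ⊆ H →
      (∀ b, γ b ∈ H ∧ δ b ∈ H) ∧ ∀ γ' δ' : B →* H, (∀ b, (γ' b : M) = γ b) →
        (∀ b, (δ' b : M) = δ b) → EV (inH N H) (fun x : H.subgroupOf N => w x) γ' δ' k0 := by
  classical
  have hSf : (N.comap γ).FiniteIndex := ⟨by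
    rw [Subgroup.index_comap]
    exact (inferInstance : (N.subgroupOf γ.range).FiniteIndex).index_ne_zero⟩
  have hSg : Group.FG (N.comap γ) := inferInstance
  let γ0 : N.comap γ →* N := (γ.comp (N.comap γ).subtype).codRestrict N fun b => b.2
  have h0' : ∀ b : B, b ∈ N.comap γ → δ b ∈ N := fun b hb => by
    rw [h0] at hb
    exact hb
  let δ0 : N.comap γ →* N := (δ.comp (N.comap γ).subtype).codRestrict N fun b => h0' b b.2
  have h2 : ∀ b : N.comap γ, b ≠ 1 → ∃ k, HasOrd w (γ0 b) k ∧ HasOrd w (δ0 b) k := fun b hb =>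
    ho b (fun h => hb (Subtype.ext h)) _ _ rfl rfl
  obtain ⟨r, a, k, hk1, hgen⟩ := exists_adn (α := γ0) hw hSg (hnil.nil hSg) fun b hb => by
    obtain ⟨k, hk, _⟩ := h2 b hb
    exact ⟨k, hk⟩
  have hk2 := hk1.of_ord hw h2
  obtain ⟨Ta, hTa⟩ := hk1.sub
  obtain ⟨Tb, hTb⟩ := hk2.sub
  obtain ⟨X, hX⟩ := hB.out
  refine ⟨(Ta ∪ Tb).image (fun x : N => (x : M)) ∪ X.image γ ∪ X.image δ,
    Finset.univ.sup k, fun H hH => ?_⟩
  have hγ : ∀ b, γ b ∈ H := by
    intro b
    have h3 : Subgroup.closure (X : Set B) ≤ H.comap γ := by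
      rw [Subgroup.closure_le]
      intro x hx
      exact hH (Finset.mem_coe.2 (Finset.mem_union_left _ (Finset.mem_union_right _
        (Finset.mem_image_of_mem γ hx))))
    rw [hX] at h3
    exact h3 (Subgroup.mem_top b)
  have hδ : ∀ b, δ b ∈ H := by
    intro b
    have h3 : Subgroup.closure (X : Set B) ≤ H.comap δ := by
      rw [Subgroup.closure_le]
      intro x hx
      exact hH (Finset.mem_coe.2 (Finset.mem_union_right _ (Finset.mem_image_of_mem δ hx)))
    rw [hX] at h3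
    exact h3 (Subgroup.mem_top b)
  refine ⟨fun b => ⟨hγ b, hδ b⟩, fun γ' δ' hγ' hδ' => ?_⟩
  have hT : ∀ x ∈ Ta ∪ Tb, x ∈ H.subgroupOf N := fun x hx =>
    hH (Finset.mem_coe.2 (Finset.mem_union_left _ (Finset.mem_union_left _
      (Finset.mem_image_of_mem _ hx))))
  refine ⟨N.comap γ, γ0.codRestrict (H.subgroupOf N) fun b => hγ b,
    δ0.codRestrict (H.subgroupOf N) fun b => hδ b, r, a, k, fun b => ?_, fun b => ?_, fun b => ?_,
    fun b => ?_, ?_, ?_, hgen, fun j => Finset.le_sup (Finset.mem_univ j)⟩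
  · rw [mem_inH, hγ']
    rfl
  · rw [mem_inH, hδ', h0]
    rfl
  · exact Subtype.ext (hγ' b).symm
  · exact Subtype.ext (hδ' b).symm
  · exact hTa _ (fun x hx => hT x (Finset.mem_union_left _ hx)) _ fun b => rfl
  · exact hTb _ (fun x hx => hT x (Finset.mem_union_right _ hx)) _ fun b => rfl

end sub

/-- **multiple HNN extensions along virtually locally nilpotent groups** -/
theorem mh_vir {C : ∀ (G : Type) [Group G], Prop} (hC : ClosedE C)
    (hgl : ∀ n : ℕ, C (Matrix (Fin n) (Fin n) ℚ)ˣ) {M : Type} [Group M] (hM : C M) {I : Type}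
    {B : I → Type} [∀ i, Group (B i)] (α β : ∀ i, B i →* M) (h : SameOrdV α β) : C (MH α β) := by
  classical
  refine fg_red' hC.base fun H0 D hH0 hD hf => ?_
  let J : Finset I := hf.toFinset
  have hJ : ∀ i, i ∉ J → D i = ⊥ := by
    intro i hi
    by_contra h1
    exact hi (hf.mem_toFinset.2 h1)
  obtain ⟨N, w, hNn, hNf, hw, hinv, hN⟩ := h J
  have h1 : ∀ i : J, ∃ (T : Finset M) (k0 : ℕ), ∀ H : Subgroup M, (T : Set M) ⊆ H →
      (∀ b : D i, α i b ∈ H ∧ β i b ∈ H) ∧ ∀ γ' δ' : D i →* H, (∀ b, (γ' b : M) = α i b) →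
        (∀ b, (δ' b : M) = β i b) → EV (inH N H) (fun x : H.subgroupOf N => w x) γ' δ' k0 := by
    intro i
    obtain ⟨h0, hnil, ho⟩ := hN i i.2
    refine edge_data N w hw hNf ((Group.fg_iff_subgroup_fg _).2 (hD i))
      ((α i).comp (D i).subtype) ((β i).comp (D i).subtype) ?_ ?_ fun b hb x y hx hy =>
        ho b (fun h => hb (Subtype.ext h)) x y hx hy
    · rw [← Subgroup.comap_comap, ← Subgroup.comap_comap, h0]
    · refine hnil.of_inj (MonoidHom.codRestrict (((D i).subtype).comp (Subgroup.subtype _)) _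
        fun b => b.2) fun x y hxy => ?_
      exact Subtype.ext (Subtype.ext (congrArg (fun z : N.comap (α i) => (z : B i)) hxy))
  choose T k0 hT using h1
  let T0 : Finset M := Finset.univ.biUnion T
  let H : Subgroup M := H0 ⊔ Subgroup.closure (T0 : Set M)
  have hTH : ∀ i : J, (T i : Set M) ⊆ H := fun i x hx =>
    Subgroup.mem_sup_right (Subgroup.subset_closure (Finset.mem_coe.2
      (Finset.mem_biUnion.2 ⟨i, Finset.mem_univ i, hx⟩)))
  have hab : ∀ i, ∀ b ∈ D i, α i b ∈ H ∧ β i b ∈ H := by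
    intro i b hb
    by_cases hi : i ∈ J
    · exact (hT ⟨i, hi⟩ H (hTH ⟨i, hi⟩)).1 ⟨b, hb⟩
    · rw [hJ i hi] at hb
      rw [Subgroup.mem_bot.1 hb, map_one, map_one]
      exact ⟨H.one_mem, H.one_mem⟩
  have hHfg : H.FG := hH0.sup ⟨T0, rfl⟩
  refine ⟨H, hHfg, le_sup_left, fun i b hb => (hab i b hb).1, fun i b hb => (hab i b hb).2, ?_⟩
  refine fg_vir hC hgl ((Group.fg_iff_subgroup_fg H).2 hHfg)
    (hC.base.of_injective _ _ H.subtype H.subtype_injective hM) _ _ J (fun i hi b => ?_)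
    (NW.ofH N w hNn hNf hw hinv H) fun i hi => ⟨k0 ⟨i, hi⟩, ?_⟩
  · have h2 : (b : B i) ∈ (⊥ : Subgroup (B i)) := by
      rw [← hJ i hi]
      exact b.2
    exact Subtype.ext (Subgroup.mem_bot.1 h2)
  · exact (hT ⟨i, hi⟩ H (hTH ⟨i, hi⟩)).2 (rsA α H D (fun i b hb => (hab i b hb).1) i)
      (rsA β H D (fun i b hb => (hab i b hb).2) i) (fun b => rfl) (fun b => rfl)

end Pool.Agent.R669.Wt
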