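import Pool.Agent.R669.Wt.Vnc

/-!
# Graphs of groups with virtually locally nilpotent edge groups
-/

set_option autoImplicit false

namespace Pool.Agent.R669.Wt

open Pool.Agent.Y110.FJ Pool.Agent.R779.FJ Pool.Agent.R942.FJ

theorem fi_comap {G H : Type} [Group G] [Group H] (f : G →* H) (N : Subgroup H)
    (hN : N.FiniteIndex) : (N.comap f).FiniteIndex := ⟨by
  rw [Subgroup.index_comap]
  exact (inferInstance : (N.subgroupOf f.range).FiniteIndex).index_ne_zero⟩

section free

variable {Vt : Type} {G : Vt → Type} [∀ v, Group (G v)] (N : ∀ v, Subgroup (G v))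
  (w : ∀ v, N v → ℕ) (V : Finset Vt)

/-- the elements of the free product which are in the subgroups `N v` under the retractions -/
noncomputable def NN : Subgroup (Monoid.CoprodI G) := ⨅ v ∈ V, (N v).comap (ret v)

theorem mem_NN {x : Monoid.CoprodI G} : x ∈ NN N V ↔ ∀ v ∈ V, ret v x ∈ N v := by
  rw [NN, Subgroup.mem_iInf]
  refine forall_congr' fun v => ?_
  rw [Subgroup.mem_iInf]
  exact Iff.rfl

theorem NN_fi (h : ∀ v, (N v).FiniteIndex) : (NN N V).FiniteIndex :=
  Subgroup.finiteIndex_iInf' _ fun v _ => fi_comap _ _ (h v)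

theorem NN_nrm (h : ∀ v, (N v).Normal) : (NN N V).Normal := by
  constructor
  intro x hx g
  rw [mem_NN] at hx ⊢
  intro v hv
  rw [map_mul, map_mul, map_inv]
  exact (h v).conj_mem _ (hx v hv) _

theorem cof_mem {v : Vt} (hv : v ∈ V) (x : G v) : cof v x ∈ NN N V ↔ x ∈ N v := by
  rw [mem_NN]
  constructor
  · intro h
    have h1 := h v hv
    rwa [ret_of] at h1
  · intro hx u _
    by_cases huv : v = u
    · subst huv
      rwa [ret_of]
    · rw [ret_of_ne huv]
      exact (N u).one_mem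

/-- `x` is conjugate to the element `y` of a subgroup `N v` -/
def CjTo (x : Monoid.CoprodI G) (p : Σ v, N v) : Prop :=
  p.1 ∈ V ∧ p.2 ≠ 1 ∧ ∃ g, x = g * cof p.1 (p.2 : G p.1) * g⁻¹

open Classical in
/-- the weights on the subgroup of the free product -/
noncomputable def WN (x : NN N V) : ℕ :=
  if h : ∃ p : Σ v, N v, CjTo N V (x : Monoid.CoprodI G) p then w h.choose.1 h.choose.2 else 1

variable {N V}

theorem CjTo.rt {x : Monoid.CoprodI G} {v : Vt} {y : N v} (h : CjTo N V x ⟨v, y⟩) :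
    ∃ g : G v, ret v x = g * y * g⁻¹ := by
  obtain ⟨_, _, g, hg⟩ := h
  refine ⟨ret v g, ?_⟩
  rw [hg, map_mul, map_mul, map_inv, ret_of]

theorem CjTo.rt_ne {x : Monoid.CoprodI G} {v u : Vt} {y : N v} (h : CjTo N V x ⟨v, y⟩)
    (huv : v ≠ u) : ret u x = 1 := by
  obtain ⟨_, _, g, hg⟩ := h
  rw [hg, map_mul, map_mul, map_inv]
  show ret u g * ret u (cof v (y : G v)) * (ret u g)⁻¹ = 1
  rw [ret_of_ne huv, mul_one, mul_inv_cancel]

theorem CjTo.w_eq (hinv : ∀ v, InvW (N v) (w v)) {x : Monoid.CoprodI G} {v : Vt} {y : N v}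
    {p : Σ v, N v} (h : CjTo N V x ⟨v, y⟩) (h' : CjTo N V x p) : w p.1 p.2 = w v y := by
  obtain ⟨u, z⟩ := p
  by_cases huv : v = u
  · subst huv
    obtain ⟨g, hg⟩ := h.rt
    obtain ⟨g', hg'⟩ := h'.rt
    refine hinv v (g'⁻¹ * g) y z ?_
    have h1 : g * (y : G v) * g⁻¹ = g' * (z : G v) * g'⁻¹ := by rw [← hg, ← hg']
    have h2 : (z : G v) = g'⁻¹ * (g' * (z : G v) * g'⁻¹) * g' := by group
    rw [h2, ← h1]
    group
  · obtain ⟨g, hg⟩ := h.rt
    rw [h'.rt_ne (fun h => huv h.symm)] at hg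
    have h1 : (y : G v) = 1 := by
      have h2 : (y : G v) = g⁻¹ * (g * y * g⁻¹) * g := by group
      rw [h2, ← hg]
      group
    exact absurd (Subtype.ext h1) h.2.1

theorem WN_of (hinv : ∀ v, InvW (N v) (w v)) {x : NN N V} {v : Vt} {y : N v}
    (h : CjTo N V (x : Monoid.CoprodI G) ⟨v, y⟩) : WN N w V x = w v y := by
  have h1 : ∃ p : Σ v, N v, CjTo N V (x : Monoid.CoprodI G) p := ⟨_, h⟩
  rw [WN, dif_pos h1]
  exact h.w_eq w hinv h1.choose_spec

theorem WN_not {x : NN N V} (h : ¬∃ p : Σ v, N v, CjTo N V (x : Monoid.CoprodI G) p) :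
    WN N w V x = 1 := dif_neg h

theorem WN_pos (hw : ∀ v g, 1 ≤ w v g) (x : NN N V) : 1 ≤ WN N w V x := by
  unfold WN
  split_ifs with h
  · exact hw _ _
  · exact le_rfl

theorem WN_inv (hinv : ∀ v, InvW (N v) (w v)) : InvW (NN N V) (WN N w V) := by
  intro m x y hxy
  have key : ∀ (m : Monoid.CoprodI G) (x y : NN N V), (y : Monoid.CoprodI G) = m * x * m⁻¹ →
      ∀ p : Σ v, N v, CjTo N V (x : Monoid.CoprodI G) p → CjTo N V (y : Monoid.CoprodI G) p := by
    rintro m x y hxy p ⟨h1, h2, g, hg⟩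
    refine ⟨h1, h2, m * g, ?_⟩
    rw [hxy, hg]
    group
  by_cases h : ∃ p : Σ v, N v, CjTo N V (x : Monoid.CoprodI G) p
  · obtain ⟨⟨v, z⟩, hp⟩ := h
    rw [WN_of w hinv hp, WN_of w hinv (key m x y hxy _ hp)]
  · have h' : ¬∃ p : Σ v, N v, CjTo N V (y : Monoid.CoprodI G) p := by
      rintro ⟨p, hp⟩
      refine h ⟨p, key m⁻¹ y x ?_ p hp⟩
      rw [hxy]
      group
    rw [WN_not w h, WN_not w h']

/-- the orders in the subgroup of the free product -/
theorem HasOrd.freeV (hinv : ∀ v, InvW (N v) (w v)) (hw : ∀ v g, 1 ≤ w v g) {v : Vt} (hv : v ∈ V)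
    {y : N v} {k : ℕ} (h : HasOrd (w v) y k) {x : NN N V}
    (hx : (x : Monoid.CoprodI G) = cof v (y : G v)) : HasOrd (WN N w V) x k := by
  let i : N v →* NN N V := (((cof v).comp (N v).subtype)).codRestrict _ fun z =>
    (cof_mem N V hv _).2 z.2
  let p : NN N V →* N v := ((ret v).comp (NN N V).subtype).codRestrict _ fun z =>
    (mem_NN N V).1 z.2 v hv
  have hi : ∀ z, i z = 1 ∨ w v z ≤ WN N w V (i z) := by
    intro z
    by_cases hz : z = 1
    · exact Or.inl (by rw [hz, map_one])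
    · right
      rw [WN_of w hinv (x := i z) (v := v) (y := z) ⟨hv, hz, 1, by
        rw [one_mul, inv_one, mul_one]
        rfl⟩]
  have hp : ∀ z, p z = 1 ∨ WN N w V z ≤ w v (p z) := by
    intro z
    by_cases hz : ∃ p : Σ v, N v, CjTo N V (z : Monoid.CoprodI G) p
    · obtain ⟨⟨u, z'⟩, hc⟩ := hz
      by_cases huv : u = v
      · subst huv
        right
        obtain ⟨g, hg⟩ := hc.rt
        rw [WN_of w hinv hc, hinv u g z' (p z) hg]
      · left
        exact Subtype.ext (hc.rt_ne huv)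
    · right
      rw [WN_not w hz]
      exact hw _ _
  have hxi : i y = x := Subtype.ext hx.symm
  constructor
  · rw [← hxi]
    exact map_dl i (w v) (WN N w V) hi k h.1
  · intro h1
    have h2 := map_dl p (WN N w V) (w v) hp (k + 1) h1
    have h3 : p x = y := Subtype.ext (by
      show ret v (x : Monoid.CoprodI G) = y
      rw [hx, ret_of])
    rw [h3] at h2
    exact h.2 h2

end free

section graph

variable {Vt E : Type} {G : Vt → Type} [∀ v, Group (G v)] {B : E → Type} [∀ e, Group (B e)]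
  (o t : E → Vt) (a : ∀ e, B e →* G (o e)) (b : ∀ e, B e →* G (t e))

/-- for every finite set `J` of edges there are normal subgroups `N v` of finite index of the vertex
groups, invariant weights on them and positive rational numbers `r v` such that for all edges `e` in `J`
the subgroups `N (o e)` and `N (t e)` have the same preimage in the edge group, this preimage is locally
nilpotent, and the images of all `x ≠ 1` in it have finite orders `k` and `l` with
`r (o e) * k = r (t e) * l` -/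
def BalancedV : Prop :=
  ∀ J : Finset E, ∃ (N : ∀ v, Subgroup (G v)) (w : ∀ v, N v → ℕ) (r : Vt → ℚ),
    (∀ v, (N v).Normal ∧ (N v).FiniteIndex ∧ (∀ g, 1 ≤ w v g) ∧ InvW (N v) (w v) ∧ 0 < r v) ∧
    ∀ e ∈ J, (N (o e)).comap (a e) = (N (t e)).comap (b e) ∧ LocNil ((N (o e)).comap (a e)) ∧
      ∀ x : B e, x ≠ 1 → ∀ (y : N (o e)) (z : N (t e)), (y : G (o e)) = a e x →
        (z : G (t e)) = b e x → ∃ k l : ℕ, HasOrd (w (o e)) y k ∧ HasOrd (w (t e)) z l ∧
          r (o e) * k = r (t e) * l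

theorem BalancedV.same (h : BalancedV o t a b) :
    SameOrdV (M := Monoid.CoprodI G) (fun e => Monoid.CoprodI.of.comp (a e))
      (fun e => Monoid.CoprodI.of.comp (b e)) := by
  classical
  intro J
  obtain ⟨N, w, r, hN, h⟩ := h J
  obtain ⟨n, hn1, hn⟩ := nat_weights o t r (fun v => (hN v).2.2.2.2) J
  let w' : ∀ v, N v → ℕ := fun v g => n v * w v g
  have hw' : ∀ v g, 1 ≤ w' v g := fun v g => Nat.mul_pos (hn1 v) ((hN v).2.2.1 g)
  have hinv' : ∀ v, InvW (N v) (w' v) := fun v m x y hxy => by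
    show n v * w v y = n v * w v x
    rw [(hN v).2.2.2.1 m x y hxy]
  let V : Finset Vt := J.image o ∪ J.image t
  have ho : ∀ e ∈ J, o e ∈ V := fun e he => Finset.mem_union_left _ (Finset.mem_image_of_mem o he)
  have ht : ∀ e ∈ J, t e ∈ V := fun e he => Finset.mem_union_right _ (Finset.mem_image_of_mem t he)
  have hca : ∀ e ∈ J, (NN N V).comap (Monoid.CoprodI.of.comp (a e)) = (N (o e)).comap (a e) := by
    intro e he
    ext x
    exact cof_mem N V (ho e he) (a e x)
  have hcb : ∀ e ∈ J, (NN N V).comap (Monoid.CoprodI.of.comp (b e)) = (N (t e)).comap (b e) := by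
    intro e he
    ext x
    exact cof_mem N V (ht e he) (b e x)
  refine ⟨NN N V, WN N w' V, NN_nrm N V fun v => (hN v).1, NN_fi N V fun v => (hN v).2.1,
    WN_pos w' hw', WN_inv w' hinv', fun e he => ⟨?_, ?_, fun x hx X Y hX hY => ?_⟩⟩
  · show (NN N V).comap (Monoid.CoprodI.of.comp (a e)) = (NN N V).comap (Monoid.CoprodI.of.comp (b e))
    rw [hca e he, hcb e he, (h e he).1]
  · show LocNil ((NN N V).comap (Monoid.CoprodI.of.comp (a e)))
    rw [hca e he]
    exact (h e he).2.1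
  · have hX' : (X : Monoid.CoprodI G) = cof (o e) (a e x) := hX
    have hY' : (Y : Monoid.CoprodI G) = cof (t e) (b e x) := hY
    have h1 : a e x ∈ N (o e) := by
      rw [← cof_mem N V (ho e he), ← hX']
      exact X.2
    have h2 : b e x ∈ N (t e) := by
      rw [← cof_mem N V (ht e he), ← hY']
      exact Y.2
    obtain ⟨k, l, hk, hl, hkl⟩ := (h e he).2.2 x hx ⟨_, h1⟩ ⟨_, h2⟩ rfl rfl
    refine ⟨n (o e) * k, (hk.scale (n (o e)) (hn1 _)).freeV w' hinv' hw' (ho e he) hX', ?_⟩
    rw [hn e he k l hkl]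
    exact (hl.scale (n (t e)) (hn1 _)).freeV w' hinv' hw' (ht e he) hY'

/-- **graphs of groups with virtually locally nilpotent edge groups** -/
theorem gog_vir {C : ∀ (G : Type) [Group G], Prop} (hC : ClosedE C)
    (hgl : ∀ n : ℕ, C (Matrix (Fin n) (Fin n) ℚ)ˣ) (hG : ∀ v, C (G v))
    (h : BalancedV o t a b) : C (GraphGrp o t a b) :=
  mh_vir hC hgl (C_coprodI hC.base _ G hG) _ _ (h.same o t a b)

end graph

end Pool.Agent.R669.Wt
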