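import Pool.Agent.R669.Wt.Vnd

/-!
# Special cases of the conditions `SameOrdV` and `BalancedV`
-/

set_option autoImplicit false

namespace Pool.Agent.R669.Wt

open Pool.Agent.Y110.FJ Pool.Agent.R779.FJ Pool.Agent.R942.FJ

section star

variable {M : Type} [Group M] {w : M → ℕ}

theorem HasOrd.unq {x : M} {k l : ℕ} (h : HasOrd w x k) (h' : HasOrd w x l) : k = l := by
  rcases lt_trichotomy k l with hlt | heq | hgt
  · exact absurd (Fw_anti w hlt h'.1) h.2
  · exact heq
  · exact absurd (Fw_anti w hgt h.1) h'.2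

open Classical in
variable (w) in
/-- the order as a weight -/
noncomputable def ws (x : M) : ℕ := if h : ∃ k, HasOrd w x k then h.choose else 1

theorem ws_eq {x : M} {k : ℕ} (h : HasOrd w x k) : ws w x = k := by
  have h1 : ∃ k, HasOrd w x k := ⟨k, h⟩
  rw [ws, dif_pos h1]
  exact h1.choose_spec.unq h

theorem ws_pos (hw : ∀ g, 1 ≤ w g) (x : M) : 1 ≤ ws w x := by
  by_cases h : ∃ k, HasOrd w x k
  · obtain ⟨k, hk⟩ := h
    rw [ws_eq hk]
    exact hk.pos hw
  · rw [ws, dif_neg h]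

theorem ws_mem (hw : ∀ g, 1 ≤ w g) (x : M) : dl x ∈ Fw w (ws w x) := by
  by_cases h : ∃ k, HasOrd w x k
  · obtain ⟨k, hk⟩ := h
    rw [ws_eq hk]
    exact hk.1
  · rw [ws, dif_neg h]
    exact Fw_anti w (hw x) (dl_mem w x)

theorem Fw_ws (hw : ∀ g, 1 ≤ w g) (d : ℕ) : Fw (ws w) d ≤ Fw w d := by
  refine Submodule.span_le.2 ?_
  rintro _ ⟨L, hL, rfl⟩
  have h2 : ∀ L : List M, (L.map dl).prod ∈ Fw w (L.map (ws w)).sum := by
    intro L
    induction L with
    | nil =>
      rw [List.map_nil, List.map_nil, List.sum_nil, Fw_zero]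
      exact Submodule.mem_top
    | cons g L ih =>
      rw [List.map_cons, List.map_cons, List.prod_cons, List.sum_cons]
      exact Fw_mul w (ws_mem hw g) ih
  exact Fw_anti w hL (h2 L)

theorem HasOrd.star (hw : ∀ g, 1 ≤ w g) {x : M} {k : ℕ} (h : HasOrd w x k) :
    HasOrd (ws w) x k := by
  constructor
  · have h1 := dl_mem (ws w) x
    rwa [ws_eq h] at h1
  · exact fun h1 => h.2 (Fw_ws hw _ h1)

theorem dl_conj (m x : M) : dl (m * x * m⁻¹) =
    MonoidAlgebra.of ℚ M m * dl x * MonoidAlgebra.of ℚ M m⁻¹ := by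
  rw [dl, dl, mul_sub, sub_mul, mul_one, ← map_mul, ← map_mul, ← map_mul, mul_inv_cancel, map_one]

theorem HasOrd.cnj {x : M} {k : ℕ} (h : HasOrd w x k) (m : M) : HasOrd w (m * x * m⁻¹) k := by
  constructor
  · rw [dl_conj]
    exact mul_of_mem w _ (of_mul_mem w _ h.1)
  · intro h1
    apply h.2
    have h2 : x = m⁻¹ * (m * x * m⁻¹) * (m⁻¹)⁻¹ := by group
    rw [h2, dl_conj]
    exact mul_of_mem w _ (of_mul_mem w _ h1)

theorem ws_cnj (m x : M) : ws w (m * x * m⁻¹) = ws w x := by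
  by_cases h : ∃ k, HasOrd w x k
  · obtain ⟨k, hk⟩ := h
    rw [ws_eq hk, ws_eq (hk.cnj m)]
  · have h' : ¬∃ k, HasOrd w (m * x * m⁻¹) k := by
      rintro ⟨k, hk⟩
      refine h ⟨k, ?_⟩
      have h1 := hk.cnj m⁻¹
      have h2 : m⁻¹ * (m * x * m⁻¹) * (m⁻¹)⁻¹ = x := by group
      rwa [h2] at h1
    rw [ws, ws, dif_neg h, dif_neg h']

/-- the weights on the whole group as a subgroup -/
noncomputable def wt (w : M → ℕ) (x : (⊤ : Subgroup M)) : ℕ := ws w x

theorem wt_inv : InvW (⊤ : Subgroup M) (wt w) := fun m x y h => by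
  show ws w (y : M) = ws w (x : M)
  rw [h, ws_cnj]

theorem HasOrd.top (hw : ∀ g, 1 ≤ w g) {x : (⊤ : Subgroup M)} {k : ℕ}
    (h : HasOrd w (x : M) k) : HasOrd (wt w) x k := by
  have h1 := h.star hw
  constructor
  · exact map_dl (Subgroup.topEquiv (G := M)).symm.toMonoidHom (ws w) (wt w)
      (fun _ => Or.inr le_rfl) k h1.1
  · intro h2
    exact h1.2 (map_dl (⊤ : Subgroup M).subtype (wt w) (ws w) (fun _ => Or.inr le_rfl) (k + 1) h2)

end star

/-- the case `N = M` -/
theorem SameOrdA.toV {M : Type} [Group M] {I : Type} {B : I → Type} [∀ i, Group (B i)]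
    {α β : ∀ i, B i →* M} (hB : ∀ i, LocNil (B i)) (h : SameOrdA α β) : SameOrdV α β := by
  intro J
  obtain ⟨w, hw, hk⟩ := h J
  refine ⟨⊤, wt w, inferInstance, inferInstance, fun g => ws_pos hw _, wt_inv, fun i hi => ⟨rfl,
    (hB i).of_inj (Subgroup.subtype _) (Subgroup.subtype_injective _), fun b hb x y hx hy => ?_⟩⟩
  obtain ⟨k, h1, h2⟩ := hk i hi b hb
  rw [← hx] at h1
  rw [← hy] at h2
  exact ⟨k, h1.top hw, h2.top hw⟩

section graph

variable {Vt E : Type} {G : Vt → Type} [∀ v, Group (G v)] {B : E → Type} [∀ e, Group (B e)]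
  {o t : E → Vt} {a : ∀ e, B e →* G (o e)} {b : ∀ e, B e →* G (t e)}

/-- the case `N v = G v` -/
theorem BalancedE.toV (hB : ∀ e, LocNil (B e)) (h : BalancedE o t a b) : BalancedV o t a b := by
  obtain ⟨w, r, hw, hr, h⟩ := h
  intro J
  refine ⟨fun _ => ⊤, fun v => wt (w v), r, fun v => ⟨inferInstance, inferInstance,
    fun g => ws_pos (hw v) _, wt_inv, hr v⟩, fun e _ => ⟨rfl,
      (hB e).of_inj (Subgroup.subtype _) (Subgroup.subtype_injective _), fun x hx y z hy hz => ?_⟩⟩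
  obtain ⟨k, l, hk, hl, hkl⟩ := h e x hx
  rw [← hy] at hk
  rw [← hz] at hl
  exact ⟨k, l, hk.top (hw _), hl.top (hw _), hkl⟩

theorem forest_r (h : Forest o t) (k l : E → ℕ) (hk1 : ∀ e, 1 ≤ k e) (hl1 : ∀ e, 1 ≤ l e) :
    ∃ r : Vt → ℚ, (∀ v, 0 < r v) ∧ ∀ e, r (o e) * k e = r (t e) * l e := by
  classical
  obtain ⟨ht, q, hq⟩ := h
  let stp : ∀ v, (∀ u, q u < q v → ℚ) → ℚ := fun v rec =>
    if h : ∃ e, t e = v then
      rec (o h.choose) (by
        have h1 := hq h.choose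
        rw [h.choose_spec] at h1
        omega) *
        (k h.choose / l h.choose : ℚ)
    else 1
  let r : Vt → ℚ := WellFounded.fix (measure q).wf stp
  have hr : ∀ v, r v = stp v fun u _ => r u := fun v => WellFounded.fix_eq _ _ v
  have hre : ∀ e, r (t e) = r (o e) * (k e / l e : ℚ) := by
    intro e
    rw [hr (t e)]
    have h : ∃ e', t e' = t e := ⟨e, rfl⟩
    show (if h : ∃ e', t e' = t e then r (o h.choose) * (k h.choose / l h.choose : ℚ) else 1) = _
    rw [dif_pos h, ht h.choose_spec]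
  have hpos : ∀ n v, q v = n → 0 < r v := by
    intro n
    induction n with
    | zero =>
      intro v hv
      rw [hr v]
      have h : ¬ ∃ e, t e = v := by
        rintro ⟨e, rfl⟩
        rw [hq] at hv
        omega
      show 0 < (if h : ∃ e', t e' = v then r (o h.choose) * (k h.choose / l h.choose : ℚ) else 1)
      rw [dif_neg h]
      exact one_pos
    | succ n ih =>
      intro v hv
      by_cases h : ∃ e, t e = v
      · obtain ⟨e, rfl⟩ := h
        rw [hre]
        have h1 := ih (o e) (by rw [hq] at hv; omega)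
        have h2 : (0 : ℚ) < k e := by exact_mod_cast hk1 e
        have h3 : (0 : ℚ) < l e := by exact_mod_cast hl1 e
        positivity
      · rw [hr v]
        show 0 < (if h : ∃ e', t e' = v then r (o h.choose) * (k h.choose / l h.choose : ℚ) else 1)
        rw [dif_neg h]
        exact one_pos
  refine ⟨r, fun v => hpos _ v rfl, fun e => ?_⟩
  have h3 : (l e : ℚ) ≠ 0 := by
    have := hl1 e
    positivity
  rw [hre]
  field_simp

theorem LocNil.zpowers {B : Type} [Group B] (c : B) : LocNil (Subgroup.zpowers c) := by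
  intro S _
  let _ : CommGroup (Subgroup.zpowers c) := IsCyclic.commGroup
  exact inferInstanceAs (Group.IsNilpotent S)

/-- forests with virtually infinite cyclic edge groups -/
theorem forest_J (h : Forest o t) (J : Finset E) (N : ∀ v, Subgroup (G v)) (hN : ∀ v, (N v).Normal)
    (hf : ∀ v, (N v).FiniteIndex) (hc : ∀ e ∈ J, ∃ c : B e,
      (N (o e)).comap (a e) = Subgroup.zpowers c ∧
      (N (t e)).comap (b e) = Subgroup.zpowers c ∧ ∀ (y : N (o e)) (z : N (t e)),
        (y : G (o e)) = a e c → (z : G (t e)) = b e c → FinOrd y ∧ FinOrd z) :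
    ∃ (N : ∀ v, Subgroup (G v)) (w : ∀ v, N v → ℕ) (r : Vt → ℚ),
      (∀ v, (N v).Normal ∧ (N v).FiniteIndex ∧ (∀ g, 1 ≤ w v g) ∧ InvW (N v) (w v) ∧ 0 < r v) ∧
      ∀ e ∈ J, (N (o e)).comap (a e) = (N (t e)).comap (b e) ∧ LocNil ((N (o e)).comap (a e)) ∧
        ∀ x : B e, x ≠ 1 → ∀ (y : N (o e)) (z : N (t e)), (y : G (o e)) = a e x →
          (z : G (t e)) = b e x → ∃ k l : ℕ, HasOrd (w (o e)) y k ∧ HasOrd (w (t e)) z l ∧
            r (o e) * k = r (t e) * l := by
  classical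
  choose c hc1 hc2 hc3 using hc
  have ha : ∀ e (he : e ∈ J), a e (c e he) ∈ N (o e) := fun e he => by
    have h1 : c e he ∈ (N (o e)).comap (a e) := by
      rw [hc1 e he]
      exact Subgroup.mem_zpowers _
    exact h1
  have hb : ∀ e (he : e ∈ J), b e (c e he) ∈ N (t e) := fun e he => by
    have h1 : c e he ∈ (N (t e)).comap (b e) := by
      rw [hc2 e he]
      exact Subgroup.mem_zpowers _
    exact h1
  have hx : ∀ e, ∃ k, 1 ≤ k ∧ ∀ (he : e ∈ J),
      HasOrd (fun _ : N (o e) => 1) ⟨a e (c e he), ha e he⟩ k := fun e => by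
    by_cases he : e ∈ J
    · obtain ⟨k, hk⟩ := (hc3 e he ⟨_, ha e he⟩ ⟨_, hb e he⟩ rfl rfl).1
      exact ⟨k, hk.pos fun _ => le_rfl, fun _ => hk⟩
    · exact ⟨1, le_rfl, fun h => absurd h he⟩
  have hy : ∀ e, ∃ k, 1 ≤ k ∧ ∀ (he : e ∈ J),
      HasOrd (fun _ : N (t e) => 1) ⟨b e (c e he), hb e he⟩ k := fun e => by
    by_cases he : e ∈ J
    · obtain ⟨k, hk⟩ := (hc3 e he ⟨_, ha e he⟩ ⟨_, hb e he⟩ rfl rfl).2
      exact ⟨k, hk.pos fun _ => le_rfl, fun _ => hk⟩
    · exact ⟨1, le_rfl, fun h => absurd h he⟩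
  choose k hk1 hk using hx
  choose l hl1 hl using hy
  obtain ⟨r, hr, hkl⟩ := forest_r h k l hk1 hl1
  refine ⟨N, fun _ _ => 1, r, fun v => ⟨hN v, hf v, fun _ => le_rfl, fun _ _ _ _ => rfl, hr v⟩,
    fun e he => ⟨by rw [hc1 e he, hc2 e he], ?_, fun x hx y z hy hz => ?_⟩⟩
  · rw [hc1 e he]
    exact LocNil.zpowers _
  · have h1 : x ∈ (N (o e)).comap (a e) := by
      show a e x ∈ N (o e)
      rw [← hy]
      exact y.2
    rw [hc1 e he] at h1
    obtain ⟨n, rfl⟩ := Subgroup.mem_zpowers_iff.1 h1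
    have hn : n ≠ 0 := by
      rintro rfl
      exact hx (zpow_zero _)
    have h2 : y = (⟨a e (c e he), ha e he⟩ : N (o e)) ^ n := Subtype.ext (by
      rw [hy, map_zpow]
      rfl)
    have h3 : z = (⟨b e (c e he), hb e he⟩ : N (t e)) ^ n := Subtype.ext (by
      rw [hz, map_zpow]
      rfl)
    rw [h2, h3]
    exact ⟨k e, l e, (hk e he).zpow (fun _ => le_rfl) hn, (hl e he).zpow (fun _ => le_rfl) hn,
      hkl e⟩

/-- forests with virtually infinite cyclic edge groups -/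
theorem forest_V (h : Forest o t) (N : ∀ v, Subgroup (G v)) (hN : ∀ v, (N v).Normal)
    (hf : ∀ v, (N v).FiniteIndex) (hc : ∀ e, ∃ c : B e, (N (o e)).comap (a e) = Subgroup.zpowers c ∧
      (N (t e)).comap (b e) = Subgroup.zpowers c ∧ ∀ (y : N (o e)) (z : N (t e)),
        (y : G (o e)) = a e c → (z : G (t e)) = b e c → FinOrd y ∧ FinOrd z) :
    BalancedV o t a b := fun J => forest_J h J N hN hf fun e _ => hc e

end graph

/-- compositions with automorphisms -/
theorem SameOrdV.aut {M : Type} [Group M] (N : Subgroup M) (hn : N.Normal) (hf : N.FiniteIndex)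
    {I : Type} {B : I → Type} [∀ i, Group (B i)] (α : ∀ i, B i →* M) (θ : I → (M ≃* M))
    (hθ : ∀ i, N.comap (θ i).toMonoidHom = N) (hB : ∀ i, LocNil (N.comap (α i)))
    (h : ∀ i, ∀ b : B i, b ≠ 1 → ∀ x : N, (x : M) = α i b → FinOrd x) :
    SameOrdV α (fun i => (θ i).toMonoidHom.comp (α i)) := by
  intro J
  refine ⟨N, fun _ => 1, hn, hf, fun _ => le_rfl, fun _ _ _ _ => rfl, fun i _ => ⟨?_, hB i,
    fun b hb x y hx hy => ?_⟩⟩
  · rw [← Subgroup.comap_comap, hθ]
  · obtain ⟨k, hk⟩ := h i b hb x hx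
    have h1 : ∀ z : M, θ i z ∈ N ↔ z ∈ N := fun z => by
      have h2 : z ∈ N.comap (θ i).toMonoidHom ↔ z ∈ N := by rw [hθ]
      exact h2
    let f : N →* N := ((θ i).toMonoidHom.comp N.subtype).codRestrict N fun z => (h1 z).2 z.2
    let g : N →* N := ((θ i).symm.toMonoidHom.comp N.subtype).codRestrict N fun z =>
      (h1 _).1 (by
        show θ i ((θ i).symm (z : M)) ∈ N
        rw [(θ i).apply_symm_apply]
        exact z.2)
    have hfx : f x = y := Subtype.ext (by
      show θ i (x : M) = y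
      rw [hx, hy]
      rfl)
    have hgy : g y = x := Subtype.ext (by
      show (θ i).symm (y : M) = x
      rw [hy, hx]
      exact (θ i).symm_apply_apply _)
    refine ⟨k, hk, ?_, fun h2 => hk.2 ?_⟩
    · rw [← hfx]
      exact map_dl f (fun _ => 1) (fun _ => 1) (fun _ => Or.inr le_rfl) k hk.1
    · rw [← hgy]
      exact map_dl g (fun _ => 1) (fun _ => 1) (fun _ => Or.inr le_rfl) _ h2

end Pool.Agent.R669.Wt
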