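import Pool.Agent.R669.Wt.Vne

/-!
# Finite quotients in which an element has a prescribed order
-/

set_option autoImplicit false

namespace Pool.Agent.R669.Wt

open Module

section zsp

variable {K : Type} [Group K]

theorem zspan {X : Set K} (hX : Subgroup.closure X = ⊤) (hinv : ∀ x ∈ X, x⁻¹ ∈ X) {d : ℕ}
    (hd : 1 ≤ d) (g : K) : ∃ v ∈ AddSubgroup.closure (⋃ m ∈ Finset.range d, WX X m),
      MonoidAlgebra.of ℚ K g - v ∈ F1 K d := by
  let A : AddSubgroup (MonoidAlgebra ℚ K) := AddSubgroup.closure (⋃ m ∈ Finset.range d, WX X m)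
  let P : MonoidAlgebra ℚ K → Prop := fun u => ∃ v ∈ A, u - v ∈ F1 K d
  have hPadd : ∀ u u', P u → P u' → P (u + u') := by
    rintro u u' ⟨v, hv, h⟩ ⟨v', hv', h'⟩
    refine ⟨v + v', A.add_mem hv hv', ?_⟩
    have h1 := Submodule.add_mem _ h h'
    rwa [sub_add_sub_comm] at h1
  have hPneg : ∀ u, P u → P (-u) := by
    rintro u ⟨v, hv, h⟩
    refine ⟨-v, A.neg_mem hv, ?_⟩
    have h1 := Submodule.neg_mem _ h
    rwa [neg_sub', ] at h1
  have hPF : ∀ u ∈ F1 K d, P u := fun u hu => ⟨0, A.zero_mem, by rwa [sub_zero]⟩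
  have hPA : ∀ u ∈ A, P u := fun u hu => ⟨u, hu, by rw [sub_self]; exact Submodule.zero_mem _⟩
  have hdx : ∀ x ∈ X, ∀ v ∈ A, P (dl x * v) := by
    intro x hx v hv
    induction hv using AddSubgroup.closure_induction with
    | mem u hu =>
      obtain ⟨m, hm, hum⟩ := Set.mem_iUnion₂.1 hu
      have h1 : dl x * u ∈ WX X (m + 1) := ⟨x, hx, u, hum, rfl⟩
      have hm' := Finset.mem_range.1 hm
      by_cases h2 : m + 1 < d
      · exact hPA _ (AddSubgroup.subset_closure (Set.mem_iUnion₂.2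
          ⟨m + 1, Finset.mem_range.2 h2, h1⟩))
      · have h3 : m + 1 = d := by omega
        have h4 := WX_mem X (m + 1) _ h1
        rw [h3] at h4
        exact hPF _ h4
    | zero =>
      rw [mul_zero]
      exact hPA _ A.zero_mem
    | add u u' _ _ h h' =>
      rw [mul_add]
      exact hPadd _ _ h h'
    | neg u _ h =>
      rw [mul_neg]
      exact hPneg _ h
  have hx : ∀ x ∈ X, ∀ u, P u → P (MonoidAlgebra.of ℚ K x * u) := by
    rintro x hx u ⟨v, hv, h⟩
    have h1 : MonoidAlgebra.of ℚ K x * u = (v + dl x * v) + MonoidAlgebra.of ℚ K x * (u - v) := by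
      rw [dl]
      noncomm_ring
    rw [h1]
    exact hPadd _ _ (hPadd _ _ (hPA v hv) (hdx x hx v hv)) (hPF _ (of_mul_mem _ _ h))
  have key : ∀ g : K, (∀ u, P u → P (MonoidAlgebra.of ℚ K g * u)) ∧
      ∀ u, P u → P (MonoidAlgebra.of ℚ K g⁻¹ * u) := by
    intro g
    have hg : g ∈ Subgroup.closure X := by
      rw [hX]
      exact Subgroup.mem_top g
    induction hg using Subgroup.closure_induction with
    | mem x h => exact ⟨hx x h, hx _ (hinv x h)⟩
    | one =>
      rw [inv_one, map_one]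
      exact ⟨fun u hu => by rwa [one_mul], fun u hu => by rwa [one_mul]⟩
    | mul x y _ _ hx hy =>
      refine ⟨fun u hu => ?_, fun u hu => ?_⟩
      · rw [map_mul, mul_assoc]
        exact hx.1 _ (hy.1 _ hu)
      · rw [mul_inv_rev, map_mul, mul_assoc]
        exact hy.2 _ (hx.2 _ hu)
    | inv x _ hx => exact ⟨hx.2, by rw [inv_inv]; exact hx.1⟩
  have h1 : P 1 := hPA _ (AddSubgroup.subset_closure (Set.mem_iUnion₂.2
    ⟨0, Finset.mem_range.2 hd, rfl⟩))
  have h2 := (key g).1 1 h1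
  rwa [mul_one] at h2

theorem den_bd (hK : Group.FG K) {d : ℕ} (hd : 1 ≤ d) {f : K → ℚ}
    (hf : f ∈ Pj (fun _ : K => 1) d) : ∃ D : ℕ, D ≠ 0 ∧ ∀ x, ∃ n : ℤ, (D : ℚ) * f x = n := by
  classical
  obtain ⟨X, hX, hXf⟩ := Group.fg_iff.1 hK
  let Y : Set K := X ∪ X⁻¹
  have hY : Subgroup.closure Y = ⊤ := by
    rw [eq_top_iff, ← hX]
    exact Subgroup.closure_mono Set.subset_union_left
  have hYf : Y.Finite := hXf.union hXf.inv
  have hYi : ∀ x ∈ Y, x⁻¹ ∈ Y := by
    rintro x (hx | hx)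
    · exact Or.inr (by rwa [Set.mem_inv, inv_inv])
    · exact Or.inl hx
  have hU : (⋃ m ∈ Finset.range d, WX Y m).Finite :=
    Set.Finite.biUnion (Finset.finite_toSet _) fun m _ => WX_finite hYf m
  let D : ℕ := ∏ u ∈ hU.toFinset, (hat f u).den
  refine ⟨D, Finset.prod_ne_zero_iff.2 fun u _ => (hat f u).den_ne_zero, fun x => ?_⟩
  obtain ⟨v, hv, hxv⟩ := zspan hY hYi hd x
  have h1 : ∀ v ∈ AddSubgroup.closure (⋃ m ∈ Finset.range d, WX Y m),
      ∃ n : ℤ, (D : ℚ) * hat f v = n := by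
    intro v hv
    induction hv using AddSubgroup.closure_induction with
    | mem u hu =>
      obtain ⟨m, hm⟩ : (hat f u).den ∣ D := Finset.dvd_prod_of_mem _ (hU.mem_toFinset.2 hu)
      refine ⟨m * (hat f u).num, ?_⟩
      have h2 : (hat f u) * (hat f u).den = (hat f u).num := Rat.mul_den_eq_num _
      rw [hm]
      push_cast
      rw [← h2]
      ring
    | zero => exact ⟨0, by simp⟩
    | add u u' _ _ h h' =>
      obtain ⟨n, hn⟩ := h
      obtain ⟨n', hn'⟩ := h'
      exact ⟨n + n', by rw [map_add, mul_add, hn, hn']; push_cast; rfl⟩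
    | neg u _ h =>
      obtain ⟨n, hn⟩ := h
      exact ⟨-n, by rw [map_neg, mul_neg, hn]; push_cast; rfl⟩
  obtain ⟨n, hn⟩ := h1 v hv
  refine ⟨n, ?_⟩
  have h2 := hf _ hxv
  rw [map_sub, hat_of, sub_eq_zero] at h2
  rw [h2, hn]

end zsp

section wz

variable (K : Type) [Group K]

/-- the integer-valued polynomial functions -/
def WZ (d : ℕ) : AddSubgroup (K → ℤ) where
  carrier := {f | (fun x => (f x : ℚ)) ∈ Pj (fun _ : K => 1) d}
  zero_mem' := by
    have h : (fun x : K => (((0 : K → ℤ) x : ℤ) : ℚ)) = 0 := by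
      funext x
      simp
    show (fun x : K => (((0 : K → ℤ) x : ℤ) : ℚ)) ∈ Pj (fun _ : K => 1) d
    rw [h]
    exact Submodule.zero_mem _
  add_mem' := fun {f g} hf hg => by
    have h : (fun x : K => (((f + g) x : ℤ) : ℚ)) = (fun x => (f x : ℚ)) + fun x => (g x : ℚ) := by
      funext x
      simp
    show (fun x : K => (((f + g) x : ℤ) : ℚ)) ∈ Pj (fun _ : K => 1) d
    rw [h]
    exact Submodule.add_mem _ hf hg
  neg_mem' := fun {f} hf => by
    have h : (fun x : K => (((-f) x : ℤ) : ℚ)) = -(fun x => (f x : ℚ)) := by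
      funext x
      simp
    show (fun x : K => (((-f) x : ℤ) : ℚ)) ∈ Pj (fun _ : K => 1) d
    rw [h]
    exact Submodule.neg_mem _ hf

variable {K}

theorem mem_WZ {d : ℕ} {f : K → ℤ} :
    f ∈ WZ K d ↔ (fun x => (f x : ℚ)) ∈ Pj (fun _ : K => 1) d := Iff.rfl

theorem WZ_tr {d : ℕ} {f : K → ℤ} (hf : f ∈ WZ K d) (a : K) : (fun x => f (a * x)) ∈ WZ K d := by
  have h1 : (fun x => (f x : ℚ)) ∈ Pj (fun _ : K => 1) d := mem_WZ.1 hf
  have h2 := La_mem (fun _ : K => 1) a h1
  have h3 : La a (fun x => (f x : ℚ)) = fun x => ((f (a * x) : ℤ) : ℚ) := by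
    funext x
    rw [La_apply]
  rw [h3] at h2
  exact mem_WZ.2 h2

theorem WZ_aut {d : ℕ} {f : K → ℤ} (hf : f ∈ WZ K d) (φ : K →* K) :
    (fun x => f (φ x)) ∈ WZ K d := by
  have h1 : (fun x => (f x : ℚ)) ∈ Pj (fun _ : K => 1) d := mem_WZ.1 hf
  have h2 := comp_mem (fun _ : K => 1) φ (fun _ => rfl) h1
  exact mem_WZ.2 h2

theorem WZ_fin (hK : Group.FG K) (d : ℕ) : Module.Finite ℤ (WZ K d) := by
  classical
  have hfd := fin_codim (fun _ : K => 1) hK (fun _ => le_rfl) d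
  let Q := MonoidAlgebra ℚ K ⧸ Fw (fun _ : K => 1) d
  let c : K → Q := fun g => (Fw (fun _ : K => 1) d).mkQ (MonoidAlgebra.of ℚ K g)
  have hsp : Submodule.span ℚ (Set.range c) = ⊤ := by
    rw [eq_top_iff]
    intro q _
    obtain ⟨x, rfl⟩ := (Fw (fun _ : K => 1) d).mkQ_surjective q
    exact mem_of_of (p := (Submodule.span ℚ (Set.range c)).comap (Fw (fun _ : K => 1) d).mkQ)
      (fun g => Submodule.subset_span ⟨g, rfl⟩) x
  have hfg : (Submodule.span ℚ (Set.range c)).FG := by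
    rw [hsp]
    exact Module.Finite.fg_top
  obtain ⟨S, hS, hS2⟩ := Submodule.fg_span_iff_fg_span_finset_subset _ |>.1 hfg
  have hS' : ∀ q : S, ∃ g, c g = q := fun q => hS q.2
  choose g hg using hS'
  let Ψ : WZ K d →ₗ[ℤ] (S → ℤ) := AddMonoidHom.toIntLinearMap
    { toFun := fun f q => (f : K → ℤ) (g q)
      map_zero' := rfl
      map_add' := fun _ _ => rfl }
  have hΨ : Function.Injective Ψ := by
    rw [← LinearMap.ker_eq_bot, LinearMap.ker_eq_bot']
    intro f hf
    let F : K → ℚ := fun x => ((f : K → ℤ) x : ℚ)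
    have hF : F ∈ Pj (fun _ : K => 1) d := f.2
    let L : Q →ₗ[ℚ] ℚ := (Fw (fun _ : K => 1) d).liftQ (hat F) fun x hx => hF x hx
    have hL : ∀ x, L ((Fw (fun _ : K => 1) d).mkQ x) = hat F x := fun x => rfl
    have h1 : (⊤ : Submodule ℚ Q) ≤ LinearMap.ker L := by
      rw [← hsp, hS2, Submodule.span_le]
      intro q hq
      have h2 := congrFun hf ⟨q, hq⟩
      have h3 : (f : K → ℤ) (g ⟨q, hq⟩) = 0 := h2
      show L q = 0
      rw [← show c (g ⟨q, hq⟩) = q from hg ⟨q, hq⟩]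
      show hat F (MonoidAlgebra.of ℚ K (g ⟨q, hq⟩)) = 0
      rw [hat_of]
      show (((f : K → ℤ) (g ⟨q, hq⟩) : ℤ) : ℚ) = 0
      rw [h3, Int.cast_zero]
    apply Subtype.ext
    funext x
    have h2 : L (c x) = 0 := h1 Submodule.mem_top
    have h3 : hat F (MonoidAlgebra.of ℚ K x) = 0 := h2
    rw [hat_of] at h3
    exact Int.cast_eq_zero.1 h3
  exact Module.Finite.of_injective Ψ hΨ

/-- the elements which fix all integer-valued polynomial functions modulo `m` -/
def Km (K : Type) [Group K] (d m : ℕ) : Subgroup K where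
  carrier := {x | ∀ f ∈ WZ K d, ∀ y, (m : ℤ) ∣ f (x * y) - f y}
  one_mem' := fun f _ y => by rw [one_mul, sub_self]; exact dvd_zero _
  mul_mem' := fun {x x'} hx hx' f hf y => by
    have h1 := dvd_add (hx f hf (x' * y)) (hx' f hf y)
    rwa [sub_add_sub_cancel, ← mul_assoc] at h1
  inv_mem' := fun {x} hx f hf y => by
    have h1 := hx f hf (x⁻¹ * y)
    rw [mul_inv_cancel_left] at h1
    rwa [← dvd_neg, neg_sub]

theorem Km_aut {d m : ℕ} (φ : K ≃* K) {x : K} (hx : x ∈ Km K d m) : φ x ∈ Km K d m := by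
  intro f hf y
  have h1 := hx _ (WZ_aut hf φ.toMonoidHom) (φ.symm y)
  have h2 : φ.toMonoidHom (x * φ.symm y) = φ x * y := by
    show φ (x * φ.symm y) = φ x * y
    rw [map_mul, φ.apply_symm_apply]
  have h3 : φ.toMonoidHom (φ.symm y) = y := φ.apply_symm_apply y
  rwa [h2, h3] at h1

theorem Km_fi (hK : Group.FG K) (d m : ℕ) (hm : 1 ≤ m) : (Km K d m).FiniteIndex := by
  classical
  have hfin := WZ_fin hK d
  have : NeZero m := ⟨by omega⟩
  let R : Set (K → ZMod m) := {h | ∃ f ∈ WZ K d, h = fun y => ((f y : ℤ) : ZMod m)}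
  have hR : R.Finite := by
    obtain ⟨n, s, hs⟩ := Module.Finite.exists_fin (R := ℤ) (M := WZ K d)
    let Φ : (Fin n → ZMod m) → (K → ZMod m) := fun a y => ∑ i, a i * (((s i : K → ℤ) y : ℤ) : ZMod m)
    refine (Set.finite_range Φ).subset ?_
    rintro _ ⟨f, hf, rfl⟩
    have h1 : (⟨f, hf⟩ : WZ K d) ∈ Submodule.span ℤ (Set.range s) := by
      rw [hs]
      exact Submodule.mem_top
    obtain ⟨c, hc⟩ := (Submodule.mem_span_range_iff_exists_fun ℤ).1 h1
    refine ⟨fun i => (c i : ZMod m), ?_⟩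
    funext y
    have h2 : f y = ∑ i, c i * (s i : K → ℤ) y := by
      have h3 := congrArg (fun g : WZ K d => (g : K → ℤ) y) hc
      have h4 : ((∑ i, c i • s i : WZ K d) : K → ℤ) y = ∑ i, c i * (s i : K → ℤ) y := by
        rw [AddSubgroup.val_finsetSum, Finset.sum_apply]
        rfl
      exact h3.symm.trans h4
    show ∑ i, (c i : ZMod m) * (((s i : K → ℤ) y : ℤ) : ZMod m) = ((f y : ℤ) : ZMod m)
    rw [h2]
    push_cast
    rfl
  have hRf : Finite R := hR
  let act : K →* Function.End R :=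
    { toFun := fun x h => ⟨fun y => (h : K → ZMod m) (x⁻¹ * y), by
        obtain ⟨f, hf, hh⟩ := h.2
        exact ⟨fun y => f (x⁻¹ * y), WZ_tr hf x⁻¹, by rw [hh]⟩⟩
      map_one' := by
        funext h
        apply Subtype.ext
        funext y
        show (h : K → ZMod m) ((1 : K)⁻¹ * y) = (h : K → ZMod m) y
        rw [inv_one, one_mul]
      map_mul' := fun x x' => by
        funext h
        apply Subtype.ext
        funext y
        show (h : K → ZMod m) ((x * x')⁻¹ * y) = (h : K → ZMod m) (x'⁻¹ * (x⁻¹ * y))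
        rw [mul_inv_rev, mul_assoc] }
  have hker : act.toHomPerm.ker.FiniteIndex := Subgroup.finiteIndex_ker _
  refine Subgroup.finiteIndex_of_le (H := act.toHomPerm.ker) fun x hx => ?_
  have h1 : x⁻¹ ∈ Km K d m := by
    intro f hf y
    have h2 : act.toHomPerm x = 1 := hx
    have h3 := DFunLike.congr_fun h2 (⟨fun y => ((f y : ℤ) : ZMod m), f, hf, rfl⟩ : R)
    have h4 := congrFun (congrArg Subtype.val h3) y
    have h5 : ((f (x⁻¹ * y) : ℤ) : ZMod m) = ((f y : ℤ) : ZMod m) := h4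
    exact (ZMod.intCast_eq_intCast_iff_dvd_sub _ _ _).1 h5.symm
  exact (inv_mem_iff (H := Km K d m)).1 h1

/-- **the order of the image of an element of finite order can be prescribed** -/
theorem qp0 (hK : Group.FG K) {z : K} {k : ℕ} (hz : HasOrd (fun _ : K => 1) z k) {j : ℕ}
    (hj : 1 ≤ j) : ∃ m : ℕ, 1 ≤ m ∧ ∀ n : ℤ, z ^ n ∈ Km K (k + 1) m ↔ (j : ℤ) ∣ n := by
  let lam : WZ K (k + 1) →+ ℤ :=
    { toFun := fun f => (f : K → ℤ) z - (f : K → ℤ) 1
      map_zero' := by simp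
      map_add' := fun f g => by
        show ((f : K → ℤ) z + (g : K → ℤ) z) - ((f : K → ℤ) 1 + (g : K → ℤ) 1) = _
        ring }
  obtain ⟨c, hc⟩ := Int.subgroup_cyclic lam.range
  have hc1 : ∀ f ∈ WZ K (k + 1), c ∣ f z - f 1 := by
    intro f hf
    have h1 : f z - f 1 ∈ lam.range := ⟨⟨f, hf⟩, rfl⟩
    rw [hc] at h1
    obtain ⟨q, hq⟩ := AddSubgroup.mem_closure_singleton.1 h1
    exact ⟨q, by rw [← hq, smul_eq_mul, mul_comm]⟩
  have hc2 : ∃ f ∈ WZ K (k + 1), f z - f 1 = c := by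
    have h1 : c ∈ lam.range := by
      rw [hc]
      exact AddSubgroup.subset_closure rfl
    obtain ⟨f, hf⟩ := h1
    exact ⟨f, f.2, hf⟩
  have hc0 : c ≠ 0 := by
    obtain ⟨ψ, h0, hψ⟩ := Submodule.exists_le_ker_of_notMem hz.2
    have hf : (hat (N := K)).symm ψ ∈ Pj (fun _ : K => 1) (k + 1) := by
      intro x hx
      rw [LinearEquiv.apply_symm_apply]
      exact hψ hx
    obtain ⟨D, hD, hDf⟩ := den_bd hK (Nat.succ_pos k) hf
    choose F hF using hDf
    have hFm : F ∈ WZ K (k + 1) := by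
      have h1 : (fun x => (F x : ℚ)) = (D : ℚ) • (hat (N := K)).symm ψ := by
        funext x
        exact (hF x).symm
      rw [mem_WZ, h1]
      exact Submodule.smul_mem _ _ hf
    rintro rfl
    have h1 : F z - F 1 = 0 := Int.zero_dvd.1 (hc1 F hFm)
    have h2 : (F z : ℚ) = F 1 := by exact_mod_cast sub_eq_zero.1 h1
    rw [← hF, ← hF] at h2
    have h3 : (hat (N := K)).symm ψ z = (hat (N := K)).symm ψ 1 :=
      mul_left_cancel₀ (by exact_mod_cast hD) h2
    rw [hat_symm_apply, hat_symm_apply] at h3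
    apply h0
    rw [dl, map_sub, h3, map_one, sub_self]
  have hlin : ∀ f ∈ WZ K (k + 1), ∀ (n : ℤ) (y : K), f (z ^ n * y) - f y = n * (f z - f 1) := by
    intro f hf n y
    let F : K → ℚ := fun x => (f x : ℚ)
    have hF : F ∈ Pj (fun _ : K => 1) (k + 1) := hf
    have hv : ∀ x, (f x : ℚ) = hat F (MonoidAlgebra.of ℚ K x) := fun x => (hat_of F x).symm
    have e1 : (f (z ^ n * y) : ℚ) - f y = hat F (dl (z ^ n) * MonoidAlgebra.of ℚ K y) := by
      rw [hv, hv, ← map_sub, dl, sub_mul, one_mul, ← map_mul]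
    have e2 : (f z : ℚ) - f 1 = hat F (dl z) := by
      rw [hv, hv, ← map_sub, dl, map_one]
    have e3 : hat F (dl (z ^ n) * MonoidAlgebra.of ℚ K y) = n * hat F (dl z) := by
      have h1 := (dl_zpow_mod (fun _ : K => 1) (fun _ => le_rfl) hz.1 n).2
      have h2 := hF _ (mul_of_mem _ (MonoidAlgebra.of ℚ K y) h1)
      have h3 := hF _ (Fw_mul _ hz.1 (dl_mem (fun _ : K => 1) y))
      have h4 : (dl (z ^ n) - (n : ℚ) • dl z) * MonoidAlgebra.of ℚ K y =
          dl (z ^ n) * MonoidAlgebra.of ℚ K y - (n : ℚ) • dl z - (n : ℚ) • (dl z * dl y) := by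
        have h5 : MonoidAlgebra.of ℚ K y = 1 + dl y := by
          rw [dl]
          abel
        rw [sub_mul, smul_mul_assoc]
        rw [show dl z * MonoidAlgebra.of ℚ K y = dl z + dl z * dl y by rw [h5, mul_add, mul_one],
          smul_add]
        abel
      rw [h4, map_sub, map_sub, map_smul, map_smul, h3, smul_zero, sub_zero, sub_eq_zero] at h2
      rw [h2]
      rfl
    have e4 : ((f (z ^ n * y) - f y : ℤ) : ℚ) = ((n * (f z - f 1) : ℤ) : ℚ) := by
      push_cast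
      rw [e1, e3, e2]
    exact_mod_cast e4
  refine ⟨c.natAbs * j, Nat.mul_pos (Int.natAbs_pos.2 hc0) hj, fun n => ⟨fun h => ?_, fun h => ?_⟩⟩
  · obtain ⟨f, hf, hfc⟩ := hc2
    have h1 := h f hf 1
    rw [hlin f hf, hfc, Nat.cast_mul, mul_comm n c] at h1
    have h2 : c * (j : ℤ) ∣ c * n := by
      refine dvd_trans ?_ h1
      exact mul_dvd_mul_right (Int.dvd_natAbs.2 dvd_rfl) _
    exact (mul_dvd_mul_iff_left hc0).1 h2
  · intro f hf y
    rw [hlin f hf, Nat.cast_mul, mul_comm]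
    exact mul_dvd_mul h (dvd_trans (Int.natAbs_dvd.2 dvd_rfl) (hc1 f hf))

end wz

end Pool.Agent.R669.Wt
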