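import Pool.Agent.R669.Wt.Vnf

/-!
# Forests of virtually residually torsion-free nilpotent groups with infinite cyclic edge groups
-/

set_option autoImplicit false

namespace Pool.Agent.R669.Wt

section qp

variable {G : Type} [Group G]

/-- the power `y ^ n` is in `N` if and only if `s` divides `n` -/
def Ex (N : Subgroup G) (y : G) (s : ℕ) : Prop := 1 ≤ s ∧ ∀ n : ℤ, y ^ n ∈ N ↔ (s : ℤ) ∣ n

theorem exists_ex (N : Subgroup G) (hn : N.Normal) (hf : N.FiniteIndex) (y : G) :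
    ∃ s, Ex N y s := by
  have hfin : Finite (G ⧸ N) := inferInstance
  refine ⟨orderOf (QuotientGroup.mk y : G ⧸ N), orderOf_pos _, fun n => ?_⟩
  rw [orderOf_dvd_iff_zpow_eq_one, ← QuotientGroup.mk_zpow]
  exact (QuotientGroup.eq_one_iff _).symm

theorem qp (hG : Group.FG G) (K : Subgroup G) (hK : K.Normal) (hf : K.FiniteIndex) (z : K)
    (hz : FinOrd z) {j : ℕ} (hj : 1 ≤ j) : ∃ N : Subgroup G, N.Normal ∧ N.FiniteIndex ∧ N ≤ K ∧
      ∀ n : ℤ, (z : G) ^ n ∈ N ↔ (j : ℤ) ∣ n := by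
  obtain ⟨k, hk⟩ := hz
  have hKf : Group.FG K := inferInstance
  obtain ⟨m, hm, hmn⟩ := qp0 hKf hk hj
  have hfi := Km_fi hKf (k + 1) m hm
  refine ⟨(Km K (k + 1) m).map K.subtype, ⟨?_⟩, ⟨?_⟩, Subgroup.map_subtype_le _, fun n => ?_⟩
  · rintro _ ⟨x, hx, rfl⟩ g
    exact ⟨MulAut.conjNormal g x, Km_aut _ hx, rfl⟩
  · rw [Subgroup.index_map_subtype]
    exact Nat.mul_ne_zero hfi.index_ne_zero hf.index_ne_zero
  · rw [← hmn n]
    constructor
    · rintro ⟨x, hx, hxz⟩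
      have h1 : x = z ^ n := Subtype.ext hxz
      rwa [← h1]
    · intro h
      exact ⟨z ^ n, h, rfl⟩

theorem FinOrd.le {N K : Subgroup G} (h : N ≤ K) {x : N} {y : K} (hxy : (x : G) = y)
    (hy : FinOrd y) : FinOrd x := by
  obtain ⟨k, hk⟩ := hy
  refine exists_ord _ x (k + 1) fun h1 => hk.2 ?_
  have h2 := map_dl (Subgroup.inclusion h) (fun _ => 1) (fun _ => 1) (fun _ => Or.inr le_rfl)
    (k + 1) h1
  have h3 : Subgroup.inclusion h x = y := Subtype.ext hxy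
  rwa [h3] at h2

/-- all nontrivial powers of `y` in `K` have finite order -/
def PwFin (K : Subgroup G) (y : G) : Prop :=
  ∀ (n : ℤ) (x : K), n ≠ 0 → (x : G) = y ^ n → FinOrd x

theorem qpE (hG : Group.FG G) {K K' : Subgroup G} (hK : K'.Normal) (hf : K'.FiniteIndex)
    (hle : K' ≤ K) {y : G} (hy : PwFin K y) {s : ℕ} (hs : Ex K' y s) {j : ℕ} (hj : 1 ≤ j) :
    ∃ N : Subgroup G, N.Normal ∧ N.FiniteIndex ∧ N ≤ K' ∧ Ex N y (s * j) := by
  have h1 : y ^ (s : ℤ) ∈ K' := (hs.2 s).2 dvd_rfl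
  have hs0 : (s : ℤ) ≠ 0 := by
    have := hs.1
    omega
  have h2 : FinOrd (⟨_, h1⟩ : K') := (hy s ⟨_, hle h1⟩ hs0 rfl).le hle rfl
  obtain ⟨N, hn, hfN, hN, hNn⟩ := qp hG K' hK hf ⟨_, h1⟩ h2 hj
  refine ⟨N, hn, hfN, hN, Nat.mul_pos hs.1 hj, fun n => ?_⟩
  constructor
  · intro h
    obtain ⟨i, rfl⟩ := (hs.2 n).1 (hN h)
    rw [zpow_mul] at h
    rw [Nat.cast_mul]
    exact mul_dvd_mul_left _ ((hNn i).1 h)
  · rintro ⟨i, rfl⟩
    rw [Nat.cast_mul, mul_assoc, zpow_mul]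
    exact (hNn _).2 (dvd_mul_right _ _)

end qp

section forest

variable {Vt E : Type} {G : Vt → Type} [∀ v, Group (G v)] {o t : E → Vt}

theorem forest_N (h : Forest o t) (hG : ∀ v, Group.FG (G v)) (K : ∀ v, Subgroup (G v))
    (x : ∀ e, G (o e)) (y : ∀ e, G (t e)) (hx : ∀ e, PwFin (K (o e)) (x e))
    (hy : ∀ e, PwFin (K (t e)) (y e)) (J : Finset E) :
    ∀ K' : ∀ v, Subgroup (G v), (∀ v, (K' v).Normal ∧ (K' v).FiniteIndex ∧ K' v ≤ K v) →
      ∃ N : ∀ v, Subgroup (G v), (∀ v, (N v).Normal ∧ (N v).FiniteIndex ∧ N v ≤ K' v) ∧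
        ∀ e ∈ J, ∃ s, Ex (N (o e)) (x e) s ∧ Ex (N (t e)) (y e) s := by
  classical
  obtain ⟨ht, q, hq⟩ := h
  induction J using Finset.strongInduction with
  | H J ih =>
    intro K' hK'
    rcases J.eq_empty_or_nonempty with rfl | hne
    · exact ⟨K', fun v => ⟨(hK' v).1, (hK' v).2.1, le_rfl⟩, fun e he => absurd he (Finset.notMem_empty e)⟩
    obtain ⟨e0, he0, hmax⟩ := J.exists_max_image (fun e => q (t e)) hne
    obtain ⟨su, hsu⟩ := exists_ex (K' (t e0)) (hK' _).1 (hK' _).2.1 (y e0)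
    obtain ⟨sp, hsp⟩ := exists_ex (K' (o e0)) (hK' _).1 (hK' _).2.1 (x e0)
    obtain ⟨P, hP1, hP2, hP3, hP4⟩ := qpE (hG _) (hK' _).1 (hK' _).2.1 (hK' _).2.2 (hx e0) hsp hsu.1
    let K2 : ∀ v, Subgroup (G v) := Function.update K' (o e0) P
    have hK2 : ∀ v, (K2 v).Normal ∧ (K2 v).FiniteIndex ∧ K2 v ≤ K' v := by
      intro v
      by_cases hv : v = o e0
      · subst hv
        rw [show K2 (o e0) = P from Function.update_self _ _ _]
        exact ⟨hP1, hP2, hP3⟩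
      · rw [show K2 v = K' v from Function.update_of_ne hv _ _]
        exact ⟨(hK' v).1, (hK' v).2.1, le_rfl⟩
    obtain ⟨N1, hN1, hN1e⟩ := ih (J.erase e0) (Finset.erase_ssubset he0) K2 fun v =>
      ⟨(hK2 v).1, (hK2 v).2.1, (hK2 v).2.2.trans (hK' v).2.2⟩
    obtain ⟨s, hs⟩ := exists_ex (N1 (o e0)) (hN1 _).1 (hN1 _).2.1 (x e0)
    have hsd : (((sp * su : ℕ)) : ℤ) ∣ (s : ℤ) := by
      refine (hP4.2 s).1 ?_
      have h1 := (hN1 (o e0)).2.2 ((hs.2 s).2 dvd_rfl)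
      rwa [show K2 (o e0) = P from Function.update_self _ _ _] at h1
    obtain ⟨i, hi⟩ : sp * su ∣ s := Int.natCast_dvd_natCast.1 hsd
    have hi1 : 1 ≤ sp * i := by
      have h1 : s ≠ 0 := by
        have := hs.1
        omega
      rcases Nat.eq_zero_or_pos (sp * i) with h2 | h2
      · exfalso
        apply h1
        rw [hi, mul_right_comm, h2, zero_mul]
      · exact h2
    obtain ⟨Q, hQ1, hQ2, hQ3, hQ4⟩ := qpE (hG _) (hK' _).1 (hK' _).2.1 (hK' _).2.2 (hy e0) hsu hi1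
    have hsQ : su * (sp * i) = s := by
      rw [hi]
      ring
    rw [hsQ] at hQ4
    have hne0 : o e0 ≠ t e0 := by
      intro h1
      have h2 := hq e0
      rw [← h1] at h2
      omega
    refine ⟨Function.update N1 (t e0) Q, fun v => ?_, fun e he => ?_⟩
    · by_cases hv : v = t e0
      · subst hv
        rw [Function.update_self]
        exact ⟨hQ1, hQ2, hQ3⟩
      · rw [Function.update_of_ne hv]
        exact ⟨(hN1 v).1, (hN1 v).2.1, (hN1 v).2.2.trans (hK2 v).2.2⟩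
    · by_cases hee : e = e0
      · subst hee
        refine ⟨s, ?_, ?_⟩
        · rw [Function.update_of_ne hne0]
          exact hs
        · rw [Function.update_self]
          exact hQ4
      · have h1 : t e ≠ t e0 := fun h1 => hee (ht h1)
        have h2 : o e ≠ t e0 := by
          intro h2
          have h3 := hq e
          have h4 := hmax e he
          rw [h2] at h3
          omega
        rw [Function.update_of_ne h1, Function.update_of_ne h2]
        exact hN1e e (Finset.mem_erase.2 ⟨hee, he⟩)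

/-- **forests of finitely generated virtually residually torsion-free nilpotent groups** -/
theorem forest_W (h : Forest o t) (hG : ∀ v, Group.FG (G v)) (K : ∀ v, Subgroup (G v))
    (hK : ∀ v, (K v).Normal) (hf : ∀ v, (K v).FiniteIndex)
    (x : ∀ e, G (o e)) (y : ∀ e, G (t e)) (hx : ∀ e, PwFin (K (o e)) (x e))
    (hy : ∀ e, PwFin (K (t e)) (y e)) :
    BalancedV o t (fun e => zpowersHom (G (o e)) (x e)) (fun e => zpowersHom (G (t e)) (y e)) := by
  intro J
  obtain ⟨N, hN, hNe⟩ := forest_N h hG K x y hx hy J K fun v => ⟨hK v, hf v, le_rfl⟩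
  refine forest_J h J N (fun v => (hN v).1) (fun v => (hN v).2.1) fun e he => ?_
  obtain ⟨s, hs1, hs2⟩ := hNe e he
  have key : ∀ (H : Type) [Group H] (N : Subgroup H) (z : H), Ex N z s →
      N.comap (zpowersHom H z) = Subgroup.zpowers (Multiplicative.ofAdd (s : ℤ)) := by
    intro H _ N z hz
    ext n
    rw [Subgroup.mem_comap, zpowersHom_apply, hz.2, Subgroup.mem_zpowers_iff]
    constructor
    · rintro ⟨i, hi⟩
      refine ⟨i, ?_⟩
      rw [← ofAdd_zsmul, smul_eq_mul, mul_comm, ← hi]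
      rfl
    · rintro ⟨i, rfl⟩
      rw [← ofAdd_zsmul, toAdd_ofAdd, smul_eq_mul]
      exact dvd_mul_left _ _
  have hs0 : (s : ℤ) ≠ 0 := by
    have := hs1.1
    omega
  refine ⟨Multiplicative.ofAdd (s : ℤ), key _ _ _ hs1, key _ _ _ hs2, fun y' z' hy' hz' => ?_⟩
  rw [zpowersHom_apply, toAdd_ofAdd] at hy' hz'
  have h1 : (y' : G (o e)) ∈ K (o e) := (hN _).2.2 y'.2
  have h2 : (z' : G (t e)) ∈ K (t e) := (hN _).2.2 z'.2
  exact ⟨(hx e s ⟨_, h1⟩ hs0 hy').le (hN _).2.2 rfl, (hy e s ⟨_, h2⟩ hs0 hz').le (hN _).2.2 rfl⟩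

end forest

end Pool.Agent.R669.Wt
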